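import Pool.Agent.Helper32.TP.Move3

/-! *-isomorphisms between normal forms. -/

set_option autoImplicit false
set_option linter.unusedSectionVars false

universe k a b a' b'

namespace Pool.Agent.Helper32.TP

open Pool.Agent.Helper32.LV

section aux2

variable {V : Type a} {E : Type b} {K : Type k} [Field K] {G : Gr V E}

theorem move2_ved {v : V} {e : E} (h : v ≠ G.s e) : vx K G v * ed K G e = 0 := by
  rw [← vx_ed e, ← mul_assoc, vx_vx_of_ne h, zero_mul]

theorem move2_edv {v : V} {e : E} (h : G.r e ≠ v) : ed K G e * vx K G v = 0 := by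
  rw [← ed_vx e, mul_assoc, vx_vx_of_ne h, mul_zero]

theorem move2_ee {e f : E} (h : G.r e ≠ G.s f) : ed K G e * ed K G f = 0 := by
  rw [← ed_vx e, mul_assoc, move2_ved h, mul_zero]

/-- the data of the move -/
structure Mv2 (G : Gr V E) (T : Type) where
  vt : T → V
  et : T → E
  t0 : T
  f0 : E
  vt_inj : Function.Injective vt
  et_inj : Function.Injective et
  s_et : ∀ t, G.s (et t) = vt t
  r_et : ∀ t, G.r (et t) = vt t0
  into : ∀ e t, G.r e = vt t → t = t0 ∧ ∃ t', et t' = e
  s_f0 : G.s f0 = vt t0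
  r_f0 : ∀ t, G.r f0 ≠ vt t
  only : ∀ t, t ≠ t0 → ∀ e, G.s e = vt t → e = et t

variable {T : Type} [DecidableEq E] [DecidableEq V] [DecidableEq T]

/-- the new graph -/
def Mv2.gr (M : Mv2 G T) : Gr (V ⊕ T) (E ⊕ T) where
  s x := match x with
    | .inl e => if e = M.f0 then .inr M.t0 else .inl (G.s e)
    | .inr t => if t = M.t0 then .inl (M.vt M.t0) else .inr t
  r x := match x with
    | .inl e => .inl (G.r e)
    | .inr _ => .inl (G.r M.f0)

variable (M : Mv2 G T)

theorem Mv2.s_f : M.gr.s (.inl M.f0) = .inr M.t0 := if_pos rfl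
theorem Mv2.s_e {e : E} (h : e ≠ M.f0) : M.gr.s (.inl e) = .inl (G.s e) := if_neg h
theorem Mv2.s_0 : M.gr.s (.inr M.t0) = .inl (M.vt M.t0) := if_pos rfl
theorem Mv2.s_t {t : T} (h : t ≠ M.t0) : M.gr.s (.inr t) = .inr t := if_neg h
theorem Mv2.r_l (e : E) : M.gr.r (.inl e) = .inl (G.r e) := rfl
theorem Mv2.r_r (t : T) : M.gr.r (.inr t) = .inl (G.r M.f0) := rfl

/-- the projection of vertices -/
def Mv2.pr (M : Mv2 G T) : V ⊕ T → V
  | .inl v => v
  | .inr t => M.vt t

theorem Mv2.pr_s_l (e : E) : M.pr (M.gr.s (.inl e)) = G.s e := by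
  by_cases h : e = M.f0
  · subst h; rw [M.s_f, M.s_f0]; rfl
  · rw [M.s_e h]; rfl

theorem Mv2.pr_s_r (t : T) : M.pr (M.gr.s (.inr t)) = M.vt t := by
  by_cases h : t = M.t0
  · subst h; rw [M.s_0]; rfl
  · rw [M.s_t h]; rfl

variable [Fintype T] (K)

/-- image of a vertex -/
noncomputable def Mv2.q (M : Mv2 G T) (v : V) : U K M.gr :=
  vx K M.gr (.inl v) + ∑ t, if M.vt t = v then vx K M.gr (.inr t) else 0

/-- the new part of an edge -/
noncomputable def Mv2.la (M : Mv2 G T) (e : E) : U K M.gr :=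
  ∑ t, if M.et t = e then ed K M.gr (.inr t) else 0

/-- image of an edge -/
noncomputable def Mv2.u (M : Mv2 G T) (e : E) : U K M.gr :=
  ed K M.gr (.inl e) + M.la K e * gh K M.gr (.inl M.f0)

variable {K}

theorem Mv2.vx_q (x : V ⊕ T) (v : V) :
    vx K M.gr x * M.q K v = if M.pr x = v then vx K M.gr x else 0 := by
  unfold Mv2.q
  rw [mul_add, Finset.mul_sum]
  cases x with
  | inl w =>
    have h1 : ∑ t, vx K M.gr (.inl w) * (if M.vt t = v then vx K M.gr (.inr t) else 0) = 0 := by
      refine Finset.sum_eq_zero fun t _ => ?_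
      split_ifs
      · exact vx_vx_of_ne (by simp)
      · rw [mul_zero]
    rw [h1, add_zero]
    change _ = if w = v then _ else _
    split_ifs with h
    · rw [h, vx_vx]
    · exact vx_vx_of_ne (by simpa using h)
  | inr t' =>
    rw [vx_vx_of_ne (by simp), zero_add, Finset.sum_eq_single t']
    · change _ = if M.vt t' = v then _ else _
      split_ifs
      · rw [vx_vx]
      · rw [mul_zero]
    · intro t _ ht
      split_ifs
      · exact vx_vx_of_ne (by simpa using Ne.symm ht)
      · rw [mul_zero]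
    · intro h; exact absurd (Finset.mem_univ _) h

theorem Mv2.q_vx (x : V ⊕ T) (v : V) :
    M.q K v * vx K M.gr x = if M.pr x = v then vx K M.gr x else 0 := by
  unfold Mv2.q
  rw [add_mul, Finset.sum_mul]
  cases x with
  | inl w =>
    have h1 : ∑ t, (if M.vt t = v then vx K M.gr (.inr t) else 0) * vx K M.gr (.inl w) = 0 := by
      refine Finset.sum_eq_zero fun t _ => ?_
      split_ifs
      · exact vx_vx_of_ne (by simp)
      · rw [zero_mul]
    rw [h1, add_zero]
    change _ = if w = v then _ else _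
    split_ifs with h
    · rw [h, vx_vx]
    · exact vx_vx_of_ne (by simpa using Ne.symm h)
  | inr t' =>
    rw [vx_vx_of_ne (by simp), zero_add, Finset.sum_eq_single t']
    · change _ = if M.vt t' = v then _ else _
      split_ifs
      · rw [vx_vx]
      · rw [zero_mul]
    · intro t _ ht
      split_ifs
      · exact vx_vx_of_ne (by simpa using ht)
      · rw [zero_mul]
    · intro h; exact absurd (Finset.mem_univ _) h

theorem Mv2.q_q (v w : V) : M.q K v * M.q K w = if v = w then M.q K v else 0 := by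
  conv_lhs => rw [Mv2.q]
  rw [add_mul, Finset.sum_mul, M.vx_q]
  have h1 : ∀ t, (if M.vt t = v then vx K M.gr (.inr t) else 0) * M.q K w =
      if v = w then (if M.vt t = v then vx K M.gr (.inr t) else 0) else 0 := by
    intro t
    by_cases h : M.vt t = v
    · rw [if_pos h, M.vx_q]
      change (if M.vt t = w then _ else _) = _
      rw [h]
    · rw [if_neg h, zero_mul]
      split_ifs <;> rfl
  rw [Finset.sum_congr rfl fun t _ => h1 t]
  change (if v = w then _ else _) + _ = _
  split_ifs with h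
  · rfl
  · simp

theorem Mv2.q_ed (v : V) (x : E ⊕ T) :
    M.q K v * ed K M.gr x = if M.pr (M.gr.s x) = v then ed K M.gr x else 0 := by
  rw [← vx_ed x, ← mul_assoc, M.q_vx]
  split_ifs
  · rfl
  · rw [zero_mul]

theorem Mv2.ed_q (v : V) (x : E ⊕ T) :
    ed K M.gr x * M.q K v = if M.pr (M.gr.r x) = v then ed K M.gr x else 0 := by
  rw [← ed_vx x, mul_assoc, M.vx_q]
  split_ifs
  · rfl
  · rw [mul_zero]

theorem Mv2.la_et (t : T) : M.la K (M.et t) = ed K M.gr (.inr t) := by
  unfold Mv2.la
  rw [Finset.sum_eq_single t]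
  · rw [if_pos rfl]
  · intro t' _ h
    rw [if_neg fun h' => h (M.et_inj h')]
  · intro h; exact absurd (Finset.mem_univ _) h

theorem Mv2.la_ne {e : E} (h : ∀ t, M.et t ≠ e) : M.la K e = 0 := by
  unfold Mv2.la
  refine Finset.sum_eq_zero fun t _ => ?_
  rw [if_neg (h t)]

variable [StarRing K]

theorem Mv2.q_star (v : V) : star (M.q K v) = M.q K v := by
  unfold Mv2.q
  rw [star_add, star_vx, star_sum]
  congr 1
  refine Finset.sum_congr rfl fun t _ => ?_
  split_ifs
  · rw [star_vx]
  · rw [star_zero]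

theorem Mv2.star_u (e : E) : star (M.u K e) =
    gh K M.gr (.inl e) + ed K M.gr (.inl M.f0) * star (M.la K e) := by
  unfold Mv2.u
  rw [star_add, star_ed, star_mul, star_gh]

theorem Mv2.q_u (e : E) : M.q K (G.s e) * M.u K e = M.u K e := by
  unfold Mv2.u
  rw [mul_add, M.q_ed, if_pos (M.pr_s_l e), ← mul_assoc]
  by_cases h : ∃ t, M.et t = e
  · obtain ⟨t, rfl⟩ := h
    rw [M.la_et, M.q_ed, if_pos]
    rw [M.pr_s_r, M.s_et]
  · rw [M.la_ne fun t ht => h ⟨t, ht⟩]; simp

theorem Mv2.gh_q (v : V) (x : E ⊕ T) :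
    gh K M.gr x * M.q K v = if M.pr (M.gr.s x) = v then gh K M.gr x else 0 := by
  have h := congrArg star (M.q_ed (K := K) v x)
  rw [star_mul, M.q_star, star_ed] at h
  rw [h]
  split_ifs
  · rw [star_ed]
  · rw [star_zero]

theorem Mv2.u_q (e : E) : M.u K e * M.q K (G.r e) = M.u K e := by
  unfold Mv2.u
  rw [add_mul, M.ed_q]
  rw [if_pos (show M.pr (M.gr.r (.inl e)) = G.r e from rfl), mul_assoc]
  by_cases h : ∃ t, M.et t = e
  · obtain ⟨t, rfl⟩ := h
    rw [M.gh_q, if_pos]
    rw [M.pr_s_l, M.s_f0, M.r_et]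
  · rw [M.la_ne fun t ht => h ⟨t, ht⟩]; simp

/-- the vertex `inr t0` -/
theorem Mv2.f_f [Fintype E] : ed K M.gr (.inl M.f0) * gh K M.gr (.inl M.f0) =
    vx K M.gr (.inr M.t0) := by
  have h1 : {x | M.gr.s x = .inr M.t0} = {.inl M.f0} := by
    ext x
    rw [Set.mem_ofPred_eq, Set.mem_singleton_iff]
    constructor
    · intro h
      cases x with
      | inl e =>
        by_cases he : e = M.f0
        · rw [he]
        · rw [M.s_e he] at h; exact absurd h (by simp)
      | inr t =>
        by_cases ht : t = M.t0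
        · rw [ht, M.s_0] at h; exact absurd h (by simp)
        · rw [M.s_t ht] at h; exact absurd (Sum.inr_injective h) ht
    · rintro rfl; exact M.s_f
  have h2 : {x | M.gr.s x = .inr M.t0}.Finite := Set.toFinite _
  rw [vx_eq_sum _ h2 ⟨.inl M.f0, M.s_f⟩]
  have h3 : h2.toFinset = {.inl M.f0} := by
    ext x
    rw [Set.Finite.mem_toFinset, h1]; simp
  rw [h3, Finset.sum_singleton]

theorem Mv2.t_t [Fintype E] {t : T} (ht : t ≠ M.t0) :
    ed K M.gr (.inr t) * gh K M.gr (.inr t) = vx K M.gr (.inr t) := by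
  have h1 : {x | M.gr.s x = .inr t} = {.inr t} := by
    ext x
    rw [Set.mem_ofPred_eq, Set.mem_singleton_iff]
    constructor
    · intro h
      cases x with
      | inl e =>
        by_cases he : e = M.f0
        · rw [he, M.s_f] at h; exact absurd (Sum.inr_injective h).symm ht
        · rw [M.s_e he] at h; exact absurd h (by simp)
      | inr t' =>
        by_cases ht' : t' = M.t0
        · rw [ht', M.s_0] at h; exact absurd h (by simp)
        · rw [M.s_t ht'] at h; rw [Sum.inr_injective h]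
    · rintro rfl; exact M.s_t ht
  have h2 : {x | M.gr.s x = .inr t}.Finite := Set.toFinite _
  rw [vx_eq_sum _ h2 ⟨.inr t, M.s_t ht⟩]
  have h3 : h2.toFinset = {.inr t} := by
    ext x
    rw [Set.Finite.mem_toFinset, h1]; simp
  rw [h3, Finset.sum_singleton]

theorem Mv2.ed_f (e : E) : ed K M.gr (.inl e) * ed K M.gr (.inl M.f0) = 0 := by
  refine move2_ee ?_
  rw [M.s_f, M.r_l]
  simp

theorem Mv2.f_star_la (e : E) : ed K M.gr (.inl M.f0) * star (M.la K e) = 
    ed K M.gr (.inl M.f0) * star (M.la K e) := rfl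

/-- `la` is orthogonal to the old edges -/
theorem Mv2.gh_la (e e' : E) : gh K M.gr (.inl e) * M.la K e' = 0 := by
  unfold Mv2.la
  rw [Finset.mul_sum]
  refine Finset.sum_eq_zero fun t _ => ?_
  split_ifs
  · exact gh_ed_of_ne (by simp)
  · rw [mul_zero]

theorem Mv2.la_ed (e e' : E) : star (M.la K e') * ed K M.gr (.inl e) = 0 := by
  have h := congrArg star (M.gh_la (K := K) e e')
  rwa [star_mul, star_gh, star_zero] at h

theorem Mv2.u_u (e e' : E) : star (M.u K e) * M.u K e' =
    gh K M.gr (.inl e) * ed K M.gr (.inl e') +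
      ed K M.gr (.inl M.f0) * (star (M.la K e) * M.la K e') * gh K M.gr (.inl M.f0) := by
  rw [M.star_u, Mv2.u]
  have h1 : gh K M.gr (.inl e) * (M.la K e' * gh K M.gr (.inl M.f0)) = 0 := by
    rw [← mul_assoc, M.gh_la, zero_mul]
  have h2 : ed K M.gr (.inl M.f0) * star (M.la K e) * ed K M.gr (.inl e') = 0 := by
    rw [mul_assoc, M.la_ed, mul_zero]
  rw [add_mul, mul_add, mul_add, h1, h2, add_zero, zero_add]
  simp only [mul_assoc]

theorem Mv2.u_u' (e : E) : M.u K e * star (M.u K e) =
    ed K M.gr (.inl e) * gh K M.gr (.inl e) + M.la K e * star (M.la K e) := by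
  rw [M.star_u, Mv2.u]
  have h1 : ed K M.gr (.inl e) * (ed K M.gr (.inl M.f0) * star (M.la K e)) = 0 := by
    rw [← mul_assoc, M.ed_f, zero_mul]
  have h2 : M.la K e * gh K M.gr (.inl M.f0) * gh K M.gr (.inl e) = 0 := by
    have h := congrArg star (M.ed_f (K := K) e)
    rw [star_mul, star_ed, star_ed, star_zero] at h
    rw [mul_assoc, h, mul_zero]
  have h3 : M.la K e * gh K M.gr (.inl M.f0) * (ed K M.gr (.inl M.f0) * star (M.la K e)) =
      M.la K e * star (M.la K e) := by
    have h4 : M.la K e * gh K M.gr (.inl M.f0) * (ed K M.gr (.inl M.f0) * star (M.la K e)) =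
      M.la K e * (gh K M.gr (.inl M.f0) * ed K M.gr (.inl M.f0)) * star (M.la K e) := by
      simp only [mul_assoc]
    rw [h4, gh_ed]
    congr 1
    by_cases h : ∃ t, M.et t = e
    · obtain ⟨t, rfl⟩ := h
      rw [M.la_et, M.r_l, ← M.r_r t, ed_vx]
    · rw [M.la_ne fun t ht => h ⟨t, ht⟩, zero_mul]
  rw [add_mul, mul_add, mul_add, h1, h2, h3, add_zero, zero_add]

variable [Fintype E]

theorem Mv2.q_r (e : E) : M.q K (G.r e) = vx K M.gr (.inl (G.r e)) +
    (if ∃ t, M.et t = e then vx K M.gr (.inr M.t0) else 0) := by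
  unfold Mv2.q
  congr 1
  split_ifs with h
  · obtain ⟨t, rfl⟩ := h
    rw [M.r_et, Finset.sum_eq_single M.t0]
    · rw [if_pos rfl]
    · intro t' _ h
      rw [if_neg fun h' => h (M.vt_inj h')]
    · intro h; exact absurd (Finset.mem_univ _) h
  · refine Finset.sum_eq_zero fun t _ => ?_
    rw [if_neg]
    intro ht
    exact h (M.into e t ht.symm).2

theorem Mv2.ex_s (x : V ⊕ T) (h0 : ∃ e, G.s e = M.pr x) : ∃ y, M.gr.s y = x := by
  cases x with
  | inl v =>
    obtain ⟨e, he⟩ := h0
    change G.s e = v at he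
    by_cases h : v = M.vt M.t0
    · subst h
      exact ⟨.inr M.t0, M.s_0⟩
    · refine ⟨.inl e, ?_⟩
      rw [M.s_e, he]
      rintro rfl
      exact h (he.symm.trans M.s_f0)
  | inr t =>
    by_cases h : t = M.t0
    · subst h
      exact ⟨.inl M.f0, M.s_f⟩
    · exact ⟨.inr t, M.s_t h⟩

theorem Mv2.vx_sum (x : V ⊕ T) (h0 : ∃ e, G.s e = M.pr x) :
    vx K M.gr x = ∑ y, if M.gr.s y = x then ed K M.gr y * gh K M.gr y else 0 := by
  have h2 : {y | M.gr.s y = x}.Finite := Set.toFinite _
  rw [vx_eq_sum _ h2 (M.ex_s x h0), ← Finset.sum_filter]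
  refine Finset.sum_congr ?_ fun _ _ => rfl
  ext y
  simp

theorem Mv2.la_la (e : E) : M.la K e * star (M.la K e) =
    ∑ t, if M.et t = e then ed K M.gr (.inr t) * gh K M.gr (.inr t) else 0 := by
  by_cases h : ∃ t, M.et t = e
  · obtain ⟨t, rfl⟩ := h
    rw [M.la_et, star_ed, Finset.sum_eq_single t]
    · rw [if_pos rfl]
    · intro t' _ h
      rw [if_neg fun h' => h (M.et_inj h')]
    · intro h; exact absurd (Finset.mem_univ _) h
  · rw [M.la_ne fun t ht => h ⟨t, ht⟩, zero_mul]
    symm
    refine Finset.sum_eq_zero fun t _ => ?_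
    rw [if_neg fun ht => h ⟨t, ht⟩]

theorem Mv2.ck (v : V) (h0 : ∃ e, G.s e = v) :
    M.q K v = ∑ e, if G.s e = v then M.u K e * star (M.u K e) else 0 := by
  have h1 : M.q K v = ∑ y, if M.pr (M.gr.s y) = v then ed K M.gr y * gh K M.gr y else 0 := by
    unfold Mv2.q
    rw [M.vx_sum (.inl v) h0]
    have h2 : ∀ t, (if M.vt t = v then vx K M.gr (.inr t) else 0) =
        ∑ y, if M.gr.s y = .inr t ∧ M.vt t = v then ed K M.gr y * gh K M.gr y else 0 := by
      intro t
      by_cases h : M.vt t = v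
      · rw [if_pos h, M.vx_sum (.inr t)]
        · refine Finset.sum_congr rfl fun y _ => ?_
          simp [h]
        · change ∃ e, G.s e = M.vt t
          rw [h]
          exact h0
      · rw [if_neg h]
        symm
        refine Finset.sum_eq_zero fun y _ => ?_
        rw [if_neg fun h' => h h'.2]
    rw [Finset.sum_congr rfl fun t _ => h2 t, Finset.sum_comm, ← Finset.sum_add_distrib]
    refine Finset.sum_congr rfl fun y _ => ?_
    rcases hy : M.gr.s y with w | t'
    · have h3 : ∑ t, (if (.inl w : V ⊕ T) = .inr t ∧ M.vt t = v then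
          ed K M.gr y * gh K M.gr y else 0) = 0 := by
        refine Finset.sum_eq_zero fun t _ => ?_
        rw [if_neg (by simp)]
      rw [h3, add_zero]
      change (if (Sum.inl w : V ⊕ T) = Sum.inl v then _ else _) = (if w = v then _ else _)
      simp only [Sum.inl.injEq]
    · rw [if_neg (by simp), zero_add, Finset.sum_eq_single t']
      · change _ = (if M.vt t' = v then _ else _)
        simp only [true_and]
      · intro t _ ht
        rw [if_neg]
        rintro ⟨h4, -⟩
        exact ht (Sum.inr_injective h4).symm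
      · intro h; exact absurd (Finset.mem_univ _) h
  rw [h1, Fintype.sum_sum_type]
  have h5 : ∀ e, (if G.s e = v then M.u K e * star (M.u K e) else 0) =
      (if G.s e = v then ed K M.gr (.inl e) * gh K M.gr (.inl e) else 0) +
      ∑ t, if M.et t = e ∧ M.vt t = v then ed K M.gr (.inr t) * gh K M.gr (.inr t) else 0 := by
    intro e
    by_cases h : G.s e = v
    · rw [if_pos h, if_pos h, M.u_u', M.la_la]
      congr 1
      refine Finset.sum_congr rfl fun t _ => ?_
      by_cases ht : M.et t = e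
      · rw [if_pos ht, if_pos]
        refine ⟨ht, ?_⟩
        rw [← M.s_et, ht, h]
      · rw [if_neg ht, if_neg fun h' => ht h'.1]
    · rw [if_neg h, if_neg h, zero_add]
      symm
      refine Finset.sum_eq_zero fun t _ => ?_
      rw [if_neg]
      rintro ⟨h6, h7⟩
      rw [← M.s_et, h6] at h7
      exact h h7
  rw [Finset.sum_congr rfl fun e _ => h5 e, Finset.sum_add_distrib]
  congr 1
  · refine Finset.sum_congr rfl fun e _ => ?_
    rw [M.pr_s_l]
  · rw [Finset.sum_comm]
    refine Finset.sum_congr rfl fun t _ => ?_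
    rw [M.pr_s_r, Finset.sum_eq_single (M.et t)]
    · simp only [true_and]
    · intro e _ he
      rw [if_neg fun h => he h.1.symm]
    · intro h; exact absurd (Finset.mem_univ _) h

theorem Mv2.rep : IsRep K G (M.q K) (M.u K) (fun e => star (M.u K e)) where
  vv v := by rw [M.q_q, if_pos rfl]
  vw v w h := by rw [M.q_q, if_neg h]
  se := M.q_u
  er := M.u_q
  rg e := by
    rw [← M.q_star, ← star_mul, M.u_q]
  gs e := by
    rw [← M.q_star, ← star_mul, M.q_u]
  ge e := by
    rw [M.u_u, gh_ed, M.r_l, M.q_r]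
    congr 1
    split_ifs with h
    · obtain ⟨t, rfl⟩ := h
      rw [M.la_et, star_ed, gh_ed, M.r_r, ← M.r_l M.f0, ed_vx, M.f_f]
    · rw [M.la_ne fun t ht => h ⟨t, ht⟩]; simp
  gf e f hef := by
    rw [M.u_u, gh_ed_of_ne (by simpa using hef), zero_add]
    have h1 : star (M.la K e) * M.la K f = 0 := by
      by_cases h : ∃ t, M.et t = e
      · obtain ⟨t, rfl⟩ := h
        by_cases h' : ∃ t, M.et t = f
        · obtain ⟨t', rfl⟩ := h'
          rw [M.la_et, M.la_et, star_ed, gh_ed_of_ne]
          simp only [ne_eq, Sum.inr.injEq]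
          rintro rfl
          exact hef rfl
        · rw [M.la_ne (e := f) fun t ht => h' ⟨t, ht⟩, mul_zero]
      · rw [M.la_ne (e := e) fun t ht => h ⟨t, ht⟩]; simp
    rw [h1, mul_zero, zero_mul]
  ck v h h0 := by
    rw [M.ck v h0, ← Finset.sum_filter]
    refine Finset.sum_congr ?_ fun _ _ => rfl
    ext e
    simp


variable (K)

/-- `f0` transported to the source of the link -/
noncomputable def Mv2.F (M : Mv2 G T) (t : T) : U K G :=
  if t = M.t0 then ed K G M.f0 else ed K G (M.et t) * ed K G M.f0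

/-- the new part of the vertex `v` -/
noncomputable def Mv2.R (M : Mv2 G T) (v : V) : U K G :=
  ∑ t, if M.vt t = v then M.F K t * star (M.F K t) else 0

/-- image of a vertex -/
noncomputable def Mv2.q' (M : Mv2 G T) (x : V ⊕ T) : U K G :=
  match x with
  | .inl v => vx K G v - M.R K v
  | .inr t => M.F K t * star (M.F K t)

/-- image of an edge -/
noncomputable def Mv2.u' (M : Mv2 G T) (x : E ⊕ T) : U K G :=
  match x with
  | .inl e => ed K G e - ed K G e * (ed K G M.f0 * gh K G M.f0)
  | .inr t => ed K G (M.et t) * ed K G M.f0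

variable {K}

theorem Mv2.F_F (t : T) : star (M.F K t) * M.F K t = vx K G (G.r M.f0) := by
  unfold Mv2.F
  split_ifs
  · rw [star_ed, gh_ed]
  · rw [star_mul, star_ed, star_ed]
    have h : gh K G M.f0 * gh K G (M.et t) * (ed K G (M.et t) * ed K G M.f0) =
      gh K G M.f0 * (gh K G (M.et t) * ed K G (M.et t) * ed K G M.f0) := by
      simp only [mul_assoc]
    rw [h, gh_ed, M.r_et, ← M.s_f0, vx_ed, gh_ed]

theorem Mv2.vx_F (t : T) : vx K G (M.vt t) * M.F K t = M.F K t := by
  unfold Mv2.F
  split_ifs with h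
  · subst h
    rw [← M.s_f0, vx_ed]
  · rw [← mul_assoc, ← M.s_et, vx_ed]

theorem Mv2.F_star_vx (t : T) : star (M.F K t) * vx K G (M.vt t) = star (M.F K t) := by
  have h := congrArg star (M.vx_F (K := K) t)
  rwa [star_mul, star_vx] at h

theorem Mv2.F_w (t : T) : M.F K t * vx K G (G.r M.f0) = M.F K t := by
  unfold Mv2.F
  split_ifs with h
  · rw [ed_vx]
  · rw [mul_assoc, ed_vx]

theorem Mv2.FFF (t : T) : M.F K t * star (M.F K t) * M.F K t = M.F K t := by
  rw [mul_assoc, M.F_F, M.F_w]

theorem Mv2.FF_star (t : T) : star (M.F K t * star (M.F K t)) = M.F K t * star (M.F K t) := by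
  rw [star_mul, star_star]

theorem Mv2.FF_FF (t : T) : M.F K t * star (M.F K t) * (M.F K t * star (M.F K t)) =
    M.F K t * star (M.F K t) := by
  rw [← mul_assoc, M.FFF]

theorem Mv2.FF_vx (t : T) (v : V) : M.F K t * star (M.F K t) * vx K G v =
    if M.vt t = v then M.F K t * star (M.F K t) else 0 := by
  rw [mul_assoc, ← M.F_star_vx, mul_assoc]
  split_ifs with h
  · rw [h, vx_vx]
  · rw [vx_vx_of_ne h, mul_zero, mul_zero]

theorem Mv2.FF_FF' {t t' : T} (h : t ≠ t') :
    M.F K t * star (M.F K t) * (M.F K t' * star (M.F K t')) = 0 := by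
  rw [← M.vx_F t', ← mul_assoc, ← mul_assoc, M.FF_vx, if_neg fun h' => h (M.vt_inj h'), zero_mul,
    zero_mul]

theorem Mv2.R_vt (t : T) : M.R K (M.vt t) = M.F K t * star (M.F K t) := by
  unfold Mv2.R
  rw [Finset.sum_eq_single t]
  · rw [if_pos rfl]
  · intro t' _ h
    rw [if_neg fun h' => h (M.vt_inj h')]
  · intro h; exact absurd (Finset.mem_univ _) h

theorem Mv2.R_ne {v : V} (h : ∀ t, M.vt t ≠ v) : M.R K v = 0 := by
  unfold Mv2.R
  refine Finset.sum_eq_zero fun t _ => ?_
  rw [if_neg (h t)]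

theorem Mv2.R_star (v : V) : star (M.R K v) = M.R K v := by
  by_cases h : ∃ t, M.vt t = v
  · obtain ⟨t, rfl⟩ := h
    rw [M.R_vt, M.FF_star]
  · rw [M.R_ne fun t ht => h ⟨t, ht⟩, star_zero]

theorem Mv2.q'_star (x : V ⊕ T) : star (M.q' K x) = M.q' K x := by
  cases x with
  | inl v => change star (vx K G v - M.R K v) = vx K G v - M.R K v; rw [star_sub, star_vx, M.R_star]
  | inr t => exact M.FF_star t

theorem Mv2.R_vx (v w : V) : M.R K v * vx K G w = if v = w then M.R K v else 0 := by
  by_cases h : ∃ t, M.vt t = v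
  · obtain ⟨t, rfl⟩ := h
    rw [M.R_vt, M.FF_vx]
  · rw [M.R_ne fun t ht => h ⟨t, ht⟩, zero_mul]; simp

theorem Mv2.vx_R (v w : V) : vx K G w * M.R K v = if v = w then M.R K v else 0 := by
  have h := congrArg star (M.R_vx (K := K) v w)
  rw [star_mul, star_vx, M.R_star] at h
  rw [h]
  split_ifs
  · rw [M.R_star]
  · rw [star_zero]

theorem Mv2.R_R (v w : V) : M.R K v * M.R K w = if v = w then M.R K v else 0 := by
  by_cases h : ∃ t, M.vt t = v
  · obtain ⟨t, rfl⟩ := h
    by_cases h' : ∃ t, M.vt t = w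
    · obtain ⟨t', rfl⟩ := h'
      rw [M.R_vt, M.R_vt]
      by_cases ht : t = t'
      · subst ht
        rw [if_pos rfl, M.FF_FF]
      · rw [M.FF_FF' ht, if_neg fun h => ht (M.vt_inj h)]
    · rw [M.R_ne (v := w) fun t ht => h' ⟨t, ht⟩, mul_zero, if_neg]
      rintro rfl
      exact h' ⟨t, rfl⟩
  · rw [M.R_ne (v := v) fun t ht => h ⟨t, ht⟩, zero_mul]; simp

theorem Mv2.R_w : M.R K (G.r M.f0) = 0 := M.R_ne fun t ht => M.r_f0 t ht.symm

/-- the projections are orthogonal -/
theorem Mv2.q'_q' (x y : V ⊕ T) : M.q' K x * M.q' K y = if x = y then M.q' K x else 0 := by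
  cases x with
  | inl v =>
    cases y with
    | inl w =>
      change (vx K G v - M.R K v) * (vx K G w - M.R K w) = _
      rw [sub_mul, mul_sub, mul_sub, M.vx_R, M.R_vx, M.R_R]
      by_cases h : v = w
      · subst h
        rw [vx_vx]; simp [Mv2.q']
      · rw [vx_vx_of_ne h, if_neg h, if_neg (Ne.symm h)]; simp [h]
    | inr t =>
      change (vx K G v - M.R K v) * (M.F K t * star (M.F K t)) = _
      rw [if_neg (by simp), ← M.R_vt, sub_mul, M.vx_R, M.R_R]
      by_cases h : v = M.vt t
      · subst h; simp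
      · rw [if_neg h, if_neg (Ne.symm h), sub_zero]
  | inr t =>
    cases y with
    | inl w =>
      change (M.F K t * star (M.F K t)) * (vx K G w - M.R K w) = _
      rw [if_neg (by simp), ← M.R_vt, mul_sub, M.R_vx, M.R_R]
      simp
    | inr t' =>
      change (M.F K t * star (M.F K t)) * (M.F K t' * star (M.F K t')) = _
      by_cases h : t = t'
      · subst h; rw [M.FF_FF, if_pos rfl]; rfl
      · rw [M.FF_FF' h, if_neg (by simpa using h)]


theorem Mv2.a_a : ed K G M.f0 * ed K G M.f0 = 0 := move2_ee (by rw [M.s_f0]; exact M.r_f0 _)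

theorem Mv2.et_ne (t : T) : M.et t ≠ M.f0 := by
  intro h
  have h1 := M.r_et t
  rw [h] at h1
  exact M.r_f0 _ h1

theorem Mv2.e_a {e : E} (h : ∀ t, M.et t ≠ e) : ed K G e * ed K G M.f0 = 0 := by
  refine move2_ee ?_
  rw [M.s_f0]
  intro h1
  obtain ⟨-, t', ht'⟩ := M.into e _ h1
  exact h t' ht'

theorem Mv2.u'_f : M.u' K (.inl M.f0) = ed K G M.f0 := by
  change ed K G M.f0 - ed K G M.f0 * (ed K G M.f0 * gh K G M.f0) = _
  rw [← mul_assoc, M.a_a, zero_mul, sub_zero]

theorem Mv2.u'_ne {e : E} (h : ∀ t, M.et t ≠ e) : M.u' K (.inl e) = ed K G e := by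
  change ed K G e - ed K G e * (ed K G M.f0 * gh K G M.f0) = _
  rw [← mul_assoc, M.e_a h, zero_mul, sub_zero]

theorem Mv2.F_t0 : M.F K M.t0 = ed K G M.f0 := if_pos rfl
theorem Mv2.F_t {t : T} (h : t ≠ M.t0) : M.F K t = ed K G (M.et t) * ed K G M.f0 := if_neg h

theorem Mv2.vx_u' (e : E) : vx K G (G.s e) * M.u' K (.inl e) = M.u' K (.inl e) := by
  change vx K G (G.s e) * (ed K G e - ed K G e * (ed K G M.f0 * gh K G M.f0)) =
    ed K G e - ed K G e * (ed K G M.f0 * gh K G M.f0)
  rw [mul_sub, ← mul_assoc, vx_ed]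

theorem Mv2.Fs_u' {e : E} (h : e ≠ M.f0) (t : T) : star (M.F K t) * M.u' K (.inl e) = 0 := by
  change _ * (ed K G e - ed K G e * (ed K G M.f0 * gh K G M.f0)) = 0
  by_cases ht : t = M.t0
  · subst ht
    rw [M.F_t0, star_ed, mul_sub, ← mul_assoc, gh_ed_of_ne (Ne.symm h), zero_mul, sub_zero]
  · rw [M.F_t ht, star_mul, star_ed, star_ed]
    by_cases he : M.et t = e
    · subst he
      have h1 : gh K G M.f0 * gh K G (M.et t) * (ed K G (M.et t) -
          ed K G (M.et t) * (ed K G M.f0 * gh K G M.f0)) =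
          gh K G M.f0 * (gh K G (M.et t) * ed K G (M.et t)) - gh K G M.f0 *
          (gh K G (M.et t) * ed K G (M.et t)) * (ed K G M.f0 * gh K G M.f0) := by
        noncomm_ring
      rw [h1, gh_ed, M.r_et, ← M.s_f0, gh_vx, ← mul_assoc, gh_ed, vx_gh, sub_self]
    · have h1 : gh K G M.f0 * gh K G (M.et t) * (ed K G e -
          ed K G e * (ed K G M.f0 * gh K G M.f0)) =
          gh K G M.f0 * (gh K G (M.et t) * ed K G e) - gh K G M.f0 *
          (gh K G (M.et t) * ed K G e) * (ed K G M.f0 * gh K G M.f0) := by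
        noncomm_ring
      rw [h1, gh_ed_of_ne he, mul_zero, zero_mul, sub_zero]

theorem Mv2.R_u' {e : E} (h : e ≠ M.f0) (v : V) : M.R K v * M.u' K (.inl e) = 0 := by
  unfold Mv2.R
  rw [Finset.sum_mul]
  refine Finset.sum_eq_zero fun t _ => ?_
  split_ifs
  · rw [mul_assoc, M.Fs_u' h, mul_zero]
  · rw [zero_mul]

theorem Mv2.se' (x : E ⊕ T) : M.q' K (M.gr.s x) * M.u' K x = M.u' K x := by
  cases x with
  | inl e =>
    by_cases h : e = M.f0
    · subst h
      rw [M.s_f, M.u'_f]
      change M.F K M.t0 * star (M.F K M.t0) * _ = _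
      rw [← M.F_t0, M.FFF]
    · rw [M.s_e h]
      change (vx K G (G.s e) - M.R K (G.s e)) * _ = _
      rw [sub_mul, M.vx_u', M.R_u' h, sub_zero]
  | inr t =>
    by_cases h : t = M.t0
    · subst h
      rw [M.s_0]
      change (vx K G (M.vt M.t0) - M.R K (M.vt M.t0)) * (ed K G (M.et M.t0) * ed K G M.f0) =
        ed K G (M.et M.t0) * ed K G M.f0
      rw [M.R_vt, sub_mul, ← mul_assoc, ← M.s_et, vx_ed, M.F_t0, star_ed]
      have h1 : ed K G M.f0 * gh K G M.f0 * (ed K G (M.et M.t0) * ed K G M.f0) = 0 := by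
        rw [mul_assoc, ← mul_assoc (gh K G M.f0), gh_ed_of_ne (Ne.symm (M.et_ne _)), zero_mul,
          mul_zero]
      rw [h1, sub_zero]
    · rw [M.s_t h]
      change M.F K t * star (M.F K t) * (ed K G (M.et t) * ed K G M.f0) =
        ed K G (M.et t) * ed K G M.f0
      rw [← M.F_t h, M.FFF]

theorem Mv2.R_r (e : E) : M.R K (G.r e) =
    if ∃ t, M.et t = e then ed K G M.f0 * gh K G M.f0 else 0 := by
  split_ifs with h
  · obtain ⟨t, rfl⟩ := h
    rw [M.r_et, M.R_vt, M.F_t0, star_ed]
  · exact M.R_ne fun t ht => h (M.into e t ht.symm).2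

theorem Mv2.er' (x : E ⊕ T) : M.u' K x * M.q' K (M.gr.r x) = M.u' K x := by
  cases x with
  | inl e =>
    rw [M.r_l]
    change _ * (vx K G (G.r e) - M.R K (G.r e)) = _
    rw [M.R_r]
    by_cases h : ∃ t, M.et t = e
    · rw [if_pos h]
      obtain ⟨t, rfl⟩ := h
      change (ed K G (M.et t) - ed K G (M.et t) * (ed K G M.f0 * gh K G M.f0)) *
        (vx K G (G.r (M.et t)) - ed K G M.f0 * gh K G M.f0) =
        ed K G (M.et t) - ed K G (M.et t) * (ed K G M.f0 * gh K G M.f0)
      have h1 : gh K G M.f0 * vx K G (G.r (M.et t)) = gh K G M.f0 := by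
        rw [M.r_et, ← M.s_f0, gh_vx]
      have h2 : gh K G M.f0 * ed K G M.f0 * gh K G M.f0 = gh K G M.f0 := by
        rw [gh_ed, vx_gh]
      have h3 : (ed K G (M.et t) - ed K G (M.et t) * (ed K G M.f0 * gh K G M.f0)) *
          (vx K G (G.r (M.et t)) - ed K G M.f0 * gh K G M.f0) =
          ed K G (M.et t) * vx K G (G.r (M.et t)) - ed K G (M.et t) * ed K G M.f0 *
          (gh K G M.f0 * vx K G (G.r (M.et t))) - ed K G (M.et t) * (ed K G M.f0 * gh K G M.f0) +
          ed K G (M.et t) * ed K G M.f0 * (gh K G M.f0 * ed K G M.f0 * gh K G M.f0) := by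
        noncomm_ring
      rw [h3, h1, h2, ed_vx]
      noncomm_ring
    · rw [if_neg h, M.u'_ne fun t ht => h ⟨t, ht⟩, sub_zero, ed_vx]
  | inr t =>
    rw [M.r_r]
    change ed K G (M.et t) * ed K G M.f0 * (vx K G (G.r M.f0) - M.R K (G.r M.f0)) =
      ed K G (M.et t) * ed K G M.f0
    rw [M.R_w, sub_zero, mul_assoc, ed_vx]

theorem Mv2.ge' (x : E ⊕ T) : star (M.u' K x) * M.u' K x = M.q' K (M.gr.r x) := by
  cases x with
  | inl e =>
    rw [M.r_l]
    change _ = vx K G (G.r e) - M.R K (G.r e)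
    rw [M.R_r]
    by_cases h : ∃ t, M.et t = e
    · rw [if_pos h]
      obtain ⟨t, rfl⟩ := h
      change star (ed K G (M.et t) - ed K G (M.et t) * (ed K G M.f0 * gh K G M.f0)) *
        (ed K G (M.et t) - ed K G (M.et t) * (ed K G M.f0 * gh K G M.f0)) = _
      rw [star_sub, star_mul, star_mul, star_ed, star_ed, star_gh]
      have h3 : (gh K G (M.et t) - ed K G M.f0 * gh K G M.f0 * gh K G (M.et t)) *
          (ed K G (M.et t) - ed K G (M.et t) * (ed K G M.f0 * gh K G M.f0)) =
          gh K G (M.et t) * ed K G (M.et t) -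
          gh K G (M.et t) * ed K G (M.et t) * ed K G M.f0 * gh K G M.f0 -
          ed K G M.f0 * (gh K G M.f0 * (gh K G (M.et t) * ed K G (M.et t))) +
          ed K G M.f0 * (gh K G M.f0 * (gh K G (M.et t) * ed K G (M.et t))) * ed K G M.f0 *
          gh K G M.f0 := by
        noncomm_ring
      have h1 : vx K G (G.r (M.et t)) * ed K G M.f0 = ed K G M.f0 := by
        rw [M.r_et, ← M.s_f0, vx_ed]
      have h2 : gh K G M.f0 * vx K G (G.r (M.et t)) = gh K G M.f0 := by
        rw [M.r_et, ← M.s_f0, gh_vx]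
      have h4 : ed K G M.f0 * gh K G M.f0 * ed K G M.f0 * gh K G M.f0 =
          ed K G M.f0 * gh K G M.f0 := by
        rw [mul_assoc (ed K G M.f0), gh_ed, ed_vx]
      rw [h3, gh_ed, h1, h2, h4]
      noncomm_ring
    · rw [if_neg h, M.u'_ne fun t ht => h ⟨t, ht⟩, sub_zero, star_ed, gh_ed]
  | inr t =>
    rw [M.r_r]
    change star (ed K G (M.et t) * ed K G M.f0) * (ed K G (M.et t) * ed K G M.f0) =
      (vx K G (G.r M.f0) - M.R K (G.r M.f0))
    rw [M.R_w, sub_zero, star_mul, star_ed, star_ed]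
    have h : gh K G M.f0 * gh K G (M.et t) * (ed K G (M.et t) * ed K G M.f0) =
      gh K G M.f0 * (gh K G (M.et t) * ed K G (M.et t) * ed K G M.f0) := by
      simp only [mul_assoc]
    rw [h, gh_ed, M.r_et, ← M.s_f0, vx_ed, gh_ed]

theorem Mv2.lr' (e : E) (t : T) : star (M.u' K (.inl e)) * M.u' K (.inr t) = 0 := by
  change star (ed K G e - ed K G e * (ed K G M.f0 * gh K G M.f0)) *
    (ed K G (M.et t) * ed K G M.f0) = 0
  rw [star_sub, star_mul, star_mul, star_ed, star_ed, star_gh]
  have h1 : (gh K G e - ed K G M.f0 * gh K G M.f0 * gh K G e) *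
      (ed K G (M.et t) * ed K G M.f0) = gh K G e * ed K G (M.et t) * ed K G M.f0 -
      ed K G M.f0 * gh K G M.f0 * (gh K G e * ed K G (M.et t) * ed K G M.f0) := by
    noncomm_ring
  rw [h1]
  by_cases h : M.et t = e
  · subst h
    have h2 : vx K G (G.r (M.et t)) * ed K G M.f0 = ed K G M.f0 := by
      rw [M.r_et, ← M.s_f0, vx_ed]
    rw [gh_ed, h2, mul_assoc, gh_ed, ed_vx, sub_self]
  · rw [gh_ed_of_ne (Ne.symm h)]; simp

theorem Mv2.gf' (x y : E ⊕ T) (hxy : x ≠ y) : star (M.u' K x) * M.u' K y = 0 := by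
  cases x with
  | inl e =>
    cases y with
    | inl e' =>
      change star (ed K G e - ed K G e * (ed K G M.f0 * gh K G M.f0)) *
        (ed K G e' - ed K G e' * (ed K G M.f0 * gh K G M.f0)) = 0
      rw [star_sub, star_mul, star_mul, star_ed, star_ed, star_gh]
      have h3 : (gh K G e - ed K G M.f0 * gh K G M.f0 * gh K G e) *
          (ed K G e' - ed K G e' * (ed K G M.f0 * gh K G M.f0)) =
          gh K G e * ed K G e' -
          gh K G e * ed K G e' * ed K G M.f0 * gh K G M.f0 -
          ed K G M.f0 * (gh K G M.f0 * (gh K G e * ed K G e')) +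
          ed K G M.f0 * (gh K G M.f0 * (gh K G e * ed K G e')) * ed K G M.f0 *
          gh K G M.f0 := by
        noncomm_ring
      rw [h3, gh_ed_of_ne (by simpa using hxy)]
      simp
    | inr t => exact M.lr' e t
  | inr t =>
    cases y with
    | inl e =>
      have h := congrArg star (M.lr' (K := K) e t)
      rwa [star_mul, star_star, star_zero] at h
    | inr t' =>
      change star (ed K G (M.et t) * ed K G M.f0) * (ed K G (M.et t') * ed K G M.f0) = 0
      rw [star_mul, star_ed, star_ed]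
      have h : gh K G M.f0 * gh K G (M.et t) * (ed K G (M.et t') * ed K G M.f0) =
        gh K G M.f0 * (gh K G (M.et t) * ed K G (M.et t') * ed K G M.f0) := by
        simp only [mul_assoc]
      rw [h, gh_ed_of_ne, zero_mul, mul_zero]
      intro h'
      have := M.et_inj h'
      exact hxy (by rw [this])


/-- `et t` transported -/
theorem Mv2.uu'_l (e : E) : M.u' K (.inl e) * star (M.u' K (.inl e)) =
    ed K G e * gh K G e -
      ∑ t, if M.et t = e then M.u' K (.inr t) * star (M.u' K (.inr t)) else 0 := by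
  by_cases h : ∃ t, M.et t = e
  · obtain ⟨t, rfl⟩ := h
    rw [Finset.sum_eq_single t]
    · rw [if_pos rfl]
      change (ed K G (M.et t) - ed K G (M.et t) * (ed K G M.f0 * gh K G M.f0)) *
        star (ed K G (M.et t) - ed K G (M.et t) * (ed K G M.f0 * gh K G M.f0)) =
        ed K G (M.et t) * gh K G (M.et t) -
        (ed K G (M.et t) * ed K G M.f0) * star (ed K G (M.et t) * ed K G M.f0)
      rw [star_sub, star_mul, star_mul, star_mul, star_ed, star_ed, star_gh]
      have h1 : (ed K G (M.et t) - ed K G (M.et t) * (ed K G M.f0 * gh K G M.f0)) *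
          (gh K G (M.et t) - ed K G M.f0 * gh K G M.f0 * gh K G (M.et t)) =
          ed K G (M.et t) * gh K G (M.et t) -
          ed K G (M.et t) * ed K G M.f0 * gh K G M.f0 * gh K G (M.et t) -
          ed K G (M.et t) * ed K G M.f0 * gh K G M.f0 * gh K G (M.et t) +
          ed K G (M.et t) * ed K G M.f0 * (gh K G M.f0 * ed K G M.f0 * gh K G M.f0) *
          gh K G (M.et t) := by
        noncomm_ring
      have h2 : gh K G M.f0 * ed K G M.f0 * gh K G M.f0 = gh K G M.f0 := by
        rw [gh_ed, vx_gh]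
      rw [h1, h2]
      noncomm_ring
    · intro t' _ h
      rw [if_neg fun h' => h (M.et_inj h')]
    · intro h; exact absurd (Finset.mem_univ _) h
  · have h1 : ∑ t, (if M.et t = e then M.u' K (.inr t) * star (M.u' K (.inr t)) else 0) = 0 := by
      refine Finset.sum_eq_zero fun t _ => ?_
      rw [if_neg fun ht => h ⟨t, ht⟩]
    rw [h1, sub_zero, M.u'_ne fun t ht => h ⟨t, ht⟩, star_ed]

theorem Mv2.uu'_t {t : T} (h : t ≠ M.t0) :
    M.u' K (.inr t) * star (M.u' K (.inr t)) = M.F K t * star (M.F K t) := by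
  rw [M.F_t h]; rfl

theorem move2_vx_sum (v : V) (h0 : ∃ e, G.s e = v) :
    vx K G v = ∑ e, if G.s e = v then ed K G e * gh K G e else 0 := by
  have h2 : {y | G.s y = v}.Finite := Set.toFinite _
  rw [vx_eq_sum _ h2 h0, ← Finset.sum_filter]
  refine Finset.sum_congr ?_ fun _ _ => rfl
  ext y
  simp

theorem Mv2.ck' (x : V ⊕ T) (h0 : ∃ y, M.gr.s y = x) :
    M.q' K x = ∑ y, if M.gr.s y = x then M.u' K y * star (M.u' K y) else 0 := by
  rw [Fintype.sum_sum_type]
  cases x with
  | inl v =>
    have h1 : ∃ e, G.s e = v := by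
      obtain ⟨y, hy⟩ := h0
      cases y with
      | inl e =>
        by_cases he : e = M.f0
        · rw [he, M.s_f] at hy; exact absurd hy (by simp)
        · rw [M.s_e he] at hy; exact ⟨e, Sum.inl_injective hy⟩
      | inr t =>
        by_cases ht : t = M.t0
        · rw [ht, M.s_0] at hy; exact ⟨M.f0, M.s_f0.trans (Sum.inl_injective hy)⟩
        · rw [M.s_t ht] at hy; exact absurd hy (by simp)
    -- the sum over the old edges
    have h2 : ∀ e, (if M.gr.s (.inl e) = .inl v then M.u' K (.inl e) * star (M.u' K (.inl e))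
        else 0) = (if G.s e = v then ed K G e * gh K G e else 0) -
        (if e = M.f0 then (if M.vt M.t0 = v then ed K G M.f0 * gh K G M.f0 else 0) else 0) -
        ∑ t, if M.et t = e ∧ M.vt t = v then M.u' K (.inr t) * star (M.u' K (.inr t)) else 0 := by
      intro e
      by_cases he : e = M.f0
      · subst he
        rw [M.s_f, if_neg (by simp), if_pos rfl, M.s_f0, sub_self, zero_sub, eq_comm, neg_eq_zero]
        refine Finset.sum_eq_zero fun t _ => ?_
        rw [if_neg fun h => M.et_ne t h.1]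
      · rw [M.s_e he, if_neg he, sub_zero]
        by_cases hv : G.s e = v
        · rw [if_pos (by rw [hv]), if_pos hv, M.uu'_l]
          congr 1
          refine Finset.sum_congr rfl fun t _ => ?_
          by_cases ht : M.et t = e
          · rw [if_pos ht, if_pos]
            refine ⟨ht, ?_⟩
            rw [← M.s_et, ht, hv]
          · rw [if_neg ht, if_neg fun h' => ht h'.1]
        · rw [if_neg (by simpa using hv), if_neg hv, zero_sub, eq_comm, neg_eq_zero]
          refine Finset.sum_eq_zero fun t _ => ?_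
          rw [if_neg]
          rintro ⟨h6, h7⟩
          rw [← M.s_et, h6] at h7
          exact hv h7
    rw [Finset.sum_congr rfl fun e _ => h2 e, Finset.sum_sub_distrib, Finset.sum_sub_distrib,
      ← move2_vx_sum v h1]
    have h3 : ∑ e, (if e = M.f0 then (if M.vt M.t0 = v then ed K G M.f0 * gh K G M.f0 else 0)
        else 0) = if M.vt M.t0 = v then ed K G M.f0 * gh K G M.f0 else 0 := by
      rw [Finset.sum_ite_eq' Finset.univ M.f0]
      simp
    have h4 : ∑ e, (∑ t, if M.et t = e ∧ M.vt t = v then M.u' K (.inr t) *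
        star (M.u' K (.inr t)) else 0) =
        ∑ t, if M.vt t = v then M.u' K (.inr t) * star (M.u' K (.inr t)) else 0 := by
      rw [Finset.sum_comm]
      refine Finset.sum_congr rfl fun t _ => ?_
      rw [Finset.sum_eq_single (M.et t)]
      · simp only [true_and]
      · intro e _ he
        rw [if_neg fun h => he h.1.symm]
      · intro h; exact absurd (Finset.mem_univ _) h
    have h5 : ∑ t, (if M.gr.s (.inr t) = .inl v then M.u' K (.inr t) * star (M.u' K (.inr t))
        else 0) = if M.vt M.t0 = v then M.u' K (.inr M.t0) * star (M.u' K (.inr M.t0)) else 0 := by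
      rw [Finset.sum_eq_single M.t0]
      · rw [M.s_0]
        simp only [Sum.inl.injEq]
      · intro t _ ht
        rw [M.s_t ht, if_neg (by simp)]
      · intro h; exact absurd (Finset.mem_univ _) h
    have h6 : M.R K v = (∑ t, if M.vt t = v then M.u' K (.inr t) * star (M.u' K (.inr t)) else 0)
        - (if M.vt M.t0 = v then M.u' K (.inr M.t0) * star (M.u' K (.inr M.t0)) else 0) +
        (if M.vt M.t0 = v then ed K G M.f0 * gh K G M.f0 else 0) := by
      unfold Mv2.R
      rw [← Finset.add_sum_erase _ _ (Finset.mem_univ M.t0),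
        ← Finset.add_sum_erase _ (fun t => if M.vt t = v then M.u' K (.inr t) *
          star (M.u' K (.inr t)) else 0) (Finset.mem_univ M.t0), M.F_t0, star_ed]
      have h7 : ∑ t ∈ Finset.univ.erase M.t0, (if M.vt t = v then M.F K t * star (M.F K t) else 0)
          = ∑ t ∈ Finset.univ.erase M.t0,
            (if M.vt t = v then M.u' K (.inr t) * star (M.u' K (.inr t)) else 0) := by
        refine Finset.sum_congr rfl fun t ht => ?_
        rw [M.uu'_t (Finset.ne_of_mem_erase ht)]
      rw [h7]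
      abel
    rw [h3, h4, h5]
    change vx K G v - M.R K v = _
    rw [h6]
    abel
  | inr t =>
    change M.F K t * star (M.F K t) = _
    by_cases ht : t = M.t0
    · subst ht
      have h1 : ∑ t, (if M.gr.s (.inr t) = .inr M.t0 then M.u' K (.inr t) *
          star (M.u' K (.inr t)) else 0) = 0 := by
        refine Finset.sum_eq_zero fun t _ => ?_
        rw [if_neg]
        by_cases ht : t = M.t0
        · rw [ht, M.s_0]; simp
        · rw [M.s_t ht]; intro h; exact ht (Sum.inr_injective h)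
      rw [h1, add_zero, Finset.sum_eq_single M.f0]
      · rw [if_pos M.s_f, M.u'_f, M.F_t0]
      · intro e _ he
        rw [M.s_e he, if_neg (by simp)]
      · intro h; exact absurd (Finset.mem_univ _) h
    · have h1 : ∑ e, (if M.gr.s (.inl e) = .inr t then M.u' K (.inl e) *
          star (M.u' K (.inl e)) else 0) = 0 := by
        refine Finset.sum_eq_zero fun e _ => ?_
        rw [if_neg]
        by_cases he : e = M.f0
        · rw [he, M.s_f]; intro h; exact ht (Sum.inr_injective h).symm
        · rw [M.s_e he]; simp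
      rw [h1, zero_add, Finset.sum_eq_single t]
      · rw [if_pos (M.s_t ht), M.uu'_t ht]
      · intro t' _ ht'
        rw [if_neg]
        by_cases h : t' = M.t0
        · rw [h, M.s_0]; simp
        · rw [M.s_t h]; intro h; exact ht' (Sum.inr_injective h)
      · intro h; exact absurd (Finset.mem_univ _) h

theorem Mv2.rep' : IsRep K M.gr (M.q' K) (M.u' K) (fun e => star (M.u' K e)) where
  vv v := by rw [M.q'_q', if_pos rfl]
  vw v w h := by rw [M.q'_q', if_neg h]
  se := M.se'
  er := M.er'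
  rg e := by
    rw [← M.q'_star, ← star_mul, M.er']
  gs e := by
    rw [← M.q'_star, ← star_mul, M.se']
  ge := M.ge'
  gf := M.gf'
  ck v h h0 := by
    rw [M.ck' v h0, ← Finset.sum_filter]
    refine Finset.sum_congr ?_ fun _ _ => rfl
    ext e
    simp

theorem Mv2.q_mem (v : V) : M.q K v ∈ L K M.gr := by
  unfold Mv2.q
  refine (L K M.gr).add_mem (vx_mem _) ((L K M.gr).sum_mem fun t _ => ?_)
  split_ifs
  · exact vx_mem _
  · exact (L K M.gr).zero_mem

theorem Mv2.u_mem (e : E) : M.u K e ∈ L K M.gr := by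
  unfold Mv2.u Mv2.la
  refine (L K M.gr).add_mem (ed_mem _) ((L K M.gr).mul_mem ((L K M.gr).sum_mem fun t _ => ?_)
    (gh_mem _))
  split_ifs
  · exact ed_mem _
  · exact (L K M.gr).zero_mem

theorem Mv2.F_mem (t : T) : M.F K t ∈ L K G := by
  unfold Mv2.F
  split_ifs
  · exact ed_mem _
  · exact (L K G).mul_mem (ed_mem _) (ed_mem _)

theorem Mv2.q'_mem (x : V ⊕ T) : M.q' K x ∈ L K G := by
  cases x with
  | inl v =>
    change vx K G v - M.R K v ∈ _
    refine (L K G).sub_mem (vx_mem _) ?_
    unfold Mv2.R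
    refine (L K G).sum_mem fun t _ => ?_
    split_ifs
    · exact (L K G).mul_mem (M.F_mem t) (star_mem_L (M.F_mem t))
    · exact (L K G).zero_mem
  | inr t => exact (L K G).mul_mem (M.F_mem t) (star_mem_L (M.F_mem t))

theorem Mv2.u'_mem (x : E ⊕ T) : M.u' K x ∈ L K G := by
  cases x with
  | inl e =>
    exact (L K G).sub_mem (ed_mem _) ((L K G).mul_mem (ed_mem _)
      ((L K G).mul_mem (ed_mem _) (gh_mem _)))
  | inr t => exact (L K G).mul_mem (ed_mem _) (ed_mem _)

theorem Mv2.u_f : M.u K M.f0 = ed K M.gr (.inl M.f0) := by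
  unfold Mv2.u
  rw [M.la_ne M.et_ne, zero_mul, add_zero]

theorem Mv2.u_et_f (t : T) : M.u K (M.et t) * M.u K M.f0 = ed K M.gr (.inr t) := by
  rw [M.u_f, Mv2.u, M.la_et, add_mul, M.ed_f, zero_add, mul_assoc, gh_ed, M.r_l, ← M.r_r t, ed_vx]

theorem Mv2.lift_F (t : T) :
    lift M.rep (M.F K t * star (M.F K t)) = vx K M.gr (.inr t) := by
  rw [map_mul, lift_star M.rep M.q_star]
  by_cases h : t = M.t0
  · subst h
    rw [M.F_t0, lift_ed, M.u_f, star_ed, M.f_f]
  · rw [M.F_t h, map_mul, lift_ed, lift_ed, M.u_et_f, star_ed, M.t_t h]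

theorem Mv2.h1 (v : V) : lift M.rep' (M.q K v) = vx K G v := by
  unfold Mv2.q
  rw [map_add, lift_vx, map_sum]
  have h : ∀ t, lift M.rep' (if M.vt t = v then vx K M.gr (.inr t) else 0) =
      if M.vt t = v then M.F K t * star (M.F K t) else 0 := by
    intro t
    split_ifs
    · rw [lift_vx]; rfl
    · rw [map_zero]
  rw [Finset.sum_congr rfl fun t _ => h t]
  change vx K G v - M.R K v + M.R K v = _
  rw [sub_add_cancel]

theorem Mv2.h2 (e : E) : lift M.rep' (M.u K e) = ed K G e := by
  unfold Mv2.u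
  rw [map_add, lift_ed, map_mul, lift_gh]
  rw [M.u'_f, star_ed]
  by_cases h : ∃ t, M.et t = e
  · obtain ⟨t, rfl⟩ := h
    rw [M.la_et, lift_ed]
    change ed K G (M.et t) - ed K G (M.et t) * (ed K G M.f0 * gh K G M.f0) +
      ed K G (M.et t) * ed K G M.f0 * gh K G M.f0 = _
    rw [mul_assoc, sub_add_cancel]
  · rw [M.la_ne fun t ht => h ⟨t, ht⟩, M.u'_ne fun t ht => h ⟨t, ht⟩, map_zero, zero_mul, add_zero]

theorem Mv2.h1' (x : V ⊕ T) : lift M.rep (M.q' K x) = vx K M.gr x := by
  cases x with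
  | inl v =>
    change lift M.rep (vx K G v - M.R K v) = _
    unfold Mv2.R
    rw [map_sub, lift_vx, map_sum]
    have h : ∀ t, lift M.rep (if M.vt t = v then M.F K t * star (M.F K t) else 0) =
        if M.vt t = v then vx K M.gr (.inr t) else 0 := by
      intro t
      split_ifs
      · rw [M.lift_F]
      · rw [map_zero]
    rw [Finset.sum_congr rfl fun t _ => h t, Mv2.q, add_sub_cancel_right]
  | inr t => exact M.lift_F t

theorem Mv2.h2' (x : E ⊕ T) : lift M.rep (M.u' K x) = ed K M.gr x := by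
  cases x with
  | inl e =>
    change lift M.rep (ed K G e - ed K G e * (ed K G M.f0 * gh K G M.f0)) = _
    rw [map_sub, map_mul, ← star_ed M.f0, map_mul, lift_star M.rep M.q_star, lift_ed, lift_ed,
      M.u_f, star_ed, M.f_f, Mv2.u, add_mul, move2_edv (by rw [M.r_l]; simp), zero_add, mul_assoc,
      ← M.s_f, gh_vx, add_sub_cancel_right]
  | inr t =>
    change lift M.rep (ed K G (M.et t) * ed K G M.f0) = _
    rw [map_mul, lift_ed, lift_ed, M.u_et_f]

theorem Mv2.equiv : Nonempty (L K G ≃⋆ₐ[K] L K M.gr) :=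
  mkEquiv M.rep M.rep' M.q_mem M.u_mem M.q'_mem M.u'_mem M.h1 M.h2 M.h1' M.h2' M.q_star M.q'_star

end aux2

variable {C : Type a} {S : Type b} [Fintype C] [Fintype S] [DecidableEq C] [DecidableEq S]
  (K : Type k) [Field K] [StarRing K] (D : Dat C S)

/-- add `a i + 1` copies of the sink `j` -/
def Dat.col (D : Dat C S) (i : C) (j : S) : Dat C S where
  n := D.n
  a := D.a
  b j' := if j' = j then D.b j' + (D.a i + 1) else D.b j'

section aux3

variable {K D}

theorem move2_finE : Finite (NE D) := by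
  refine Finite.of_surjective (fun x : C ⊕ (Σ i : C, Σ j : S, Fin (D.n i j)) ⊕
    (Σ i : C, Fin (D.a i)) ⊕ (Σ j : S, Fin (D.b j)) => match x with
      | .inl i => NE.z i
      | .inr (.inl x) => NE.f x.1 x.2.1 x.2.2
      | .inr (.inr (.inl x)) => NE.g x.1 x.2
      | .inr (.inr (.inr x)) => NE.h x.1 x.2) ?_
  rintro (⟨i⟩ | ⟨i, j, k⟩ | ⟨i, s⟩ | ⟨j, r⟩)
  · exact ⟨.inl i, rfl⟩
  · exact ⟨.inr (.inl ⟨i, j, k⟩), rfl⟩
  · exact ⟨.inr (.inr (.inl ⟨i, s⟩)), rfl⟩
  · exact ⟨.inr (.inr (.inr ⟨j, r⟩)), rfl⟩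

/-- the data of the move for the normal form -/
def move2_M (D : Dat C S) (i : C) (j : S) (k0 : Fin (D.n i j)) :
    Mv2 (NG D) (Option (Fin (D.a i))) where
  vt t := .v i t
  et t := match t with
    | none => .z i
    | some s => .g i s
  t0 := none
  f0 := .f i j k0
  vt_inj := by
    intro s t h
    injection h
  et_inj := by
    rintro (_ | s) (_ | t) h
    · rfl
    · exact absurd h (by simp)
    · exact absurd h (by simp)
    · injection h with h1 h2
      rw [h2]
  s_et := by rintro (_ | t) <;> rfl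
  r_et := by rintro (_ | t) <;> rfl
  into := by
    rintro (⟨i'⟩ | ⟨i', j', k'⟩ | ⟨i', s'⟩ | ⟨j', r'⟩) t h
    · have h' : (NV.v i' none : NV D) = .v i t := h
      injection h' with h1 h2
      subst h1
      exact ⟨(eq_of_heq h2).symm, none, rfl⟩
    · have h' : (NV.w j' none : NV D) = .v i t := h
      exact absurd h' (by simp)
    · have h' : (NV.v i' none : NV D) = .v i t := h
      injection h' with h1 h2
      subst h1
      exact ⟨(eq_of_heq h2).symm, some s', rfl⟩
    · have h' : (NV.w j' none : NV D) = .v i t := h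
      exact absurd h' (by simp)
  s_f0 := rfl
  r_f0 t h := by
    have h' : (NV.w j none : NV D) = .v i t := h
    exact absurd h' (by simp)
  only := by
    rintro (_ | s) hs
    · exact absurd rfl hs
    · rintro (⟨i'⟩ | ⟨i', j', k'⟩ | ⟨i', s'⟩ | ⟨j', r'⟩) h
      · have h' : (NV.v i' none : NV D) = .v i (some s) := h
        injection h' with h1 h2
        subst h1
        exact absurd (eq_of_heq h2) (by simp)
      · have h' : (NV.v i' none : NV D) = .v i (some s) := h
        injection h' with h1 h2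
        subst h1
        exact absurd (eq_of_heq h2) (by simp)
      · have h' : (NV.v i' (some s') : NV D) = .v i (some s) := h
        injection h' with h1 h2
        subst h1
        have h3 := Option.some_injective _ (eq_of_heq h2)
        rw [h3]
      · have h' : (NV.w j' (some r') : NV D) = .v i (some s) := h
        exact absurd h' (by simp)

/-- the old index -/
def move2_cr (D : Dat C S) (i : C) (j j' : S) (r : Fin (D.b j')) : Fin ((D.col i j).b j') :=
  ⟨r.1, lt_of_lt_of_le r.2 (by
    change D.b j' ≤ if j' = j then D.b j' + (D.a i + 1) else D.b j'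
    split_ifs
    · exact Nat.le_add_right _ _
    · exact le_rfl)⟩

/-- the number of a copy -/
def move2_idx {n : ℕ} : Option (Fin n) → ℕ
  | none => n
  | some s => s.1

theorem move2_idx_lt {n : ℕ} (t : Option (Fin n)) : move2_idx t < n + 1 := by
  cases t with
  | none => exact Nat.lt_succ_self _
  | some s => exact Nat.lt_succ_of_lt s.2

theorem move2_idx_inj {n : ℕ} {t t' : Option (Fin n)} (h : move2_idx t = move2_idx t') :
    t = t' := by
  cases t with
  | none =>
    cases t' with
    | none => rfl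
    | some s => exact absurd h.symm (Nat.ne_of_lt s.2)
  | some s =>
    cases t' with
    | none => exact absurd h (Nat.ne_of_lt s.2)
    | some s' => rw [Fin.ext h]

theorem move2_idx_surj {n m : ℕ} (h : m < n + 1) : ∃ t : Option (Fin n), move2_idx t = m := by
  rcases Nat.lt_succ_iff_lt_or_eq.1 h with h1 | h1
  · exact ⟨some ⟨m, h1⟩, rfl⟩
  · exact ⟨none, h1.symm⟩

/-- the new index -/
def move2_ex (D : Dat C S) (i : C) (j : S) (t : Option (Fin (D.a i))) : Fin ((D.col i j).b j) :=
  ⟨D.b j + move2_idx t, by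
    change _ < if j = j then D.b j + (D.a i + 1) else D.b j
    rw [if_pos rfl]
    exact Nat.add_lt_add_left (move2_idx_lt t) _⟩

theorem move2_cr_inj {i : C} {j j' : S} {r r' : Fin (D.b j')}
    (h : move2_cr D i j j' r = move2_cr D i j j' r') : r = r' := by
  have h1 := congrArg Fin.val h
  exact Fin.ext h1

theorem move2_ex_inj {i : C} {j : S} {t t' : Option (Fin (D.a i))}
    (h : move2_ex D i j t = move2_ex D i j t') : t = t' := by
  have h1 : D.b j + move2_idx t = D.b j + move2_idx t' := congrArg Fin.val h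
  exact move2_idx_inj (Nat.add_left_cancel h1)

theorem move2_cr_ne_ex {i : C} {j : S} {t : Option (Fin (D.a i))} {r : Fin (D.b j)} :
    move2_cr D i j j r ≠ move2_ex D i j t := by
  intro h
  have h1 : r.1 = D.b j + move2_idx t := congrArg Fin.val h
  have := r.2
  omega

theorem move2_cr_ex (i : C) (j j' : S) (r : Fin ((D.col i j).b j')) :
    (∃ r', move2_cr D i j j' r' = r) ∨ ∃ h : j' = j, ∃ t, move2_ex D i j t = h ▸ r := by
  by_cases h : j' = j
  · subst h
    by_cases hr : r.1 < D.b j'
    · exact .inl ⟨⟨r.1, hr⟩, rfl⟩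
    · right
      refine ⟨rfl, ?_⟩
      have h1 : r.1 < if j' = j' then D.b j' + (D.a i + 1) else D.b j' := r.2
      rw [if_pos rfl] at h1
      obtain ⟨t, ht⟩ := move2_idx_surj (n := D.a i) (m := r.1 - D.b j') (by omega)
      refine ⟨t, Fin.ext ?_⟩
      change D.b j' + move2_idx t = r.1
      omega
  · left
    have h1 : r.1 < if j' = j then D.b j' + (D.a i + 1) else D.b j' := r.2
    rw [if_neg h] at h1
    exact ⟨⟨r.1, h1⟩, rfl⟩

/-- the map on vertices -/
def move2_fv (D : Dat C S) (i : C) (j : S) : NV D ⊕ Option (Fin (D.a i)) → NV (D.col i j)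
  | .inl (.v i' s) => .v i' s
  | .inl (.w j' none) => .w j' none
  | .inl (.w j' (some r)) => .w j' (some (move2_cr D i j j' r))
  | .inr t => .w j (some (move2_ex D i j t))

theorem move2_fv_bij (i : C) (j : S) : Function.Bijective (move2_fv D i j) := by
  constructor
  · rintro ((⟨i1, s1⟩ | ⟨j1, _ | r1⟩) | t1) ((⟨i2, s2⟩ | ⟨j2, _ | r2⟩) | t2) h
    · have h' : (NV.v i1 s1 : NV (D.col i j)) = .v i2 s2 := h
      injection h' with h1 h2
      subst h1
      have h3 : s1 = s2 := eq_of_heq h2
      rw [h3]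
    · have h' : (NV.v i1 s1 : NV (D.col i j)) = .w j2 none := h
      exact absurd h' (by simp)
    · have h' : (NV.v i1 s1 : NV (D.col i j)) = .w j2 (some _) := h
      exact absurd h' (by simp)
    · have h' : (NV.v i1 s1 : NV (D.col i j)) = .w j (some _) := h
      exact absurd h' (by simp)
    · have h' : (NV.w j1 none : NV (D.col i j)) = .v i2 s2 := h
      exact absurd h' (by simp)
    · have h' : (NV.w j1 none : NV (D.col i j)) = .w j2 none := h
      injection h' with h1 h2
      rw [h1]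
    · have h' : (NV.w j1 none : NV (D.col i j)) = .w j2 (some _) := h
      injection h' with h1 h2
      subst h1
      exact absurd (eq_of_heq h2) (by simp)
    · have h' : (NV.w j1 none : NV (D.col i j)) = .w j (some _) := h
      injection h' with h1 h2
      subst h1
      exact absurd (eq_of_heq h2) (by simp)
    · have h' : (NV.w j1 (some _) : NV (D.col i j)) = .v i2 s2 := h
      exact absurd h' (by simp)
    · have h' : (NV.w j1 (some _) : NV (D.col i j)) = .w j2 none := h
      injection h' with h1 h2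
      subst h1
      exact absurd (eq_of_heq h2) (by simp)
    · have h' : (NV.w j1 (some (move2_cr D i j j1 r1)) : NV (D.col i j)) =
        .w j2 (some (move2_cr D i j j2 r2)) := h
      injection h' with h1 h2
      subst h1
      rw [move2_cr_inj (Option.some_injective _ (eq_of_heq h2))]
    · have h' : (NV.w j1 (some (move2_cr D i j j1 r1)) : NV (D.col i j)) =
        .w j (some (move2_ex D i j t2)) := h
      injection h' with h1 h2
      subst h1
      exact absurd (Option.some_injective _ (eq_of_heq h2)) move2_cr_ne_ex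
    · have h' : (NV.w j (some _) : NV (D.col i j)) = .v i2 s2 := h
      exact absurd h' (by simp)
    · have h' : (NV.w j (some _) : NV (D.col i j)) = .w j2 none := h
      injection h' with h1 h2
      subst h1
      exact absurd (eq_of_heq h2) (by simp)
    · have h' : (NV.w j (some (move2_ex D i j t1)) : NV (D.col i j)) =
        .w j2 (some (move2_cr D i j j2 r2)) := h
      injection h' with h1 h2
      subst h1
      exact absurd (Option.some_injective _ (eq_of_heq h2)).symm move2_cr_ne_ex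
    · have h' : (NV.w j (some (move2_ex D i j t1)) : NV (D.col i j)) =
        .w j (some (move2_ex D i j t2)) := h
      injection h' with h1 h2
      rw [move2_ex_inj (Option.some_injective _ h2)]
  · rintro (⟨i', s⟩ | ⟨j', _ | r⟩)
    · exact ⟨.inl (.v i' s), rfl⟩
    · exact ⟨.inl (.w j' none), rfl⟩
    · rcases move2_cr_ex i j j' r with ⟨r', h⟩ | ⟨h, t, ht⟩
      · refine ⟨.inl (.w j' (some r')), ?_⟩
        change NV.w j' (some (move2_cr D i j j' r')) = _
        rw [h]
      · subst h
        refine ⟨.inr t, ?_⟩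
        change NV.w j' (some (move2_ex D i j' t)) = _
        rw [ht]

open Classical in
/-- the map on edges -/
noncomputable def move2_fe (D : Dat C S) (i : C) (j : S) (k0 : Fin (D.n i j)) :
    NE D ⊕ Option (Fin (D.a i)) → NE (D.col i j)
  | .inl (.z i') => .z i'
  | .inl (.f i' j' k) => if (NE.f i' j' k : NE D) = .f i j k0 then .h j (move2_ex D i j none)
      else .f i' j' k
  | .inl (.g i' s) => .g i' s
  | .inl (.h j' r) => .h j' (move2_cr D i j j' r)
  | .inr none => .f i j k0
  | .inr (some s) => .h j (move2_ex D i j (some s))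

theorem move2_fe_f (i : C) (j : S) (k0 : Fin (D.n i j)) :
    move2_fe D i j k0 (.inl (.f i j k0)) = .h j (move2_ex D i j none) := if_pos rfl

theorem move2_fe_f' (i : C) (j : S) (k0 : Fin (D.n i j)) (i' : C) (j' : S) (k : Fin (D.n i' j'))
    (h : (NE.f i' j' k : NE D) ≠ .f i j k0) :
    move2_fe D i j k0 (.inl (.f i' j' k)) = .f i' j' k := if_neg h

/-- the inverse of the map on edges is determined by the value -/
theorem move2_fe_inj (i : C) (j : S) (k0 : Fin (D.n i j)) :
    Function.Injective (move2_fe D i j k0) := by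
  classical
  -- a left inverse relation
  have key : ∀ x, (∃ i', x = .inl (.z i') ∧ move2_fe D i j k0 x = .z i') ∨
      (∃ i' j' k, x = .inl (.f i' j' k) ∧ (NE.f i' j' k : NE D) ≠ .f i j k0 ∧
        move2_fe D i j k0 x = .f i' j' k) ∨
      (x = .inr none ∧ move2_fe D i j k0 x = .f i j k0) ∨
      (∃ i' s, x = .inl (.g i' s) ∧ move2_fe D i j k0 x = .g i' s) ∨
      (∃ j' r, x = .inl (.h j' r) ∧ move2_fe D i j k0 x = .h j' (move2_cr D i j j' r)) ∨
      (∃ t, (x = match t with
        | none => .inl (.f i j k0)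
        | some s => .inr (some s)) ∧ move2_fe D i j k0 x = .h j (move2_ex D i j t)) := by
    rintro ((⟨i1⟩ | ⟨i1, j1, k1⟩ | ⟨i1, s1⟩ | ⟨j1, r1⟩) | (_ | s1))
    · exact .inl ⟨i1, rfl, rfl⟩
    · by_cases h : (NE.f i1 j1 k1 : NE D) = .f i j k0
      · rw [h]
        exact .inr (.inr (.inr (.inr (.inr ⟨none, rfl, move2_fe_f i j k0⟩))))
      · exact .inr (.inl ⟨i1, j1, k1, rfl, h, move2_fe_f' i j k0 i1 j1 k1 h⟩)
    · exact .inr (.inr (.inr (.inl ⟨i1, s1, rfl, rfl⟩)))
    · exact .inr (.inr (.inr (.inr (.inl ⟨j1, r1, rfl, rfl⟩))))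
    · exact .inr (.inr (.inl ⟨rfl, rfl⟩))
    · exact .inr (.inr (.inr (.inr (.inr ⟨some s1, rfl, rfl⟩))))
  intro x y hxy
  rcases key x with ⟨i1, hx, h1⟩ | ⟨i1, j1, k1, hx, hn1, h1⟩ | ⟨hx, h1⟩ | ⟨i1, s1, hx, h1⟩ |
    ⟨j1, r1, hx, h1⟩ | ⟨t1, hx, h1⟩ <;>
  rcases key y with ⟨i2, hy, h2⟩ | ⟨i2, j2, k2, hy, hn2, h2⟩ | ⟨hy, h2⟩ | ⟨i2, s2, hy, h2⟩ |
    ⟨j2, r2, hy, h2⟩ | ⟨t2, hy, h2⟩ <;>
  rw [h1, h2] at hxy
  · injection hxy with h3
    rw [hx, hy, h3]
  · exact absurd hxy (by simp)
  · exact absurd hxy (by simp)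
  · exact absurd hxy (by simp)
  · exact absurd hxy (by simp)
  · exact absurd hxy (by simp)
  · exact absurd hxy (by simp)
  · injection hxy with h3 h4 h5
    subst h3 h4
    have h6 : k1 = k2 := eq_of_heq h5
    rw [hx, hy, h6]
  · injection hxy with h3 h4 h5
    subst h3 h4
    have h6 : k1 = k0 := eq_of_heq h5
    exact absurd (by rw [h6]) hn1
  · exact absurd hxy (by simp)
  · exact absurd hxy (by simp)
  · exact absurd hxy (by simp)
  · exact absurd hxy (by simp)
  · injection hxy with h3 h4 h5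
    subst h3 h4
    have h6 : k0 = k2 := eq_of_heq h5
    exact absurd (by rw [h6]) hn2
  · rw [hx, hy]
  · exact absurd hxy (by simp)
  · exact absurd hxy (by simp)
  · exact absurd hxy (by simp)
  · exact absurd hxy (by simp)
  · exact absurd hxy (by simp)
  · exact absurd hxy (by simp)
  · injection hxy with h3 h4
    subst h3
    have h6 : s1 = s2 := eq_of_heq h4
    rw [hx, hy, h6]
  · exact absurd hxy (by simp)
  · exact absurd hxy (by simp)
  · exact absurd hxy (by simp)
  · exact absurd hxy (by simp)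
  · exact absurd hxy (by simp)
  · exact absurd hxy (by simp)
  · injection hxy with h3 h4
    subst h3
    rw [hx, hy, move2_cr_inj (eq_of_heq h4)]
  · injection hxy with h3 h4
    subst h3
    exact absurd (eq_of_heq h4) move2_cr_ne_ex
  · exact absurd hxy (by simp)
  · exact absurd hxy (by simp)
  · exact absurd hxy (by simp)
  · exact absurd hxy (by simp)
  · injection hxy with h3 h4
    subst h3
    exact absurd (eq_of_heq h4).symm move2_cr_ne_ex
  · injection hxy with h3 h4
    rw [hx, hy, move2_ex_inj h4]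

theorem move2_fe_surj (i : C) (j : S) (k0 : Fin (D.n i j)) :
    Function.Surjective (move2_fe D i j k0) := by
  classical
  rintro (⟨i'⟩ | ⟨i', j', k⟩ | ⟨i', s⟩ | ⟨j', r⟩)
  · exact ⟨.inl (.z i'), rfl⟩
  · by_cases h : (NE.f i' j' k : NE D) = .f i j k0
    · refine ⟨.inr none, ?_⟩
      injection h with h1 h2 h3
      subst h1 h2
      have h4 : k = k0 := eq_of_heq h3
      subst h4
      rfl
    · exact ⟨.inl (.f i' j' k), move2_fe_f' i j k0 i' j' k h⟩
  · exact ⟨.inl (.g i' s), rfl⟩
  · rcases move2_cr_ex i j j' r with ⟨r', h⟩ | ⟨h, t, ht⟩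
    · refine ⟨.inl (.h j' r'), ?_⟩
      change NE.h j' (move2_cr D i j j' r') = _
      rw [h]
    · subst h
      have ht' : move2_ex D i j' t = r := ht
      cases t with
      | none =>
        refine ⟨.inl (.f i j' k0), ?_⟩
        rw [move2_fe_f, ht']
      | some s =>
        refine ⟨.inr (some s), ?_⟩
        change NE.h j' (move2_ex D i j' (some s)) = _
        rw [ht']

end aux3

/-- PIECE 11. Let `0 < n i j`, `k0 = 0` the first exit from `i` to `j`. Write `v', z', f', g', h'`
for the generators of `L K (NG (D.col i j))`; its additional copies of the sink `j` are called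
`y s`, `s : Option (Fin (D.a i))` (choose an equivalence of `Option (Fin (D.a i))` with
`Fin (D.a i + 1)`), with links `l s : y s → w j none`. The map from `D` to `D.col i j`:
`v i none ↦ v' + y none`, `z i ↦ z' + f' i j k0 * (l none)*`, `f i j k0 ↦ l none`,
`v i (some s) ↦ v' i (some s) + y (some s)`, `g i s ↦ g' + l (some s) * (l none)*`, the other
generators to themselves. The map from `D.col i j` to `D`, with `f0 = f i j k0`, `p = v - f0 f0*`:
`v' i none ↦ p`, `z' i ↦ z p`, `f' i j k0 ↦ z f0`, `y none ↦ f0 f0*`, `l none ↦ f0`,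
`v' i (some s) ↦ g p g*`, `g' i s ↦ g p`, `y (some s) ↦ g f0 f0* g*`, `l (some s) ↦ g f0`, the other
generators to themselves. Check that the two are `IsRep` families and inverse to each other and use
`mkEquiv`. -/
theorem move2 (i : C) (j : S) (h : D.n i j ≠ 0) :
    Nonempty (L K (NG D) ≃⋆ₐ[K] L K (NG (D.col i j))) := by
  classical
  have k0 : Fin (D.n i j) := ⟨0, Nat.pos_of_ne_zero h⟩
  haveI := move2_finE (D := D)
  haveI : Fintype (NE D) := Fintype.ofFinite _
  let M := move2_M D i j k0
  obtain ⟨Φ⟩ := M.equiv (K := K)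
  have h2 : Nonempty (L K M.gr ≃⋆ₐ[K] L K (NG (D.col i j))) := by
    refine graph_iso K M.gr (NG (D.col i j)) (Equiv.ofBijective _ (move2_fv_bij i j))
      (Equiv.ofBijective _ ⟨move2_fe_inj i j k0, move2_fe_surj i j k0⟩) ?_ ?_
    · intro x
      change (NG (D.col i j)).s (move2_fe D i j k0 x) = move2_fv D i j (M.gr.s x)
      rcases x with ((⟨i1⟩ | ⟨i1, j1, k1⟩ | ⟨i1, s1⟩ | ⟨j1, r1⟩) | (_ | s1))
      · rw [M.s_e (by simp [M, move2_M])]; rfl
      · by_cases h : (NE.f i1 j1 k1 : NE D) = .f i j k0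
        · rw [h, move2_fe_f]
          have h3 : M.gr.s (.inl (.f i j k0)) = .inr none := M.s_f
          rw [h3]; rfl
        · rw [move2_fe_f' i j k0 i1 j1 k1 h, M.s_e h]; rfl
      · rw [M.s_e (by simp [M, move2_M])]; rfl
      · rw [M.s_e (by simp [M, move2_M])]; rfl
      · have h3 : M.gr.s (.inr none) = .inl (.v i none) := M.s_0
        rw [h3]; rfl
      · have h3 : M.gr.s (.inr (some s1)) = .inr (some s1) := M.s_t (by simp [M, move2_M])
        rw [h3]; rfl
    · intro x
      change (NG (D.col i j)).r (move2_fe D i j k0 x) = move2_fv D i j (M.gr.r x)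
      rcases x with ((⟨i1⟩ | ⟨i1, j1, k1⟩ | ⟨i1, s1⟩ | ⟨j1, r1⟩) | (_ | s1))
      · rfl
      · by_cases h : (NE.f i1 j1 k1 : NE D) = .f i j k0
        · rw [h, move2_fe_f]; rfl
        · rw [move2_fe_f' i j k0 i1 j1 k1 h]; rfl
      · rfl
      · rfl
      · rfl
      · rfl
  obtain ⟨Ψ⟩ := h2
  exact ⟨Φ.trans Ψ⟩

end Pool.Agent.Helper32.TP
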