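import Pool.Agent.Helper32.TP.Move3
import Pool.Agent.Helper32.LV.Cut

/-! Reduction of a finite graph to its normal form. PIECE 14. -/

set_option autoImplicit false
set_option linter.unusedSectionVars false

universe k a b

namespace Pool.Agent.Helper32.TP

open Pool.Agent.Helper32.LV

variable {V : Type a} {E : Type b}

/-- `w` can be reached from `v` -/
def Reach (G : Gr V E) (v w : V) : Prop := ∃ l, G.IsPath v l ∧ G.tgt v l = w

/-- no cycle reaches another cycle -/
def SepCycles (G : Gr V E) : Prop :=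
  ∀ l l', G.IsCycle l → G.IsCycle l' → (∃ e ∈ l, ∃ e' ∈ l', Reach G (G.s e) (G.s e')) →
    ∀ e' ∈ l', e' ∈ l

/-! ### hitting paths -/

/-- the path `l` from `v` ends in `H` and does not meet `H` before its end -/
def norm_Hit (G : Gr V E) (H : Set V) (v : V) (l : List E) : Prop :=
  G.IsPath v l ∧ (∀ e ∈ l, G.s e ∉ H) ∧ G.tgt v l ∈ H

variable {G : Gr V E} {H : Set V}

theorem norm_hit_nil {v : V} : norm_Hit G H v [] ↔ v ∈ H := by
  simp [norm_Hit, Gr.IsPath, Gr.tgt]

theorem norm_hit_cons {v : V} {e : E} {l : List E} :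
    norm_Hit G H v (e :: l) ↔ G.s e = v ∧ G.s e ∉ H ∧ norm_Hit G H (G.r e) l := by
  simp only [norm_Hit, Gr.IsPath, Gr.tgt, List.mem_cons, forall_eq_or_imp]
  tauto

variable (G H)

/-- the hitting paths from `v` -/
abbrev norm_P (v : V) : Type b := {l : List E // norm_Hit G H v l}

/-- all hitting paths -/
abbrev norm_HP : Type (max a b) := Σ v : V, norm_P G H v

/-- an edge and a hitting path from its range -/
abbrev norm_EQ : Type b := Σ e : E, norm_P G H (G.r e)

variable {G H}

/-- the trivial path -/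
def norm_triv {v : V} (h : v ∈ H) : norm_HP G H := ⟨v, [], norm_hit_nil.2 h⟩

open Classical in
/-- the source of an edge of the new graph -/
noncomputable def norm_sq (q : norm_EQ G H) : norm_HP G H :=
  ⟨G.s q.1, if h : G.s q.1 ∈ H then ⟨[], norm_hit_nil.2 h⟩ else
    ⟨q.1 :: q.2.1, norm_hit_cons.2 ⟨rfl, h, q.2.2⟩⟩⟩

/-- the end of a hitting path -/
def norm_tp (p : norm_HP G H) : norm_HP G H := norm_triv p.2.2.2.2

/-- the range of an edge of the new graph -/
def norm_tq (q : norm_EQ G H) : norm_HP G H := norm_triv q.2.2.2.2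

variable (G H) in
/-- the new graph -/
noncomputable def norm_N : Gr (norm_HP G H) (norm_EQ G H) := ⟨norm_sq, norm_tq⟩

theorem norm_sq_fst (q : norm_EQ G H) : (norm_sq q).1 = G.s q.1 := rfl

theorem norm_sq_of_mem {q : norm_EQ G H} (h : G.s q.1 ∈ H) : norm_sq q = norm_triv h := by
  unfold norm_sq norm_triv
  rw [dif_pos h]

theorem norm_sq_list {q : norm_EQ G H} (h : G.s q.1 ∉ H) :
    (norm_sq q).2.1 = q.1 :: q.2.1 := by
  unfold norm_sq
  rw [dif_neg h]

theorem norm_sq_list' {q : norm_EQ G H} (h : G.s q.1 ∈ H) : (norm_sq q).2.1 = [] := by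
  unfold norm_sq
  rw [dif_pos h]

theorem norm_sq_cons {v : V} {e : E} {l : List E} (h : norm_Hit G H v (e :: l)) :
    norm_sq ⟨e, l, (norm_hit_cons.1 h).2.2⟩ = (⟨v, e :: l, h⟩ : norm_HP G H) := by
  obtain ⟨h1, h2, h3⟩ := norm_hit_cons.1 h
  subst h1
  unfold norm_sq
  rw [dif_neg h2]

theorem norm_HP_ext {p p' : norm_HP G H} (h1 : p.1 = p'.1) (h2 : p.2.1 = p'.2.1) : p = p' := by
  obtain ⟨v, l, h⟩ := p
  obtain ⟨v', l', h'⟩ := p'
  simp only at h1 h2
  subst h1 h2
  rfl

theorem norm_EQ_ext {p p' : norm_EQ G H} (h1 : p.1 = p'.1) (h2 : p.2.1 = p'.2.1) : p = p' := by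
  obtain ⟨v, l, h⟩ := p
  obtain ⟨v', l', h'⟩ := p'
  simp only at h1 h2
  subst h1 h2
  rfl

/-! ### the algebra of the new graph -/

section alg

variable (K : Type k) [Field K] [StarRing K]

/-- the link from a hitting path to its end -/
noncomputable def norm_lam : norm_HP G H → U K (norm_N G H)
  | ⟨v, [], h⟩ => vx K (norm_N G H) ⟨v, [], h⟩
  | ⟨_, e :: l, h⟩ => ed K (norm_N G H) ⟨e, l, (norm_hit_cons.1 h).2.2⟩

theorem norm_vx_lam (p : norm_HP G H) : vx K (norm_N G H) p * norm_lam K p = norm_lam K p := by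
  obtain ⟨v, l, h⟩ := p
  cases l with
  | nil => exact vx_vx _
  | cons e l =>
    have h1 := vx_ed (K := K) (G := norm_N G H) ⟨e, l, (norm_hit_cons.1 h).2.2⟩
    have h2 : (norm_N G H).s ⟨e, l, (norm_hit_cons.1 h).2.2⟩ = ⟨v, e :: l, h⟩ := norm_sq_cons h
    rw [h2] at h1
    exact h1

theorem norm_lam_vx (p : norm_HP G H) :
    norm_lam K p * vx K (norm_N G H) (norm_tp p) = norm_lam K p := by
  obtain ⟨v, l, h⟩ := p
  cases l with
  | nil => exact vx_vx _
  | cons e l => exact ed_vx (K := K) (G := norm_N G H) ⟨e, l, (norm_hit_cons.1 h).2.2⟩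

theorem norm_lam_star (p : norm_HP G H) :
    star (norm_lam K p) * norm_lam K p = vx K (norm_N G H) (norm_tp p) := by
  obtain ⟨v, l, h⟩ := p
  cases l with
  | nil =>
    change star (vx K _ _) * vx K _ _ = vx K _ _
    rw [star_vx, vx_vx]
    rfl
  | cons e l =>
    change star (ed K _ _) * ed K _ _ = _
    rw [star_ed, gh_ed]
    rfl

theorem norm_lam_ne {p p' : norm_HP G H} (h : p ≠ p') :
    star (norm_lam K p) * norm_lam K p' = 0 := by
  rw [← norm_vx_lam K p, ← norm_vx_lam K p', star_mul, star_vx]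
  calc star (norm_lam K p) * vx K (norm_N G H) p * (vx K (norm_N G H) p' * norm_lam K p')
      = star (norm_lam K p) * (vx K (norm_N G H) p * vx K (norm_N G H) p') * norm_lam K p' := by
        noncomm_ring
    _ = 0 := by rw [vx_vx_of_ne h, mul_zero, zero_mul]

theorem norm_lam_lam (p : norm_HP G H) :
    norm_lam K p * star (norm_lam K p) = vx K (norm_N G H) p := by
  obtain ⟨v, l, h⟩ := p
  cases l with
  | nil =>
    change vx K _ _ * star (vx K _ _) = vx K _ _
    rw [star_vx, vx_vx]
  | cons e l =>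
    have h0 := norm_hit_cons.1 h
    have h2 : (norm_N G H).s ⟨e, l, h0.2.2⟩ = ⟨v, e :: l, h⟩ := norm_sq_cons h
    have h1 : ∀ g, (norm_N G H).s g = (norm_N G H).s ⟨e, l, h0.2.2⟩ → g = ⟨e, l, h0.2.2⟩ := by
      intro g hg
      rw [h2] at hg
      have hg' : norm_sq g = (⟨v, e :: l, h⟩ : norm_HP G H) := hg
      have h3 := congrArg (fun p : norm_HP G H => p.2.1) hg'
      simp only at h3
      by_cases hH : G.s g.1 ∈ H
      · rw [norm_sq_list' hH] at h3
        cases h3
      · rw [norm_sq_list hH, List.cons.injEq] at h3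
        exact norm_EQ_ext h3.1 h3.2
    have h4 := vx_eq_of_unique (K := K) h1
    rw [h2] at h4
    change ed K _ _ * star (ed K _ _) = vx K _ _
    rw [star_ed]
    exact h4

theorem norm_vx_edq {p : norm_HP G H} {q : norm_EQ G H} (h : p ≠ norm_sq q) :
    vx K (norm_N G H) p * ed K (norm_N G H) q = 0 := by
  have h1 := vx_ed (K := K) (G := norm_N G H) q
  rw [← h1, ← mul_assoc, vx_vx_of_ne (show p ≠ (norm_N G H).s q from h), zero_mul]

theorem norm_lam_mem (p : norm_HP G H) : norm_lam K p ∈ L K (norm_N G H) := by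
  obtain ⟨v, l, h⟩ := p
  cases l with
  | nil => exact vx_mem _
  | cons e l => exact ed_mem _

variable [hF : ∀ v, Finite (norm_P G H v)]

open Classical in
noncomputable instance norm_ft (v : V) : Fintype (norm_P G H v) := Fintype.ofFinite _

/-- the images of the vertices -/
noncomputable def norm_q (v : V) : U K (norm_N G H) :=
  ∑ p : norm_P G H v, vx K (norm_N G H) ⟨v, p⟩

/-- the images of the edges -/
noncomputable def norm_u (e : E) : U K (norm_N G H) :=
  ∑ p : norm_P G H (G.r e), ed K (norm_N G H) ⟨e, p⟩ * star (norm_lam K ⟨G.r e, p⟩)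

theorem norm_q_star (v : V) : star (norm_q K (G := G) (H := H) v) = norm_q K v := by
  unfold norm_q
  rw [star_sum]
  exact Finset.sum_congr rfl fun p _ => star_vx _

theorem norm_q_mul (v : V) (p : norm_P G H v) :
    norm_q K (G := G) (H := H) v * vx K (norm_N G H) ⟨v, p⟩ = vx K (norm_N G H) ⟨v, p⟩ := by
  classical
  unfold norm_q
  rw [Finset.sum_mul, Finset.sum_eq_single p, vx_vx]
  · intro p' _ h
    refine vx_vx_of_ne fun h' => h ?_
    have := congrArg (fun p : norm_HP G H => p.2.1) h'
    exact Subtype.ext this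
  · intro h
    exact absurd (Finset.mem_univ _) h

theorem norm_q_mul' {v w : V} (h : v ≠ w) (p : norm_P G H w) :
    norm_q K (G := G) (H := H) v * vx K (norm_N G H) ⟨w, p⟩ = 0 := by
  unfold norm_q
  rw [Finset.sum_mul]
  refine Finset.sum_eq_zero fun p' _ => vx_vx_of_ne fun h' => h ?_
  exact congrArg (fun p : norm_HP G H => p.1) h'

theorem norm_u_lam (e : E) (p : norm_P G H (G.r e)) :
    norm_u K (G := G) (H := H) e * norm_lam K ⟨G.r e, p⟩ = ed K (norm_N G H) ⟨e, p⟩ := by
  classical
  unfold norm_u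
  rw [Finset.sum_mul, Finset.sum_eq_single p]
  · rw [mul_assoc, norm_lam_star]
    exact ed_vx (K := K) (G := norm_N G H) ⟨e, p⟩
  · intro p' _ h
    rw [mul_assoc, norm_lam_ne, mul_zero]
    intro h'
    have := congrArg (fun p : norm_HP G H => p.2.1) h'
    exact h (Subtype.ext this)
  · intro h
    exact absurd (Finset.mem_univ _) h

theorem norm_u_u (e : E) : norm_u K (G := G) (H := H) e * star (norm_u K (G := G) (H := H) e) =
    ∑ p : norm_P G H (G.r e), ed K (norm_N G H) ⟨e, p⟩ * gh K (norm_N G H) ⟨e, p⟩ := by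
  conv_lhs => rw [norm_u, star_sum, Finset.sum_mul]
  refine Finset.sum_congr rfl fun p _ => ?_
  classical
  rw [Finset.mul_sum, Finset.sum_eq_single p]
  · rw [star_mul, star_star, star_ed]
    calc ed K (norm_N G H) ⟨e, p⟩ * star (norm_lam K ⟨G.r e, p⟩) *
          (norm_lam K ⟨G.r e, p⟩ * gh K (norm_N G H) ⟨e, p⟩)
        = ed K (norm_N G H) ⟨e, p⟩ * (star (norm_lam K ⟨G.r e, p⟩) *
          norm_lam K ⟨G.r e, p⟩) * gh K (norm_N G H) ⟨e, p⟩ := by noncomm_ring
      _ = _ := by
        rw [norm_lam_star]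
        have h1 := ed_vx (K := K) (G := norm_N G H) ⟨e, p⟩
        exact congrArg (· * gh K (norm_N G H) ⟨e, p⟩) h1
  · intro p' _ h
    rw [star_mul, star_star, star_ed]
    calc ed K (norm_N G H) ⟨e, p⟩ * star (norm_lam K ⟨G.r e, p⟩) *
          (norm_lam K ⟨G.r e, p'⟩ * gh K (norm_N G H) ⟨e, p'⟩)
        = ed K (norm_N G H) ⟨e, p⟩ * (star (norm_lam K ⟨G.r e, p⟩) *
          norm_lam K ⟨G.r e, p'⟩) * gh K (norm_N G H) ⟨e, p'⟩ := by noncomm_ring
      _ = 0 := by
        rw [norm_lam_ne, mul_zero, zero_mul]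
        intro h'
        have := congrArg (fun p : norm_HP G H => p.2.1) h'
        exact h (Subtype.ext this.symm)
  · intro h
    exact absurd (Finset.mem_univ _) h

theorem norm_hit_of_mem {v : V} (hv : v ∈ H) {l : List E} (h : norm_Hit G H v l) : l = [] := by
  cases l with
  | nil => rfl
  | cons e l =>
    obtain ⟨h1, h2, -⟩ := norm_hit_cons.1 h
    rw [h1] at h2
    exact absurd hv h2

theorem norm_emit {v : V} (hne : ∀ v, Nonempty (norm_P G H v)) (h0 : ∃ e, G.s e = v)
    (p : norm_P G H v) : ∃ q, (norm_N G H).s q = ⟨v, p⟩ := by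
  obtain ⟨l, h⟩ := p
  cases l with
  | nil =>
    obtain ⟨e, rfl⟩ := h0
    obtain ⟨p'⟩ := hne (G.r e)
    have hv := norm_hit_nil.1 h
    exact ⟨⟨e, p'⟩, norm_sq_of_mem (q := ⟨e, p'⟩) hv⟩
  | cons e l => exact ⟨_, norm_sq_cons h⟩

theorem norm_ck [Finite E] (hne : ∀ v, Nonempty (norm_P G H v)) (v : V)
    (h : {e | G.s e = v}.Finite) (h0 : ∃ e, G.s e = v) :
    norm_q K (G := G) (H := H) v = ∑ e ∈ h.toFinset,
      norm_u K (G := G) (H := H) e * star (norm_u K (G := G) (H := H) e) := by
  classical
  have := Fintype.ofFinite E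
  set f : norm_EQ G H → U K (norm_N G H) := fun q =>
    ed K (norm_N G H) q * gh K (norm_N G H) q with hf
  have hfin : ∀ p : norm_HP G H, {q | (norm_N G H).s q = p}.Finite := fun p => Set.toFinite _
  have h1 : ∀ p : norm_P G H v, vx K (norm_N G H) ⟨v, p⟩ =
      ∑ q : norm_EQ G H, if (norm_N G H).s q = ⟨v, p⟩ then f q else 0 := by
    intro p
    rw [vx_eq_sum (K := K) (G := norm_N G H) ⟨v, p⟩ (hfin _) (norm_emit hne h0 p),
      ← Finset.sum_filter]
    refine Finset.sum_congr ?_ fun _ _ => rfl
    ext q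
    simp
  have h2 : norm_q K (G := G) (H := H) v =
      ∑ q : norm_EQ G H, if G.s q.1 = v then f q else 0 := by
    unfold norm_q
    rw [Finset.sum_congr rfl fun p _ => h1 p, Finset.sum_comm]
    refine Finset.sum_congr rfl fun q _ => ?_
    split_ifs with hq
    · subst hq
      obtain ⟨p0, hp0⟩ : ∃ p0 : norm_P G H (G.s q.1), (norm_N G H).s q = ⟨G.s q.1, p0⟩ :=
        ⟨(norm_sq q).2, rfl⟩
      rw [hp0, Finset.sum_eq_single p0]
      · exact if_pos rfl
      · intro p' _ h'
        refine if_neg fun h'' => h' ?_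
        have := congrArg (fun p : norm_HP G H => p.2.1) h''
        exact (Subtype.ext this).symm
      · intro h
        exact absurd (Finset.mem_univ _) h
    · refine Finset.sum_eq_zero fun p _ => if_neg fun h' => hq ?_
      exact congrArg (fun p : norm_HP G H => p.1) h'
  rw [h2, Fintype.sum_sigma]
  simp only
  have h3 : ∀ e : E, (∑ p : norm_P G H (G.r e), if G.s e = v then f ⟨e, p⟩ else 0) =
      if G.s e = v then norm_u K (G := G) (H := H) e * star (norm_u K (G := G) (H := H) e)
      else 0 := by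
    intro e
    split_ifs with he
    · rw [norm_u_u]
    · exact Finset.sum_const_zero
  rw [Finset.sum_congr rfl fun e _ => h3 e, ← Finset.sum_filter]
  refine Finset.sum_congr ?_ fun _ _ => rfl
  ext e
  simp

theorem norm_repA [Finite E] (hne : ∀ v, Nonempty (norm_P G H v)) :
    IsRep K G (norm_q K (G := G) (H := H)) (norm_u K (G := G) (H := H))
      (fun e => star (norm_u K (G := G) (H := H) e)) := by
  have hse : ∀ e, norm_q K (G := G) (H := H) (G.s e) * norm_u K e = norm_u K e := by
    intro e
    conv_rhs => rw [norm_u]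
    rw [norm_u, Finset.mul_sum]
    refine Finset.sum_congr rfl fun p _ => ?_
    have h1 := vx_ed (K := K) (G := norm_N G H) ⟨e, p⟩
    have h2 : (norm_N G H).s ⟨e, p⟩ = ⟨G.s e, (norm_sq (⟨e, p⟩ : norm_EQ G H)).2⟩ := rfl
    have h3 := norm_q_mul K (G.s e) (norm_sq (⟨e, p⟩ : norm_EQ G H)).2
    rw [← h2] at h3
    rw [← mul_assoc, ← h1, ← mul_assoc, h3]
  have her : ∀ e, norm_u K (G := G) (H := H) e * norm_q K (G.r e) = norm_u K e := by
    intro e
    conv_rhs => rw [norm_u]
    rw [norm_u, Finset.sum_mul]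
    refine Finset.sum_congr rfl fun p _ => ?_
    have h3 := norm_q_mul K (G.r e) p
    have h4 := congrArg star h3
    rw [star_mul, norm_q_star, star_vx] at h4
    have h5 := congrArg star (norm_vx_lam K (⟨G.r e, p⟩ : norm_HP G H))
    rw [star_mul, star_vx] at h5
    rw [mul_assoc, ← h5, mul_assoc, h4]
  refine ⟨?_, ?_, hse, her, ?_, ?_, ?_, ?_, ?_⟩
  · intro v
    have h1 : norm_q K (G := G) (H := H) v *
        (∑ p : norm_P G H v, vx K (norm_N G H) ⟨v, p⟩) =
        ∑ p : norm_P G H v, vx K (norm_N G H) ⟨v, p⟩ := by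
      rw [Finset.mul_sum]
      exact Finset.sum_congr rfl fun p _ => norm_q_mul K v p
    exact h1
  · intro v w h
    have h1 : norm_q K (G := G) (H := H) v *
        (∑ p : norm_P G H w, vx K (norm_N G H) ⟨w, p⟩) = 0 := by
      rw [Finset.mul_sum]
      exact Finset.sum_eq_zero fun p _ => norm_q_mul' K h p
    exact h1
  · intro e
    have := congrArg star (her e)
    rwa [star_mul, norm_q_star] at this
  · intro e
    have := congrArg star (hse e)
    rwa [star_mul, norm_q_star] at this
  · intro e
    change star (norm_u K e) * norm_u K e = _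
    rw [norm_u, star_sum, Finset.sum_mul, norm_q]
    refine Finset.sum_congr rfl fun p _ => ?_
    classical
    rw [Finset.mul_sum, Finset.sum_eq_single p]
    · rw [star_mul, star_star, star_ed]
      calc norm_lam K ⟨G.r e, p⟩ * gh K (norm_N G H) ⟨e, p⟩ *
            (ed K (norm_N G H) ⟨e, p⟩ * star (norm_lam K ⟨G.r e, p⟩))
          = norm_lam K ⟨G.r e, p⟩ * (gh K (norm_N G H) ⟨e, p⟩ *
            ed K (norm_N G H) ⟨e, p⟩) * star (norm_lam K ⟨G.r e, p⟩) := by noncomm_ring
        _ = norm_lam K ⟨G.r e, p⟩ * vx K (norm_N G H) (norm_tp ⟨G.r e, p⟩) *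
            star (norm_lam K ⟨G.r e, p⟩) := by rw [gh_ed]; rfl
        _ = _ := by rw [norm_lam_vx, norm_lam_lam]
    · intro p' _ h
      rw [star_mul, star_star, star_ed]
      calc norm_lam K ⟨G.r e, p⟩ * gh K (norm_N G H) ⟨e, p⟩ *
            (ed K (norm_N G H) ⟨e, p'⟩ * star (norm_lam K ⟨G.r e, p'⟩))
          = norm_lam K ⟨G.r e, p⟩ * (gh K (norm_N G H) ⟨e, p⟩ *
            ed K (norm_N G H) ⟨e, p'⟩) * star (norm_lam K ⟨G.r e, p'⟩) := by noncomm_ring
        _ = 0 := by
          rw [gh_ed_of_ne, mul_zero, zero_mul]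
          intro h'
          have := congrArg (fun p : norm_EQ G H => p.2.1) h'
          exact h (Subtype.ext this.symm)
    · intro h
      exact absurd (Finset.mem_univ _) h
  · intro e f hef
    change star (norm_u K e) * norm_u K f = 0
    rw [norm_u, norm_u, star_sum, Finset.sum_mul]
    refine Finset.sum_eq_zero fun p _ => ?_
    rw [Finset.mul_sum]
    refine Finset.sum_eq_zero fun p' _ => ?_
    rw [star_mul, star_star, star_ed]
    calc norm_lam K ⟨G.r e, p⟩ * gh K (norm_N G H) ⟨e, p⟩ *
          (ed K (norm_N G H) ⟨f, p'⟩ * star (norm_lam K ⟨G.r f, p'⟩))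
        = norm_lam K ⟨G.r e, p⟩ * (gh K (norm_N G H) ⟨e, p⟩ *
          ed K (norm_N G H) ⟨f, p'⟩) * star (norm_lam K ⟨G.r f, p'⟩) := by noncomm_ring
      _ = 0 := by
        rw [gh_ed_of_ne, mul_zero, zero_mul]
        intro h'
        exact hef (congrArg (fun p : norm_EQ G H => p.1) h')
  · exact fun v h h0 => norm_ck K hne v h h0

/-! ### the algebra of the old graph -/

theorem norm_PE_star {l : List E} : ∀ {v : V}, G.IsPath v l →
    star (PE K G v l) * PE K G v l = vx K G (G.tgt v l) ∧
      PE K G v l * vx K G (G.tgt v l) = PE K G v l := by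
  induction l with
  | nil =>
    intro v _
    have h1 : PE K G v [] = vx K G v := by simp [PE]
    rw [h1, star_vx]
    exact ⟨vx_vx v, vx_vx v⟩
  | cons e l ih =>
    intro v hp
    obtain ⟨h2, h3⟩ := ih hp.2
    rw [PE_cons hp.1, star_mul, star_ed]
    refine ⟨?_, ?_⟩
    · calc star (PE K G (G.r e) l) * gh K G e * (ed K G e * PE K G (G.r e) l)
          = star (PE K G (G.r e) l) * (gh K G e * ed K G e * PE K G (G.r e) l) := by
            noncomm_ring
        _ = vx K G (G.tgt v (e :: l)) := by rw [gh_ed, vx_PE, h2]; rfl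
    · change ed K G e * PE K G (G.r e) l * vx K G (G.tgt (G.r e) l) = _
      rw [mul_assoc, h3]

theorem norm_PE_orth {l : List E} : ∀ {v : V} {l' : List E}, norm_Hit G H v l →
    norm_Hit G H v l' → l ≠ l' → star (PE K G v l) * PE K G v l' = 0 := by
  induction l with
  | nil =>
    intro v l' h h' hne
    exact absurd (norm_hit_of_mem (norm_hit_nil.1 h) h').symm hne
  | cons e l ih =>
    intro v l' h h' hne
    cases l' with
    | nil => exact absurd (norm_hit_of_mem (norm_hit_nil.1 h') h) hne
    | cons f l' =>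
      obtain ⟨h1, h2, h3⟩ := norm_hit_cons.1 h
      obtain ⟨h1', h2', h3'⟩ := norm_hit_cons.1 h'
      rw [PE_cons h1, PE_cons h1', star_mul, star_ed]
      by_cases hef : e = f
      · subst hef
        calc star (PE K G (G.r e) l) * gh K G e * (ed K G e * PE K G (G.r e) l')
            = star (PE K G (G.r e) l) * (gh K G e * ed K G e * PE K G (G.r e) l') := by
              noncomm_ring
          _ = 0 := by
            rw [gh_ed, vx_PE]
            refine ih h3 h3' fun h' => hne ?_
            rw [h']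
      · calc star (PE K G (G.r e) l) * gh K G e * (ed K G f * PE K G (G.r f) l')
            = star (PE K G (G.r e) l) * (gh K G e * ed K G f) * PE K G (G.r f) l' := by
              noncomm_ring
          _ = 0 := by rw [gh_ed_of_ne hef, mul_zero, zero_mul]

theorem norm_PE_sum [Finite E] (hS : ∀ v, v ∉ H → ∃ e, G.s e = v) (N : ℕ) : ∀ v : V,
    (∀ l, G.IsPath v l → (∀ e ∈ l, G.s e ∉ H) → l.length ≤ N) →
    ∑ p : norm_P G H v, PE K G v p.1 * star (PE K G v p.1) = vx K G v := by
  classical
  have := Fintype.ofFinite E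
  have hmem : ∀ v, v ∈ H →
      ∑ p : norm_P G H v, PE K G v p.1 * star (PE K G v p.1) = vx K G v := by
    intro v hv
    rw [Finset.sum_eq_single (⟨[], norm_hit_nil.2 hv⟩ : norm_P G H v)]
    · have h1 : PE K G v [] = vx K G v := by simp [PE]
      simp only [h1, star_vx, vx_vx]
    · intro p' _ h
      exact absurd (Subtype.ext (norm_hit_of_mem hv p'.2)) h
    · intro h
      exact absurd (Finset.mem_univ _) h
  induction N with
  | zero =>
    intro v hN
    by_cases hv : v ∈ H
    · exact hmem v hv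
    · obtain ⟨e, rfl⟩ := hS v hv
      have := hN [e] ⟨rfl, trivial⟩ (by simpa using hv)
      simp at this
  | succ N ih =>
    intro v hN
    by_cases hv : v ∈ H
    · exact hmem v hv
    · have hfin : {e | G.s e = v}.Finite := Set.toFinite _
      rw [vx_eq_sum (K := K) v hfin (hS v hv)]
      have h1 : ∀ e, G.s e = v → ∑ p : norm_P G H (G.r e),
          PE K G (G.r e) p.1 * star (PE K G (G.r e) p.1) = vx K G (G.r e) := by
        rintro e rfl
        refine ih _ fun l hl hl' => ?_
        have := hN (e :: l) ⟨rfl, hl⟩ (by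
          intro f hf
          rcases List.mem_cons.1 hf with rfl | hf
          · exact hv
          · exact hl' f hf)
        simpa using this
      have h2 : ∑ e ∈ hfin.toFinset, ed K G e * gh K G e = ∑ e : E, if G.s e = v then
          (∑ p : norm_P G H (G.r e),
            ed K G e * (PE K G (G.r e) p.1 * star (PE K G (G.r e) p.1)) * gh K G e) else 0 := by
        rw [← Finset.sum_filter]
        refine Finset.sum_congr (by ext; simp) fun e he => ?_
        rw [← Finset.sum_mul, ← Finset.mul_sum, h1 e (by simpa using he), ed_vx]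
      rw [h2]
      have h3 : ∀ e : E, (if G.s e = v then
          (∑ p : norm_P G H (G.r e),
            ed K G e * (PE K G (G.r e) p.1 * star (PE K G (G.r e) p.1)) * gh K G e) else 0) =
          ∑ p : norm_P G H (G.r e), if G.s e = v then
            ed K G e * (PE K G (G.r e) p.1 * star (PE K G (G.r e) p.1)) * gh K G e else 0 := by
        intro e
        split_ifs
        · rfl
        · exact Finset.sum_const_zero.symm
      rw [Finset.sum_congr rfl fun e _ => h3 e]
      have h4 := Fintype.sum_sigma (fun q : norm_EQ G H => if G.s q.1 = v then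
            ed K G q.1 * (PE K G (G.r q.1) q.2.1 * star (PE K G (G.r q.1) q.2.1)) * gh K G q.1
            else 0)
      simp only at h4
      rw [← h4, ← Finset.sum_filter]
      symm
      refine Finset.sum_bij (fun q hq => ⟨q.1 :: q.2.1, norm_hit_cons.2
        ⟨(Finset.mem_filter.1 hq).2, by rw [(Finset.mem_filter.1 hq).2]; exact hv, q.2.2⟩⟩)
        ?_ ?_ ?_ ?_
      · intro q hq
        exact Finset.mem_univ _
      · intro q hq q' hq' h
        have h5 := congrArg Subtype.val h
        simp only [List.cons.injEq] at h5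
        exact norm_EQ_ext h5.1 h5.2
      · rintro ⟨l, hl⟩ -
        cases l with
        | nil => exact absurd (norm_hit_nil.1 hl) hv
        | cons e l =>
          have h5 := norm_hit_cons.1 hl
          exact ⟨⟨e, l, h5.2.2⟩, Finset.mem_filter.2 ⟨Finset.mem_univ _, h5.1⟩, rfl⟩
      · intro q hq
        have h5 : G.s q.1 = v := (Finset.mem_filter.1 hq).2
        simp only
        rw [PE_cons h5, star_mul, star_ed]
        noncomm_ring

/-- the images of the new vertices -/
noncomputable def norm_qB (p : norm_HP G H) : U K G := PE K G p.1 p.2.1 * star (PE K G p.1 p.2.1)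

/-- the images of the new edges -/
noncomputable def norm_uB (q : norm_EQ G H) : U K G := ed K G q.1 * PE K G (G.r q.1) q.2.1

theorem norm_qB_triv {v : V} (h : v ∈ H) : norm_qB K (norm_triv (G := G) h) = vx K G v := by
  have h1 : PE K G v [] = vx K G v := by simp [PE]
  change PE K G v [] * star (PE K G v []) = _
  rw [h1, star_vx, vx_vx]

theorem norm_uB_star (q : norm_EQ G H) :
    star (norm_uB K q) * norm_uB K q = norm_qB K (norm_tq q) := by
  rw [norm_tq, norm_qB_triv]
  have h1 := (norm_PE_star (K := K) (G := G) q.2.2.1).1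
  unfold norm_uB
  rw [star_mul, star_ed]
  calc star (PE K G (G.r q.1) q.2.1) * gh K G q.1 * (ed K G q.1 * PE K G (G.r q.1) q.2.1)
      = star (PE K G (G.r q.1) q.2.1) * (gh K G q.1 * ed K G q.1 * PE K G (G.r q.1) q.2.1) := by
        noncomm_ring
    _ = _ := by rw [gh_ed, vx_PE, h1]

theorem norm_uB_er (q : norm_EQ G H) :
    norm_uB K q * norm_qB K (norm_tq q) = norm_uB K q := by
  rw [norm_tq, norm_qB_triv]
  have h1 := (norm_PE_star (K := K) (G := G) q.2.2.1).2
  unfold norm_uB
  rw [mul_assoc, h1]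

theorem norm_qB_sq {q : norm_EQ G H} (h : G.s q.1 ∉ H) :
    norm_qB K (norm_sq q) = norm_uB K q * star (norm_uB K q) := by
  unfold norm_qB norm_uB
  rw [norm_sq_list h, norm_sq_fst, PE_cons rfl]

theorem norm_uB_se (q : norm_EQ G H) :
    norm_qB K (norm_sq q) * norm_uB K q = norm_uB K q := by
  by_cases h : G.s q.1 ∈ H
  · rw [norm_sq_of_mem h, norm_qB_triv, norm_uB, ← mul_assoc, vx_ed]
  · rw [norm_qB_sq K h, mul_assoc, norm_uB_star, norm_uB_er]

theorem norm_orthHP {p p' : norm_HP G H} (h : p ≠ p') :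
    star (PE K G p.1 p.2.1) * PE K G p'.1 p'.2.1 = 0 := by
  by_cases hv : p.1 = p'.1
  · obtain ⟨v, l, hl⟩ := p
    obtain ⟨v', l', hl'⟩ := p'
    simp only at hv
    subst hv
    exact norm_PE_orth K hl hl' fun h' => h (norm_HP_ext rfl h')
  · rw [← vx_PE (K := K) G p.1 p.2.1, ← vx_PE (K := K) G p'.1 p'.2.1, star_mul, star_vx]
    calc star (PE K G p.1 p.2.1) * vx K G p.1 * (vx K G p'.1 * PE K G p'.1 p'.2.1)
        = star (PE K G p.1 p.2.1) * (vx K G p.1 * vx K G p'.1) * PE K G p'.1 p'.2.1 := by
          noncomm_ring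
      _ = 0 := by rw [vx_vx_of_ne hv, mul_zero, zero_mul]

theorem norm_repB [Finite E]
    (hsum : ∀ v, ∑ p : norm_P G H v, PE K G v p.1 * star (PE K G v p.1) = vx K G v) :
    IsRep K (norm_N G H) (norm_qB K) (norm_uB K) (fun q => star (norm_uB K q)) := by
  classical
  have := Fintype.ofFinite E
  have hqs : ∀ p : norm_HP G H, star (norm_qB K p) = norm_qB K p := by
    intro p
    rw [norm_qB, star_mul, star_star]
  refine ⟨?_, ?_, fun q => norm_uB_se K q, fun q => norm_uB_er K q, ?_, ?_,
    fun q => norm_uB_star K q, ?_, ?_⟩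
  · intro p
    obtain ⟨h1, h2⟩ := norm_PE_star (K := K) (G := G) p.2.2.1
    unfold norm_qB
    calc PE K G p.1 p.2.1 * star (PE K G p.1 p.2.1) *
          (PE K G p.1 p.2.1 * star (PE K G p.1 p.2.1))
        = PE K G p.1 p.2.1 * (star (PE K G p.1 p.2.1) * PE K G p.1 p.2.1) *
          star (PE K G p.1 p.2.1) := by noncomm_ring
      _ = _ := by rw [h1, h2]
  · intro p p' h
    unfold norm_qB
    calc PE K G p.1 p.2.1 * star (PE K G p.1 p.2.1) *
          (PE K G p'.1 p'.2.1 * star (PE K G p'.1 p'.2.1))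
        = PE K G p.1 p.2.1 * (star (PE K G p.1 p.2.1) * PE K G p'.1 p'.2.1) *
          star (PE K G p'.1 p'.2.1) := by noncomm_ring
      _ = _ := by rw [norm_orthHP K h, mul_zero, zero_mul]
  · intro q
    have := congrArg star (norm_uB_er K q)
    rwa [star_mul, hqs] at this
  · intro q
    have := congrArg star (norm_uB_se K q)
    rwa [star_mul, hqs] at this
  · intro q q' h
    change star (norm_uB K q) * norm_uB K q' = 0
    unfold norm_uB
    rw [star_mul, star_ed]
    by_cases hef : q.1 = q'.1
    · obtain ⟨e, l, hl⟩ := q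
      obtain ⟨e', l', hl'⟩ := q'
      simp only at hef
      subst hef
      simp only
      calc star (PE K G (G.r e) l) * gh K G e * (ed K G e * PE K G (G.r e) l')
          = star (PE K G (G.r e) l) * (gh K G e * ed K G e * PE K G (G.r e) l') := by
            noncomm_ring
        _ = 0 := by
          rw [gh_ed, vx_PE]
          exact norm_PE_orth K hl hl' fun h' => h (norm_EQ_ext rfl h')
    · calc star (PE K G (G.r q.1) q.2.1) * gh K G q.1 * (ed K G q'.1 * PE K G (G.r q'.1) q'.2.1)
          = star (PE K G (G.r q.1) q.2.1) * (gh K G q.1 * ed K G q'.1) *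
            PE K G (G.r q'.1) q'.2.1 := by noncomm_ring
        _ = 0 := by rw [gh_ed_of_ne hef, mul_zero, zero_mul]
  · intro p h h0
    obtain ⟨v, l, hl⟩ := p
    cases l with
    | nil =>
      have hv := norm_hit_nil.1 hl
      obtain ⟨q0, hq0⟩ := h0
      have hv0 : G.s q0.1 = v := congrArg (fun p : norm_HP G H => p.1) hq0
      have hiff : ∀ q : norm_EQ G H, (norm_N G H).s q = ⟨v, [], hl⟩ ↔ G.s q.1 = v := by
        intro q
        constructor
        · intro hq
          exact congrArg (fun p : norm_HP G H => p.1) hq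
        · intro hq
          have h1 : G.s q.1 ∈ H := by rw [hq]; exact hv
          change norm_sq q = _
          exact norm_HP_ext hq (norm_sq_list' h1)
      have e1 : norm_qB K (⟨v, [], hl⟩ : norm_HP G H) = vx K G v := norm_qB_triv K hv
      rw [e1]
      have hfin : {e | G.s e = v}.Finite := Set.toFinite _
      rw [vx_eq_sum (K := K) v hfin ⟨_, hv0⟩]
      have h2 : ∑ e ∈ hfin.toFinset, ed K G e * gh K G e = ∑ e : E, ∑ p : norm_P G H (G.r e),
          if G.s e = v then norm_uB K (⟨e, p⟩ : norm_EQ G H) *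
            star (norm_uB K (⟨e, p⟩ : norm_EQ G H)) else 0 := by
        have h3 : ∀ e : E, (∑ p : norm_P G H (G.r e),
            if G.s e = v then norm_uB K (⟨e, p⟩ : norm_EQ G H) *
            star (norm_uB K (⟨e, p⟩ : norm_EQ G H)) else 0) =
            if G.s e = v then ed K G e * gh K G e else 0 := by
          intro e
          split_ifs
          · have h4 : ∀ p : norm_P G H (G.r e), norm_uB K (⟨e, p⟩ : norm_EQ G H) *
                star (norm_uB K (⟨e, p⟩ : norm_EQ G H)) =
                ed K G e * (PE K G (G.r e) p.1 * star (PE K G (G.r e) p.1)) * gh K G e := by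
              intro p
              unfold norm_uB
              rw [star_mul, star_ed]
              noncomm_ring
            rw [Finset.sum_congr rfl fun p _ => h4 p, ← Finset.sum_mul, ← Finset.mul_sum, hsum,
              ed_vx]
          · exact Finset.sum_const_zero
        rw [Finset.sum_congr rfl fun e _ => h3 e, ← Finset.sum_filter]
        exact Finset.sum_congr (by ext; simp) fun _ _ => rfl
      rw [h2]
      have h4 := Fintype.sum_sigma (fun q : norm_EQ G H => if G.s q.1 = v then
        norm_uB K q * star (norm_uB K q) else 0)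
      simp only at h4
      rw [← h4, ← Finset.sum_filter]
      refine Finset.sum_congr ?_ fun _ _ => rfl
      ext q
      simp only [Finset.mem_filter, Finset.mem_univ, true_and, Set.Finite.mem_toFinset,
        Set.mem_ofPred_eq]
      exact (hiff q).symm
    | cons e l =>
      have h5 := norm_hit_cons.1 hl
      have h6 : norm_sq ⟨e, l, h5.2.2⟩ = (⟨v, e :: l, hl⟩ : norm_HP G H) := norm_sq_cons hl
      have h7 : h.toFinset = {⟨e, l, h5.2.2⟩} := by
        ext g
        simp only [Set.Finite.mem_toFinset, Set.mem_ofPred_eq, Finset.mem_singleton]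
        constructor
        · intro hg
          have hg' : norm_sq g = (⟨v, e :: l, hl⟩ : norm_HP G H) := hg
          have h3 := congrArg (fun p : norm_HP G H => p.2.1) hg'
          simp only at h3
          by_cases hH : G.s g.1 ∈ H
          · rw [norm_sq_list' hH] at h3
            cases h3
          · rw [norm_sq_list hH, List.cons.injEq] at h3
            exact norm_EQ_ext h3.1 h3.2
        · rintro rfl
          exact h6
      rw [h7, Finset.sum_singleton, ← h6, norm_qB_sq]
      exact h5.2.1

theorem norm_lift_lam [Finite E]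
    (hsum : ∀ v, ∑ p : norm_P G H v, PE K G v p.1 * star (PE K G v p.1) = vx K G v)
    (p : norm_HP G H) : lift (norm_repB K hsum) (norm_lam K p) = PE K G p.1 p.2.1 := by
  obtain ⟨v, l, h⟩ := p
  cases l with
  | nil =>
    have h1 : PE K G v [] = vx K G v := by simp [PE]
    change lift _ (vx K _ _) = PE K G v []
    rw [lift_vx, h1]
    exact norm_qB_triv K (norm_hit_nil.1 h)
  | cons e l =>
    change lift _ (ed K _ _) = PE K G v (e :: l)
    rw [lift_ed, PE_cons (norm_hit_cons.1 h).1]
    rfl

theorem norm_lift_PE [Finite E] (hne : ∀ v, Nonempty (norm_P G H v)) {l : List E} :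
    ∀ {v : V} (h : norm_Hit G H v l),
      lift (norm_repA K hne) (PE K G v l) = norm_lam K (⟨v, l, h⟩ : norm_HP G H) := by
  induction l with
  | nil =>
    intro v h
    have h1 : PE K G v [] = vx K G v := by simp [PE]
    have hv := norm_hit_nil.1 h
    rw [h1, lift_vx]
    change norm_q K v = vx K _ _
    unfold norm_q
    rw [Finset.sum_eq_single (⟨[], h⟩ : norm_P G H v)]
    · intro p' _ h'
      exact absurd (Subtype.ext (norm_hit_of_mem hv p'.2)) h'
    · intro h
      exact absurd (Finset.mem_univ _) h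
  | cons e l ih =>
    intro v h
    have h5 := norm_hit_cons.1 h
    rw [PE_cons h5.1, map_mul, lift_ed, ih h5.2.2, norm_u_lam]
    rfl

theorem norm_main [Finite E] (hS : ∀ v, v ∉ H → ∃ e, G.s e = v) (N : ℕ)
    (hN : ∀ v l, G.IsPath v l → (∀ e ∈ l, G.s e ∉ H) → l.length ≤ N) :
    Nonempty (L K G ≃⋆ₐ[K] L K (norm_N G H)) := by
  have hsum : ∀ v, ∑ p : norm_P G H v, PE K G v p.1 * star (PE K G v p.1) = vx K G v :=
    fun v => norm_PE_sum K hS N v (hN v)
  have hne : ∀ v, Nonempty (norm_P G H v) := by
    intro v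
    by_contra hcc
    rw [not_nonempty_iff] at hcc
    have h1 := hsum v
    rw [Fintype.sum_empty] at h1
    exact vx_ne_zero v h1.symm
  refine mkEquiv (norm_repA K hne) (norm_repB K hsum) ?_ ?_ ?_ ?_ ?_ ?_ ?_ ?_ ?_ ?_
  · intro v
    exact (L K _).sum_mem fun p _ => vx_mem _
  · intro e
    exact (L K _).sum_mem fun p _ => (L K _).mul_mem (ed_mem _) (star_mem_L (norm_lam_mem K _))
  · intro p
    exact (L K _).mul_mem (PE_mem _ _ _) (star_mem_L (PE_mem _ _ _))
  · intro q
    exact (L K _).mul_mem (ed_mem _) (PE_mem _ _ _)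
  · intro v
    rw [norm_q, map_sum]
    simp only [lift_vx]
    exact hsum v
  · intro e
    rw [norm_u, map_sum]
    have h1 : ∀ p : norm_P G H (G.r e), lift (norm_repB K hsum)
        (ed K (norm_N G H) ⟨e, p⟩ * star (norm_lam K ⟨G.r e, p⟩)) =
        ed K G e * (PE K G (G.r e) p.1 * star (PE K G (G.r e) p.1)) := by
      intro p
      rw [map_mul, lift_ed, lift_star (norm_repB K hsum) (fun p => by
        rw [norm_qB, star_mul, star_star]), norm_lift_lam K hsum, norm_uB, mul_assoc]
    rw [Finset.sum_congr rfl fun p _ => h1 p, ← Finset.mul_sum, hsum, ed_vx]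
  · intro p
    rw [norm_qB, map_mul, lift_star (norm_repA K hne) (norm_q_star K), norm_lift_PE K hne p.2.2,
      norm_lam_lam]
  · intro q
    rw [norm_uB, map_mul, lift_ed, norm_lift_PE K hne q.2.2, norm_u_lam]
  · exact norm_q_star K
  · intro p
    rw [norm_qB, star_mul, star_star]

end alg

/-! ### combinatorics -/

/-- two cycles that share a vertex have the same edges -/
theorem norm_same (hG : SepCycles G) {v w : V} {l m : List E} (h : G.Cyc v l) (h' : G.Cyc w m)
    {f g : E} (hf : f ∈ l) (hg : g ∈ m) (hfg : G.s f = G.s g) : ∀ e ∈ m, e ∈ l :=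
  hG l m h.isCycle h'.isCycle ⟨f, hf, g, hg, [], trivial, hfg⟩

/-- representatives of the cycles -/
def norm_R (G : Gr V E) (o : V → ℕ) : Set V := {v | ∃ l, G.Cyc v l ∧ ∀ f ∈ l, o v ≤ o (G.s f)}

theorem norm_R_meet {o : V → ℕ} {v : V} {l : List E} (h : G.Cyc v l) :
    ∃ e ∈ l, G.s e ∈ norm_R G o := by
  classical
  obtain ⟨e0, he0⟩ := List.exists_mem_of_ne_nil l h.1
  obtain ⟨e, he, hmin⟩ := Finset.exists_min_image l.toFinset (fun e => o (G.s e))
    ⟨e0, List.mem_toFinset.2 he0⟩
  rw [List.mem_toFinset] at he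
  obtain ⟨m, hm, hml⟩ := h.rotate he
  exact ⟨e, he, e :: m, hm, fun f hf => hmin f (List.mem_toFinset.2 ((hml f).1 hf))⟩

theorem norm_R_out {o : V → ℕ} {v : V} (h : v ∈ norm_R G o) : ∃ e, G.s e = v := by
  obtain ⟨l, hl, -⟩ := h
  cases l with
  | nil => exact absurd rfl hl.1
  | cons e l => exact ⟨e, hl.2.1.1⟩

/-- there is only one representative on a cycle -/
theorem norm_R_uniq (hG : SepCycles G) {o : V → ℕ} (ho : Function.Injective o) {w : V}
    {l : List E} (h : G.Cyc w l) {e f : E} (he : e ∈ l) (hf : f ∈ l)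
    (he' : G.s e ∈ norm_R G o) (hf' : G.s f ∈ norm_R G o) : G.s e = G.s f := by
  have key : ∀ {e f : E}, e ∈ l → f ∈ l → G.s e ∈ norm_R G o → o (G.s e) ≤ o (G.s f) := by
    rintro e f he hf ⟨m, hm, hmin⟩
    cases m with
    | nil => exact absurd rfl hm.1
    | cons g m =>
      exact hmin f (norm_same hG hm h (by simp : g ∈ g :: m) he hm.2.1.1 f hf)
  exact ho (le_antisymm (key he hf he') (key hf he hf'))

/-- the first return to a representative exists -/
theorem norm_ret (hG : SepCycles G) {o : V → ℕ} (ho : Function.Injective o) {H : Set V}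
    (hH : norm_R G o ⊆ H) (hH' : ∀ v ∈ H, v ∉ norm_R G o → ∀ e, G.s e ≠ v) {i : V}
    (hi : i ∈ norm_R G o) :
    ∃ (e : E) (l : List E), G.s e = i ∧ norm_Hit G H (G.r e) l ∧ G.tgt (G.r e) l = i := by
  have hi' := hi
  obtain ⟨l, hl, hmin⟩ := hi
  cases l with
  | nil => exact absurd rfl hl.1
  | cons e l =>
    obtain ⟨-, ⟨h1, h2⟩, h3, h4⟩ := id hl
    refine ⟨e, l, h1, ⟨h2, fun f hf hfH => ?_, ?_⟩, h3⟩
    · have hfR : G.s f ∈ norm_R G o := by
        by_contra hcc
        exact hH' _ hfH hcc f rfl
      have h5 : G.s e = G.s f := norm_R_uniq hG ho hl (by simp) (by simp [hf])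
        (by rw [h1]; exact hi') hfR
      rw [List.map_cons, List.nodup_cons] at h4
      exact h4.1 (h5 ▸ List.mem_map_of_mem hf)
    · have h6 : G.tgt (G.r e) l = i := h3
      rw [h6]
      exact hH hi'

theorem norm_path_eq {Z : Set E} (hZ : ∀ e ∈ Z, ∀ f ∈ Z, G.s e = G.s f → e = f) {i : V}
    {l : List E} : ∀ {l' : List E} {v : V}, G.IsPath v l → G.IsPath v l' → G.tgt v l = i →
      G.tgt v l' = i → (∀ e ∈ l, e ∈ Z ∧ G.s e ≠ i) → (∀ e ∈ l', e ∈ Z ∧ G.s e ≠ i) →
      l = l' := by
  induction l with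
  | nil =>
    intro l' v _ h' h1 h1' _ h2'
    cases l' with
    | nil => rfl
    | cons f l' =>
      have h3 : v = i := h1
      exact absurd (h'.1.trans h3) (h2' f (by simp)).2
  | cons e l ih =>
    intro l' v h h' h1 h1' h2 h2'
    cases l' with
    | nil =>
      have h3 : v = i := h1'
      exact absurd (h.1.trans h3) (h2 e (by simp)).2
    | cons f l' =>
      have h4 : e = f := hZ e (h2 e (by simp)).1 f (h2' f (by simp)).1 (h.1.trans h'.1.symm)
      subst h4
      rw [ih h.2 h'.2 h1 h1' (fun x hx => h2 x (by simp [hx])) (fun x hx => h2' x (by simp [hx]))]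

theorem norm_hit_nodup {o : V → ℕ} {H : Set V} (hH : norm_R G o ⊆ H) {v : V} {l : List E}
    (hp : G.IsPath v l) (hl : ∀ e ∈ l, G.s e ∉ H) : (l.map G.s).Nodup := by
  rcases nodup_or_cyc G l v hp with h | ⟨w, m, hm, hml⟩
  · exact h
  · obtain ⟨e, he, heR⟩ := norm_R_meet (o := o) hm
    exact absurd (hH heR) (hl e (hml e he))

/-- a return to the representatives is a cycle -/
theorem norm_ret_cyc (hG : SepCycles G) {o : V → ℕ} (ho : Function.Injective o) {H : Set V}
    (hH : norm_R G o ⊆ H) {e : E} {l : List E} (he : G.s e ∈ norm_R G o)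
    (hl : norm_Hit G H (G.r e) l) (ht : G.tgt (G.r e) l ∈ norm_R G o) :
    G.Cyc (G.s e) (e :: l) := by
  -- the cycle of the end point is the cycle of `s e`
  obtain ⟨m, hm, -⟩ := id he
  obtain ⟨m', hm', -⟩ := id ht
  cases m with
  | nil => exact absurd rfl hm.1
  | cons g m =>
    cases m' with
    | nil => exact absurd rfl hm'.1
    | cons g' m' =>
      have h1 : ∀ f ∈ g' :: m', f ∈ g :: m := by
        refine hG _ _ hm.isCycle hm'.isCycle ⟨g, by simp, g', by simp, e :: l, ?_, ?_⟩
        · exact ⟨hm.2.1.1.symm, hl.1⟩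
        · rw [hm'.2.1.1]
          rfl
      have h2 : G.s g = G.s g' := by
        refine norm_R_uniq hG ho hm (by simp) (h1 g' (by simp)) ?_ ?_
        · rw [hm.2.1.1]; exact he
        · rw [hm'.2.1.1]; exact ht
      have h3 : G.tgt (G.r e) l = G.s e := by
        rw [← hm'.2.1.1, ← h2, hm.2.1.1]
      refine ⟨by simp, ⟨rfl, hl.1⟩, h3, ?_⟩
      rw [List.map_cons, List.nodup_cons]
      refine ⟨fun hmem => ?_, norm_hit_nodup hH hl.1 hl.2.1⟩
      obtain ⟨f, hf, hfe⟩ := List.mem_map.1 hmem
      exact hl.2.1 f hf (hfe ▸ hH he)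

/-- the first return to a representative is unique -/
theorem norm_ret_uniq (hG : SepCycles G) {o : V → ℕ} (ho : Function.Injective o) {H : Set V}
    (hH : norm_R G o ⊆ H) {e e' : E} {l l' : List E} (he : G.s e ∈ norm_R G o)
    (hee : G.s e' = G.s e)
    (hl : norm_Hit G H (G.r e) l) (hl' : norm_Hit G H (G.r e') l')
    (ht : G.tgt (G.r e) l ∈ norm_R G o) (ht' : G.tgt (G.r e') l' ∈ norm_R G o) :
    e = e' ∧ l = l' := by
  have c := norm_ret_cyc hG ho hH he hl ht
  have c' := norm_ret_cyc hG ho hH (hee ▸ he) hl' ht'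
  have hsub : ∀ f ∈ e' :: l', f ∈ e :: l :=
    norm_same hG c c' (by simp : e ∈ e :: l) (by simp : e' ∈ e' :: l') hee.symm
  have hZ : ∀ x ∈ {x | x ∈ e :: l}, ∀ y ∈ {x | x ∈ e :: l}, G.s x = G.s y → x = y :=
    fun x hx y hy hxy => List.inj_on_of_nodup_map c.2.2.2 hx hy hxy
  have h1 : e = e' := hZ e (by simp) e' (hsub e' (by simp)) hee.symm
  subst h1
  refine ⟨rfl, norm_path_eq hZ (i := G.s e) hl.1 hl'.1 c.2.2.1 c'.2.2.1 ?_ ?_⟩
  · intro x hx
    refine ⟨by simp [hx], fun hxe => ?_⟩
    exact hl.2.1 x hx (hxe ▸ hH he)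
  · intro x hx
    refine ⟨hsub x (by simp [hx]), fun hxe => ?_⟩
    exact hl'.2.1 x hx (hxe ▸ hH he)

/-- the end of the hitting path of `q` -/
def norm_tg {H : Set V} (q : norm_EQ G H) : V := G.tgt (G.r q.1) q.2.1

theorem norm_tq_eq {H : Set V} {q : norm_EQ G H} {v : V} (h : norm_tg q = v) (hv : v ∈ H) :
    norm_tq q = norm_triv (G := G) hv := by
  subst h
  rfl

section final

variable {C S : Set V} (hCS : ∀ v ∈ C, v ∉ S) (hS : ∀ (e : E), G.s e ∉ S)
  [∀ v, Finite (norm_P G (C ∪ S) v)] [Finite E]

variable (G C S) in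
/-- the data of the normal form -/
noncomputable def norm_D : Dat C S where
  n i j := Nat.card {q : norm_EQ G (C ∪ S) // G.s q.1 = i ∧ norm_tg q = j}
  a i := Nat.card {q : norm_EQ G (C ∪ S) // G.s q.1 ∉ C ∪ S ∧ norm_tg q = i}
  b j := Nat.card {q : norm_EQ G (C ∪ S) // G.s q.1 ∉ C ∪ S ∧ norm_tg q = j}

/-- enumerations -/
noncomputable def norm_en (i : C) (j : S) : Fin ((norm_D G C S).n i j) ≃
    {q : norm_EQ G (C ∪ S) // G.s q.1 = i ∧ norm_tg q = j} := (Finite.equivFin _).symm
noncomputable def norm_ea (i : C) : Fin ((norm_D G C S).a i) ≃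
    {q : norm_EQ G (C ∪ S) // G.s q.1 ∉ C ∪ S ∧ norm_tg q = i} := (Finite.equivFin _).symm
noncomputable def norm_eb (j : S) : Fin ((norm_D G C S).b j) ≃
    {q : norm_EQ G (C ∪ S) // G.s q.1 ∉ C ∪ S ∧ norm_tg q = j} := (Finite.equivFin _).symm

/-- the map on edges -/
noncomputable def norm_tau (zc : C → norm_EQ G (C ∪ S)) :
    NE (norm_D G C S) → norm_EQ G (C ∪ S)
  | .z i => zc i
  | .f i j k => (norm_en i j k).1
  | .g i s => (norm_ea i s).1
  | .h j r => (norm_eb j r).1

/-- the map on vertices -/
noncomputable def norm_sig : NV (norm_D G C S) → norm_HP G (C ∪ S)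
  | .v i none => norm_triv (v := i.1) (Or.inl i.2)
  | .v i (some s) => norm_sq (norm_ea i s).1
  | .w j none => norm_triv (v := j.1) (Or.inr j.2)
  | .w j (some r) => norm_sq (norm_eb j r).1

theorem norm_sq_inj {q q' : norm_EQ G H} (h : G.s q.1 ∉ H) (h' : G.s q'.1 ∉ H)
    (he : norm_sq q = norm_sq q') : q = q' := by
  have h1 : (norm_sq q).2.1 = (norm_sq q').2.1 := congrArg (fun p : norm_HP G H => p.2.1) he
  rw [norm_sq_list h, norm_sq_list h', List.cons.injEq] at h1
  exact norm_EQ_ext h1.1 h1.2

theorem norm_triv_ne {q : norm_EQ G H} (h : G.s q.1 ∉ H) {v : V} (hv : v ∈ H)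
    (he : norm_triv (G := G) hv = norm_sq q) : False := by
  have h1 : ([] : List E) = (norm_sq q).2.1 := congrArg (fun p : norm_HP G H => p.2.1) he
  rw [norm_sq_list h] at h1
  cases h1

include hCS hS in
theorem norm_tau_bij (zc : C → norm_EQ G (C ∪ S)) (hz1 : ∀ i, G.s (zc i).1 = i)
    (hz2 : ∀ i, norm_tg (zc i) = i)
    (hz3 : ∀ (i : C) (q : norm_EQ G (C ∪ S)), G.s q.1 = i → norm_tg q ∈ C → q = zc i) :
    Function.Bijective (norm_tau zc) := by
  have hsC : ∀ e, G.s e ∈ C ∪ S → G.s e ∈ C := fun e he => he.resolve_right (hS e)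
  have f1 : ∀ i j k, G.s (norm_en (G := G) (C := C) (S := S) i j k).1.1 = i :=
    fun i j k => (norm_en i j k).2.1
  have f2 : ∀ i j k, norm_tg (norm_en (G := G) (C := C) (S := S) i j k).1 = j :=
    fun i j k => (norm_en i j k).2.2
  have g1 : ∀ i s, G.s (norm_ea (G := G) (C := C) (S := S) i s).1.1 ∉ C ∪ S :=
    fun i s => (norm_ea i s).2.1
  have g2 : ∀ i s, norm_tg (norm_ea (G := G) (C := C) (S := S) i s).1 = i :=
    fun i s => (norm_ea i s).2.2
  have k1 : ∀ i s, G.s (norm_eb (G := G) (C := C) (S := S) i s).1.1 ∉ C ∪ S :=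
    fun i s => (norm_eb i s).2.1
  have k2 : ∀ i s, norm_tg (norm_eb (G := G) (C := C) (S := S) i s).1 = i :=
    fun i s => (norm_eb i s).2.2
  constructor
  · intro x y hxy
    cases x with
    | z i =>
      cases y with
      | z i' =>
        have h1 : zc i = zc i' := hxy
        have h2 : (i : V) = i' := by rw [← hz1 i, ← hz1 i', h1]
        rw [Subtype.ext h2]
      | f i' j k =>
        have h1 : zc i = (norm_en i' j k).1 := hxy
        have h2 : (i : V) = j := by rw [← hz2 i, h1, f2]
        exact absurd (h2 ▸ j.2) (hCS i i.2)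
      | g i' s =>
        have h1 : zc i = (norm_ea i' s).1 := hxy
        refine absurd (Or.inl ?_) (g1 i' s)
        rw [← h1, hz1]
        exact i.2
      | h j r =>
        have h1 : zc i = (norm_eb j r).1 := hxy
        refine absurd (Or.inl ?_) (k1 j r)
        rw [← h1, hz1]
        exact i.2
    | f i j k =>
      cases y with
      | z i' =>
        have h1 : (norm_en i j k).1 = zc i' := hxy
        have h2 : (i' : V) = j := by rw [← hz2 i', ← h1, f2]
        exact absurd (h2 ▸ j.2) (hCS i' i'.2)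
      | f i' j' k' =>
        have h1 : (norm_en i j k).1 = (norm_en i' j' k').1 := hxy
        have h2 : i = i' := Subtype.ext (by rw [← f1 i j k, ← f1 i' j' k', h1])
        have h3 : j = j' := Subtype.ext (by rw [← f2 i j k, ← f2 i' j' k', h1])
        subst h2 h3
        rw [(norm_en i j).injective (Subtype.ext h1)]
      | g i' s =>
        have h1 : (norm_en i j k).1 = (norm_ea i' s).1 := hxy
        refine absurd (Or.inl ?_) (g1 i' s)
        rw [← h1, f1]
        exact i.2
      | h j' r =>
        have h1 : (norm_en i j k).1 = (norm_eb j' r).1 := hxy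
        refine absurd (Or.inl ?_) (k1 j' r)
        rw [← h1, f1]
        exact i.2
    | g i s =>
      cases y with
      | z i' =>
        have h1 : (norm_ea i s).1 = zc i' := hxy
        refine absurd (Or.inl ?_) (g1 i s)
        rw [h1, hz1]
        exact i'.2
      | f i' j k =>
        have h1 : (norm_ea i s).1 = (norm_en i' j k).1 := hxy
        refine absurd (Or.inl ?_) (g1 i s)
        rw [h1, f1]
        exact i'.2
      | g i' s' =>
        have h1 : (norm_ea i s).1 = (norm_ea i' s').1 := hxy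
        have h2 : i = i' := Subtype.ext (by rw [← g2 i s, ← g2 i' s', h1])
        subst h2
        rw [(norm_ea i).injective (Subtype.ext h1)]
      | h j r =>
        have h1 : (norm_ea i s).1 = (norm_eb j r).1 := hxy
        have h2 : (i : V) = j := by rw [← g2 i s, h1, k2]
        exact absurd (h2 ▸ j.2) (hCS i i.2)
    | h j r =>
      cases y with
      | z i' =>
        have h1 : (norm_eb j r).1 = zc i' := hxy
        refine absurd (Or.inl ?_) (k1 j r)
        rw [h1, hz1]
        exact i'.2
      | f i' j' k =>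
        have h1 : (norm_eb j r).1 = (norm_en i' j' k).1 := hxy
        refine absurd (Or.inl ?_) (k1 j r)
        rw [h1, f1]
        exact i'.2
      | g i' s' =>
        have h1 : (norm_eb j r).1 = (norm_ea i' s').1 := hxy
        have h2 : (i' : V) = j := by rw [← g2 i' s', ← h1, k2]
        exact absurd (h2 ▸ j.2) (hCS i' i'.2)
      | h j' r' =>
        have h1 : (norm_eb j r).1 = (norm_eb j' r').1 := hxy
        have h2 : j = j' := Subtype.ext (by rw [← k2 j r, ← k2 j' r', h1])
        subst h2
        rw [(norm_eb j).injective (Subtype.ext h1)]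
  · intro q
    have hq : norm_tg q ∈ C ∪ S := q.2.2.2.2
    by_cases hs : G.s q.1 ∈ C ∪ S
    · have hsc := hsC _ hs
      rcases hq with hq | hq
      · exact ⟨.z ⟨G.s q.1, hsc⟩, (hz3 ⟨G.s q.1, hsc⟩ q rfl hq).symm⟩
      · refine ⟨.f ⟨G.s q.1, hsc⟩ ⟨norm_tg q, hq⟩ ((norm_en _ _).symm ⟨q, rfl, rfl⟩), ?_⟩
        change (norm_en _ _ ((norm_en _ _).symm _)).1 = q
        rw [Equiv.apply_symm_apply]
    · rcases hq with hq | hq
      · refine ⟨.g ⟨norm_tg q, hq⟩ ((norm_ea _).symm ⟨q, hs, rfl⟩), ?_⟩
        change (norm_ea _ ((norm_ea _).symm _)).1 = q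
        rw [Equiv.apply_symm_apply]
      · refine ⟨.h ⟨norm_tg q, hq⟩ ((norm_eb _).symm ⟨q, hs, rfl⟩), ?_⟩
        change (norm_eb _ ((norm_eb _).symm _)).1 = q
        rw [Equiv.apply_symm_apply]

include hCS in
theorem norm_sig_bij : Function.Bijective (norm_sig (G := G) (C := C) (S := S)) := by
  have g1 : ∀ i s, G.s (norm_ea (G := G) (C := C) (S := S) i s).1.1 ∉ C ∪ S :=
    fun i s => (norm_ea i s).2.1
  have g2 : ∀ i s, norm_tg (norm_ea (G := G) (C := C) (S := S) i s).1 = i :=
    fun i s => (norm_ea i s).2.2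
  have k1 : ∀ i s, G.s (norm_eb (G := G) (C := C) (S := S) i s).1.1 ∉ C ∪ S :=
    fun i s => (norm_eb i s).2.1
  have k2 : ∀ i s, norm_tg (norm_eb (G := G) (C := C) (S := S) i s).1 = i :=
    fun i s => (norm_eb i s).2.2
  have tr : ∀ {v w : V} (hv : v ∈ C ∪ S) (hw : w ∈ C ∪ S),
      norm_triv (G := G) hv = norm_triv hw → v = w := fun hv hw h =>
    congrArg (fun p : norm_HP G (C ∪ S) => p.1) h
  constructor
  · intro x y hxy
    cases x with
    | v i s =>
      cases s with
      | none =>
        cases y with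
        | v i' s' =>
          cases s' with
          | none => rw [Subtype.ext (tr (Or.inl i.2) (Or.inl i'.2) hxy)]
          | some s' => exact (norm_triv_ne (g1 i' s') (Or.inl i.2) hxy).elim
        | w j r =>
          cases r with
          | none =>
            have h2 : (i : V) = j := tr (Or.inl i.2) (Or.inr j.2) hxy
            exact absurd (h2 ▸ j.2) (hCS i i.2)
          | some r => exact (norm_triv_ne (k1 j r) (Or.inl i.2) hxy).elim
      | some s =>
        cases y with
        | v i' s' =>
          cases s' with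
          | none => exact (norm_triv_ne (g1 i s) (Or.inl i'.2) hxy.symm).elim
          | some s' =>
            have h1 := norm_sq_inj (g1 i s) (g1 i' s') hxy
            have h2 : i = i' := Subtype.ext (by rw [← g2 i s, ← g2 i' s', h1])
            subst h2
            rw [(norm_ea i).injective (Subtype.ext h1)]
        | w j r =>
          cases r with
          | none => exact (norm_triv_ne (g1 i s) (Or.inr j.2) hxy.symm).elim
          | some r =>
            have h1 := norm_sq_inj (g1 i s) (k1 j r) hxy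
            have h2 : (i : V) = j := by rw [← g2 i s, h1, k2]
            exact absurd (h2 ▸ j.2) (hCS i i.2)
    | w j r =>
      cases r with
      | none =>
        cases y with
        | v i' s' =>
          cases s' with
          | none =>
            have h2 : (j : V) = i' := tr (Or.inr j.2) (Or.inl i'.2) hxy
            exact absurd (h2 ▸ j.2) (hCS i' i'.2)
          | some s' => exact (norm_triv_ne (g1 i' s') (Or.inr j.2) hxy).elim
        | w j' r' =>
          cases r' with
          | none => rw [Subtype.ext (tr (Or.inr j.2) (Or.inr j'.2) hxy)]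
          | some r' => exact (norm_triv_ne (k1 j' r') (Or.inr j.2) hxy).elim
      | some r =>
        cases y with
        | v i' s' =>
          cases s' with
          | none => exact (norm_triv_ne (k1 j r) (Or.inl i'.2) hxy.symm).elim
          | some s' =>
            have h1 := norm_sq_inj (k1 j r) (g1 i' s') hxy
            have h2 : (i' : V) = j := by rw [← g2 i' s', ← h1, k2]
            exact absurd (h2 ▸ j.2) (hCS i' i'.2)
        | w j' r' =>
          cases r' with
          | none => exact (norm_triv_ne (k1 j r) (Or.inr j'.2) hxy.symm).elim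
          | some r' =>
            have h1 := norm_sq_inj (k1 j r) (k1 j' r') hxy
            have h2 : j = j' := Subtype.ext (by rw [← k2 j r, ← k2 j' r', h1])
            subst h2
            rw [(norm_eb j).injective (Subtype.ext h1)]
  · rintro ⟨v, l, h⟩
    cases l with
    | nil =>
      rcases norm_hit_nil.1 h with hv | hv
      · exact ⟨.v ⟨v, hv⟩ none, rfl⟩
      · exact ⟨.w ⟨v, hv⟩ none, rfl⟩
    | cons e l =>
      have h5 := norm_hit_cons.1 h
      have h6 := norm_sq_cons h
      obtain ⟨q, hq⟩ : ∃ q : norm_EQ G (C ∪ S), q = ⟨e, l, h5.2.2⟩ := ⟨_, rfl⟩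
      have hs : G.s q.1 ∉ C ∪ S := by rw [hq]; exact h5.2.1
      have ht : norm_tg q ∈ C ∪ S := q.2.2.2.2
      rw [← hq] at h6
      rcases ht with ht | ht
      · refine ⟨.v ⟨norm_tg q, ht⟩ (some ((norm_ea _).symm ⟨q, hs, rfl⟩)), ?_⟩
        change norm_sq (norm_ea _ ((norm_ea _).symm _)).1 = _
        rw [Equiv.apply_symm_apply, h6]
      · refine ⟨.w ⟨norm_tg q, ht⟩ (some ((norm_eb _).symm ⟨q, hs, rfl⟩)), ?_⟩
        change norm_sq (norm_eb _ ((norm_eb _).symm _)).1 = _
        rw [Equiv.apply_symm_apply, h6]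

end final

/-- Choose a set `R` of representatives, one vertex on every cycle (`C := R`), and let `S` be the
set of the sinks. A hitting path from `u` is a path from `u` to a vertex in `R` or `S` without such
vertices before its end (the trivial path if `u` is in `R` or `S`); there are finitely many, and
their end points are in `R` or `S`. For `i` in `R` the cycle through `i` gives a path `z i` from `i`
to `i`, and the other paths of positive length from `i` to its first return to `R` or `S` end in
`S` (a path from `i` to another element of `R` is excluded by `SepCycles`; a return to `i` is the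
cycle itself since cycles are disjoint): `D.n i j` of them end at `j`. Let `D.a i + 1` be the number of all
hitting paths (from any vertex) ending at `i`, `D.b j + 1` the number of those ending at `j`; the
trivial one corresponds to `none`. The isomorphism: a vertex `u` goes to the sum of the vertices
of `NG D` given by the hitting paths from `u`; an edge `e : u → u'` goes to the sum over the
hitting paths `α` from `u'` of `lk (e α) * star (lk α)`, except for `u` in `R`, where `e α` is
the cycle or an exit path, and `lk (e α)` is replaced by `ed (z i)` or `ed (f i j k)`. In the other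
direction the vertex of `NG D` given by a hitting path `α` goes to `α α*`, the link to `α`, `z i`
and `f i j k` to the elements of the paths. Use `mkEquiv`. -/
theorem exists_NG (K : Type k) [Field K] [StarRing K] (G : Gr V E) [Finite V] [Finite E]
    (hG : SepCycles G) : ∃ (C S : Set V) (D : Dat C S), Nonempty (L K G ≃⋆ₐ[K] L K (NG D)) := by
  classical
  obtain ⟨n, ⟨eq⟩⟩ := Finite.exists_equiv_fin V
  set o : V → ℕ := fun v => (eq v : ℕ) with ho
  have hoi : Function.Injective o := fun v w h => eq.injective (Fin.ext h)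
  set C : Set V := norm_R G o with hC
  set S : Set V := {v | ∀ e, G.s e ≠ v} with hSd
  have hCS : ∀ v ∈ C, v ∉ S := by
    intro v hv hv'
    obtain ⟨e, he⟩ := norm_R_out hv
    exact hv' e he
  have hS : ∀ e : E, G.s e ∉ S := fun e he => he e rfl
  have hCH : norm_R G o ⊆ C ∪ S := fun v hv => Or.inl hv
  have := Fintype.ofFinite E
  have hN : ∀ v l, G.IsPath v l → (∀ e ∈ l, G.s e ∉ C ∪ S) → l.length ≤ Fintype.card E := by
    intro v l hp hl
    exact (norm_hit_nodup hCH hp hl).of_map.length_le_card
  have hfin : ∀ v, Finite (norm_P G (C ∪ S) v) := by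
    intro v
    have h1 : {l : List E | l.length ≤ Fintype.card E}.Finite := List.finite_length_le E _
    exact (h1.subset fun l hl => hN v l hl.1 hl.2.1).to_subtype
  have hout : ∀ v, v ∉ C ∪ S → ∃ e, G.s e = v := by
    intro v hv
    by_contra hcc
    push Not at hcc
    exact hv (Or.inr hcc)
  obtain ⟨F⟩ := norm_main (H := C ∪ S) K hout (Fintype.card E) hN
  have hret : ∀ i : C, ∃ q : norm_EQ G (C ∪ S), G.s q.1 = i ∧ norm_tg q = i := by
    intro i
    obtain ⟨e, l, h1, h2, h3⟩ := norm_ret hG hoi hCH (by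
      intro v hv hv' e he
      exact (hv.resolve_left hv') e he) i.2
    exact ⟨⟨e, l, h2⟩, h1, h3⟩
  choose zc hz1 hz2 using hret
  have hz3 : ∀ (i : C) (q : norm_EQ G (C ∪ S)), G.s q.1 = i → norm_tg q ∈ C → q = zc i := by
    intro i q h1 h2
    have h3 := norm_ret_uniq hG hoi hCH (e := q.1) (e' := (zc i).1) (l := q.2.1)
      (l' := (zc i).2.1) (by rw [h1]; exact i.2) (by rw [hz1, h1]) q.2.2 (zc i).2.2 h2
      (by
        have h4 : G.tgt (G.r (zc i).1) (zc i).2.1 = i := hz2 i
        rw [h4]
        exact i.2)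
    exact norm_EQ_ext h3.1 h3.2
  obtain ⟨F'⟩ := graph_iso K (NG (norm_D G C S)) (norm_N G (C ∪ S))
    (Equiv.ofBijective _ (norm_sig_bij hCS))
    (Equiv.ofBijective _ (norm_tau_bij hCS hS zc hz1 hz2 hz3)) (by
      intro e
      cases e with
      | z i =>
        have h1 : G.s (zc i).1 ∈ C ∪ S := by rw [hz1]; exact Or.inl i.2
        change norm_sq (zc i) = norm_triv (v := i.1) (Or.inl i.2)
        rw [norm_sq_of_mem h1]
        exact norm_HP_ext (hz1 i) rfl
      | f i j k =>
        have h0 := (norm_en (G := G) i j k).2.1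
        have h1 : G.s (norm_en i j k).1.1 ∈ C ∪ S := by rw [h0]; exact Or.inl i.2
        change norm_sq (norm_en i j k).1 = norm_triv (v := i.1) (Or.inl i.2)
        rw [norm_sq_of_mem h1]
        exact norm_HP_ext h0 rfl
      | g i s => rfl
      | h j r => rfl) (by
      intro e
      cases e with
      | z i => exact norm_tq_eq (hz2 i) (Or.inl i.2)
      | f i j k => exact norm_tq_eq (norm_en (G := G) i j k).2.2 (Or.inr j.2)
      | g i s => exact norm_tq_eq (norm_ea (G := G) i s).2.2 (Or.inl i.2)
      | h j r => exact norm_tq_eq (norm_eb (G := G) j r).2.2 (Or.inr j.2))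
  exact ⟨C, S, norm_D G C S, ⟨F.trans F'.symm⟩⟩

end Pool.Agent.Helper32.TP
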