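import Mathlib

/-! Fredholm index of linear maps between arbitrary vector spaces. PIECE 3. -/

set_option autoImplicit false
set_option linter.unusedSectionVars false

universe k

namespace Pool.Agent.Helper32.TP

variable {K : Type k} [Field K] {V W X : Type*} [AddCommGroup V] [Module K V] [AddCommGroup W]
  [Module K W] [AddCommGroup X] [Module K X]

/-- finite rank -/
def FinRk (T : V →ₗ[K] W) : Prop := Module.Finite K (LinearMap.range T)

/-- finite-dimensional kernel and cokernel -/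
def Fr (T : V →ₗ[K] W) : Prop :=
  Module.Finite K (LinearMap.ker T) ∧ Module.Finite K (W ⧸ LinearMap.range T)

/-- index -/
noncomputable def fi (T : V →ₗ[K] W) : ℤ :=
  (Module.finrank K (LinearMap.ker T) : ℤ) - Module.finrank K (W ⧸ LinearMap.range T)

/-- the block of `T` from the range of `P` to the range of `Q` -/
def blk (P : Module.End K V) (Q : Module.End K W) (T : V →ₗ[K] W) :
    LinearMap.range P →ₗ[K] LinearMap.range Q :=
  LinearMap.codRestrict (LinearMap.range Q) ((Q ∘ₗ T).domRestrict (LinearMap.range P))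
    (fun _ => ⟨_, rfl⟩)

theorem fred_finRk_iff (T : V →ₗ[K] W) : FinRk T ↔ T.HasFiniteRange := by
  unfold FinRk LinearMap.HasFiniteRange
  exact Module.Finite.iff_fg

theorem FinRk.add {T F : V →ₗ[K] W} (h : FinRk T) (h' : FinRk F) : FinRk (T + F) := by
  rw [fred_finRk_iff] at *
  exact h.add h'

theorem FinRk.comp_left {T : V →ₗ[K] W} (h : FinRk T) (A : W →ₗ[K] X) : FinRk (A ∘ₗ T) := by
  rw [fred_finRk_iff] at *
  exact h.comp_left A

theorem FinRk.comp_right {T : W →ₗ[K] X} (h : FinRk T) (A : V →ₗ[K] W) : FinRk (T ∘ₗ A) := by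
  rw [fred_finRk_iff] at *
  exact h.comp_right A

theorem Fr.comp {T : V →ₗ[K] W} {A : W →ₗ[K] X} (hA : Fr A) (hT : Fr T) : Fr (A ∘ₗ T) := by
  obtain ⟨a1, a2⟩ := hA
  obtain ⟨b1, b2⟩ := hT
  refine ⟨?_, ?_⟩
  · rw [LinearMap.ker_comp]
    infer_instance
  · rw [LinearMap.range_comp]
    infer_instance

theorem fi_comp {T : V →ₗ[K] W} {A : W →ₗ[K] X} (hA : Fr A) (hT : Fr T) :
    fi (A ∘ₗ T) = fi A + fi T := by
  obtain ⟨a1, a2⟩ := hA
  obtain ⟨b1, b2⟩ := hT
  have := LinearMap.index_comp (f := T) A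
  rw [LinearMap.index_eq_finrank_sub, LinearMap.index_eq_finrank_sub,
    LinearMap.index_eq_finrank_sub] at this
  exact this

theorem fred_coker {T : V →ₗ[K] W} {A : X →ₗ[K] W}
    (h : Module.Finite K (W ⧸ LinearMap.range A)) (hle : LinearMap.range A ≤ LinearMap.range T) :
    Module.Finite K (W ⧸ LinearMap.range T) :=
  Module.Finite.of_surjective (Submodule.factor hle) (Submodule.factor_surjective hle)

theorem fred_of_comp {T : V →ₗ[K] W} {i : X →ₗ[K] V} (hi : Fr i) (h : Fr (T ∘ₗ i)) : Fr T := by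
  refine ⟨?_, fred_coker h.2 (LinearMap.range_comp_le_range i T)⟩
  have h1 := h.1
  have h2 := hi.2
  -- the kernel of `T` meets the range of `i` in a finite-dimensional space
  let g : LinearMap.ker T →ₗ[K] V ⧸ LinearMap.range i :=
    (LinearMap.range i).mkQ ∘ₗ (LinearMap.ker T).subtype
  have hk : Module.Finite K (LinearMap.ker g) := by
    let u : LinearMap.ker (T ∘ₗ i) →ₗ[K] LinearMap.ker T :=
      LinearMap.codRestrict _ (i ∘ₗ (LinearMap.ker (T ∘ₗ i)).subtype) (fun x => x.2)
    have hu : LinearMap.ker g ≤ LinearMap.range u := by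
      rintro ⟨x, hx⟩ hxg
      have h3 : x ∈ LinearMap.range i := by
        have : (LinearMap.range i).mkQ x = 0 := hxg
        simpa using this
      obtain ⟨z, rfl⟩ := h3
      exact ⟨⟨z, hx⟩, rfl⟩
    have : Module.Finite K (LinearMap.range u) := inferInstance
    exact Submodule.finiteDimensional_of_le hu
  have hr : Module.Finite K (LinearMap.range g) := inferInstance
  have hq : Module.Finite K (LinearMap.ker T ⧸ LinearMap.ker g) :=
    Module.Finite.equiv g.quotKerEquivRange.symm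
  exact Module.Finite.of_submodule_quotient (LinearMap.ker g)

theorem fred_ker_incl {F : V →ₗ[K] W} (h' : FinRk F) : Fr (LinearMap.ker F).subtype := by
  have h2 : Module.Finite K (LinearMap.range F) := h'
  refine ⟨?_, ?_⟩
  · rw [Submodule.ker_subtype]
    infer_instance
  · rw [Submodule.range_subtype]
    exact Module.Finite.equiv F.quotKerEquivRange.symm

theorem fred_add_comp (T F : V →ₗ[K] W) :
    (T + F) ∘ₗ (LinearMap.ker F).subtype = T ∘ₗ (LinearMap.ker F).subtype := by
  ext x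
  simp

theorem Fr.add {T F : V →ₗ[K] W} (h : Fr T) (h' : FinRk F) : Fr (T + F) := by
  have hi := fred_ker_incl h'
  apply fred_of_comp hi
  rw [fred_add_comp]
  exact Fr.comp h hi

theorem fi_add {T F : V →ₗ[K] W} (h : Fr T) (h' : FinRk F) : fi (T + F) = fi T := by
  have hi := fred_ker_incl h'
  have h1 := fi_comp (h.add h') hi
  have h2 := fi_comp h hi
  rw [fred_add_comp, h2] at h1
  linarith

theorem fred_id : Fr (LinearMap.id : V →ₗ[K] V) := by
  refine ⟨?_, ?_⟩
  · rw [LinearMap.ker_id]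
    infer_instance
  · rw [LinearMap.range_id]
    infer_instance

theorem Fr.of_par {T : V →ₗ[K] W} {A : W →ₗ[K] V} (h : FinRk (A ∘ₗ T - LinearMap.id))
    (h' : FinRk (T ∘ₗ A - LinearMap.id)) : Fr T := by
  have h1 : Fr (A ∘ₗ T) := by
    have := Fr.add fred_id h
    rwa [add_sub_cancel] at this
  have h2 : Fr (T ∘ₗ A) := by
    have := Fr.add fred_id h'
    rwa [add_sub_cancel] at this
  have h3 := h1.1
  exact ⟨Submodule.finiteDimensional_of_le (LinearMap.ker_le_ker_comp T A),
    fred_coker h2.2 (LinearMap.range_comp_le_range A T)⟩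

theorem fi_finite [Module.Finite K V] [Module.Finite K W] (T : V →ₗ[K] W) :
    Fr T ∧ fi T = (Module.finrank K V : ℤ) - Module.finrank K W := by
  refine ⟨⟨inferInstance, inferInstance⟩, ?_⟩
  have := LinearMap.index_eq_of_finiteDimensional (f := T)
  rw [LinearMap.index_eq_finrank_sub] at this
  exact this

theorem fi_equiv (e : V ≃ₗ[K] W) : Fr (e : V →ₗ[K] W) ∧ fi (e : V →ₗ[K] W) = 0 := by
  refine ⟨⟨?_, ?_⟩, ?_⟩
  · rw [LinearEquiv.ker]
    infer_instance
  · rw [LinearEquiv.range]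
    infer_instance
  · have := LinearEquiv.index_eq_zero (e := e)
    rw [LinearMap.index_eq_finrank_sub] at this
    exact this

theorem fi_left_inv {T : V →ₗ[K] W} {A : W →ₗ[K] V} (h : A ∘ₗ T = LinearMap.id)
    (h' : FinRk (LinearMap.id - T ∘ₗ A)) :
    Fr T ∧ fi T = - (Module.finrank K (LinearMap.range (LinearMap.id - T ∘ₗ A)) : ℤ) := by
  have h1 : ∀ x, A (T x) = x := fun x => by
    have := LinearMap.congr_fun h x
    simpa using this
  have hk : LinearMap.ker T = ⊥ := by
    rw [LinearMap.ker_eq_bot]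
    exact Function.LeftInverse.injective h1
  have hr : LinearMap.ker (LinearMap.id - T ∘ₗ A) = LinearMap.range T := by
    ext w
    simp only [LinearMap.mem_ker, LinearMap.sub_apply, LinearMap.id_apply, LinearMap.comp_apply,
      LinearMap.mem_range, sub_eq_zero]
    constructor
    · intro hw
      exact ⟨A w, hw.symm⟩
    · rintro ⟨x, rfl⟩
      rw [h1]
  have e := (LinearMap.id - T ∘ₗ A).quotKerEquivRange
  rw [hr] at e
  have h2 : Module.Finite K (LinearMap.range (LinearMap.id - T ∘ₗ A)) := h'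
  refine ⟨⟨?_, ?_⟩, ?_⟩
  · rw [hk]
    infer_instance
  · exact Module.Finite.equiv e.symm
  · unfold fi
    rw [hk, finrank_bot, e.finrank_eq]
    simp

theorem fi_pi {ι : Type*} [Fintype ι] {A B : ι → Type*} [∀ i, AddCommGroup (A i)]
    [∀ i, Module K (A i)] [∀ i, AddCommGroup (B i)] [∀ i, Module K (B i)]
    (T : ∀ i, A i →ₗ[K] B i) (h : ∀ i, Fr (T i)) :
    Fr (LinearMap.pi fun i => T i ∘ₗ LinearMap.proj i) ∧
      fi (LinearMap.pi fun i => T i ∘ₗ LinearMap.proj i) = ∑ i, fi (T i) := by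
  classical
  set S : (∀ i, A i) →ₗ[K] (∀ i, B i) := LinearMap.pi fun i => T i ∘ₗ LinearMap.proj i with hS
  have hSa : ∀ x i, S x i = T i (x i) := fun x i => rfl
  -- kernel
  let eK : LinearMap.ker S ≃ₗ[K] ∀ i, LinearMap.ker (T i) :=
    { toFun := fun x i => ⟨x.1 i, by
        have := x.2
        rw [LinearMap.mem_ker] at this
        rw [LinearMap.mem_ker, ← hSa, this]
        rfl⟩
      map_add' := fun x y => rfl
      map_smul' := fun c x => rfl
      invFun := fun y => ⟨fun i => (y i).1, by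
        rw [LinearMap.mem_ker]
        funext i
        rw [hSa]
        exact (y i).2⟩
      left_inv := fun x => rfl
      right_inv := fun y => rfl }
  -- range
  have hR : LinearMap.range S = Submodule.pi Set.univ (fun i => LinearMap.range (T i)) := by
    ext y
    simp only [LinearMap.mem_range, Submodule.mem_pi, Set.mem_univ, forall_true_left]
    constructor
    · rintro ⟨x, rfl⟩ i
      exact ⟨x i, rfl⟩
    · intro hy
      choose x hx using hy
      exact ⟨x, funext fun i => by rw [hSa, hx]⟩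
  let eC : ((∀ i, B i) ⧸ LinearMap.range S) ≃ₗ[K] ∀ i, (B i ⧸ LinearMap.range (T i)) :=
    (Submodule.quotEquivOfEq _ _ hR).trans (Submodule.quotientPi _)
  have f1 : ∀ i, Module.Finite K (LinearMap.ker (T i)) := fun i => (h i).1
  have f2 : ∀ i, Module.Finite K (B i ⧸ LinearMap.range (T i)) := fun i => (h i).2
  refine ⟨⟨Module.Finite.equiv eK.symm, Module.Finite.equiv eC.symm⟩, ?_⟩
  unfold fi
  rw [eK.finrank_eq, eC.finrank_eq, Module.finrank_pi_fintype, Module.finrank_pi_fintype,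
    Finset.sum_sub_distrib]
  push_cast
  rfl

/-- decomposition along complete orthogonal idempotents -/
noncomputable def fred_split {ι : Type*} [Fintype ι] (P : ι → Module.End K V)
    (hP : ∀ i, P i * P i = P i) (hP' : ∀ i j, i ≠ j → P i * P j = 0) (hP1 : ∑ i, P i = 1) :
    V ≃ₗ[K] ∀ i, LinearMap.range (P i) :=
  LinearEquiv.ofBijective (LinearMap.pi fun i => (P i).rangeRestrict) (by
    classical
    constructor
    · intro x y hxy
      have h1 : ∀ i, P i x = P i y := fun i => congrArg Subtype.val (congrFun hxy i)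
      have h2 : ∀ z : V, ∑ i, P i z = z := fun z => by
        rw [← LinearMap.sum_apply, hP1]
        rfl
      rw [← h2 x, ← h2 y]
      exact Finset.sum_congr rfl fun i _ => h1 i
    · intro y
      have h3 : ∀ i j, P i (y j : V) = if i = j then (y j : V) else 0 := by
        intro i j
        obtain ⟨z, hz⟩ := (y j).2
        split_ifs with hij
        · subst hij
          rw [← hz, ← Module.End.mul_apply, hP]
        · rw [← hz, ← Module.End.mul_apply, hP' i j hij]
          rfl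
      refine ⟨∑ j, (y j : V), ?_⟩
      funext i
      apply Subtype.ext
      change P i (∑ j, (y j : V)) = y i
      rw [map_sum, Finset.sum_congr rfl fun j _ => h3 i j]
      simp)

theorem fred_split_apply {ι : Type*} [Fintype ι] (P : ι → Module.End K V)
    (hP : ∀ i, P i * P i = P i) (hP' : ∀ i j, i ≠ j → P i * P j = 0) (hP1 : ∑ i, P i = 1)
    (x : V) (i : ι) : ((fred_split P hP hP' hP1 x i : LinearMap.range (P i)) : V) = P i x := rfl

/-- block diagonal maps -/
theorem fi_blocks {ι : Type*} [Fintype ι] (P : ι → Module.End K V) (Q : ι → Module.End K W)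
    (hP : ∀ i, P i * P i = P i) (hP' : ∀ i j, i ≠ j → P i * P j = 0) (hP1 : ∑ i, P i = 1)
    (hQ : ∀ i, Q i * Q i = Q i) (hQ' : ∀ i j, i ≠ j → Q i * Q j = 0) (hQ1 : ∑ i, Q i = 1)
    (T : V →ₗ[K] W) (hT : ∀ i, T ∘ₗ P i = Q i ∘ₗ T) (h : ∀ i, Fr (blk (P i) (Q i) T)) :
    Fr T ∧ fi T = ∑ i, fi (blk (P i) (Q i) T) := by
  obtain ⟨h1, h2⟩ := fi_pi (fun i => blk (P i) (Q i) T) h
  have hTT : T = ((fred_split Q hQ hQ' hQ1).symm : (∀ i, LinearMap.range (Q i)) →ₗ[K] W) ∘ₗ
      ((LinearMap.pi fun i => blk (P i) (Q i) T ∘ₗ LinearMap.proj i) ∘ₗ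
        (fred_split P hP hP' hP1 : V →ₗ[K] ∀ i, LinearMap.range (P i))) := by
    ext x
    simp only [LinearMap.comp_apply, LinearEquiv.coe_coe]
    rw [LinearEquiv.eq_symm_apply]
    funext i
    apply Subtype.ext
    rw [fred_split_apply]
    change Q i (T x) = Q i (T (P i x))
    have e1 : T (P i x) = Q i (T x) := LinearMap.congr_fun (hT i) x
    rw [e1, ← Module.End.mul_apply, hQ]
  obtain ⟨a1, a2⟩ := fi_equiv (fred_split Q hQ hQ' hQ1).symm
  obtain ⟨b1, b2⟩ := fi_equiv (fred_split P hP hP' hP1)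
  have c1 := Fr.comp h1 b1
  constructor
  · rw [hTT]
    exact Fr.comp a1 c1
  · have c2 := fi_comp a1 c1
    rw [← hTT, fi_comp h1 b1, a2, b2, h2] at c2
    simpa using c2

/-- equivalent idempotents have isomorphic ranges -/
noncomputable def fred_rk (P Q : Module.End K V) (a a' : Module.End K V) (h1 : a * a' = P)
    (h2 : a' * a = Q) (hP : P * P = P) (hQ : Q * Q = Q) :
    LinearMap.range P ≃ₗ[K] LinearMap.range Q :=
  have e1 : ∀ x : LinearMap.range P, P (x : V) = x := fun x => by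
    obtain ⟨z, hz⟩ := x.2
    rw [← hz, ← Module.End.mul_apply, hP]
  have e2 : ∀ x : LinearMap.range Q, Q (x : V) = x := fun x => by
    obtain ⟨z, hz⟩ := x.2
    rw [← hz, ← Module.End.mul_apply, hQ]
  have g1 : ∀ v : V, Q (a' v) = a' (P v) := fun v => by
    rw [← h1, ← h2]
    rfl
  have g2 : ∀ v : V, P (a v) = a (Q v) := fun v => by
    rw [← h1, ← h2]
    rfl
  have e3 : ∀ x : LinearMap.range P, Q (a' (x : V)) = a' (x : V) := fun x => by
    rw [g1, e1]
  have e4 : ∀ x : LinearMap.range Q, P (a (x : V)) = a (x : V) := fun x => by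
    rw [g2, e2]
  { toFun := fun x => ⟨a' x, a' x, e3 x⟩
    map_add' := fun x y => Subtype.ext (map_add a' (x : V) y)
    map_smul' := fun c x => Subtype.ext (map_smul a' c (x : V))
    invFun := fun y => ⟨a y, a y, e4 y⟩
    left_inv := fun x => Subtype.ext (by
      change a (a' (x : V)) = x
      rw [← Module.End.mul_apply, h1, e1])
    right_inv := fun y => Subtype.ext (by
      change a' (a (y : V)) = y
      rw [← Module.End.mul_apply, h2, e2]) }

theorem fred_conj_fi {V' W' : Type*} [AddCommGroup V'] [Module K V'] [AddCommGroup W']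
    [Module K W'] (e : V ≃ₗ[K] V') (f : W' ≃ₗ[K] W) (S : V' →ₗ[K] W') :
    fi ((f : W' →ₗ[K] W) ∘ₗ (S ∘ₗ (e : V →ₗ[K] V'))) = fi S := by
  have hk : LinearMap.ker ((f : W' →ₗ[K] W) ∘ₗ (S ∘ₗ (e : V →ₗ[K] V'))) =
      (LinearMap.ker S).comap (e : V →ₗ[K] V') := by
    ext x
    simp
  have hr : (LinearMap.range S).map (f : W' →ₗ[K] W) =
      LinearMap.range ((f : W' →ₗ[K] W) ∘ₗ (S ∘ₗ (e : V →ₗ[K] V'))) := by
    rw [LinearMap.range_comp, LinearMap.range_comp, LinearEquiv.range, Submodule.map_top]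
  have k1 := (LinearEquiv.ofEq _ _ hk).finrank_eq
  have k2 := (e.ofSubmodule' (LinearMap.ker S)).finrank_eq
  have k3 := (Submodule.Quotient.equiv _ _ f hr).finrank_eq
  unfold fi
  rw [k1, k2, ← k3]

/-- blocks related by equivalences of idempotents -/
theorem fi_blk_conj (P P0 : Module.End K V) (Q Q0 : Module.End K W) (T T0 : V →ₗ[K] W)
    (a a' : Module.End K V) (b b' : Module.End K W)
    (h1 : a * a' = P) (h2 : a' * a = P0) (h3 : b * b' = Q) (h4 : b' * b = Q0)
    (hP : P * P = P) (hP0 : P0 * P0 = P0) (hQ : Q * Q = Q) (hQ0 : Q0 * Q0 = Q0)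
    (hT : Q ∘ₗ T ∘ₗ P = b ∘ₗ (Q0 ∘ₗ T0 ∘ₗ P0) ∘ₗ a') :
    (Fr (blk P Q T) ↔ Fr (blk P0 Q0 T0)) ∧ fi (blk P Q T) = fi (blk P0 Q0 T0) := by
  let e := fred_rk P P0 a a' h1 h2 hP hP0
  let f := fred_rk Q Q0 b b' h3 h4 hQ hQ0
  have he : ∀ x : LinearMap.range P, ((e x : LinearMap.range P0) : V) = a' (x : V) := fun x => rfl
  have hf : ∀ y : LinearMap.range Q0, ((f.symm y : LinearMap.range Q) : W) = b (y : W) :=
    fun y => rfl
  have e0 : ∀ x : LinearMap.range P, P (x : V) = x := fun x => by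
    obtain ⟨z, hz⟩ := x.2
    rw [← hz, ← Module.End.mul_apply, hP]
  have e5 : ∀ x : LinearMap.range P0, P0 (x : V) = x := fun x => by
    obtain ⟨z, hz⟩ := x.2
    rw [← hz, ← Module.End.mul_apply, hP0]
  have hB : blk P Q T = (f.symm : LinearMap.range Q0 →ₗ[K] LinearMap.range Q) ∘ₗ
      (blk P0 Q0 T0 ∘ₗ (e : LinearMap.range P →ₗ[K] LinearMap.range P0)) := by
    ext x
    have k1 : ((blk P Q T x : LinearMap.range Q) : W) = Q (T (x : V)) := rfl
    have k2 : ((blk P0 Q0 T0 (e x) : LinearMap.range Q0) : W) = Q0 (T0 (e x : V)) := rfl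
    have k3 := LinearMap.congr_fun hT (x : V)
    simp only [LinearMap.comp_apply] at k3
    rw [e0, ← he, e5] at k3
    simp only [LinearMap.comp_apply, LinearEquiv.coe_coe]
    rw [k1, hf, k2, k3]
  have hB' : blk P0 Q0 T0 = (f : LinearMap.range Q →ₗ[K] LinearMap.range Q0) ∘ₗ
      (blk P Q T ∘ₗ (e.symm : LinearMap.range P0 →ₗ[K] LinearMap.range P)) := by
    rw [hB]
    ext x
    simp
  obtain ⟨a1, a2⟩ := fi_equiv e
  obtain ⟨b1, b2⟩ := fi_equiv e.symm
  obtain ⟨c1, c2⟩ := fi_equiv f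
  obtain ⟨d1, d2⟩ := fi_equiv f.symm
  have i1 : Fr (blk P Q T) → Fr (blk P0 Q0 T0) := fun h => by
    rw [hB']
    exact Fr.comp c1 (Fr.comp h b1)
  have i2 : Fr (blk P0 Q0 T0) → Fr (blk P Q T) := fun h => by
    rw [hB]
    exact Fr.comp d1 (Fr.comp h a1)
  refine ⟨⟨i1, i2⟩, ?_⟩
  rw [hB]
  exact fred_conj_fi e f.symm _

/-- ranks of equivalent idempotents -/
theorem rank_equiv (P Q : Module.End K V) (a a' : Module.End K V) (h1 : a * a' = P)
    (h2 : a' * a = Q) (hP : P * P = P) (hQ : Q * Q = Q) :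
    Nonempty (LinearMap.range P ≃ₗ[K] LinearMap.range Q) := ⟨fred_rk P Q a a' h1 h2 hP hQ⟩

end Pool.Agent.Helper32.TP
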