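import Pool.Agent.Helper32.TP.Defs
import Pool.Agent.Helper32.LV.MkEq

/-! *-isomorphisms between normal forms. -/

set_option autoImplicit false
set_option linter.unusedSectionVars false

universe k a b a' b'

namespace Pool.Agent.Helper32.TP

open Pool.Agent.Helper32.LV

section aux

variable {V : Type a} {E : Type b} {V' : Type a'} {E' : Type b'}
  {K : Type k} [Field K] [StarRing K]

theorem move3_rep {G : Gr V E} {G' : Gr V' E'} (σ : V ≃ V') (τ : E ≃ E')
    (hs : ∀ e, G'.s (τ e) = σ (G.s e)) (hr : ∀ e, G'.r (τ e) = σ (G.r e)) :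
    IsRep K G (fun v => vx K G' (σ v)) (fun e => ed K G' (τ e))
      (fun e => star (ed K G' (τ e))) where
  vv v := vx_vx _
  vw v w h := vx_vx_of_ne (σ.injective.ne h)
  se e := by rw [← hs]; exact vx_ed _
  er e := by rw [← hr]; exact ed_vx _
  rg e := by rw [← hr, star_ed]; exact vx_gh _
  gs e := by rw [← hs, star_ed]; exact gh_vx _
  ge e := by rw [← hr, star_ed]; exact gh_ed _
  gf e f h := by rw [star_ed]; exact gh_ed_of_ne (τ.injective.ne h)
  ck v h h0 := by
    have h1 : ∀ e : E, G'.s (τ e) = σ v ↔ G.s e = v := by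
      intro e
      rw [hs, σ.apply_eq_iff_eq]
    have h2 : {e' | G'.s e' = σ v}.Finite := by
      refine (h.image τ).subset ?_
      intro e' he'
      refine ⟨τ.symm e', ?_, τ.apply_symm_apply e'⟩
      have he2 : G'.s (τ (τ.symm e')) = σ v := by rw [τ.apply_symm_apply]; exact he'
      exact (h1 _).1 he2
    obtain ⟨e0, he0⟩ := h0
    rw [vx_eq_sum (σ v) h2 ⟨τ e0, (h1 e0).2 he0⟩]
    symm
    refine Finset.sum_equiv τ ?_ ?_
    · intro e
      rw [Set.Finite.mem_toFinset, Set.Finite.mem_toFinset]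
      exact (h1 e).symm
    · intro e _
      rw [star_ed]

end aux

variable {V : Type a} {E : Type b} {V' : Type a'} {E' : Type b'}
  (K : Type k) [Field K] [StarRing K]

/-- PIECE 12a. isomorphic graphs -/
theorem graph_iso (G : Gr V E) (G' : Gr V' E') (σ : V ≃ V') (τ : E ≃ E')
    (hs : ∀ e, G'.s (τ e) = σ (G.s e)) (hr : ∀ e, G'.r (τ e) = σ (G.r e)) :
    Nonempty (L K G ≃⋆ₐ[K] L K G') := by
  have hs' : ∀ e, G.s (τ.symm e) = σ.symm (G'.s e) := by
    intro e
    rw [← τ.apply_symm_apply e, hs, σ.symm_apply_apply, τ.symm_apply_apply]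
  have hr' : ∀ e, G.r (τ.symm e) = σ.symm (G'.r e) := by
    intro e
    rw [← τ.apply_symm_apply e, hr, σ.symm_apply_apply, τ.symm_apply_apply]
  refine mkEquiv (move3_rep σ τ hs hr) (move3_rep σ.symm τ.symm hs' hr') (fun v => vx_mem _)
    (fun e => ed_mem _) (fun v => vx_mem _) (fun e => ed_mem _) ?_ ?_ ?_ ?_
    (fun v => star_vx _) (fun v => star_vx _)
  · intro v
    rw [lift_vx, σ.symm_apply_apply]
  · intro e
    rw [lift_ed, τ.symm_apply_apply]
  · intro v
    rw [lift_vx, σ.apply_symm_apply]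
  · intro e
    rw [lift_ed, τ.apply_symm_apply]

section aux2

variable {C C' : Type a} {S S' : Type b} {D : Dat C S} {D' : Dat C' S'} (σ : C ≃ C')
    (ρ : S ≃ S') (hn : ∀ i j, D'.n (σ i) (ρ j) = D.n i j) (ha : ∀ i, D'.a (σ i) = D.a i)
    (hb : ∀ j, D'.b (ρ j) = D.b j)

/-- the map on vertices -/
def move3_fv : NV D → NV D'
  | .v i s => .v (σ i) (s.map (Fin.cast (ha i).symm))
  | .w j r => .w (ρ j) (r.map (Fin.cast (hb j).symm))

/-- the map on edges -/
def move3_fe : NE D → NE D'
  | .z i => .z (σ i)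
  | .f i j k => .f (σ i) (ρ j) (Fin.cast (hn i j).symm k)
  | .g i s => .g (σ i) (Fin.cast (ha i).symm s)
  | .h j r => .h (ρ j) (Fin.cast (hb j).symm r)

theorem move3_cast_inj {m n : ℕ} (h : m = n) : Function.Injective (Fin.cast h) :=
  Fin.cast_injective h

theorem move3_fv_bij : Function.Bijective (move3_fv σ ρ ha hb) := by
  constructor
  · rintro (⟨i, s⟩ | ⟨j, r⟩) (⟨i', s'⟩ | ⟨j', r'⟩) h
    · have h1 : i = i' := by
        unfold move3_fv at h
        injection h with h1 h2
        exact σ.injective h1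
      subst h1
      unfold move3_fv at h
      injection h with h1 h2
      have := Option.map_injective (move3_cast_inj _) h2
      rw [this]
    · simp [move3_fv] at h
    · simp [move3_fv] at h
    · have h1 : j = j' := by
        unfold move3_fv at h
        injection h with h1 h2
        exact ρ.injective h1
      subst h1
      unfold move3_fv at h
      injection h with h1 h2
      have := Option.map_injective (move3_cast_inj _) h2
      rw [this]
  · rintro (⟨i, s⟩ | ⟨j, r⟩)
    · obtain ⟨i, rfl⟩ := σ.surjective i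
      refine ⟨.v i (s.map (Fin.cast (ha i))), ?_⟩
      unfold move3_fv
      cases s <;> rfl
    · obtain ⟨j, rfl⟩ := ρ.surjective j
      refine ⟨.w j (r.map (Fin.cast (hb j))), ?_⟩
      unfold move3_fv
      cases r <;> rfl

theorem move3_fe_bij : Function.Bijective (move3_fe σ ρ hn ha hb) := by
  constructor
  · rintro (⟨i⟩ | ⟨i, j, k⟩ | ⟨i, s⟩ | ⟨j, r⟩) (⟨i'⟩ | ⟨i', j', k'⟩ | ⟨i', s'⟩ | ⟨j', r'⟩) h
    · unfold move3_fe at h
      injection h with h1
      rw [σ.injective h1]
    · simp [move3_fe] at h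
    · simp [move3_fe] at h
    · simp [move3_fe] at h
    · simp [move3_fe] at h
    · have h1 : i = i' := by
        unfold move3_fe at h
        injection h with h1 h2
        exact σ.injective h1
      have h2 : j = j' := by
        unfold move3_fe at h
        injection h with h1 h2
        exact ρ.injective h2
      subst h1 h2
      unfold move3_fe at h
      injection h with h1 h2 h3
      rw [move3_cast_inj _ h3]
    · simp [move3_fe] at h
    · simp [move3_fe] at h
    · simp [move3_fe] at h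
    · simp [move3_fe] at h
    · have h1 : i = i' := by
        unfold move3_fe at h
        injection h with h1 h2
        exact σ.injective h1
      subst h1
      unfold move3_fe at h
      injection h with h1 h2
      rw [move3_cast_inj _ h2]
    · simp [move3_fe] at h
    · simp [move3_fe] at h
    · simp [move3_fe] at h
    · simp [move3_fe] at h
    · have h1 : j = j' := by
        unfold move3_fe at h
        injection h with h1 h2
        exact ρ.injective h1
      subst h1
      unfold move3_fe at h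
      injection h with h1 h2
      rw [move3_cast_inj _ h2]
  · rintro (⟨i⟩ | ⟨i, j, k⟩ | ⟨i, s⟩ | ⟨j, r⟩)
    · obtain ⟨i, rfl⟩ := σ.surjective i
      exact ⟨.z i, rfl⟩
    · obtain ⟨i, rfl⟩ := σ.surjective i
      obtain ⟨j, rfl⟩ := ρ.surjective j
      exact ⟨.f i j (Fin.cast (hn i j) k), rfl⟩
    · obtain ⟨i, rfl⟩ := σ.surjective i
      exact ⟨.g i (Fin.cast (ha i) s), rfl⟩
    · obtain ⟨j, rfl⟩ := ρ.surjective j
      exact ⟨.h j (Fin.cast (hb j) r), rfl⟩

end aux2

/-- PIECE 12b. -/
theorem relabel {C C' : Type a} {S S' : Type b} (D : Dat C S) (D' : Dat C' S') (σ : C ≃ C')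
    (ρ : S ≃ S') (hn : ∀ i j, D'.n (σ i) (ρ j) = D.n i j) (ha : ∀ i, D'.a (σ i) = D.a i)
    (hb : ∀ j, D'.b (ρ j) = D.b j) : Nonempty (L K (NG D) ≃⋆ₐ[K] L K (NG D')) := by
  refine graph_iso K (NG D) (NG D') (Equiv.ofBijective _ (move3_fv_bij σ ρ ha hb))
    (Equiv.ofBijective _ (move3_fe_bij σ ρ hn ha hb)) ?_ ?_
  · rintro (⟨i⟩ | ⟨i, j, k⟩ | ⟨i, s⟩ | ⟨j, r⟩) <;> rfl
  · rintro (⟨i⟩ | ⟨i, j, k⟩ | ⟨i, s⟩ | ⟨j, r⟩) <;> rfl

end Pool.Agent.Helper32.TP
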