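import Pool.Agent.Helper32.TP.Defs
import Pool.Agent.Helper32.LV.MkEq

/-! *-isomorphisms between normal forms. -/

set_option autoImplicit false
set_option linter.unusedSectionVars false

universe k a b a' b'

namespace Pool.Agent.Helper32.TP

open Pool.Agent.Helper32.LV

/-- add the row `i` to the multiplicities of the sinks -/
def Dat.row {C : Type a} {S : Type b} (D : Dat C S) (i : C) : Dat C S where
  n := D.n
  a := D.a
  b j := D.b j + D.n i j

section move1aux

variable {C : Type a} {S : Type b} [Fintype C] [Fintype S] [DecidableEq C] [DecidableEq S]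
  {D : Dat C S}

theorem move1_set (i : C) : ∃ s : Finset (NE D), (∀ e, e ∈ s ↔ (NG D).s e = .v i none) ∧
    ∀ {B : Type (max k a b)} [AddCommMonoid B] (F : NE D → B),
      ∑ e ∈ s, F e = F (.z i) + ∑ p : Σ j, Fin (D.n i j), F (.f i p.1 p.2) := by
  classical
  have hinj : Function.Injective (fun p : Σ j, Fin (D.n i j) => (NE.f i p.1 p.2 : NE D)) := by
    rintro ⟨j, k⟩ ⟨j', k'⟩ h
    simp only [NE.f.injEq, true_and] at h
    obtain ⟨rfl, h2⟩ := h
    rw [eq_of_heq h2]
  refine ⟨insert (.z i) ((Finset.univ : Finset (Σ j, Fin (D.n i j))).map ⟨_, hinj⟩), ?_, ?_⟩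
  · intro e
    rw [Finset.mem_insert, Finset.mem_map]
    constructor
    · rintro (rfl | ⟨p, -, rfl⟩) <;> rfl
    · intro h
      rcases e with ⟨i'⟩ | ⟨i', j, k⟩ | ⟨i', s⟩ | ⟨j, r⟩
      · left
        simp only [NG, NV.v.injEq] at h
        obtain ⟨rfl, -⟩ := h
        rfl
      · right
        simp only [NG, NV.v.injEq] at h
        obtain ⟨rfl, -⟩ := h
        exact ⟨⟨j, k⟩, Finset.mem_univ _, rfl⟩
      · simp only [NG, NV.v.injEq] at h
        obtain ⟨rfl, h2⟩ := h
        simp at h2
      · simp [NG] at h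
  · intro B _ F
    rw [Finset.sum_insert, Finset.sum_map]
    · rfl
    · intro h
      obtain ⟨p, -, hp⟩ := Finset.mem_map.mp h
      simp at hp


variable {K : Type k} [Field K] [StarRing K]

theorem move1_single {e0 : NE D} {v : NV D} (h0 : ∀ e, (NG D).s e = v ↔ e = e0)
    (h : {e | (NG D).s e = v}.Finite) {B : Type (max k a b)} [AddCommMonoid B] (F : NE D → B) :
    ∑ e ∈ h.toFinset, F e = F e0 := by
  classical
  have : h.toFinset = {e0} := by
    ext e
    rw [Set.Finite.mem_toFinset, Finset.mem_singleton]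
    exact h0 e
  rw [this, Finset.sum_singleton]

theorem move1_sg (i : C) (s : Fin (D.a i)) (e : NE D) :
    (NG D).s e = .v i (some s) ↔ e = .g i s := by
  constructor
  · intro h
    rcases e with ⟨i'⟩ | ⟨i', j, k⟩ | ⟨i', s'⟩ | ⟨j, r⟩
    · simp only [NG, NV.v.injEq] at h
      obtain ⟨rfl, h2⟩ := h
      simp at h2
    · simp only [NG, NV.v.injEq] at h
      obtain ⟨rfl, h2⟩ := h
      simp at h2
    · simp only [NG, NV.v.injEq] at h
      obtain ⟨rfl, h2⟩ := h
      have := Option.some.inj (eq_of_heq h2)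
      rw [this]
    · simp [NG] at h
  · rintro rfl; rfl

theorem move1_sh (j : S) (r : Fin (D.b j)) (e : NE D) :
    (NG D).s e = .w j (some r) ↔ e = .h j r := by
  constructor
  · intro h
    rcases e with ⟨i'⟩ | ⟨i', j, k⟩ | ⟨i', s'⟩ | ⟨j, r⟩
    · simp [NG] at h
    · simp [NG] at h
    · simp [NG] at h
    · simp only [NG, NV.w.injEq] at h
      obtain ⟨rfl, h2⟩ := h
      have := Option.some.inj (eq_of_heq h2)
      rw [this]
  · rintro rfl; rfl

theorem move1_nosink (j : S) (e : NE D) : (NG D).s e ≠ .w j none := by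
  intro h
  rcases e with ⟨i'⟩ | ⟨i', j, k⟩ | ⟨i', s'⟩ | ⟨j, r⟩
  · simp [NG] at h
  · simp [NG] at h
  · simp [NG] at h
  · simp only [NG, NV.w.injEq] at h
    obtain ⟨rfl, h2⟩ := h
    simp at h2

/-- the relation at the vertex with the loop -/
theorem move1_ck (i : C) : vx K (NG D) (.v i none) = ed K (NG D) (.z i) * gh K (NG D) (.z i) +
    ∑ p : Σ j, Fin (D.n i j), ed K (NG D) (.f i p.1 p.2) * gh K (NG D) (.f i p.1 p.2) := by
  classical
  obtain ⟨s, h1, h2⟩ := move1_set.{k} (D := D) i
  have hf : {e | (NG D).s e = .v i none}.Finite := by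
    refine s.finite_toSet.subset ?_
    intro e he
    exact (h1 e).2 he
  have hs : hf.toFinset = s := by
    ext e
    rw [Set.Finite.mem_toFinset, h1]
    exact Iff.rfl
  rw [vx_eq_sum (K := K) (G := NG D) (.v i none) hf ⟨.z i, rfl⟩, hs, h2]

theorem move1_ckg (i : C) (s : Fin (D.a i)) :
    vx K (NG D) (.v i (some s)) = ed K (NG D) (.g i s) * gh K (NG D) (.g i s) := by
  have hf : {e | (NG D).s e = .v i (some s)}.Finite := by
    refine (Set.finite_singleton (NE.g i s : NE D)).subset ?_
    intro e he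
    exact (move1_sg i s e).1 he
  rw [vx_eq_sum (K := K) (G := NG D) (.v i (some s)) hf ⟨.g i s, rfl⟩,
    move1_single (move1_sg i s)]

theorem move1_ckh (j : S) (r : Fin (D.b j)) :
    vx K (NG D) (.w j (some r)) = ed K (NG D) (.h j r) * gh K (NG D) (.h j r) := by
  have hf : {e | (NG D).s e = .w j (some r)}.Finite := by
    refine (Set.finite_singleton (NE.h j r : NE D)).subset ?_
    intro e he
    exact (move1_sh j r e).1 he
  rw [vx_eq_sum (K := K) (G := NG D) (.w j (some r)) hf ⟨.h j r, rfl⟩,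
    move1_single (move1_sh j r)]

/-- checking the relations for the graph of a normal form -/
theorem move1_rep {B : Type (max k a b)} [Ring B] [StarRing B] [Algebra K B] {q : NV D → B}
    {u : NE D → B} (hs : ∀ v, star (q v) = q v) (vv : ∀ v, q v * q v = q v)
    (vw : ∀ v w, v ≠ w → q v * q w = 0)
    (se : ∀ e, q ((NG D).s e) * u e = u e) (er : ∀ e, u e * q ((NG D).r e) = u e)
    (ge : ∀ e, star (u e) * u e = q ((NG D).r e))
    (zf : ∀ i (p : Σ j, Fin (D.n i j)), star (u (.z i)) * u (.f i p.1 p.2) = 0)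
    (ff : ∀ i (p p' : Σ j, Fin (D.n i j)), p ≠ p' →
      star (u (.f i p.1 p.2)) * u (.f i p'.1 p'.2) = 0)
    (c1 : ∀ i, q (.v i none) = u (.z i) * star (u (.z i)) +
      ∑ p : Σ j, Fin (D.n i j), u (.f i p.1 p.2) * star (u (.f i p.1 p.2)))
    (c2 : ∀ i s, q (.v i (some s)) = u (.g i s) * star (u (.g i s)))
    (c3 : ∀ j r, q (.w j (some r)) = u (.h j r) * star (u (.h j r))) :
    IsRep K (NG D) q u (fun e => star (u e)) where
  vv := vv
  vw := vw
  se := se
  er := er
  rg e := by
    have := congrArg star (er e)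
    rwa [star_mul, hs] at this
  gs e := by
    have := congrArg star (se e)
    rwa [star_mul, hs] at this
  ge := ge
  gf e f hne := by
    have hgs : ∀ e, star (u e) * q ((NG D).s e) = star (u e) := by
      intro e
      have := congrArg star (se e)
      rwa [star_mul, hs] at this
    by_cases h : (NG D).s e = (NG D).s f
    · rcases f with ⟨i⟩ | ⟨i, j, k⟩ | ⟨i, s⟩ | ⟨j, r⟩
      · rcases e with ⟨i'⟩ | ⟨i', j, k⟩ | ⟨i', s'⟩ | ⟨j, r⟩
        · simp only [NG, NV.v.injEq] at h
          exact absurd (by rw [h.1]) hne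
        · simp only [NG, NV.v.injEq] at h
          obtain ⟨rfl, -⟩ := h
          have := congrArg star (zf i' ⟨j, k⟩)
          rwa [star_mul, star_star, star_zero] at this
        · simp only [NG, NV.v.injEq] at h
          obtain ⟨rfl, h2⟩ := h
          simp at h2
        · simp [NG] at h
      · rcases e with ⟨i'⟩ | ⟨i', j', k'⟩ | ⟨i', s'⟩ | ⟨j', r⟩
        · simp only [NG, NV.v.injEq] at h
          obtain ⟨rfl, -⟩ := h
          exact zf i' ⟨j, k⟩
        · simp only [NG, NV.v.injEq] at h
          obtain ⟨rfl, -⟩ := h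
          refine ff i' ⟨j', k'⟩ ⟨j, k⟩ ?_
          intro h3
          apply hne
          simp only [Sigma.mk.injEq] at h3
          obtain ⟨rfl, h4⟩ := h3
          rw [eq_of_heq h4]
        · simp only [NG, NV.v.injEq] at h
          obtain ⟨rfl, h2⟩ := h
          simp at h2
        · simp [NG] at h
      · exact absurd ((move1_sg i s e).1 h) hne
      · exact absurd ((move1_sh j r e).1 h) hne
    · rw [← se f, ← hgs e]
      calc star (u e) * q ((NG D).s e) * (q ((NG D).s f) * u f)
          = star (u e) * (q ((NG D).s e) * q ((NG D).s f)) * u f := by noncomm_ring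
        _ = 0 := by rw [vw _ _ h, mul_zero, zero_mul]
  ck v h h0 := by
    classical
    rcases v with ⟨i, s⟩ | ⟨j, r⟩
    · rcases s with _ | s
      · obtain ⟨s, h1, h2⟩ := move1_set.{k} (D := D) i
        have hs : h.toFinset = s := by
          ext e
          rw [Set.Finite.mem_toFinset, h1]
          exact Iff.rfl
        rw [hs, h2]
        exact c1 i
      · rw [move1_single (move1_sg i s) h]
        exact c2 i s
    · rcases r with _ | r
      · obtain ⟨e, he⟩ := h0
        exact absurd he (move1_nosink j e)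
      · rw [move1_single (move1_sh j r) h]
        exact c3 j r


end move1aux

section move1psi

variable {C : Type a} {S : Type b} [DecidableEq C]
  (K : Type k) [Field K] [StarRing K] (D : Dat C S) (i0 : C)

/-- the local isometry -/
noncomputable def move1_T (i : C) : U K (NG D) :=
  if i = i0 then ed K (NG D) (.z i) else vx K (NG D) (.v i none)

theorem move1_T1 (i : C) : star (move1_T K D i0 i) * move1_T K D i0 i =
    vx K (NG D) (.v i none) := by
  unfold move1_T
  split_ifs
  · rw [star_ed]; exact gh_ed (K := K) (G := NG D) (.z i)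
  · rw [star_vx, vx_vx]

theorem move1_T2 (i : C) : vx K (NG D) (.v i none) * move1_T K D i0 i = move1_T K D i0 i := by
  unfold move1_T
  split_ifs
  · exact vx_ed (K := K) (G := NG D) (.z i)
  · rw [vx_vx]

theorem move1_T3 (i : C) : move1_T K D i0 i * vx K (NG D) (.v i none) = move1_T K D i0 i := by
  unfold move1_T
  split_ifs
  · exact ed_vx (K := K) (G := NG D) (.z i)
  · rw [vx_vx]

theorem move1_T2s (i : C) : star (move1_T K D i0 i) * vx K (NG D) (.v i none) =
    star (move1_T K D i0 i) := by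
  have := congrArg star (move1_T2 K D i0 i)
  rwa [star_mul, star_vx] at this

theorem move1_T3s (i : C) : vx K (NG D) (.v i none) * star (move1_T K D i0 i) =
    star (move1_T K D i0 i) := by
  have := congrArg star (move1_T3 K D i0 i)
  rwa [star_mul, star_vx] at this

theorem move1_T4 (i : C) (j : S) (k : Fin (D.n i0 j)) :
    star (move1_T K D i0 i) * ed K (NG D) (.f i0 j k) = 0 := by
  by_cases h : i = i0
  · subst h
    rw [move1_T, if_pos rfl, star_ed]
    exact gh_ed_of_ne (by simp)
  · rw [← move1_T2s, ← vx_ed (K := K) (G := NG D) (.f i0 j k), mul_assoc,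
      ← mul_assoc (vx K (NG D) (.v i none))]
    change star (move1_T K D i0 i) * (vx K (NG D) (.v i none) * vx K (NG D) (.v i0 none) *
      ed K (NG D) (.f i0 j k)) = 0
    rw [vx_vx_of_ne (by intro h'; simp only [NV.v.injEq] at h'; exact h h'.1), zero_mul, mul_zero]

/-- the old sink copies -/
def move1_wl (j : S) (r : Fin (D.b j)) : Fin ((D.row i0).b j) :=
  (Fin.castAdd (D.n i0 j) r : Fin (D.b j + D.n i0 j))

/-- the new sink copies -/
def move1_wr (j : S) (k : Fin (D.n i0 j)) : Fin ((D.row i0).b j) :=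
  (Fin.natAdd (D.b j) k : Fin (D.b j + D.n i0 j))

/-- definition by cases on the copies -/
def move1_ac {X : Type*} (j : S) (f : Fin (D.b j) → X) (g : Fin (D.n i0 j) → X)
    (r : Fin ((D.row i0).b j)) : X :=
  Fin.addCases (m := D.b j) (n := D.n i0 j) (motive := fun _ => X) f g r

theorem move1_ac_l {X : Type*} (j : S) (f : Fin (D.b j) → X) (g : Fin (D.n i0 j) → X)
    (r : Fin (D.b j)) : move1_ac D i0 j f g (move1_wl D i0 j r) = f r :=
  Fin.addCases_left (motive := fun _ => X) r

theorem move1_ac_r {X : Type*} (j : S) (f : Fin (D.b j) → X) (g : Fin (D.n i0 j) → X)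
    (k : Fin (D.n i0 j)) : move1_ac D i0 j f g (move1_wr D i0 j k) = g k :=
  Fin.addCases_right (motive := fun _ => X) k

/-- images of the vertices -/
noncomputable def move1_q' : NV (D.row i0) → U K (NG D)
  | .v i none => move1_T K D i0 i * star (move1_T K D i0 i)
  | .v i (some s) => vx K (NG D) (.v i (some s))
  | .w j none => vx K (NG D) (.w j none)
  | .w j (some r) => move1_ac D i0 j
      (fun r => vx K (NG D) (.w j (some r)))
      (fun k => ed K (NG D) (.f i0 j k) * gh K (NG D) (.f i0 j k)) r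

/-- images of the edges -/
noncomputable def move1_u' : NE (D.row i0) → U K (NG D)
  | .z i => move1_T K D i0 i * ed K (NG D) (.z i) * star (move1_T K D i0 i)
  | .f i j k => move1_T K D i0 i * ed K (NG D) (.f i j k)
  | .g i s => ed K (NG D) (.g i s) * star (move1_T K D i0 i)
  | .h j r => move1_ac D i0 j
      (fun r => ed K (NG D) (.h j r)) (fun k => ed K (NG D) (.f i0 j k)) r

theorem move1_cases {j : S} {P : Fin ((D.row i0).b j) → Prop}
    (h1 : ∀ r, P (move1_wl D i0 j r)) (h2 : ∀ k, P (move1_wr D i0 j k))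
    (r : Fin ((D.row i0).b j)) : P r := by
  have : ∀ r : Fin (D.b j + D.n i0 j), P r := fun r =>
    Fin.addCases (motive := fun r => P r) h1 h2 r
  exact this r

theorem move1_qwl (j : S) (r : Fin (D.b j)) :
    move1_q' K D i0 (.w j (some (move1_wl D i0 j r))) = vx K (NG D) (.w j (some r)) := by
  rw [move1_q', move1_ac_l]

theorem move1_qwr (j : S) (k : Fin (D.n i0 j)) :
    move1_q' K D i0 (.w j (some (move1_wr D i0 j k))) =
      ed K (NG D) (.f i0 j k) * gh K (NG D) (.f i0 j k) := by
  rw [move1_q', move1_ac_r]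

theorem move1_uwl (j : S) (r : Fin (D.b j)) :
    move1_u' K D i0 (.h j (move1_wl D i0 j r)) = ed K (NG D) (.h j r) := by
  rw [move1_u', move1_ac_l]

theorem move1_uwr (j : S) (k : Fin (D.n i0 j)) :
    move1_u' K D i0 (.h j (move1_wr D i0 j k)) = ed K (NG D) (.f i0 j k) := by
  rw [move1_u', move1_ac_r]

theorem move1_wl_ne (j : S) (r : Fin (D.b j)) (k : Fin (D.n i0 j)) :
    move1_wl D i0 j r ≠ move1_wr D i0 j k := by
  intro h
  have := congrArg Fin.val h
  change (r : ℕ) = D.b j + k at this
  omega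

theorem move1_wl_inj (j : S) {r r' : Fin (D.b j)} (h : move1_wl D i0 j r = move1_wl D i0 j r') :
    r = r' := by
  have := congrArg Fin.val h
  exact Fin.ext this

theorem move1_wr_inj (j : S) {k k' : Fin (D.n i0 j)}
    (h : move1_wr D i0 j k = move1_wr D i0 j k') : k = k' := by
  have := congrArg Fin.val h
  change D.b j + (k : ℕ) = D.b j + k' at this
  exact Fin.ext (by omega)


theorem move1_TT (i : C) (x : U K (NG D)) :
    star (move1_T K D i0 i) * (move1_T K D i0 i * x) = vx K (NG D) (.v i none) * x := by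
  rw [← mul_assoc, move1_T1]

theorem move1_Tv (i : C) (x : U K (NG D)) :
    move1_T K D i0 i * (vx K (NG D) (.v i none) * x) = move1_T K D i0 i * x := by
  rw [← mul_assoc, move1_T3]

theorem move1_vz (i : C) (x : U K (NG D)) :
    vx K (NG D) (.v i none) * (ed K (NG D) (.z i) * x) = ed K (NG D) (.z i) * x := by
  have h : vx K (NG D) (.v i none) * ed K (NG D) (.z i) = ed K (NG D) (.z i) :=
    vx_ed (K := K) (G := NG D) (.z i)
  rw [← mul_assoc, h]

theorem move1_vf (i : C) (j : S) (k : Fin (D.n i j)) :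
    vx K (NG D) (.v i none) * ed K (NG D) (.f i j k) = ed K (NG D) (.f i j k) :=
  vx_ed (K := K) (G := NG D) (.f i j k)

theorem move1_fw (i : C) (j : S) (k : Fin (D.n i j)) :
    ed K (NG D) (.f i j k) * vx K (NG D) (.w j none) = ed K (NG D) (.f i j k) :=
  ed_vx (K := K) (G := NG D) (.f i j k)

theorem move1_gv (i : C) (s : Fin (D.a i)) (x : U K (NG D)) :
    ed K (NG D) (.g i s) * (vx K (NG D) (.v i none) * x) = ed K (NG D) (.g i s) * x := by
  have h : ed K (NG D) (.g i s) * vx K (NG D) (.v i none) = ed K (NG D) (.g i s) :=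
    ed_vx (K := K) (G := NG D) (.g i s)
  rw [← mul_assoc, h]

theorem move1_fsf (i : C) (j : S) (k : Fin (D.n i j)) :
    gh K (NG D) (.f i j k) * ed K (NG D) (.f i j k) = vx K (NG D) (.w j none) :=
  gh_ed (K := K) (G := NG D) (.f i j k)

/-- the old vertex over a new one -/
def move1_rho : NV (D.row i0) → NV D
  | .v i s => .v i s
  | .w j none => .w j none
  | .w j (some r) => move1_ac D i0 j (fun r => .w j (some r)) (fun _ => .v i0 none) r

/-- the new vertex of an old one -/
def move1_iota : NV D → NV (D.row i0)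
  | .v i s => .v i s
  | .w j none => .w j none
  | .w j (some r) => .w j (some (move1_wl D i0 j r))

theorem move1_kind (v : NV (D.row i0)) : v = move1_iota D i0 (move1_rho D i0 v) ∨
    ∃ j k, v = .w j (some (move1_wr D i0 j k)) := by
  rcases v with ⟨i, s⟩ | ⟨j, _ | r⟩
  · exact Or.inl rfl
  · exact Or.inl rfl
  · refine move1_cases D i0 (P := fun r => (NV.w j (some r) : NV (D.row i0)) =
      move1_iota D i0 (move1_rho D i0 (.w j (some r))) ∨
      ∃ j' k, (NV.w j (some r) : NV (D.row i0)) = .w j' (some (move1_wr D i0 j' k))) ?_ ?_ r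
    · intro r
      left
      rw [move1_rho, move1_ac_l]; rfl
    · intro k
      exact Or.inr ⟨j, k, rfl⟩

theorem move1_rho_wr (j : S) (k : Fin (D.n i0 j)) :
    move1_rho D i0 (.w j (some (move1_wr D i0 j k))) = .v i0 none := by
  rw [move1_rho, move1_ac_r]

theorem move1_supp (v : NV (D.row i0)) :
    vx K (NG D) (move1_rho D i0 v) * move1_q' K D i0 v = move1_q' K D i0 v ∧
    move1_q' K D i0 v * vx K (NG D) (move1_rho D i0 v) = move1_q' K D i0 v := by
  rcases v with ⟨i, _ | s⟩ | ⟨j, _ | r⟩
  · constructor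
    · change vx K (NG D) (.v i none) * (_ * _) = _ * _
      rw [← mul_assoc, move1_T2]
    · change (_ * _) * vx K (NG D) (.v i none) = _ * _
      rw [mul_assoc, move1_T2s]
  · exact ⟨vx_vx _, vx_vx _⟩
  · exact ⟨vx_vx _, vx_vx _⟩
  · refine move1_cases D i0 (P := fun r => vx K (NG D) (move1_rho D i0 (.w j (some r))) *
      move1_q' K D i0 (.w j (some r)) = move1_q' K D i0 (.w j (some r)) ∧
      move1_q' K D i0 (.w j (some r)) * vx K (NG D) (move1_rho D i0 (.w j (some r))) =
      move1_q' K D i0 (.w j (some r))) ?_ ?_ r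
    · intro r
      rw [move1_rho, move1_ac_l, move1_qwl]
      exact ⟨vx_vx _, vx_vx _⟩
    · intro k
      rw [move1_rho_wr, move1_qwr]
      refine ⟨?_, ?_⟩
      · rw [← mul_assoc, move1_vf]
      · have h : gh K (NG D) (.f i0 j k) * vx K (NG D) (.v i0 none) = gh K (NG D) (.f i0 j k) :=
          gh_vx (K := K) (G := NG D) (.f i0 j k)
        rw [mul_assoc, h]

theorem move1_vw (v w : NV (D.row i0)) (hne : v ≠ w) :
    move1_q' K D i0 v * move1_q' K D i0 w = 0 := by
  by_cases h : move1_rho D i0 v = move1_rho D i0 w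
  · rcases move1_kind D i0 v with hv | ⟨j, k, rfl⟩
    · rcases move1_kind D i0 w with hw | ⟨j, k, rfl⟩
      · exact absurd (hv.trans ((congrArg _ h).trans hw.symm)) hne
      · rw [move1_rho_wr] at h
        rw [h] at hv
        subst hv
        rw [move1_qwr]
        change move1_T K D i0 i0 * star (move1_T K D i0 i0) * _ = 0
        rw [mul_assoc, ← mul_assoc (star _), move1_T4, zero_mul, mul_zero]
    · rcases move1_kind D i0 w with hw | ⟨j', k', rfl⟩
      · rw [move1_rho_wr] at h
        rw [← h] at hw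
        subst hw
        rw [move1_qwr]
        change _ * (move1_T K D i0 i0 * star (move1_T K D i0 i0)) = 0
        have h1 := congrArg star (move1_T4 K D i0 i0 j k)
        rw [star_mul, star_star, star_zero, star_ed] at h1
        rw [mul_assoc, ← mul_assoc (gh K (NG D) _), h1, zero_mul, mul_zero]
      · rw [move1_qwr, move1_qwr, mul_assoc, ← mul_assoc (gh K (NG D) _), gh_ed_of_ne, zero_mul,
          mul_zero]
        intro h2
        apply hne
        simp only [NE.f.injEq, true_and] at h2
        obtain ⟨rfl, h3⟩ := h2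
        rw [eq_of_heq h3]
  · rw [← (move1_supp K D i0 w).1, ← (move1_supp K D i0 v).2, mul_assoc,
      ← mul_assoc (vx K (NG D) _), vx_vx_of_ne h, zero_mul, mul_zero]


theorem move1_fsf' (i : C) (j : S) (k : Fin (D.n i j)) (x : U K (NG D)) :
    gh K (NG D) (.f i j k) * (ed K (NG D) (.f i j k) * x) = vx K (NG D) (.w j none) * x := by
  rw [← mul_assoc, move1_fsf]

theorem move1_Tv0 (i : C) : move1_T K D i0 i * vx K (NG D) (.v i none) = move1_T K D i0 i :=
  move1_T3 K D i0 i

theorem move1_gsg (i : C) (s : Fin (D.a i)) (x : U K (NG D)) :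
    gh K (NG D) (.g i s) * (ed K (NG D) (.g i s) * x) = vx K (NG D) (.v i none) * x := by
  have h : gh K (NG D) (.g i s) * ed K (NG D) (.g i s) = vx K (NG D) (.v i none) :=
    gh_ed (K := K) (G := NG D) (.g i s)
  rw [← mul_assoc, h]

theorem move1_zsz (i : C) (x : U K (NG D)) :
    gh K (NG D) (.z i) * (ed K (NG D) (.z i) * x) = vx K (NG D) (.v i none) * x := by
  have h : gh K (NG D) (.z i) * ed K (NG D) (.z i) = vx K (NG D) (.v i none) :=
    gh_ed (K := K) (G := NG D) (.z i)
  rw [← mul_assoc, h]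

theorem move1_zv (i : C) (x : U K (NG D)) :
    ed K (NG D) (.z i) * (vx K (NG D) (.v i none) * x) = ed K (NG D) (.z i) * x := by
  have h : ed K (NG D) (.z i) * vx K (NG D) (.v i none) = ed K (NG D) (.z i) :=
    ed_vx (K := K) (G := NG D) (.z i)
  rw [← mul_assoc, h]

end move1psi

section move1psi2

variable {C : Type a} {S : Type b} [Fintype C] [Fintype S] [DecidableEq C] [DecidableEq S]
  (K : Type k) [Field K] [StarRing K] (D : Dat C S) (i0 : C)

theorem move1_star (v : NV (D.row i0)) : star (move1_q' K D i0 v) = move1_q' K D i0 v := by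
  rcases v with ⟨i, _ | s⟩ | ⟨j, _ | r⟩
  · change star (_ * _) = _ * _
    rw [star_mul, star_star]
  · exact star_vx _
  · exact star_vx _
  · refine move1_cases D i0 (P := fun r => star (move1_q' K D i0 (.w j (some r))) =
      move1_q' K D i0 (.w j (some r))) ?_ ?_ r
    · intro r; rw [move1_qwl, star_vx]
    · intro k; rw [move1_qwr, star_mul, star_ed, star_gh]

theorem move1_rep' : IsRep K (NG (D.row i0)) (move1_q' K D i0) (move1_u' K D i0)
    (fun e => star (move1_u' K D i0 e)) := by
  refine move1_rep (move1_star K D i0) ?_ (move1_vw K D i0) ?_ ?_ ?_ ?_ ?_ ?_ ?_ ?_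
  · rintro (⟨i, _ | s⟩ | ⟨j, _ | r⟩)
    · change (_ * _) * (_ * _) = _ * _
      rw [mul_assoc, move1_TT, move1_T3s]
    · exact vx_vx _
    · exact vx_vx _
    · refine move1_cases D i0 (P := fun r => move1_q' K D i0 (.w j (some r)) *
        move1_q' K D i0 (.w j (some r)) = move1_q' K D i0 (.w j (some r))) ?_ ?_ r
      · intro r; rw [move1_qwl, vx_vx]
      · intro k
        rw [move1_qwr, mul_assoc, move1_fsf', ← mul_assoc, move1_fw]
  · rintro (⟨i⟩ | ⟨i, j, k⟩ | ⟨i, s⟩ | ⟨j, r⟩)
    · change (move1_T K D i0 i * star (move1_T K D i0 i)) * (move1_T K D i0 i *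
        ed K (NG D) (.z i) * star (move1_T K D i0 i)) = move1_T K D i0 i *
        ed K (NG D) (.z i) * star (move1_T K D i0 i)
      simp only [mul_assoc, move1_TT, move1_vz]
    · change (move1_T K D i0 i * star (move1_T K D i0 i)) * (move1_T K D i0 i *
        ed K (NG D) (.f i j k)) = move1_T K D i0 i * ed K (NG D) (.f i j k)
      simp only [mul_assoc, move1_TT, move1_vf]
    · change vx K (NG D) (.v i (some s)) * (ed K (NG D) (.g i s) * star (move1_T K D i0 i)) =
        ed K (NG D) (.g i s) * star (move1_T K D i0 i)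
      have h : vx K (NG D) (.v i (some s)) * ed K (NG D) (.g i s) = ed K (NG D) (.g i s) :=
        vx_ed (K := K) (G := NG D) (.g i s)
      rw [← mul_assoc, h]
    · refine move1_cases D i0 (P := fun r => move1_q' K D i0 (.w j (some r)) *
        move1_u' K D i0 (.h j r) = move1_u' K D i0 (.h j r)) ?_ ?_ r
      · intro r
        rw [move1_qwl, move1_uwl]
        exact vx_ed (K := K) (G := NG D) (.h j r)
      · intro k
        rw [move1_qwr, move1_uwr, mul_assoc, move1_fsf, move1_fw]
  · rintro (⟨i⟩ | ⟨i, j, k⟩ | ⟨i, s⟩ | ⟨j, r⟩)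
    · change (move1_T K D i0 i * ed K (NG D) (.z i) * star (move1_T K D i0 i)) *
        (move1_T K D i0 i * star (move1_T K D i0 i)) = move1_T K D i0 i *
        ed K (NG D) (.z i) * star (move1_T K D i0 i)
      simp only [mul_assoc, move1_TT, move1_zv]
    · change (move1_T K D i0 i * ed K (NG D) (.f i j k)) * vx K (NG D) (.w j none) =
        move1_T K D i0 i * ed K (NG D) (.f i j k)
      rw [mul_assoc, move1_fw]
    · change (ed K (NG D) (.g i s) * star (move1_T K D i0 i)) *
        (move1_T K D i0 i * star (move1_T K D i0 i)) = ed K (NG D) (.g i s) *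
        star (move1_T K D i0 i)
      simp only [mul_assoc, move1_TT, move1_gv]
    · refine move1_cases D i0 (P := fun r => move1_u' K D i0 (.h j r) *
        vx K (NG D) (.w j none) = move1_u' K D i0 (.h j r)) ?_ ?_ r
      · intro r
        rw [move1_uwl]
        exact ed_vx (K := K) (G := NG D) (.h j r)
      · intro k
        rw [move1_uwr, move1_fw]
  · rintro (⟨i⟩ | ⟨i, j, k⟩ | ⟨i, s⟩ | ⟨j, r⟩)
    · change star (move1_T K D i0 i * ed K (NG D) (.z i) * star (move1_T K D i0 i)) *
        (move1_T K D i0 i * ed K (NG D) (.z i) * star (move1_T K D i0 i)) =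
        move1_T K D i0 i * star (move1_T K D i0 i)
      simp only [star_mul, star_star, star_ed, mul_assoc, move1_TT, move1_vz, move1_zsz,
        move1_Tv]
    · change star (move1_T K D i0 i * ed K (NG D) (.f i j k)) *
        (move1_T K D i0 i * ed K (NG D) (.f i j k)) = vx K (NG D) (.w j none)
      simp only [star_mul, star_ed, mul_assoc, move1_TT, move1_vf, move1_fsf]
    · change star (ed K (NG D) (.g i s) * star (move1_T K D i0 i)) *
        (ed K (NG D) (.g i s) * star (move1_T K D i0 i)) =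
        move1_T K D i0 i * star (move1_T K D i0 i)
      simp only [star_mul, star_star, star_ed, mul_assoc, move1_gsg, move1_Tv]
    · refine move1_cases D i0 (P := fun r => star (move1_u' K D i0 (.h j r)) *
        move1_u' K D i0 (.h j r) = vx K (NG D) (.w j none)) ?_ ?_ r
      · intro r
        rw [move1_uwl, star_ed]
        exact gh_ed (K := K) (G := NG D) (.h j r)
      · intro k
        rw [move1_uwr, star_ed, move1_fsf]
  · intro i p
    change star (move1_T K D i0 i * ed K (NG D) (.z i) * star (move1_T K D i0 i)) *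
        (move1_T K D i0 i * ed K (NG D) (.f i p.1 p.2)) = 0
    have h : gh K (NG D) (.z i) * ed K (NG D) (.f i p.1 p.2) = 0 := gh_ed_of_ne (by simp)
    simp only [star_mul, star_star, star_ed, mul_assoc, move1_TT, move1_vf, h, mul_zero]
  · intro i p p' hne
    change star (move1_T K D i0 i * ed K (NG D) (.f i p.1 p.2)) *
        (move1_T K D i0 i * ed K (NG D) (.f i p'.1 p'.2)) = 0
    have h : gh K (NG D) (.f i p.1 p.2) * ed K (NG D) (.f i p'.1 p'.2) = 0 := by
      refine gh_ed_of_ne ?_
      intro h2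
      apply hne
      simp only [NE.f.injEq, true_and] at h2
      exact Sigma.ext h2.1 h2.2
    simp only [star_mul, star_ed, mul_assoc, move1_TT, move1_vf, h]
  · intro i
    change move1_T K D i0 i * star (move1_T K D i0 i) =
      (move1_T K D i0 i * ed K (NG D) (.z i) * star (move1_T K D i0 i)) *
      star (move1_T K D i0 i * ed K (NG D) (.z i) * star (move1_T K D i0 i)) +
      ∑ p : Σ j, Fin (D.n i j), (move1_T K D i0 i * ed K (NG D) (.f i p.1 p.2)) *
        star (move1_T K D i0 i * ed K (NG D) (.f i p.1 p.2))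
    have h1 : ∀ p : Σ j, Fin (D.n i j), (move1_T K D i0 i * ed K (NG D) (.f i p.1 p.2)) *
        star (move1_T K D i0 i * ed K (NG D) (.f i p.1 p.2)) = move1_T K D i0 i *
        (ed K (NG D) (.f i p.1 p.2) * gh K (NG D) (.f i p.1 p.2)) *
        star (move1_T K D i0 i) := by
      intro p
      simp only [star_mul, star_ed, mul_assoc]
    rw [Finset.sum_congr rfl fun p _ => h1 p, ← Finset.sum_mul, ← Finset.mul_sum]
    have h2 : (move1_T K D i0 i * ed K (NG D) (.z i) * star (move1_T K D i0 i)) *
      star (move1_T K D i0 i * ed K (NG D) (.z i) * star (move1_T K D i0 i)) =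
        move1_T K D i0 i * (ed K (NG D) (.z i) * gh K (NG D) (.z i)) *
        star (move1_T K D i0 i) := by
      simp only [star_mul, star_star, star_ed, mul_assoc, move1_TT, move1_zv]
    rw [h2, ← add_mul, ← mul_add, ← move1_ck, move1_T3]
  · intro i s
    change vx K (NG D) (.v i (some s)) = (ed K (NG D) (.g i s) * star (move1_T K D i0 i)) *
      star (ed K (NG D) (.g i s) * star (move1_T K D i0 i))
    simp only [star_mul, star_star, star_ed, mul_assoc, move1_TT, move1_gv]
    exact move1_ckg (K := K) (D := D) i s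
  · intro j r
    refine move1_cases D i0 (P := fun r => move1_q' K D i0 (.w j (some r)) =
      move1_u' K D i0 (.h j r) * star (move1_u' K D i0 (.h j r))) ?_ ?_ r
    · intro r
      rw [move1_qwl, move1_uwl, star_ed]
      exact move1_ckh (K := K) (D := D) j r
    · intro k
      rw [move1_qwr, move1_uwr, star_ed]

end move1psi2

section move1phi

variable {C : Type a} {S : Type b} [Fintype C] [Fintype S] [DecidableEq C] [DecidableEq S]
  (K : Type k) [Field K] [StarRing K] (D : Dat C S) (i0 : C)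

/-- the sum of the new vertices -/
noncomputable def move1_Q : U K (NG (D.row i0)) :=
  ∑ p : Σ j, Fin (D.n i0 j), vx K (NG (D.row i0)) (.w p.1 (some (move1_wr D i0 p.1 p.2)))

/-- the sum of the exits followed by the ghosts of the new links -/
noncomputable def move1_W : U K (NG (D.row i0)) :=
  ∑ p : Σ j, Fin (D.n i0 j), ed K (NG (D.row i0)) (.f i0 p.1 p.2) *
    gh K (NG (D.row i0)) (.h p.1 (move1_wr D i0 p.1 p.2))

theorem move1_wr_ne {p p' : Σ j, Fin (D.n i0 j)} (h : p ≠ p') :
    (NV.w p.1 (some (move1_wr D i0 p.1 p.2)) : NV (D.row i0)) ≠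
      .w p'.1 (some (move1_wr D i0 p'.1 p'.2)) := by
  intro h1
  apply h
  obtain ⟨j, k⟩ := p
  obtain ⟨j', k'⟩ := p'
  simp only [NV.w.injEq] at h1
  obtain ⟨rfl, h2⟩ := h1
  have h3 := Option.some.inj (eq_of_heq h2)
  rw [move1_wr_inj D i0 j h3]

theorem move1_Qs : star (move1_Q K D i0) = move1_Q K D i0 := by
  rw [move1_Q, star_sum]
  exact Finset.sum_congr rfl fun p _ => star_vx _

/-- vertices outside the new ones -/
theorem move1_vQ {x : NV (D.row i0)} (hx : ∀ j k, x ≠ .w j (some (move1_wr D i0 j k))) :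
    vx K (NG (D.row i0)) x * move1_Q K D i0 = 0 := by
  rw [move1_Q, Finset.mul_sum]
  exact Finset.sum_eq_zero fun p _ => vx_vx_of_ne (hx p.1 p.2)

theorem move1_Qv {x : NV (D.row i0)} (hx : ∀ j k, x ≠ .w j (some (move1_wr D i0 j k))) :
    move1_Q K D i0 * vx K (NG (D.row i0)) x = 0 := by
  have := congrArg star (move1_vQ K D i0 hx)
  rwa [star_mul, star_zero, star_vx, move1_Qs] at this

theorem move1_Qy (j : S) (k : Fin (D.n i0 j)) :
    move1_Q K D i0 * vx K (NG (D.row i0)) (.w j (some (move1_wr D i0 j k))) =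
      vx K (NG (D.row i0)) (.w j (some (move1_wr D i0 j k))) := by
  rw [move1_Q, Finset.sum_mul, Finset.sum_eq_single (⟨j, k⟩ : Σ j, Fin (D.n i0 j))]
  · exact vx_vx _
  · intro p _ hne
    exact vx_vx_of_ne (move1_wr_ne D i0 hne)
  · intro h; exact absurd (Finset.mem_univ _) h

theorem move1_QQ : move1_Q K D i0 * move1_Q K D i0 = move1_Q K D i0 := by
  conv_lhs => rw [move1_Q]
  conv_rhs => rw [move1_Q]
  rw [Finset.sum_mul]
  refine Finset.sum_congr rfl fun p _ => ?_
  have := congrArg star (move1_Qy K D i0 p.1 p.2)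
  rw [star_mul, star_vx, move1_Qs] at this
  exact this

/-- the exit with the ghost of the link -/
theorem move1_vW : vx K (NG (D.row i0)) (.v i0 none) * move1_W K D i0 = move1_W K D i0 := by
  rw [move1_W, Finset.mul_sum]
  refine Finset.sum_congr rfl fun p _ => ?_
  have h : vx K (NG (D.row i0)) (.v i0 none) * ed K (NG (D.row i0)) (.f i0 p.1 p.2) =
      ed K (NG (D.row i0)) (.f i0 p.1 p.2) := vx_ed (K := K) (G := NG (D.row i0)) (.f i0 p.1 p.2)
  rw [← mul_assoc, h]

theorem move1_Wy (j : S) (k : Fin (D.n i0 j)) :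
    move1_W K D i0 * vx K (NG (D.row i0)) (.w j (some (move1_wr D i0 j k))) =
      ed K (NG (D.row i0)) (.f i0 j k) *
        gh K (NG (D.row i0)) (.h j (move1_wr D i0 j k)) := by
  have hg : ∀ p : Σ j, Fin (D.n i0 j),
      gh K (NG (D.row i0)) (.h p.1 (move1_wr D i0 p.1 p.2)) *
        vx K (NG (D.row i0)) (.w p.1 (some (move1_wr D i0 p.1 p.2))) =
        gh K (NG (D.row i0)) (.h p.1 (move1_wr D i0 p.1 p.2)) := fun p =>
    gh_vx (K := K) (G := NG (D.row i0)) (.h p.1 (move1_wr D i0 p.1 p.2))
  rw [move1_W, Finset.sum_mul, Finset.sum_eq_single (⟨j, k⟩ : Σ j, Fin (D.n i0 j))]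
  · have := hg ⟨j, k⟩
    dsimp only at this ⊢
    rw [mul_assoc, this]
  · intro p _ hne
    rw [mul_assoc, ← hg p, mul_assoc, vx_vx_of_ne (move1_wr_ne D i0 hne), mul_zero, mul_zero]
  · intro h; exact absurd (Finset.mem_univ _) h

theorem move1_WQ : move1_W K D i0 * move1_Q K D i0 = move1_W K D i0 := by
  conv_lhs => rw [move1_Q]
  conv_rhs => rw [move1_W]
  rw [Finset.mul_sum]
  exact Finset.sum_congr rfl fun p _ => move1_Wy K D i0 p.1 p.2

/-- the links -/
theorem move1_Wh (j : S) (k : Fin (D.n i0 j)) :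
    move1_W K D i0 * ed K (NG (D.row i0)) (.h j (move1_wr D i0 j k)) =
      ed K (NG (D.row i0)) (.f i0 j k) := by
  have h1 : vx K (NG (D.row i0)) (.w j (some (move1_wr D i0 j k))) *
      ed K (NG (D.row i0)) (.h j (move1_wr D i0 j k)) =
      ed K (NG (D.row i0)) (.h j (move1_wr D i0 j k)) :=
    vx_ed (K := K) (G := NG (D.row i0)) (.h j (move1_wr D i0 j k))
  have h2 : gh K (NG (D.row i0)) (.h j (move1_wr D i0 j k)) *
      ed K (NG (D.row i0)) (.h j (move1_wr D i0 j k)) = vx K (NG (D.row i0)) (.w j none) :=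
    gh_ed (K := K) (G := NG (D.row i0)) (.h j (move1_wr D i0 j k))
  have h3 : ed K (NG (D.row i0)) (.f i0 j k) * vx K (NG (D.row i0)) (.w j none) =
      ed K (NG (D.row i0)) (.f i0 j k) := ed_vx (K := K) (G := NG (D.row i0)) (.f i0 j k)
  rw [← h1, ← mul_assoc, move1_Wy, mul_assoc, h2, h3]

theorem move1_WsW : star (move1_W K D i0) * move1_W K D i0 = move1_Q K D i0 := by
  have h0 : star (move1_W K D i0) = ∑ p : Σ j, Fin (D.n i0 j),
      ed K (NG (D.row i0)) (.h p.1 (move1_wr D i0 p.1 p.2)) *
        gh K (NG (D.row i0)) (.f i0 p.1 p.2) := by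
    rw [move1_W, star_sum]
    refine Finset.sum_congr rfl fun p _ => ?_
    rw [star_mul, star_ed, star_gh]
  have h1 : ∀ p : Σ j, Fin (D.n i0 j), gh K (NG (D.row i0)) (.f i0 p.1 p.2) *
      move1_W K D i0 = gh K (NG (D.row i0)) (.h p.1 (move1_wr D i0 p.1 p.2)) := by
    intro p
    rw [move1_W, Finset.mul_sum, Finset.sum_eq_single p]
    · have h2 : gh K (NG (D.row i0)) (.f i0 p.1 p.2) * ed K (NG (D.row i0)) (.f i0 p.1 p.2) =
        vx K (NG (D.row i0)) (.w p.1 none) := gh_ed (K := K) (G := NG (D.row i0)) (.f i0 p.1 p.2)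
      have h3 : vx K (NG (D.row i0)) (.w p.1 none) *
        gh K (NG (D.row i0)) (.h p.1 (move1_wr D i0 p.1 p.2)) =
        gh K (NG (D.row i0)) (.h p.1 (move1_wr D i0 p.1 p.2)) :=
        vx_gh (K := K) (G := NG (D.row i0)) (.h p.1 (move1_wr D i0 p.1 p.2))
      rw [← mul_assoc, h2, h3]
    · intro p' _ hne
      rw [← mul_assoc, gh_ed_of_ne, zero_mul]
      intro h2
      apply hne
      simp only [NE.f.injEq, true_and] at h2
      exact (Sigma.ext h2.1 h2.2).symm
    · intro h; exact absurd (Finset.mem_univ _) h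
  rw [h0, Finset.sum_mul, move1_Q]
  refine Finset.sum_congr rfl fun p _ => ?_
  rw [mul_assoc, h1, ← move1_ckh (K := K) (D := D.row i0) p.1 (move1_wr D i0 p.1 p.2)]

theorem move1_WWs : move1_W K D i0 * star (move1_W K D i0) =
    ∑ p : Σ j, Fin (D.n i0 j), ed K (NG (D.row i0)) (.f i0 p.1 p.2) *
      gh K (NG (D.row i0)) (.f i0 p.1 p.2) := by
  have h0 : star (move1_W K D i0) = ∑ p : Σ j, Fin (D.n i0 j),
      ed K (NG (D.row i0)) (.h p.1 (move1_wr D i0 p.1 p.2)) *
        gh K (NG (D.row i0)) (.f i0 p.1 p.2) := by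
    rw [move1_W, star_sum]
    refine Finset.sum_congr rfl fun p _ => ?_
    rw [star_mul, star_ed, star_gh]
  rw [h0, Finset.mul_sum]
  refine Finset.sum_congr rfl fun p _ => ?_
  rw [← mul_assoc, move1_Wh]

/-- the image of the loop, a local isometry from `move1_Y` to the vertex -/
noncomputable def move1_Z : U K (NG (D.row i0)) :=
  ed K (NG (D.row i0)) (.z i0) + move1_W K D i0

noncomputable def move1_Y : U K (NG (D.row i0)) :=
  vx K (NG (D.row i0)) (.v i0 none) + move1_Q K D i0

theorem move1_vQ0 : vx K (NG (D.row i0)) (.v i0 none) * move1_Q K D i0 = 0 :=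
  move1_vQ K D i0 (by intro j k h; simp at h)

theorem move1_Qv0 : move1_Q K D i0 * vx K (NG (D.row i0)) (.v i0 none) = 0 :=
  move1_Qv K D i0 (by intro j k h; simp at h)

theorem move1_Ys : star (move1_Y K D i0) = move1_Y K D i0 := by
  rw [move1_Y, star_add, star_vx, move1_Qs]

theorem move1_YY : move1_Y K D i0 * move1_Y K D i0 = move1_Y K D i0 := by
  rw [move1_Y, add_mul, mul_add, mul_add, vx_vx, move1_QQ, move1_vQ0, move1_Qv0, add_zero,
    zero_add]

theorem move1_vY : vx K (NG (D.row i0)) (.v i0 none) * move1_Y K D i0 =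
    vx K (NG (D.row i0)) (.v i0 none) := by
  rw [move1_Y, mul_add, vx_vx, move1_vQ0, add_zero]

theorem move1_Yx {x : NV (D.row i0)} (h0 : x ≠ .v i0 none)
    (hx : ∀ j k, x ≠ .w j (some (move1_wr D i0 j k))) :
    move1_Y K D i0 * vx K (NG (D.row i0)) x = 0 := by
  rw [move1_Y, add_mul, move1_Qv K D i0 hx, vx_vx_of_ne h0.symm, add_zero]

theorem move1_xY {x : NV (D.row i0)} (h0 : x ≠ .v i0 none)
    (hx : ∀ j k, x ≠ .w j (some (move1_wr D i0 j k))) :
    vx K (NG (D.row i0)) x * move1_Y K D i0 = 0 := by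
  have := congrArg star (move1_Yx K D i0 h0 hx)
  rwa [star_mul, star_zero, star_vx, move1_Ys] at this

theorem move1_vZ : vx K (NG (D.row i0)) (.v i0 none) * move1_Z K D i0 = move1_Z K D i0 := by
  have h : vx K (NG (D.row i0)) (.v i0 none) * ed K (NG (D.row i0)) (.z i0) =
      ed K (NG (D.row i0)) (.z i0) := vx_ed (K := K) (G := NG (D.row i0)) (.z i0)
  rw [move1_Z, mul_add, h, move1_vW]

theorem move1_zQ : ed K (NG (D.row i0)) (.z i0) * move1_Q K D i0 = 0 := by
  have h : ed K (NG (D.row i0)) (.z i0) * vx K (NG (D.row i0)) (.v i0 none) =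
      ed K (NG (D.row i0)) (.z i0) := ed_vx (K := K) (G := NG (D.row i0)) (.z i0)
  rw [← h, mul_assoc, move1_vQ0, mul_zero]

theorem move1_Wv : move1_W K D i0 * vx K (NG (D.row i0)) (.v i0 none) = 0 := by
  rw [← move1_WQ, mul_assoc, move1_Qv0, mul_zero]

theorem move1_ZY : move1_Z K D i0 * move1_Y K D i0 = move1_Z K D i0 := by
  have h : ed K (NG (D.row i0)) (.z i0) * vx K (NG (D.row i0)) (.v i0 none) =
      ed K (NG (D.row i0)) (.z i0) := ed_vx (K := K) (G := NG (D.row i0)) (.z i0)
  rw [move1_Z, move1_Y, add_mul, mul_add, mul_add, h, move1_zQ, move1_Wv, move1_WQ, add_zero,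
    zero_add]

theorem move1_Zv : move1_Z K D i0 * vx K (NG (D.row i0)) (.v i0 none) =
    ed K (NG (D.row i0)) (.z i0) := by
  have h : ed K (NG (D.row i0)) (.z i0) * vx K (NG (D.row i0)) (.v i0 none) =
      ed K (NG (D.row i0)) (.z i0) := ed_vx (K := K) (G := NG (D.row i0)) (.z i0)
  rw [move1_Z, add_mul, h, move1_Wv, add_zero]

theorem move1_zsW : gh K (NG (D.row i0)) (.z i0) * move1_W K D i0 = 0 := by
  rw [move1_W, Finset.mul_sum]
  refine Finset.sum_eq_zero fun p _ => ?_
  rw [← mul_assoc, gh_ed_of_ne (by simp), zero_mul]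

theorem move1_ZsZ : star (move1_Z K D i0) * move1_Z K D i0 = move1_Y K D i0 := by
  have h1 := congrArg star (move1_zsW K D i0)
  rw [star_mul, star_zero, star_gh] at h1
  have h2 : gh K (NG (D.row i0)) (.z i0) * ed K (NG (D.row i0)) (.z i0) =
      vx K (NG (D.row i0)) (.v i0 none) := gh_ed (K := K) (G := NG (D.row i0)) (.z i0)
  rw [move1_Z, star_add, add_mul, mul_add, mul_add, star_ed, h2, move1_zsW, h1, move1_WsW,
    move1_Y, add_zero, zero_add]

theorem move1_ZZs : move1_Z K D i0 * star (move1_Z K D i0) =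
    vx K (NG (D.row i0)) (.v i0 none) := by
  have h0 : ed K (NG (D.row i0)) (.z i0) * star (move1_W K D i0) = 0 := by
    have h1 := congrArg star (move1_WQ K D i0)
    rw [star_mul, move1_Qs] at h1
    rw [← h1, ← mul_assoc, move1_zQ, zero_mul]
  have h1 := congrArg star h0
  rw [star_mul, star_star, star_zero, star_ed] at h1
  rw [move1_Z, star_add, add_mul, mul_add, mul_add, h0, star_ed, h1, move1_WWs, add_zero,
    zero_add]
  exact (move1_ck (K := K) (D := D.row i0) i0).symm

theorem move1_zsf {i : C} (p : Σ j, Fin (D.n i j)) : gh K (NG (D.row i0)) (.z i) *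
    ed K (NG (D.row i0)) (.f i p.1 p.2) = 0 := gh_ed_of_ne (by simp)

theorem move1_Zh (j : S) (k : Fin (D.n i0 j)) :
    move1_Z K D i0 * ed K (NG (D.row i0)) (.h j (move1_wr D i0 j k)) =
      ed K (NG (D.row i0)) (.f i0 j k) := by
  have h1 : vx K (NG (D.row i0)) (.w j (some (move1_wr D i0 j k))) *
      ed K (NG (D.row i0)) (.h j (move1_wr D i0 j k)) =
      ed K (NG (D.row i0)) (.h j (move1_wr D i0 j k)) :=
    vx_ed (K := K) (G := NG (D.row i0)) (.h j (move1_wr D i0 j k))
  have h2 : ed K (NG (D.row i0)) (.z i0) * ed K (NG (D.row i0)) (.h j (move1_wr D i0 j k)) = 0 := by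
    have h : ed K (NG (D.row i0)) (.z i0) * vx K (NG (D.row i0)) (.v i0 none) =
      ed K (NG (D.row i0)) (.z i0) := ed_vx (K := K) (G := NG (D.row i0)) (.z i0)
    rw [← h1, ← h, mul_assoc, ← mul_assoc (vx K (NG (D.row i0)) _),
      vx_vx_of_ne (by simp), zero_mul, mul_zero]
  rw [move1_Z, add_mul, h2, move1_Wh, zero_add]

theorem move1_Qh (j : S) (k : Fin (D.n i0 j)) :
    move1_Q K D i0 * ed K (NG (D.row i0)) (.h j (move1_wr D i0 j k)) =
      ed K (NG (D.row i0)) (.h j (move1_wr D i0 j k)) := by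
  have h1 : vx K (NG (D.row i0)) (.w j (some (move1_wr D i0 j k))) *
      ed K (NG (D.row i0)) (.h j (move1_wr D i0 j k)) =
      ed K (NG (D.row i0)) (.h j (move1_wr D i0 j k)) :=
    vx_ed (K := K) (G := NG (D.row i0)) (.h j (move1_wr D i0 j k))
  rw [← h1, ← mul_assoc, move1_Qy]

theorem move1_Yh (j : S) (k : Fin (D.n i0 j)) :
    move1_Y K D i0 * ed K (NG (D.row i0)) (.h j (move1_wr D i0 j k)) =
      ed K (NG (D.row i0)) (.h j (move1_wr D i0 j k)) := by
  have h1 : vx K (NG (D.row i0)) (.v i0 none) *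
      ed K (NG (D.row i0)) (.h j (move1_wr D i0 j k)) = 0 := by
    rw [← move1_Qh, ← mul_assoc, move1_vQ0, zero_mul]
  rw [move1_Y, add_mul, h1, move1_Qh, zero_add]

/-- the isometry onto the image of the loop vertex -/
noncomputable def move1_X (i : C) : U K (NG (D.row i0)) :=
  if i = i0 then move1_Z K D i0 else vx K (NG (D.row i0)) (.v i none)

noncomputable def move1_q : NV D → U K (NG (D.row i0))
  | .v i none => if i = i0 then move1_Y K D i0 else vx K (NG (D.row i0)) (.v i none)
  | .v i (some s) => vx K (NG (D.row i0)) (.v i (some s))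
  | .w j none => vx K (NG (D.row i0)) (.w j none)
  | .w j (some r) => vx K (NG (D.row i0)) (.w j (some (move1_wl D i0 j r)))

noncomputable def move1_u : NE D → U K (NG (D.row i0))
  | .z i => if i = i0 then move1_Z K D i0 else ed K (NG (D.row i0)) (.z i)
  | .f i j k => if h : i = i0 then ed K (NG (D.row i0)) (.h j (move1_wr D i0 j (h ▸ k)))
      else ed K (NG (D.row i0)) (.f i j k)
  | .g i s => ed K (NG (D.row i0)) (.g i s) * move1_X K D i0 i
  | .h j r => ed K (NG (D.row i0)) (.h j (move1_wl D i0 j r))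

theorem move1_qv0 : move1_q K D i0 (.v i0 none) = move1_Y K D i0 := by
  rw [move1_q, if_pos rfl]

theorem move1_qv {i : C} (h : i ≠ i0) : move1_q K D i0 (.v i none) =
    vx K (NG (D.row i0)) (.v i none) := by
  rw [move1_q, if_neg h]

theorem move1_uz0 : move1_u K D i0 (.z i0) = move1_Z K D i0 := by
  rw [move1_u, if_pos rfl]

theorem move1_uz {i : C} (h : i ≠ i0) : move1_u K D i0 (.z i) =
    ed K (NG (D.row i0)) (.z i) := by
  rw [move1_u, if_neg h]

theorem move1_uf0 (j : S) (k : Fin (D.n i0 j)) : move1_u K D i0 (.f i0 j k) =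
    ed K (NG (D.row i0)) (.h j (move1_wr D i0 j k)) := by
  rw [move1_u, dif_pos rfl]

theorem move1_uf {i : C} (h : i ≠ i0) (j : S) (k : Fin (D.n i j)) :
    move1_u K D i0 (.f i j k) = ed K (NG (D.row i0)) (.f i j k) := by
  rw [move1_u, dif_neg h]

theorem move1_XX (i : C) : move1_X K D i0 i * star (move1_X K D i0 i) =
    vx K (NG (D.row i0)) (.v i none) := by
  unfold move1_X
  split_ifs with h
  · subst h; exact move1_ZZs K D i
  · rw [star_vx, vx_vx]

theorem move1_XsX (i : C) : star (move1_X K D i0 i) * move1_X K D i0 i =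
    move1_q K D i0 (.v i none) := by
  unfold move1_X
  split_ifs with h
  · subst h; rw [move1_qv0]; exact move1_ZsZ K D i
  · rw [star_vx, vx_vx, move1_qv K D i0 h]

theorem move1_vX (i : C) : vx K (NG (D.row i0)) (.v i none) * move1_X K D i0 i =
    move1_X K D i0 i := by
  unfold move1_X
  split_ifs with h
  · subst h; exact move1_vZ K D i
  · rw [vx_vx]

theorem move1_Xq (i : C) : move1_X K D i0 i * move1_q K D i0 (.v i none) =
    move1_X K D i0 i := by
  unfold move1_X
  split_ifs with h
  · subst h; rw [move1_qv0]; exact move1_ZY K D i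
  · rw [move1_qv K D i0 h, vx_vx]

theorem move1_iota_inj : Function.Injective (move1_iota D i0) := by
  rintro (⟨i, s⟩ | ⟨j, _ | r⟩) (⟨i', s'⟩ | ⟨j', _ | r'⟩) h
  · simp only [move1_iota, NV.v.injEq] at h
    obtain ⟨rfl, h2⟩ := h
    rw [eq_of_heq h2]
  · simp [move1_iota] at h
  · simp [move1_iota] at h
  · simp [move1_iota] at h
  · simp only [move1_iota, NV.w.injEq] at h
    rw [h.1]
  · simp only [move1_iota, NV.w.injEq] at h
    obtain ⟨rfl, h2⟩ := h
    simp at h2
  · simp [move1_iota] at h
  · simp only [move1_iota, NV.w.injEq] at h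
    obtain ⟨rfl, h2⟩ := h
    simp at h2
  · simp only [move1_iota, NV.w.injEq] at h
    obtain ⟨rfl, h2⟩ := h
    rw [move1_wl_inj D i0 j (Option.some.inj (eq_of_heq h2))]

theorem move1_iota_wr (v : NV D) (j : S) (k : Fin (D.n i0 j)) :
    move1_iota D i0 v ≠ .w j (some (move1_wr D i0 j k)) := by
  rcases v with ⟨i, s⟩ | ⟨j', _ | r⟩
  · simp [move1_iota]
  · intro h
    simp only [move1_iota, NV.w.injEq] at h
    obtain ⟨rfl, h2⟩ := h
    simp at h2
  · intro h
    simp only [move1_iota, NV.w.injEq] at h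
    obtain ⟨rfl, h2⟩ := h
    exact move1_wl_ne D i0 j' r k (Option.some.inj (eq_of_heq h2))

theorem move1_q_iota {v : NV D} (h : v ≠ .v i0 none) :
    move1_q K D i0 v = vx K (NG (D.row i0)) (move1_iota D i0 v) := by
  rcases v with ⟨i, _ | s⟩ | ⟨j, _ | r⟩
  · rw [move1_qv K D i0 (by rintro rfl; exact h rfl)]; rfl
  · rfl
  · rfl
  · rfl

theorem move1_qstar (v : NV D) : star (move1_q K D i0 v) = move1_q K D i0 v := by
  by_cases h : v = .v i0 none
  · rw [h, move1_qv0, move1_Ys]
  · rw [move1_q_iota K D i0 h, star_vx]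

theorem move1_qq (v : NV D) : move1_q K D i0 v * move1_q K D i0 v = move1_q K D i0 v := by
  by_cases h : v = .v i0 none
  · rw [h, move1_qv0, move1_YY]
  · rw [move1_q_iota K D i0 h, vx_vx]

theorem move1_qw (v w : NV D) (hne : v ≠ w) : move1_q K D i0 v * move1_q K D i0 w = 0 := by
  by_cases h : v = .v i0 none
  · subst h
    rw [move1_qv0, move1_q_iota K D i0 hne.symm]
    exact move1_Yx K D i0 (fun h => hne (move1_iota_inj D i0 (a₁ := .v i0 none) h.symm))
      (move1_iota_wr D i0 w)
  · by_cases h' : w = .v i0 none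
    · subst h'
      rw [move1_qv0, move1_q_iota K D i0 h]
      exact move1_xY K D i0 (fun h => hne (move1_iota_inj D i0 (a₂ := .v i0 none) h))
        (move1_iota_wr D i0 v)
    · rw [move1_q_iota K D i0 h, move1_q_iota K D i0 h']
      exact vx_vx_of_ne fun h => hne (move1_iota_inj D i0 h)

theorem move1_rp : IsRep K (NG D) (move1_q K D i0) (move1_u K D i0)
    (fun e => star (move1_u K D i0 e)) := by
  refine move1_rep (move1_qstar K D i0) (move1_qq K D i0) (move1_qw K D i0) ?_ ?_ ?_ ?_ ?_ ?_ ?_ ?_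
  · rintro (⟨i⟩ | ⟨i, j, k⟩ | ⟨i, s⟩ | ⟨j, r⟩)
    · change move1_q K D i0 (.v i none) * move1_u K D i0 (.z i) = move1_u K D i0 (.z i)
      by_cases h : i = i0
      · subst h
        rw [move1_qv0, move1_uz0, ← move1_vZ, ← mul_assoc]
        have h1 := congrArg star (move1_vY K D i)
        rw [star_mul, star_vx, move1_Ys] at h1
        rw [h1]
      · rw [move1_qv K D i0 h, move1_uz K D i0 h]
        exact vx_ed (K := K) (G := NG (D.row i0)) (.z i)
    · change move1_q K D i0 (.v i none) * move1_u K D i0 (.f i j k) = move1_u K D i0 (.f i j k)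
      by_cases h : i = i0
      · subst h
        rw [move1_qv0, move1_uf0, move1_Yh]
      · rw [move1_qv K D i0 h, move1_uf K D i0 h]
        exact vx_ed (K := K) (G := NG (D.row i0)) (.f i j k)
    · change vx K (NG (D.row i0)) (.v i (some s)) * (ed K (NG (D.row i0)) (.g i s) *
        move1_X K D i0 i) = _ * _
      have h : vx K (NG (D.row i0)) (.v i (some s)) * ed K (NG (D.row i0)) (.g i s) =
        ed K (NG (D.row i0)) (.g i s) := vx_ed (K := K) (G := NG (D.row i0)) (.g i s)
      rw [← mul_assoc, h]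
    · exact vx_ed (K := K) (G := NG (D.row i0)) (.h j (move1_wl D i0 j r))
  · rintro (⟨i⟩ | ⟨i, j, k⟩ | ⟨i, s⟩ | ⟨j, r⟩)
    · change move1_u K D i0 (.z i) * move1_q K D i0 (.v i none) = move1_u K D i0 (.z i)
      by_cases h : i = i0
      · subst h
        rw [move1_qv0, move1_uz0, move1_ZY]
      · rw [move1_qv K D i0 h, move1_uz K D i0 h]
        exact ed_vx (K := K) (G := NG (D.row i0)) (.z i)
    · change move1_u K D i0 (.f i j k) * vx K (NG (D.row i0)) (.w j none) =
        move1_u K D i0 (.f i j k)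
      by_cases h : i = i0
      · subst h
        rw [move1_uf0]
        exact ed_vx (K := K) (G := NG (D.row i)) (.h j (move1_wr D i j k))
      · rw [move1_uf K D i0 h]
        exact ed_vx (K := K) (G := NG (D.row i0)) (.f i j k)
    · change (ed K (NG (D.row i0)) (.g i s) * move1_X K D i0 i) * move1_q K D i0 (.v i none) =
        _ * _
      rw [mul_assoc, move1_Xq]
    · exact ed_vx (K := K) (G := NG (D.row i0)) (.h j (move1_wl D i0 j r))
  · rintro (⟨i⟩ | ⟨i, j, k⟩ | ⟨i, s⟩ | ⟨j, r⟩)
    · change star (move1_u K D i0 (.z i)) * move1_u K D i0 (.z i) = move1_q K D i0 (.v i none)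
      by_cases h : i = i0
      · subst h
        rw [move1_qv0, move1_uz0, move1_ZsZ]
      · rw [move1_qv K D i0 h, move1_uz K D i0 h, star_ed]
        exact gh_ed (K := K) (G := NG (D.row i0)) (.z i)
    · change star (move1_u K D i0 (.f i j k)) * move1_u K D i0 (.f i j k) =
        vx K (NG (D.row i0)) (.w j none)
      by_cases h : i = i0
      · subst h
        rw [move1_uf0, star_ed]
        exact gh_ed (K := K) (G := NG (D.row i)) (.h j (move1_wr D i j k))
      · rw [move1_uf K D i0 h, star_ed]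
        exact gh_ed (K := K) (G := NG (D.row i0)) (.f i j k)
    · change star (ed K (NG (D.row i0)) (.g i s) * move1_X K D i0 i) *
        (ed K (NG (D.row i0)) (.g i s) * move1_X K D i0 i) = move1_q K D i0 (.v i none)
      have h : gh K (NG (D.row i0)) (.g i s) * ed K (NG (D.row i0)) (.g i s) =
        vx K (NG (D.row i0)) (.v i none) := gh_ed (K := K) (G := NG (D.row i0)) (.g i s)
      rw [star_mul, star_ed, mul_assoc, ← mul_assoc (gh K (NG (D.row i0)) _), h, move1_vX,
        move1_XsX]
    · change star (ed K (NG (D.row i0)) (.h j (move1_wl D i0 j r))) *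
        ed K (NG (D.row i0)) (.h j (move1_wl D i0 j r)) = vx K (NG (D.row i0)) (.w j none)
      rw [star_ed]
      exact gh_ed (K := K) (G := NG (D.row i0)) (.h j (move1_wl D i0 j r))
  · intro i p
    by_cases h : i = i0
    · subst h
      rw [move1_uz0, move1_uf0]
      have h1 : star (move1_Z K D i) * ed K (NG (D.row i)) (.h p.1 (move1_wr D i p.1 p.2)) =
          star (move1_Z K D i) * (vx K (NG (D.row i)) (.v i none) * (move1_Q K D i *
            ed K (NG (D.row i)) (.h p.1 (move1_wr D i p.1 p.2)))) := by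
        rw [move1_Qh, ← mul_assoc]
        have h2 := congrArg star (move1_vZ K D i)
        rw [star_mul, star_vx] at h2
        rw [h2]
      rw [h1, ← mul_assoc (vx K (NG (D.row i)) _), move1_vQ0, zero_mul, mul_zero]
    · rw [move1_uz K D i0 h, move1_uf K D i0 h, star_ed]
      exact move1_zsf K D i0 p
  · intro i p p' hne
    by_cases h : i = i0
    · subst h
      rw [move1_uf0, move1_uf0, star_ed]
      refine gh_ed_of_ne ?_
      intro h2
      apply hne
      obtain ⟨j, k⟩ := p
      obtain ⟨j', k'⟩ := p'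
      simp only [NE.h.injEq] at h2
      obtain ⟨rfl, h3⟩ := h2
      rw [move1_wr_inj D i j (eq_of_heq h3)]
    · rw [move1_uf K D i0 h, move1_uf K D i0 h, star_ed]
      refine gh_ed_of_ne ?_
      intro h2
      apply hne
      simp only [NE.f.injEq, true_and] at h2
      exact Sigma.ext h2.1 h2.2
  · intro i
    by_cases h : i = i0
    · subst h
      rw [move1_qv0, move1_uz0, move1_ZZs, move1_Y, move1_Q]
      congr 1
      refine Finset.sum_congr rfl fun p _ => ?_
      rw [move1_uf0, star_ed]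
      exact move1_ckh (K := K) (D := D.row i) p.1 (move1_wr D i p.1 p.2)
    · rw [move1_qv K D i0 h, move1_uz K D i0 h, star_ed,
        move1_ck (K := K) (D := D.row i0) i]
      congr 1
      refine Finset.sum_congr rfl fun p _ => ?_
      rw [move1_uf K D i0 h, star_ed]
  · intro i s
    change vx K (NG (D.row i0)) (.v i (some s)) = (ed K (NG (D.row i0)) (.g i s) *
      move1_X K D i0 i) * star (ed K (NG (D.row i0)) (.g i s) * move1_X K D i0 i)
    have h : ed K (NG (D.row i0)) (.g i s) * vx K (NG (D.row i0)) (.v i none) =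
        ed K (NG (D.row i0)) (.g i s) := ed_vx (K := K) (G := NG (D.row i0)) (.g i s)
    rw [star_mul, mul_assoc, ← mul_assoc (move1_X K D i0 i), move1_XX, ← mul_assoc, h, star_ed]
    exact move1_ckg (K := K) (D := D.row i0) i s
  · intro j r
    change vx K (NG (D.row i0)) (.w j (some (move1_wl D i0 j r))) =
      ed K (NG (D.row i0)) (.h j (move1_wl D i0 j r)) *
        star (ed K (NG (D.row i0)) (.h j (move1_wl D i0 j r)))
    rw [star_ed]
    exact move1_ckh (K := K) (D := D.row i0) j (move1_wl D i0 j r)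

end move1phi

variable {C : Type a} {S : Type b} [Fintype C] [Fintype S] [DecidableEq C] [DecidableEq S]
  (K : Type k) [Field K] [StarRing K] (D : Dat C S)

theorem move1_T_mem (i0 i : C) : move1_T K D i0 i ∈ L K (NG D) := by
  unfold move1_T
  split_ifs
  · exact ed_mem _
  · exact vx_mem _

theorem move1_Q_mem (i0 : C) : move1_Q K D i0 ∈ L K (NG (D.row i0)) :=
  (L K _).sum_mem fun _ _ => vx_mem _

theorem move1_Z_mem (i0 : C) : move1_Z K D i0 ∈ L K (NG (D.row i0)) :=
  (L K _).add_mem (ed_mem _) ((L K _).sum_mem fun _ _ => (L K _).mul_mem (ed_mem _) (gh_mem _))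

theorem move1_X_mem (i0 i : C) : move1_X K D i0 i ∈ L K (NG (D.row i0)) := by
  unfold move1_X
  split_ifs
  · exact move1_Z_mem K D i0
  · exact vx_mem _

theorem move1_l1 (i0 : C) : lift (move1_rep' K D i0) (move1_Q K D i0) =
    ∑ p : Σ j, Fin (D.n i0 j), ed K (NG D) (.f i0 p.1 p.2) * gh K (NG D) (.f i0 p.1 p.2) := by
  rw [move1_Q, map_sum]
  refine Finset.sum_congr rfl fun p _ => ?_
  rw [lift_vx, move1_qwr]

theorem move1_l2 (i0 : C) : lift (move1_rep' K D i0) (move1_Y K D i0) =
    vx K (NG D) (.v i0 none) := by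
  rw [move1_Y, map_add, lift_vx, move1_l1]
  change move1_T K D i0 i0 * star (move1_T K D i0 i0) + _ = _
  rw [move1_T, if_pos rfl, star_ed]
  exact (move1_ck i0).symm

theorem move1_l3 (i0 : C) : lift (move1_rep' K D i0) (move1_W K D i0) =
    ed K (NG D) (.z i0) * ∑ p : Σ j, Fin (D.n i0 j),
      ed K (NG D) (.f i0 p.1 p.2) * gh K (NG D) (.f i0 p.1 p.2) := by
  rw [move1_W, map_sum, Finset.mul_sum]
  refine Finset.sum_congr rfl fun p _ => ?_
  rw [map_mul, lift_ed, lift_gh, move1_uwr, star_ed]
  change move1_T K D i0 i0 * ed K (NG D) (.f i0 p.1 p.2) * _ = _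
  rw [move1_T, if_pos rfl, mul_assoc]

theorem move1_l4 (i0 : C) : lift (move1_rep' K D i0) (move1_Z K D i0) =
    ed K (NG D) (.z i0) := by
  rw [move1_Z, map_add, lift_ed, move1_l3]
  change move1_T K D i0 i0 * ed K (NG D) (.z i0) * star (move1_T K D i0 i0) + _ = _
  rw [move1_T, if_pos rfl, star_ed, mul_assoc, ← mul_add, ← move1_ck]
  exact ed_vx (K := K) (G := NG D) (.z i0)

theorem move1_l5 (i0 i : C) : lift (move1_rep' K D i0) (move1_X K D i0 i) =
    move1_T K D i0 i := by
  unfold move1_X
  split_ifs with h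
  · subst h
    rw [move1_l4, move1_T, if_pos rfl]
  · rw [lift_vx]
    change move1_T K D i0 i * star (move1_T K D i0 i) = _
    rw [move1_T, if_neg h, star_vx, vx_vx]

theorem move1_l6 (i0 i : C) : lift (move1_rp K D i0) (move1_T K D i0 i) =
    move1_X K D i0 i := by
  unfold move1_T
  split_ifs with h
  · subst h
    rw [lift_ed, move1_uz0, move1_X, if_pos rfl]
  · rw [lift_vx, move1_qv K D i0 h, move1_X, if_neg h]

theorem move1_l7 (i0 i : C) : lift (move1_rp K D i0) (star (move1_T K D i0 i)) =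
    star (move1_X K D i0 i) := by
  rw [lift_star (move1_rp K D i0) (move1_qstar K D i0), move1_l6]

/-- PIECE 10. Write `v, z, f, g, h` for the generators of `L K (NG D)`, and
`v', z', f', g', h'` for those of `L K (NG (D.row i))`, whose `w j r` with `r` in the first
`D.b j` indices are the old ones and the other `D.n i j` are `y j k`, with links
`h' : y j k → w j none` (split with `Fin.castAdd`, `Fin.natAdd`). The map from `D.row i` to `D`:
`v' i none ↦ z z*`, `z' i ↦ z z z*`, `f' i j k ↦ z f`, `v' i (some s) ↦ v i (some s)`, `g' i s ↦ g z*`,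
`y j k ↦ f f*`, `h' (y j k) ↦ f i j k`, all other generators to themselves. The map from `D` to
`D.row i`: `v i none ↦ v' + ∑ y j k`, `z ↦ z' + ∑ f' h'*`, `f i j k ↦ h' (y j k)`,
`v i (some s) ↦ v' i (some s)`, `g i s ↦ g' (z' + ∑ f' h'*)`, all other generators to themselves.
Check that the two are `IsRep` families and inverse to each other and use `mkEquiv`. -/
theorem move1 (i : C) : Nonempty (L K (NG D) ≃⋆ₐ[K] L K (NG (D.row i))) := by
  have hT : ∀ i', move1_T K D i i' ∈ L K (NG D) := fun i' => move1_T_mem K D i i'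
  refine mkEquiv (move1_rp K D i) (move1_rep' K D i) ?_ ?_ ?_ ?_ ?_ ?_ ?_ ?_
    (move1_qstar K D i) (move1_star K D i)
  · intro v
    by_cases h : v = .v i none
    · rw [h, move1_qv0]
      exact (L K _).add_mem (vx_mem _) (move1_Q_mem K D i)
    · rw [move1_q_iota K D i h]
      exact vx_mem _
  · rintro (⟨i'⟩ | ⟨i', j, k⟩ | ⟨i', s⟩ | ⟨j, r⟩)
    · by_cases h : i' = i
      · subst h; rw [move1_uz0]; exact move1_Z_mem K D i'
      · rw [move1_uz K D i h]; exact ed_mem _
    · by_cases h : i' = i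
      · subst h; rw [move1_uf0]; exact ed_mem _
      · rw [move1_uf K D i h]; exact ed_mem _
    · exact (L K _).mul_mem (ed_mem _) (move1_X_mem K D i i')
    · exact ed_mem _
  · rintro (⟨i', _ | s⟩ | ⟨j, _ | r⟩)
    · exact (L K _).mul_mem (hT i') (star_mem_L (hT i'))
    · exact vx_mem _
    · exact vx_mem _
    · refine move1_cases D i (P := fun r => move1_q' K D i (.w j (some r)) ∈ L K (NG D)) ?_ ?_ r
      · intro r; rw [move1_qwl]; exact vx_mem _
      · intro k; rw [move1_qwr]; exact (L K _).mul_mem (ed_mem _) (gh_mem _)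
  · rintro (⟨i'⟩ | ⟨i', j, k⟩ | ⟨i', s⟩ | ⟨j, r⟩)
    · exact (L K _).mul_mem ((L K _).mul_mem (hT i') (ed_mem _)) (star_mem_L (hT i'))
    · exact (L K _).mul_mem (hT i') (ed_mem _)
    · exact (L K _).mul_mem (ed_mem _) (star_mem_L (hT i'))
    · refine move1_cases D i (P := fun r => move1_u' K D i (.h j r) ∈ L K (NG D)) ?_ ?_ r
      · intro r; rw [move1_uwl]; exact ed_mem _
      · intro k; rw [move1_uwr]; exact ed_mem _
  · intro v
    by_cases h : v = .v i none
    · rw [h, move1_qv0, move1_l2]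
    · rw [move1_q_iota K D i h, lift_vx]
      rcases v with ⟨i', _ | s⟩ | ⟨j, _ | r⟩
      · change move1_T K D i i' * star (move1_T K D i i') = _
        rw [move1_T, if_neg (by rintro rfl; exact h rfl), star_vx, vx_vx]
      · rfl
      · rfl
      · exact move1_qwl K D i j r
  · rintro (⟨i'⟩ | ⟨i', j, k⟩ | ⟨i', s⟩ | ⟨j, r⟩)
    · by_cases h : i' = i
      · subst h; rw [move1_uz0, move1_l4]
      · rw [move1_uz K D i h, lift_ed]
        change move1_T K D i i' * ed K (NG D) (.z i') * star (move1_T K D i i') = _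
        have h1 : vx K (NG D) (.v i' none) * ed K (NG D) (.z i') = ed K (NG D) (.z i') :=
          vx_ed (K := K) (G := NG D) (.z i')
        rw [move1_T, if_neg h, star_vx, h1]
        exact ed_vx (K := K) (G := NG D) (.z i')
    · by_cases h : i' = i
      · subst h; rw [move1_uf0, lift_ed, move1_uwr]
      · rw [move1_uf K D i h, lift_ed]
        change move1_T K D i i' * ed K (NG D) (.f i' j k) = _
        rw [move1_T, if_neg h, move1_vf]
    · change lift (move1_rep' K D i) (ed K (NG (D.row i)) (.g i' s) * move1_X K D i i') = _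
      rw [map_mul, lift_ed, move1_l5]
      change ed K (NG D) (.g i' s) * star (move1_T K D i i') * move1_T K D i i' = _
      rw [mul_assoc, move1_T1]
      exact ed_vx (K := K) (G := NG D) (.g i' s)
    · change lift (move1_rep' K D i) (ed K (NG (D.row i)) (.h j (move1_wl D i j r))) = _
      rw [lift_ed, move1_uwl]
  · rintro (⟨i', _ | s⟩ | ⟨j, _ | r⟩)
    · change lift (move1_rp K D i) (move1_T K D i i' * star (move1_T K D i i')) = _
      rw [map_mul, move1_l6, move1_l7, move1_XX]
    · exact lift_vx _ _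
    · exact lift_vx _ _
    · refine move1_cases D i (P := fun r => lift (move1_rp K D i)
        (move1_q' K D i (.w j (some r))) = vx K (NG (D.row i)) (.w j (some r))) ?_ ?_ r
      · intro r; rw [move1_qwl, lift_vx]; rfl
      · intro k
        rw [move1_qwr, map_mul, lift_ed, lift_gh, move1_uf0, star_ed]
        exact (move1_ckh (K := K) (D := D.row i) j (move1_wr D i j k)).symm
  · rintro (⟨i'⟩ | ⟨i', j, k⟩ | ⟨i', s⟩ | ⟨j, r⟩)
    · change lift (move1_rp K D i) (move1_T K D i i' * ed K (NG D) (.z i') *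
        star (move1_T K D i i')) = _
      rw [map_mul, map_mul, move1_l6, move1_l7, lift_ed]
      by_cases h : i' = i
      · subst h
        rw [move1_uz0, move1_X, if_pos rfl, mul_assoc, move1_ZZs, move1_Zv]
      · have h1 : vx K (NG (D.row i)) (.v i' none) * ed K (NG (D.row i)) (.z i') =
          ed K (NG (D.row i)) (.z i') := vx_ed (K := K) (G := NG (D.row i)) (.z i')
        rw [move1_uz K D i h, move1_X, if_neg h, h1, star_vx]
        exact ed_vx (K := K) (G := NG (D.row i)) (.z i')
    · change lift (move1_rp K D i) (move1_T K D i i' * ed K (NG D) (.f i' j k)) = _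
      rw [map_mul, move1_l6, lift_ed]
      by_cases h : i' = i
      · subst h
        rw [move1_uf0, move1_X, if_pos rfl, move1_Zh]
      · rw [move1_uf K D i h, move1_X, if_neg h]
        exact vx_ed (K := K) (G := NG (D.row i)) (.f i' j k)
    · change lift (move1_rp K D i) (ed K (NG D) (.g i' s) * star (move1_T K D i i')) = _
      rw [map_mul, move1_l7, lift_ed]
      change ed K (NG (D.row i)) (.g i' s) * move1_X K D i i' * star (move1_X K D i i') = _
      rw [mul_assoc, move1_XX]
      exact ed_vx (K := K) (G := NG (D.row i)) (.g i' s)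
    · refine move1_cases D i (P := fun r => lift (move1_rp K D i)
        (move1_u' K D i (.h j r)) = ed K (NG (D.row i)) (.h j r)) ?_ ?_ r
      · intro r; rw [move1_uwl, lift_ed]; rfl
      · intro k; rw [move1_uwr, lift_ed, move1_uf0]

end Pool.Agent.Helper32.TP
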