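import Pool.Agent.Helper32.LV.Mat

/-! Isomorphisms between matrix rings over the Laurent polynomials. PIECE 6.

The Laurent polynomials `A` over a field form a principal ideal ring. `card p ≤ card q`: the images
of the diagonal matrix units are `card p` orthogonal non-zero idempotents in `M_q(A)`. The
idempotent `Φ (single s s 1)` has a commutative corner, so it is conjugate to a diagonal matrix
with one entry `1` (the complements are equivalent as well). The corners are copies of `A`; a ring
automorphism of `A` maps the constants to the constants (`c` is a constant other than `0`, `1` iff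
`c` and `c - 1` are units), so it maps `T` to `c * T` or `c * T⁻¹`. -/

set_option autoImplicit false

namespace Pool.Agent.Helper32.TP

open LaurentPolynomial

theorem alg_unit {K : Type*} [Field K] {u v : K[T;T⁻¹]} (h : u * v = 1) :
    ∃ c : K, c ≠ 0 ∧ ∃ n : ℤ, u = C c * T n := by
  obtain ⟨m, p, hp⟩ := exists_T_pow u
  obtain ⟨n, q, hq⟩ := exists_T_pow v
  have h1 : p * q = Polynomial.X ^ (m + n) := by
    apply Polynomial.toLaurent_injective
    rw [map_mul, hp, hq, Polynomial.toLaurent_X_pow]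
    have : u * T (m : ℤ) * (v * T (n : ℤ)) = (u * v) * (T (m : ℤ) * T (n : ℤ)) := by ring
    rw [this, h, one_mul, ← T_add]
    push_cast
    rfl
  have h2 : p ∣ Polynomial.X ^ (m + n) := ⟨q, h1.symm⟩
  obtain ⟨i, -, hi⟩ := (dvd_prime_pow Polynomial.prime_X _).1 h2
  obtain ⟨w, hw⟩ := hi.symm
  obtain ⟨c, hc, hc'⟩ := Polynomial.isUnit_iff.1 w.isUnit
  refine ⟨c, hc.ne_zero, (i : ℤ) - m, ?_⟩
  have h3 : u * T (m : ℤ) = C c * T (i : ℤ) := by
    rw [← hp, ← hw, ← hc', map_mul, Polynomial.toLaurent_X_pow, Polynomial.toLaurent_C]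
    exact mul_comm _ _
  calc u = u * T (m : ℤ) * T (-(m : ℤ)) := by
        rw [mul_T_assoc, add_neg_cancel, T_zero, mul_one]
    _ = C c * T ((i : ℤ) - m) := by
        rw [h3, mul_T_assoc, sub_eq_add_neg]

theorem alg_const {K : Type*} [Field K] (f : K[T;T⁻¹] ≃+* K[T;T⁻¹]) (c : K) :
    ∃ d : K, f (C c) = C d := by
  by_cases h0 : c = 0
  · exact ⟨0, by rw [h0, map_zero, map_zero]⟩
  by_cases h1 : c = 1
  · exact ⟨1, by rw [h1, map_one, map_one]⟩
  have e1 : f (C c) * f (C c⁻¹) = 1 := by
    rw [← map_mul, ← map_mul, mul_inv_cancel₀ h0, map_one, map_one]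
  have e2 : (f (C c) - 1) * f (C (c - 1)⁻¹) = 1 := by
    have : f (C c) - 1 = f (C (c - 1)) := by rw [map_sub, map_sub, map_one, map_one]
    rw [this, ← map_mul, ← map_mul, mul_inv_cancel₀ (sub_ne_zero.2 h1), map_one, map_one]
  obtain ⟨a, ha, n, hn⟩ := alg_unit e1
  obtain ⟨b, hb, m, hm⟩ := alg_unit e2
  by_cases hn0 : n = 0
  · exact ⟨a, by rw [hn, hn0, T_zero, mul_one]⟩
  exfalso
  rw [hn] at hm
  have key : ∀ (x : K) (k l : ℤ), (C x * T k : K[T;T⁻¹]).coeff l = if k = l then x else 0 := by
    intro x k l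
    rw [← single_eq_C_mul_T]
    exact Finsupp.single_apply
  have c0 : ((C a * T n - 1 : K[T;T⁻¹])).coeff 0 = (C b * T m : K[T;T⁻¹]).coeff 0 := by rw [hm]
  have cn : ((C a * T n - 1 : K[T;T⁻¹])).coeff n = (C b * T m : K[T;T⁻¹]).coeff n := by rw [hm]
  have one' : (1 : K[T;T⁻¹]) = C 1 * T 0 := by simp
  have s0 : ∀ l : ℤ, ((C a * T n - 1 : K[T;T⁻¹])).coeff l =
      (C a * T n : K[T;T⁻¹]).coeff l - (1 : K[T;T⁻¹]).coeff l := fun l => rfl
  rw [s0, one', key, key, key] at c0 cn
  rw [if_neg hn0, if_pos rfl] at c0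
  rw [if_pos rfl, if_neg (Ne.symm hn0)] at cn
  by_cases hm0 : m = 0
  · rw [if_neg (by rw [hm0]; exact Ne.symm hn0)] at cn
    exact ha (by simpa using cn)
  · rw [if_neg hm0] at c0
    simp at c0

theorem alg_T {K : Type*} [Field K] (f : K[T;T⁻¹] ≃+* K[T;T⁻¹]) {c : K} (hc : c ≠ 0) {e : ℤ}
    (h : f (T 1) = C c * T e) (n : ℤ) : ∃ d : K, d ≠ 0 ∧ f (T n) = C d * T (n * e) := by
  have hnat : ∀ n : ℕ, f (T (n : ℤ)) = C (c ^ n) * T ((n : ℤ) * e) := by
    intro n
    have : (T (n : ℤ) : K[T;T⁻¹]) = T 1 ^ n := by rw [T_pow, mul_one]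
    rw [this, map_pow, h, mul_pow, T_pow, map_pow]
  obtain ⟨m, rfl | rfl⟩ := n.eq_nat_or_neg
  · exact ⟨c ^ m, pow_ne_zero _ hc, hnat m⟩
  · refine ⟨(c ^ m)⁻¹, inv_ne_zero (pow_ne_zero _ hc), ?_⟩
    have e1 : f (T (m : ℤ)) * f (T (-(m : ℤ))) = 1 := by
      rw [← map_mul, ← T_add, add_neg_cancel, T_zero, map_one]
    have e2 : f (T (m : ℤ)) * (C (c ^ m)⁻¹ * T (-(m : ℤ) * e)) = 1 := by
      rw [hnat m]
      have : (C (c ^ m) * T ((m : ℤ) * e)) * (C (c ^ m)⁻¹ * T (-(m : ℤ) * e)) =
          (C (c ^ m) * C (c ^ m)⁻¹ : K[T;T⁻¹]) * (T ((m : ℤ) * e) * T (-(m : ℤ) * e)) := by ring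
      rw [this, ← T_add, ← map_mul, mul_inv_cancel₀ (pow_ne_zero _ hc), map_one, one_mul]
      have : (m : ℤ) * e + -(m : ℤ) * e = 0 := by ring
      rw [this, T_zero]
    have hu : IsUnit (f (T (m : ℤ))) := IsUnit.of_mul_eq_one _ e1
    exact hu.mul_left_cancel (e1.trans e2.symm)

theorem laurent_auto {K : Type*} [Field K] (f : K[T;T⁻¹] ≃+* K[T;T⁻¹]) :
    ∃ c : K, c ≠ 0 ∧ ∃ e : ℤ, (e = 1 ∨ e = -1) ∧ f (T 1) = C c * T e := by
  have hu : (T 1 : K[T;T⁻¹]) * T (-1) = 1 := by rw [← T_add, add_neg_cancel, T_zero]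
  obtain ⟨c, hc, e, he⟩ := alg_unit (u := f (T 1)) (v := f (T (-1)))
    (by rw [← map_mul, hu, map_one])
  obtain ⟨d, hd, e', he'⟩ := alg_unit (u := f.symm (T 1)) (v := f.symm (T (-1)))
    (by rw [← map_mul, hu, map_one])
  refine ⟨c, hc, e, ?_, he⟩
  obtain ⟨d', hd'⟩ := alg_const f d
  obtain ⟨b, hb, hb'⟩ := alg_T f hc he e'
  have h1 : (T 1 : K[T;T⁻¹]) = C (d' * b) * T (e' * e) := by
    have h2 : f (f.symm (T 1)) = f (C d * T e') := by rw [he']
    rw [RingEquiv.apply_symm_apply, map_mul, hd', hb'] at h2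
    rw [h2, map_mul, mul_assoc]
  have h3 := congrArg (fun p : K[T;T⁻¹] => p.coeff 1) h1
  have key : ∀ (x : K) (k l : ℤ), (C x * T k : K[T;T⁻¹]).coeff l = if k = l then x else 0 := by
    intro x k l
    rw [← single_eq_C_mul_T]
    exact Finsupp.single_apply
  simp only [key, T_apply] at h3
  have h4 : e' * e = 1 := by
    by_contra hne
    rw [if_neg hne] at h3
    simp at h3
  exact Int.isUnit_iff.1 (IsUnit.of_mul_eq_one e' (by rw [mul_comm]; exact h4))

theorem alg_card_le {A : Type*} [CommRing A] [IsDomain A] {p q : Type} [Fintype p] [Fintype q]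
    [DecidableEq p] [DecidableEq q] (Φ : Matrix p p A ≃+* Matrix q q A) :
    Fintype.card p ≤ Fintype.card q := by
  have hE : ∀ s t : p, Φ (Matrix.single s s 1) * Φ (Matrix.single t t 1) =
      if s = t then Φ (Matrix.single s s 1) else 0 := by
    intro s t
    rw [← map_mul]
    split_ifs with h
    · subst h
      rw [Matrix.single_mul_single_same, mul_one]
    · rw [Matrix.single_mul_single_of_ne _ _ _ _ h, map_zero]
  have hne : ∀ s : p, Φ (Matrix.single s s (1 : A)) ≠ 0 := by
    intro s h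
    have h1 : Matrix.single s s (1 : A) = 0 := Φ.injective (by rw [h, map_zero])
    have h2 := congrFun (congrFun h1 s) s
    rw [Matrix.single_apply_same] at h2
    exact one_ne_zero h2
  have hx : ∀ s : p, ∃ x : q → A, (Φ (Matrix.single s s (1 : A))).mulVec x ≠ 0 := by
    intro s
    by_contra hcon
    push Not at hcon
    refine hne s ?_
    ext i j
    have := congrFun (hcon (Pi.single j 1)) i
    simpa using this
  choose x hx using hx
  have hv : ∀ s t : p, (Φ (Matrix.single t t (1 : A))).mulVec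
      ((Φ (Matrix.single s s (1 : A))).mulVec (x s)) =
      if t = s then (Φ (Matrix.single s s (1 : A))).mulVec (x s) else 0 := by
    intro s t
    rw [Matrix.mulVec_mulVec, hE t s]
    split_ifs with h
    · rw [h]
    · rw [Matrix.zero_mulVec]
  have hli : LinearIndependent A fun s : p => (Φ (Matrix.single s s (1 : A))).mulVec (x s) := by
    rw [Fintype.linearIndependent_iff]
    intro g hg t
    have h1 := congrArg (fun w => (Φ (Matrix.single t t (1 : A))).mulVec w) hg
    simp only [Matrix.mulVec_zero] at h1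
    rw [Matrix.mulVec_sum, Finset.sum_eq_single t] at h1
    · rw [Matrix.mulVec_smul, hv t t, if_pos rfl] at h1
      exact (smul_eq_zero.1 h1).resolve_right (hx t)
    · intro s _ hs
      rw [Matrix.mulVec_smul, hv s t, if_neg (Ne.symm hs), smul_zero]
    · intro h
      exact absurd (Finset.mem_univ t) h
  have h2 := hli.fintype_card_le_finrank
  rwa [Module.finrank_fintype_fun_eq_card] at h2

theorem laurent_matrix_card {K : Type*} [Field K] {p q : Type} [Fintype p] [Fintype q]
    [DecidableEq p] [DecidableEq q] (Φ : Matrix p p K[T;T⁻¹] ≃+* Matrix q q K[T;T⁻¹]) :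
    Fintype.card p = Fintype.card q :=
  le_antisymm (alg_card_le Φ) (alg_card_le Φ.symm)

/-- idempotent matrices over a PID: coordinate sets of the right size -/
theorem alg_idem {R : Type*} [CommRing R] [IsDomain R] [IsPrincipalIdealRing R]
    {ι : Type*} [Fintype ι] [DecidableEq ι] (M : Matrix ι ι R) (h : M * M = M) :
    ∃ r : ℕ, r ≤ Fintype.card ι ∧ ∀ S : Finset ι, S.card = r →
      (∃ X Y : Matrix ι ι R, X * Y = M ∧
        Y * X = Matrix.diagonal (fun i => if i ∈ S then 1 else 0)) ∧
      ∃ X Y : Matrix ι ι R, X * Y = 1 - M ∧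
        Y * X = 1 - Matrix.diagonal (fun i => if i ∈ S then 1 else 0) := by
  have h' : (1 - M) * (1 - M) = 1 - M := by
    rw [sub_mul, mul_sub, mul_sub, h]; simp
  have hk : LinearMap.ker M.mulVecLin = LinearMap.range (1 - M).mulVecLin := by
    ext v
    rw [LinearMap.mem_ker, LinearMap.mem_range]
    constructor
    · intro hv
      refine ⟨v, ?_⟩
      rw [Matrix.mulVecLin_apply] at hv ⊢
      rw [Matrix.sub_mulVec, hv, Matrix.one_mulVec, sub_zero]
    · rintro ⟨w, rfl⟩
      simp only [Matrix.mulVecLin_apply, Matrix.mulVec_mulVec]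
      rw [mul_sub, h, mul_one, sub_self, Matrix.zero_mulVec]
  have hsum : Module.finrank R (LinearMap.range M.mulVecLin) +
      Module.finrank R (LinearMap.range (1 - M).mulVecLin) = Fintype.card ι := by
    rw [← hk]
    have e := LinearMap.quotKerEquivRange M.mulVecLin
    rw [← e.finrank_eq]
    have := Submodule.finrank_quotient_add_finrank (R := R) (LinearMap.ker M.mulVecLin)
    rw [this, Module.finrank_fintype_fun_eq_card]
  refine ⟨Module.finrank R (LinearMap.range M.mulVecLin), by omega, fun S hS => ?_⟩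
  refine ⟨LV.idem_half M h S hS.symm, ?_⟩
  obtain ⟨X, Y, hXY, hYX⟩ := LV.idem_half (1 - M) h' Sᶜ (by
    rw [Finset.card_compl, hS, ← hsum]; omega)
  refine ⟨X, Y, hXY, ?_⟩
  rw [hYX]
  ext i j
  rw [Matrix.sub_apply, Matrix.one_apply, Matrix.diagonal_apply, Matrix.diagonal_apply]
  by_cases hij : i = j <;> by_cases hi : i ∈ S <;> simp [hij]
  · subst hij; simp [hi]
  · subst hij; simp [hi]

/-- two halves give an invertible matrix -/
theorem alg_glue {B : Type*} [Ring B] {E D X₁ Y₁ X₂ Y₂ : B} (hE : E * E = E) (hD : D * D = D)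
    (h1 : X₁ * Y₁ = E) (h2 : Y₁ * X₁ = D) (h3 : X₂ * Y₂ = 1 - E) (h4 : Y₂ * X₂ = 1 - D) :
    ∃ X Y : B, X * Y = 1 ∧ Y * X = 1 ∧ E = X * D * Y := by
  have a1 : X₁ * D = E * X₁ := by rw [← h2, ← h1, mul_assoc]
  have a2 : Y₁ * E = D * Y₁ := by rw [← h2, ← h1, mul_assoc]
  have a3 : X₂ * (1 - D) = (1 - E) * X₂ := by rw [← h4, ← h3, mul_assoc]
  have a4 : Y₂ * (1 - E) = (1 - D) * Y₂ := by rw [← h4, ← h3, mul_assoc]
  have hD' : (1 - D) * (1 - D) = 1 - D := by rw [sub_mul, mul_sub, mul_sub, hD]; simp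
  have hE' : (1 - E) * (1 - E) = 1 - E := by rw [sub_mul, mul_sub, mul_sub, hE]; simp
  have hDD : D * (1 - D) = 0 := by rw [mul_sub, mul_one, hD, sub_self]
  have hDD' : (1 - D) * D = 0 := by rw [sub_mul, one_mul, hD, sub_self]
  have hEE : E * (1 - E) = 0 := by rw [mul_sub, mul_one, hE, sub_self]
  have hEE' : (1 - E) * E = 0 := by rw [sub_mul, one_mul, hE, sub_self]
  refine ⟨X₁ * D + X₂ * (1 - D), D * Y₁ + (1 - D) * Y₂, ?_, ?_, ?_⟩
  · have b1 : X₁ * D * (D * Y₁) = E := by
      calc X₁ * D * (D * Y₁) = X₁ * (D * D) * Y₁ := by noncomm_ring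
        _ = E * X₁ * Y₁ := by rw [hD, a1]
        _ = E := by rw [mul_assoc, h1, hE]
    have b2 : X₁ * D * ((1 - D) * Y₂) = 0 := by
      calc X₁ * D * ((1 - D) * Y₂) = X₁ * (D * (1 - D)) * Y₂ := by noncomm_ring
        _ = 0 := by rw [hDD, mul_zero, zero_mul]
    have b3 : X₂ * (1 - D) * (D * Y₁) = 0 := by
      calc X₂ * (1 - D) * (D * Y₁) = X₂ * ((1 - D) * D) * Y₁ := by noncomm_ring
        _ = 0 := by rw [hDD', mul_zero, zero_mul]
    have b4 : X₂ * (1 - D) * ((1 - D) * Y₂) = 1 - E := by
      calc X₂ * (1 - D) * ((1 - D) * Y₂) = X₂ * ((1 - D) * (1 - D)) * Y₂ := by noncomm_ring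
        _ = (1 - E) * X₂ * Y₂ := by rw [hD', a3]
        _ = 1 - E := by rw [mul_assoc, h3, hE']
    rw [add_mul, mul_add, mul_add, b1, b2, b3, b4]
    simp
  · have b1 : D * Y₁ * (X₁ * D) = D := by
      calc D * Y₁ * (X₁ * D) = D * (Y₁ * X₁) * D := by noncomm_ring
        _ = D := by rw [h2, hD, hD]
    have b2 : D * Y₁ * (X₂ * (1 - D)) = 0 := by
      rw [a3, ← a2]
      calc Y₁ * E * ((1 - E) * X₂) = Y₁ * (E * (1 - E)) * X₂ := by noncomm_ring
        _ = 0 := by rw [hEE, mul_zero, zero_mul]
    have b3 : (1 - D) * Y₂ * (X₁ * D) = 0 := by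
      rw [a1, ← a4]
      calc Y₂ * (1 - E) * (E * X₁) = Y₂ * ((1 - E) * E) * X₁ := by noncomm_ring
        _ = 0 := by rw [hEE', mul_zero, zero_mul]
    have b4 : (1 - D) * Y₂ * (X₂ * (1 - D)) = 1 - D := by
      calc (1 - D) * Y₂ * (X₂ * (1 - D)) = (1 - D) * (Y₂ * X₂) * (1 - D) := by noncomm_ring
        _ = 1 - D := by rw [h4, hD', hD']
    rw [add_mul, mul_add, mul_add, b1, b2, b3, b4]
    simp
  · have c1 : (X₁ * D + X₂ * (1 - D)) * D = X₁ * D := by
      calc (X₁ * D + X₂ * (1 - D)) * D = X₁ * (D * D) + X₂ * ((1 - D) * D) := by noncomm_ring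
        _ = X₁ * D := by rw [hD, hDD', mul_zero, add_zero]
    rw [c1]
    calc E = E * X₁ * Y₁ := by rw [mul_assoc, h1, hE]
      _ = X₁ * D * (D * Y₁ + (1 - D) * Y₂) := by
        have : X₁ * D * (D * Y₁ + (1 - D) * Y₂) =
            X₁ * (D * D) * Y₁ + X₁ * (D * (1 - D)) * Y₂ := by noncomm_ring
        rw [this, hD, hDD, mul_zero, zero_mul, add_zero, a1]

theorem laurent_matrix_iso {K : Type*} [Field K] {p q : Type} [Fintype p] [Fintype q]
    [DecidableEq p] [DecidableEq q] (Φ : Matrix p p K[T;T⁻¹] ≃+* Matrix q q K[T;T⁻¹])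
    (s : p) (t : q) :
    ∃ X Y : Matrix q q K[T;T⁻¹], X * Y = 1 ∧ Y * X = 1 ∧ ∃ c : K, c ≠ 0 ∧ ∃ e : ℤ,
      (e = 1 ∨ e = -1) ∧ Φ (Matrix.single s s 1) = X * Matrix.single t t 1 * Y ∧
      Φ (Matrix.single s s (T 1)) = X * Matrix.single t t (C c * T e) * Y := by
  have := LV.laurent_pir K
  set E : Matrix q q K[T;T⁻¹] := Φ (Matrix.single s s 1) with hEdef
  have hE : E * E = E := by
    rw [hEdef, ← map_mul, Matrix.single_mul_single_same, mul_one]
  have hE0 : E ≠ 0 := by
    intro h
    have h1 : Matrix.single s s (1 : K[T;T⁻¹]) = 0 := Φ.injective (by rw [map_zero]; exact h)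
    have h2 := congrFun (congrFun h1 s) s
    rw [Matrix.single_apply_same] at h2
    exact one_ne_zero h2
  -- the corner is commutative
  have hcorner : ∀ a : Matrix q q K[T;T⁻¹], E * a * E =
      Φ (Matrix.single s s ((Φ.symm a) s s)) := by
    intro a
    have : a = Φ (Φ.symm a) := (Φ.apply_symm_apply a).symm
    conv_lhs => rw [this]
    rw [hEdef, ← map_mul, ← map_mul, Matrix.single_mul_mul_single, one_mul, mul_one]
  have hcomm : ∀ a b : Matrix q q K[T;T⁻¹], E * a * E * (E * b * E) = E * b * E * (E * a * E) := by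
    intro a b
    rw [hcorner, hcorner, ← map_mul, ← map_mul, Matrix.single_mul_single_same,
      Matrix.single_mul_single_same, mul_comm]
  obtain ⟨r, hr, hS⟩ := alg_idem E hE
  have hr1 : r = 1 := by
    obtain ⟨S, -, hSr⟩ := Finset.exists_subset_card_eq (s := (Finset.univ : Finset q)) (n := r)
      (by rw [Finset.card_univ]; exact hr)
    obtain ⟨⟨X, Y, hXY, hYX⟩, -⟩ := hS S hSr
    set D : Matrix q q K[T;T⁻¹] := Matrix.diagonal (fun i => if i ∈ S then 1 else 0) with hD
    have hDent : ∀ i ∈ S, D i i = 1 := by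
      intro i hi
      rw [hD, Matrix.diagonal_apply_eq, if_pos hi]
    have hDs : ∀ i ∈ S, ∀ j ∈ S, D * Matrix.single i j 1 * D = Matrix.single i j 1 := by
      intro i hi j hj
      ext k l
      rw [hD, Matrix.mul_diagonal, Matrix.diagonal_mul, Matrix.single_apply]
      split_ifs with h1 h2 h3 <;> simp_all
    rcases Nat.lt_trichotomy r 1 with h | h | h
    · exfalso
      have hS0 : S = ∅ := Finset.card_eq_zero.1 (by omega)
      apply hE0
      have hD0 : D = 0 := by
        rw [hD, hS0]
        ext i j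
        simp [Matrix.diagonal_apply]
      calc E = E * E := hE.symm
        _ = X * (Y * X) * Y := by rw [← hXY]; noncomm_ring
        _ = 0 := by rw [hYX, hD0, mul_zero, zero_mul]
    · exact h
    · exfalso
      obtain ⟨i, hi, j, hj, hij⟩ := Finset.one_lt_card.1 (by omega : 1 < S.card)
      -- corner elements
      have hco : ∀ k ∈ S, ∀ l ∈ S, E * (X * Matrix.single k l 1 * Y) * E =
          X * Matrix.single k l 1 * Y := by
        intro k hk l hl
        calc E * (X * Matrix.single k l 1 * Y) * E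
            = X * ((Y * X) * Matrix.single k l 1 * (Y * X)) * Y := by rw [← hXY]; noncomm_ring
          _ = X * Matrix.single k l 1 * Y := by rw [hYX, hDs k hk l hl]
      have hmul : ∀ k ∈ S, ∀ l ∈ S, X * Matrix.single k l 1 * Y * (X * Matrix.single l k 1 * Y) =
          X * Matrix.single k k 1 * Y := by
        intro k hk l hl
        calc X * Matrix.single k l 1 * Y * (X * Matrix.single l k 1 * Y)
            = X * (Matrix.single k l 1 * (Y * X) * Matrix.single l k 1) * Y := by noncomm_ring
          _ = X * Matrix.single k k 1 * Y := by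
            rw [hYX, Matrix.single_mul_mul_single, hDent l hl, one_mul, one_mul]
      have h1 := hcomm (X * Matrix.single i j 1 * Y) (X * Matrix.single j i 1 * Y)
      rw [hco i hi j hj, hco j hj i hi, hmul i hi j hj, hmul j hj i hi] at h1
      have h2 : ∀ k ∈ S, Y * (X * Matrix.single k k 1 * Y) * X = Matrix.single k k 1 := by
        intro k hk
        calc Y * (X * Matrix.single k k 1 * Y) * X
            = (Y * X) * Matrix.single k k 1 * (Y * X) := by noncomm_ring
          _ = Matrix.single k k 1 := by rw [hYX, hDs k hk k hk]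
      have h3 : Matrix.single i i (1 : K[T;T⁻¹]) = Matrix.single j j 1 := by
        rw [← h2 i hi, h1, h2 j hj]
      have h4 := congrFun (congrFun h3 i) i
      rw [Matrix.single_apply_same, Matrix.single_apply, if_neg (by
        rintro ⟨h5, -⟩; exact hij h5.symm)] at h4
      exact one_ne_zero h4
  obtain ⟨⟨X₁, Y₁, g1, g2⟩, X₂, Y₂, g3, g4⟩ := hS {t} (by rw [hr1, Finset.card_singleton])
  have hDt : Matrix.diagonal (fun i => if i ∈ ({t} : Finset q) then (1 : K[T;T⁻¹]) else 0) =
      Matrix.single t t 1 := by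
    ext i j
    rw [Matrix.diagonal_apply, Matrix.single_apply]
    by_cases hij : i = j
    · subst hij
      by_cases hit : i = t
      · subst hit; simp
      · simp [hit, Ne.symm hit]
    · rw [if_neg hij, if_neg]
      rintro ⟨h1, h2⟩
      exact hij (h1.symm.trans h2)
  rw [hDt] at g2 g4
  obtain ⟨X, Y, hXY, hYX, hEX⟩ := alg_glue hE
    (by rw [Matrix.single_mul_single_same, mul_one]) g1 g2 g3 g4
  -- the corner isomorphism
  have hform : ∀ a : K[T;T⁻¹], Φ (Matrix.single s s a) =
      X * Matrix.single t t ((Y * Φ (Matrix.single s s a) * X) t t) * Y := by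
    intro a
    have h1 : Matrix.single s s a = Matrix.single s s 1 * Matrix.single s s a *
        Matrix.single s s 1 := by
      rw [Matrix.single_mul_single_same, Matrix.single_mul_single_same, one_mul, mul_one]
    have h2 : Φ (Matrix.single s s a) = E * Φ (Matrix.single s s a) * E := by
      conv_lhs => rw [h1]
      rw [map_mul, map_mul]
    conv_lhs => rw [h2, hEX]
    calc X * Matrix.single t t 1 * Y * Φ (Matrix.single s s a) * (X * Matrix.single t t 1 * Y)
        = X * (Matrix.single t t 1 * (Y * Φ (Matrix.single s s a) * X) * Matrix.single t t 1) *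
          Y := by noncomm_ring
      _ = _ := by rw [Matrix.single_mul_mul_single, one_mul, mul_one]
  have hentry : ∀ b : K[T;T⁻¹], (Y * (X * Matrix.single t t b * Y) * X) t t = b := by
    intro b
    have : Y * (X * Matrix.single t t b * Y) * X = (Y * X) * Matrix.single t t b * (Y * X) := by
      noncomm_ring
    rw [this, hYX, one_mul, mul_one, Matrix.single_apply_same]
  have hback : ∀ b : K[T;T⁻¹], Φ.symm (X * Matrix.single t t b * Y) =
      Matrix.single s s ((Φ.symm (X * Matrix.single t t b * Y)) s s) := by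
    intro b
    have h1 : X * Matrix.single t t b * Y = E * (X * Matrix.single t t b * Y) * E := by
      rw [hEX]
      calc X * Matrix.single t t b * Y
          = X * (Matrix.single t t 1 * Matrix.single t t b * Matrix.single t t 1) * Y := by
            rw [Matrix.single_mul_single_same, Matrix.single_mul_single_same, one_mul, mul_one]
        _ = X * (Matrix.single t t 1 * 1 * Matrix.single t t b * 1 * Matrix.single t t 1) * Y := by
            rw [mul_one, mul_one]
        _ = X * (Matrix.single t t 1 * (Y * X) * Matrix.single t t b * (Y * X) *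
            Matrix.single t t 1) * Y := by rw [hYX]
        _ = _ := by noncomm_ring
    apply Φ.injective
    rw [Φ.apply_symm_apply]
    conv_lhs => rw [h1]
    rw [hcorner]
  let g : K[T;T⁻¹] ≃+* K[T;T⁻¹] :=
    { toFun := fun a => (Y * Φ (Matrix.single s s a) * X) t t
      invFun := fun b => (Φ.symm (X * Matrix.single t t b * Y)) s s
      left_inv := by
        intro a
        change (Φ.symm (X * Matrix.single t t ((Y * Φ (Matrix.single s s a) * X) t t) * Y)) s s = a
        rw [← hform a, Φ.symm_apply_apply, Matrix.single_apply_same]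
      right_inv := by
        intro b
        change (Y * Φ (Matrix.single s s ((Φ.symm (X * Matrix.single t t b * Y)) s s)) * X) t t = b
        rw [← hback b, Φ.apply_symm_apply, hentry]
      map_mul' := by
        intro a b
        have h1 : Φ (Matrix.single s s (a * b)) =
            X * Matrix.single t t ((Y * Φ (Matrix.single s s a) * X) t t *
              (Y * Φ (Matrix.single s s b) * X) t t) * Y := by
          have h0 : Matrix.single s s (a * b) = Matrix.single s s a * Matrix.single s s b := by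
            rw [Matrix.single_mul_single_same]
          rw [h0, map_mul]
          conv_lhs => rw [hform a, hform b]
          calc X * Matrix.single t t ((Y * Φ (Matrix.single s s a) * X) t t) * Y *
                (X * Matrix.single t t ((Y * Φ (Matrix.single s s b) * X) t t) * Y)
              = X * (Matrix.single t t ((Y * Φ (Matrix.single s s a) * X) t t) * (Y * X) *
                Matrix.single t t ((Y * Φ (Matrix.single s s b) * X) t t)) * Y := by noncomm_ring
            _ = _ := by rw [hYX, mul_one, Matrix.single_mul_single_same]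
        change (Y * Φ (Matrix.single s s (a * b)) * X) t t = _
        rw [h1, hentry]
      map_add' := by
        intro a b
        rw [Matrix.single_add, map_add, mul_add, add_mul, Matrix.add_apply] }
  obtain ⟨c, hc, e, he, hg⟩ := laurent_auto g
  refine ⟨X, Y, hXY, hYX, c, hc, e, he, hEX, ?_⟩
  have h1 : (Y * Φ (Matrix.single s s (T 1)) * X) t t = C c * T e := hg
  rw [← h1]
  exact hform (T 1)

end Pool.Agent.Helper32.TP
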