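import Pool.Agent.Helper32.TP.Move1
import Pool.Agent.Helper32.TP.Move2
import Pool.Agent.Helper32.TP.Move3

/-! Combination of the moves. PIECE 13. -/

set_option autoImplicit false
set_option linter.unusedSectionVars false

universe k a b

namespace Pool.Agent.Helper32.TP

open Pool.Agent.Helper32.LV

variable {C C' : Type a} {S S' : Type b} [Fintype C] [Fintype S] [DecidableEq C] [DecidableEq S]
  (K : Type k) [Field K] [StarRing K]

/-- the relation: the algebra of `D` and that of `D` with `b` in place of `D.b` are isomorphic -/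
def arith_P (D : Dat C S) (b : S → ℕ) : Prop :=
  Nonempty (L K (NG D) ≃⋆ₐ[K] L K (NG (Dat.mk D.n D.a b)))

theorem arith_row (D : Dat C S) (b : S → ℕ) (h : arith_P K D b) (i : C) :
    arith_P K D (fun j => b j + D.n i j) := by
  obtain ⟨f⟩ := h
  obtain ⟨g⟩ := move1 K (Dat.mk D.n D.a b) i
  exact ⟨f.trans g⟩

theorem arith_rows (D : Dat C S) (b : S → ℕ) (h : arith_P K D b) (i : C) (k : ℕ) :
    arith_P K D (fun j => b j + k * D.n i j) := by
  induction k with
  | zero => simpa using h
  | succ k ih =>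
    have h1 := arith_row K D _ ih i
    have h2 : (fun j => b j + k * D.n i j + D.n i j) = (fun j => b j + (k + 1) * D.n i j) := by
      funext j
      ring
    rw [h2] at h1
    exact h1

theorem arith_rowsum (D : Dat C S) (b : S → ℕ) (h : arith_P K D b) (m : C → ℕ) (s : Finset C) :
    arith_P K D (fun j => b j + ∑ i ∈ s, m i * D.n i j) := by
  classical
  induction s using Finset.induction_on with
  | empty => simpa using h
  | insert i s hi ih =>
    have h1 := arith_rows K D _ ih i (m i)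
    have h2 : (fun j => b j + ∑ i ∈ s, m i * D.n i j + m i * D.n i j) =
        (fun j => b j + ∑ i ∈ insert i s, m i * D.n i j) := by
      funext j
      rw [Finset.sum_insert hi]
      ring
    rw [h2] at h1
    exact h1

theorem arith_col (D : Dat C S) (b : S → ℕ) (h : arith_P K D b) (i : C) (j : S)
    (hij : D.n i j ≠ 0) : arith_P K D (fun j' => b j' + if j' = j then D.a i + 1 else 0) := by
  obtain ⟨f⟩ := h
  obtain ⟨g⟩ := move2 K (Dat.mk D.n D.a b) i j hij
  have h2 : (Dat.mk D.n D.a b).col i j =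
      Dat.mk D.n D.a (fun j' => b j' + if j' = j then D.a i + 1 else 0) := by
    unfold Dat.col
    congr 1
    funext j'
    split_ifs <;> rfl
  rw [h2] at g
  exact ⟨f.trans g⟩

theorem arith_cols (D : Dat C S) (b : S → ℕ) (h : arith_P K D b) (i : C) (j : S) (k : ℕ)
    (hij : D.n i j = 0 → k = 0) :
    arith_P K D (fun j' => b j' + if j' = j then (D.a i + 1) * k else 0) := by
  by_cases h0 : D.n i j = 0
  · rw [hij h0]
    simpa using h
  clear hij
  induction k with
  | zero => simpa using h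
  | succ k ih =>
    have h1 := arith_col K D _ ih i j h0
    have h2 : (fun j' => (b j' + if j' = j then (D.a i + 1) * k else 0) +
        if j' = j then D.a i + 1 else 0) =
        (fun j' => b j' + if j' = j then (D.a i + 1) * (k + 1) else 0) := by
      funext j'
      by_cases hj : j' = j
      · rw [if_pos hj, if_pos hj, if_pos hj]
        ring
      · rw [if_neg hj, if_neg hj, if_neg hj]
    rw [h2] at h1
    exact h1

theorem arith_colsum (D : Dat C S) (b : S → ℕ) (h : arith_P K D b) (c : C → S → ℕ)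
    (hc : ∀ i j, D.n i j = 0 → c i j = 0) (s : Finset (C × S)) :
    arith_P K D (fun j' => b j' + ∑ p ∈ s, if j' = p.2 then (D.a p.1 + 1) * c p.1 p.2 else 0) := by
  classical
  induction s using Finset.induction_on with
  | empty => simpa using h
  | insert p s hp ih =>
    have h1 := arith_cols K D _ ih p.1 p.2 (c p.1 p.2) (hc p.1 p.2)
    have h2 : (fun j' => (b j' + ∑ p ∈ s, if j' = p.2 then (D.a p.1 + 1) * c p.1 p.2 else 0) +
        if j' = p.2 then (D.a p.1 + 1) * c p.1 p.2 else 0) =
        (fun j' => b j' + ∑ p ∈ insert p s, if j' = p.2 then (D.a p.1 + 1) * c p.1 p.2 else 0) := by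
      funext j'
      rw [Finset.sum_insert hp]
      ring
    rw [h2] at h1
    exact h1

/-- iterate `move1` and `move2` -/
theorem moves (D : Dat C S) (m : C → ℕ) (c : C → S → ℕ) (hc : ∀ i j, D.n i j = 0 → c i j = 0) :
    Nonempty (L K (NG D) ≃⋆ₐ[K] L K (NG (Dat.mk D.n D.a
      (fun j => D.b j + ∑ i, m i * D.n i j + ∑ i, (D.a i + 1) * c i j)))) := by
  have h0 : arith_P K D D.b := ⟨StarAlgEquiv.refl K _⟩
  have h1 := arith_rowsum K D _ h0 m Finset.univ
  have h2 := arith_colsum K D _ h1 c hc Finset.univ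
  have h3 : (fun j' => (D.b j' + ∑ i, m i * D.n i j') +
      ∑ p : C × S, if j' = p.2 then (D.a p.1 + 1) * c p.1 p.2 else 0) =
      (fun j => D.b j + ∑ i, m i * D.n i j + ∑ i, (D.a i + 1) * c i j) := by
    funext j
    congr 1
    rw [Fintype.sum_prod_type]
    refine Finset.sum_congr rfl fun i _ => ?_
    rw [Finset.sum_ite_eq]
    rw [if_pos (Finset.mem_univ j)]
  rw [h3] at h2
  exact h2

/-- positive and negative parts of `m`, `cc`, and `relabel` -/
theorem iso_of_rel (D : Dat C S) (D' : Dat C' S') (σ : C ≃ C') (ρ : S ≃ S')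
    (hn : ∀ i j, D'.n (σ i) (ρ j) = D.n i j) (ha : ∀ i, D'.a (σ i) = D.a i)
    (m : C → ℤ) (cc : C → S → ℤ) (hc : ∀ i j, D.n i j = 0 → cc i j = 0)
    (hb : ∀ j, (D'.b (ρ j) : ℤ) =
      D.b j + ∑ i, m i * D.n i j + ∑ i, ((D.a i : ℤ) + 1) * cc i j) :
    Nonempty (L K (NG D) ≃⋆ₐ[K] L K (NG D')) := by
  obtain ⟨f⟩ := moves K D (fun i => (m i).toNat) (fun i j => (cc i j).toNat)
    (fun i j h => by simp only [hc i j h]; rfl)
  obtain ⟨g⟩ := moves K (Dat.mk D.n D.a (fun j => D'.b (ρ j))) (fun i => (-m i).toNat)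
    (fun i j => (-cc i j).toNat) (fun i j h => by
      have h' : D.n i j = 0 := h
      simp only [hc i j h']
      rfl)
  obtain ⟨e⟩ := relabel K (Dat.mk D.n D.a (fun j => D'.b (ρ j))) D' σ ρ hn ha (fun _ => rfl)
  have key : (fun j => D.b j + ∑ i, (m i).toNat * D.n i j + ∑ i, (D.a i + 1) * (cc i j).toNat) =
      (fun j => D'.b (ρ j) + ∑ i, (-m i).toNat * D.n i j +
        ∑ i, (D.a i + 1) * (-cc i j).toNat) := by
    funext j
    have h1 : ∀ x : ℤ, (x.toNat : ℤ) = x + ((-x).toNat : ℤ) := by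
      intro x
      omega
    have h2 := hb j
    zify
    rw [h2]
    have h3 : ∑ i, ((m i).toNat : ℤ) * (D.n i j : ℤ) =
        ∑ i, m i * (D.n i j : ℤ) + ∑ i, ((-m i).toNat : ℤ) * (D.n i j : ℤ) := by
      rw [← Finset.sum_add_distrib]
      refine Finset.sum_congr rfl fun i _ => ?_
      rw [h1 (m i)]
      ring
    have h4 : ∑ i, ((D.a i : ℤ) + 1) * ((cc i j).toNat : ℤ) =
        ∑ i, ((D.a i : ℤ) + 1) * cc i j + ∑ i, ((D.a i : ℤ) + 1) * ((-cc i j).toNat : ℤ) := by
      rw [← Finset.sum_add_distrib]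
      refine Finset.sum_congr rfl fun i _ => ?_
      rw [h1 (cc i j)]
      ring
    rw [h3, h4]
    ring
  have g' : L K (NG (Dat.mk D.n D.a (fun j => D'.b (ρ j)))) ≃⋆ₐ[K] L K (NG (Dat.mk D.n D.a
      (fun j => D.b j + ∑ i, (m i).toNat * D.n i j + ∑ i, (D.a i + 1) * (cc i j).toNat))) := by
    rw [key]
    exact g
  exact ⟨(f.trans g'.symm).trans e⟩

end Pool.Agent.Helper32.TP
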