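import Pool.Agent.Helper32.LV.Basic

/-! Leavitt path algebras of finite graphs in which no cycle reaches another cycle.

Normal form: `C` the set of cycles, `S` the set of sinks, `n i j` the number of exits from the cycle
`i` to the sink `j`, and `a i + 1`, `b j + 1` multiplicities. The graph `NG D` has the vertices
`v i none` (with a loop `z i`), `v i (some s)`, `w j none` (a sink), `w j (some r)`, and the edges
`z i : v i none → v i none`, `f i j k : v i none → w j none`, `g i s : v i (some s) → v i none`,
`h j r : w j (some r) → w j none`. -/

set_option autoImplicit false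

universe k a b

namespace Pool.Agent.Helper32.TP

open Pool.Agent.Helper32.LV

/-- data of a normal form -/
structure Dat (C : Type a) (S : Type b) where
  n : C → S → ℕ
  a : C → ℕ
  b : S → ℕ

variable {C : Type a} {S : Type b}

/-- vertices -/
inductive NV (D : Dat C S) : Type (max a b)
  | v (i : C) (s : Option (Fin (D.a i))) : NV D
  | w (j : S) (r : Option (Fin (D.b j))) : NV D

/-- edges -/
inductive NE (D : Dat C S) : Type (max a b)
  | z (i : C) : NE D
  | f (i : C) (j : S) (k : Fin (D.n i j)) : NE D
  | g (i : C) (s : Fin (D.a i)) : NE D
  | h (j : S) (r : Fin (D.b j)) : NE D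

/-- the graph -/
def NG (D : Dat C S) : Gr (NV D) (NE D) where
  s e := match e with
    | .z i => .v i none
    | .f i _ _ => .v i none
    | .g i s => .v i (some s)
    | .h j r => .w j (some r)
  r e := match e with
    | .z i => .v i none
    | .f _ j _ => .w j none
    | .g i _ => .v i none
    | .h j _ => .w j none

/-- the paths ending at the sink `j` -/
inductive XX (D : Dat C S) (j : S) : Type (max a b)
  | c (i : C) (s : Option (Fin (D.a i))) (m : ℕ) (k : Fin (D.n i j)) : XX D j
  | w (r : Option (Fin (D.b j))) : XX D j

variable (K : Type k) [Field K] [StarRing K] (D : Dat C S)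

/-- the link from `v i s` to `v i none` -/
noncomputable def lk (i : C) (s : Option (Fin (D.a i))) : U K (NG D) :=
  match s with
  | none => vx K (NG D) (.v i none)
  | some s => ed K (NG D) (.g i s)

/-- the link from `w j r` to `w j none` -/
noncomputable def lw (j : S) (r : Option (Fin (D.b j))) : U K (NG D) :=
  match r with
  | none => vx K (NG D) (.w j none)
  | some r => ed K (NG D) (.h j r)

/-- the path -/
noncomputable def pth (j : S) (x : XX D j) : U K (NG D) :=
  match x with
  | .c i s m k => lk K D i s * zp K (NG D) (.z i) m * ed K (NG D) (.f i j k)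
  | .w r => lw K D j r

/-- matrix units over the sink `j` -/
noncomputable def eps (j : S) (x y : XX D j) : U K (NG D) := pth K D j x * star (pth K D j y)

/-- `z ^ m` (with `z ^ (-1) = z*`) between copies of the loop vertex `i` -/
noncomputable def mu (i : C) (s t : Option (Fin (D.a i))) (m : ℤ) : U K (NG D) :=
  lk K D i s * zp K (NG D) (.z i) m * star (lk K D i t)

/-- the ideal generated by the sinks -/
noncomputable def Isp : Submodule K (U K (NG D)) :=
  Submodule.span K {x | ∃ j x₁ x₂, x = eps K D j x₁ x₂}

variable [Fintype C] [Fintype S] [DecidableEq C] [DecidableEq S]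

/-- the unit of `L` -/
noncomputable def one : U K (NG D) :=
  (∑ i, ∑ s, vx K (NG D) (.v i s)) + ∑ j, ∑ r, vx K (NG D) (.w j r)

/-- matrices over the Laurent polynomials -/
abbrev MM (i : C) := Matrix (Option (Fin (D.a i))) (Option (Fin (D.a i))) (LaurentPolynomial K)

/-- a linear section of the quotient map -/
noncomputable def th (B : ∀ i, MM K D i) : U K (NG D) :=
  ∑ i, ∑ s, ∑ t, Finsupp.linearCombination K (fun m => mu K D i s t m) (B i s t).coeff

/-- the quotient map: the sinks go to zero, the loops to `T` -/
structure Ch where
  χ : U K (NG D) →ₐ[K] (∀ i, MM K D i)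
  χmu : ∀ i s t m, χ (mu K D i s t m) = Pi.single i (Matrix.single s t (LaurentPolynomial.T m))
  χeps : ∀ j x y, χ (eps K D j x y) = 0

/-- action of `mu i s t m` on the paths -/
def sh {D : Dat C S} {j : S} (i : C) (s t : Option (Fin (D.a i))) (m : ℤ) :
    XX D j → Option (XX D j)
  | .c i' s' m' k => if h : i' = i then
      (if (h ▸ s') = t ∧ 0 ≤ (m' : ℤ) + m then some (.c i s ((m' : ℤ) + m).toNat (h ▸ k)) else none)
    else none
  | .w _ => none

/-- the linear map of a map with values in `Option` -/
noncomputable def opn {X : Type*} (p : X → Option X) : Module.End K (X →₀ K) :=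
  Finsupp.linearCombination K fun x => match p x with
    | none => 0
    | some y => Finsupp.single y 1

/-- the representation on the spaces of paths -/
structure Rp where
  π : U K (NG D) →ₐ[K] (∀ j, Module.End K (XX D j →₀ K))
  πmu : ∀ i s t m j, π (mu K D i s t m) j = opn K (sh i s t m)
  πne : ∀ j x y j', j' ≠ j → π (eps K D j x y) j' = 0
  πeps : ∀ j x y u, π (eps K D j x y) j u = Finsupp.single x (u y)

end Pool.Agent.Helper32.TP
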