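import Pool.Agent.Helper32.TP.NEq

/-! The relation between the multiplicities of the sinks. PIECE 9. -/

set_option autoImplicit false
set_option linter.unusedSectionVars false

universe k a b a' b'

namespace Pool.Agent.Helper32.TP

open Pool.Agent.Helper32.LV

variable {C : Type a} {S : Type b} [Fintype C] [Fintype S] [DecidableEq C] [DecidableEq S]
  {K : Type k} [Field K] [StarRing K] {D : Dat C S}
  {C' : Type a'} {S' : Type b'} [Fintype C'] [Fintype S'] [DecidableEq C'] [DecidableEq S']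
  {D' : Dat C' S'}

theorem rel_f_zero (φ : RI K (NG D) (NG D')) : φ.f 0 = 0 := by
  have h := φ.f_add 0 (L K (NG D)).zero_mem 0 (L K (NG D)).zero_mem
  rw [add_zero] at h
  simpa using h

theorem rel_f_sum (φ : RI K (NG D) (NG D')) {ι : Type*} (s : Finset ι) (g : ι → U K (NG D))
    (h : ∀ i ∈ s, g i ∈ L K (NG D)) : φ.f (∑ i ∈ s, g i) = ∑ i ∈ s, φ.f (g i) := by
  classical
  induction s using Finset.induction_on with
  | empty => simp [rel_f_zero]
  | insert a s ha ih =>
    rw [Finset.sum_insert ha, Finset.sum_insert ha, φ.f_add _ (h _ (Finset.mem_insert_self _ _)) _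
      ((L K (NG D)).sum_mem fun i hi => h i (Finset.mem_insert_of_mem hi)),
      ih (fun i hi => h i (Finset.mem_insert_of_mem hi))]

theorem rel_lk_mem (i : C) (s : Option (Fin (D.a i))) : lk K D i s ∈ L K (NG D) := by
  cases s with
  | none => exact vx_mem _
  | some s => exact ed_mem _

theorem rel_lw_mem (j : S) (r : Option (Fin (D.b j))) : lw K D j r ∈ L K (NG D) := by
  cases r with
  | none => exact vx_mem _
  | some r => exact ed_mem _

theorem rel_v_lk_self (i : C) (s : Option (Fin (D.a i))) :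
    vx K (NG D) (.v i s) * lk K D i s = lk K D i s := by
  cases s with
  | none => exact vx_vx _
  | some s => exact vx_ed (G := NG D) (NE.g i s)

theorem rel_lk_v_self (i : C) (s : Option (Fin (D.a i))) :
    lk K D i s * vx K (NG D) (.v i none) = lk K D i s := by
  cases s with
  | none => exact vx_vx _
  | some s => exact ed_vx (G := NG D) (NE.g i s)

theorem rel_star_lk (q q' : Σ i, Option (Fin (D.a i))) :
    star (lk K D q.1 q.2) * lk K D q'.1 q'.2 =
      if q = q' then vx K (NG D) (.v q.1 none) else 0 := by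
  obtain ⟨i, s⟩ := q
  obtain ⟨i', s'⟩ := q'
  by_cases h : i = i'
  · subst h
    rw [star_lk_mul_lk]
    by_cases h2 : s = s'
    · subst h2
      simp
    · rw [if_neg h2, if_neg]
      intro h3
      apply h2
      simpa using h3
  · rw [if_neg (fun h3 => h (congrArg Sigma.fst h3))]
    exact star_lk_mul_lk_ne h s s'

theorem rel_v_lk (q q' : Σ i, Option (Fin (D.a i))) :
    vx K (NG D) (.v q.1 q.2) * lk K D q'.1 q'.2 = if q = q' then lk K D q.1 q.2 else 0 := by
  by_cases h : q = q'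
  · subst h
    rw [if_pos rfl, rel_v_lk_self]
  · rw [if_neg h, ← rel_v_lk_self, ← mul_assoc, vx_vx_of_ne, zero_mul]
    intro h2
    apply h
    injection h2 with h3 h4
    exact Sigma.ext h3 h4

theorem rel_w_lk (j : S) (r : Option (Fin (D.b j))) (q : Σ i, Option (Fin (D.a i))) :
    vx K (NG D) (.w j r) * lk K D q.1 q.2 = 0 := by
  rw [← rel_v_lk_self, ← mul_assoc, vx_vx_of_ne, zero_mul]
  intro h2
  cases h2

theorem rel_lk_v' (q q' : Σ i, Option (Fin (D.a i))) :
    star (lk K D q'.1 q'.2) * vx K (NG D) (.v q.1 q.2) =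
      if q = q' then star (lk K D q.1 q.2) else 0 := by
  have h := congrArg star (rel_v_lk (K := K) q q')
  rw [star_mul, star_vx] at h
  rw [h]
  split_ifs
  · rfl
  · exact star_zero _

theorem rel_lk_w' (j : S) (r : Option (Fin (D.b j))) (q : Σ i, Option (Fin (D.a i))) :
    star (lk K D q.1 q.2) * vx K (NG D) (.w j r) = 0 := by
  have h := congrArg star (rel_w_lk (K := K) j r q)
  rw [star_mul, star_vx, star_zero] at h
  exact h

theorem rel_alg {R : Type*} [Ring R] {X Y s : R} (hYX : Y * X = 1) (hss : s * s = s) :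
    X * s * Y * (X * s) * s = X * s ∧ s * (s * Y) * (X * s * Y) = s * Y ∧
      X * s * (s * Y) = X * s * Y ∧ s * Y * (X * s) = s := by
  refine ⟨?_, ?_, ?_, ?_⟩
  · calc X * s * Y * (X * s) * s = X * (s * (Y * X) * s * s) := by noncomm_ring
      _ = X * s := by rw [hYX, mul_one, hss, hss]
  · calc s * (s * Y) * (X * s * Y) = s * s * (Y * X) * s * Y := by noncomm_ring
      _ = s * Y := by rw [hYX, mul_one, hss, hss]
  · calc X * s * (s * Y) = X * (s * s) * Y := by noncomm_ring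
      _ = X * s * Y := by rw [hss]
  · calc s * Y * (X * s) = s * (Y * X) * s := by noncomm_ring
      _ = s := by rw [hYX, mul_one, hss]

theorem rel_conn (c' : Ch K D') (i' : C') {e : U K (NG D')} (hem : e ∈ L K (NG D'))
    (hee : e * e = e) {X Y : MM K D' i'} (hYX : Y * X = 1)
    (hce : c'.χ e = Pi.single i' (X * Matrix.single none none 1 * Y)) :
    ∃ x ∈ L K (NG D'), ∃ y ∈ L K (NG D'),
      e * x * vx K (NG D') (.v i' none) = x ∧
      vx K (NG D') (.v i' none) * y * e = y ∧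
      x * y - e ∈ Isp K D' ∧
      y * x - vx K (NG D') (.v i' none) ∈ Isp K D' := by
  have hcf : c'.χ (vx K (NG D') (.v i' none)) = Pi.single i' (Matrix.single none none 1) :=
    chi_v c' _ _
  have hfm : vx K (NG D') (.v i' none) ∈ L K (NG D') := vx_mem _
  have hff : vx K (NG D') (.v i' none) * vx K (NG D') (.v i' none) =
    vx K (NG D') (.v i' none) := vx_vx _
  have hSS : (Matrix.single none none 1 : MM K D' i') * Matrix.single none none 1 =
      Matrix.single none none 1 := by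
    rw [Matrix.single_mul_single_same, mul_one]
  generalize (Matrix.single none none 1 : MM K D' i') = s0 at hce hcf hSS
  generalize vx K (NG D') (.v i' none) = f at hcf hfm hff ⊢
  obtain ⟨k1, k2, k3, k4⟩ := rel_alg hYX hSS
  obtain ⟨x0, hx0m, hx0⟩ : ∃ x0 ∈ L K (NG D'), c'.χ x0 = Pi.single i' (X * s0) :=
    ⟨_, th_mem _, chi_th c' _⟩
  obtain ⟨y0, hy0m, hy0⟩ : ∃ y0 ∈ L K (NG D'), c'.χ y0 = Pi.single i' (s0 * Y) :=
    ⟨_, th_mem _, chi_th c' _⟩
  have hxm : e * x0 * f ∈ L K (NG D') := (L K (NG D')).mul_mem ((L K (NG D')).mul_mem hem hx0m) hfm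
  have hym : f * y0 * e ∈ L K (NG D') := (L K (NG D')).mul_mem ((L K (NG D')).mul_mem hfm hy0m) hem
  have hcx : c'.χ (e * x0 * f) = Pi.single i' (X * s0) := by
    rw [map_mul, map_mul, hce, hcf, hx0, ← Pi.single_mul, ← Pi.single_mul, k1]
  have hcy : c'.χ (f * y0 * e) = Pi.single i' (s0 * Y) := by
    rw [map_mul, map_mul, hce, hcf, hy0, ← Pi.single_mul, ← Pi.single_mul, k2]
  refine ⟨e * x0 * f, hxm, f * y0 * e, hym, ?_, ?_, ?_, ?_⟩
  · calc e * (e * x0 * f) * f = (e * e) * x0 * (f * f) := by noncomm_ring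
      _ = e * x0 * f := by rw [hee, hff]
  · calc f * (f * y0 * e) * e = (f * f) * y0 * (e * e) := by noncomm_ring
      _ = f * y0 * e := by rw [hee, hff]
  · rw [mem_Isp_iff c' ((L K (NG D')).sub_mem ((L K (NG D')).mul_mem hxm hym) hem), map_sub,
      map_mul, hcx, hcy, hce, ← Pi.single_mul, sub_eq_zero, k3]
  · rw [mem_Isp_iff c' ((L K (NG D')).sub_mem ((L K (NG D')).mul_mem hym hxm) hfm), map_sub,
      map_mul, hcx, hcy, hcf, ← Pi.single_mul, sub_eq_zero, k4]

theorem rel_chi {φ : RI K (NG D) (NG D')} {c : Ch K D} {c' : Ch K D'} (M : Mt φ c c')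
    (i : C) : c'.χ (φ.f (vx K (NG D) (.v i none))) =
      Pi.single (M.σ i) (M.Φ i (Matrix.single none none 1)) := by
  funext i'
  obtain ⟨i0, rfl⟩ := M.σ.surjective i'
  rw [← M.hΦ _ (vx_mem _), chi_v]
  by_cases h : i0 = i
  · subst h
    rw [Pi.single_eq_same, Pi.single_eq_same]
  · rw [Pi.single_eq_of_ne h, map_zero, Pi.single_eq_of_ne (fun h' => h (M.σ.injective h'))]

/-- elements of the corners connecting `φ (v i none)` and `v (σ i) none` modulo the ideal, lifted
from `X`, `Y` of `laurent_matrix_iso` -/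
theorem Mt.exists_conn {φ : RI K (NG D) (NG D')} {c : Ch K D} {c' : Ch K D'} (M : Mt φ c c')
    (i : C) : ∃ x ∈ L K (NG D'), ∃ y ∈ L K (NG D'),
      φ.f (vx K (NG D) (.v i none)) * x * vx K (NG D') (.v (M.σ i) none) = x ∧
      vx K (NG D') (.v (M.σ i) none) * y * φ.f (vx K (NG D) (.v i none)) = y ∧
      x * y - φ.f (vx K (NG D) (.v i none)) ∈ Isp K D' ∧
      y * x - vx K (NG D') (.v (M.σ i) none) ∈ Isp K D' := by
  obtain ⟨X, Y, -, hYX, c0, -, e0, -, hX, -⟩ := laurent_matrix_iso (M.Φ i) none none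
  refine rel_conn c' (M.σ i) (φ.f_mem _ (vx_mem _)) ?_ hYX ?_
  · rw [← φ.f_mul _ (vx_mem _) _ (vx_mem _), vx_vx]
  · rw [rel_chi M i, hX]

theorem rel_pi_zero (R' : Rp K D') (j : S') {e : U K (NG D')}
    (h : ∀ x ∈ L K (NG D'), e * x * vx K (NG D') (.w j none) = 0) : R'.π e j = 0 := by
  apply Finsupp.lhom_ext'
  intro x
  apply LinearMap.ext_ring
  rw [LinearMap.comp_apply, Finsupp.lsingle_apply, LinearMap.zero_comp, LinearMap.zero_apply]
  have h1 : R'.π (vx K (NG D') (.w j none)) j (Finsupp.single (.w none) 1) =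
      Finsupp.single (.w none) 1 := pth_w R' j (.w none)
  rw [← pth_w R' j x, ← h1, ← Module.End.mul_apply, ← Pi.mul_apply, ← map_mul,
    ← Module.End.mul_apply, ← Pi.mul_apply, ← map_mul, h _ (pth_mem j x), map_zero]
  rfl

/-- no paths from the cycle to the sink: also for the image idempotent -/
theorem Mt.image_zero {φ : RI K (NG D) (NG D')} {c : Ch K D} {c' : Ch K D'} (M : Mt φ c c')
    (R' : Rp K D') (i : C) (j : S) (h : D.n i j = 0) :
    R'.π (φ.f (vx K (NG D) (.v i none))) (M.ρ j) = 0 ∧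
    R'.π (vx K (NG D') (.v (M.σ i) none)) (M.ρ j) = 0 := by
  constructor
  · apply rel_pi_zero
    intro x hx
    obtain ⟨a, ha, b, hb, h1, h2⟩ := M.hρ j
    have h3 : vx K (NG D') (.w (M.ρ j) none) =
        b * φ.f (vx K (NG D) (.w j none)) * a := by
      rw [← h1]
      calc vx K (NG D') (.w (M.ρ j) none)
          = vx K (NG D') (.w (M.ρ j) none) * vx K (NG D') (.w (M.ρ j) none) := (vx_vx _).symm
        _ = b * a * (b * a) := by rw [h2]
        _ = b * (a * b) * a := by noncomm_ring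
    have hxb := (L K (NG D')).mul_mem hx hb
    have h4 : φ.f (vx K (NG D) (.v i none)) * (x * b) * φ.f (vx K (NG D) (.w j none)) = 0 := by
      have h5 := v_w_zero (K := K) h none (φ.g_mem _ hxb)
      have h6 := congrArg φ.f h5
      rw [rel_f_zero, φ.f_mul _ ((L K (NG D)).mul_mem (vx_mem _) (φ.g_mem _ hxb)) _ (vx_mem _),
        φ.f_mul _ (vx_mem _) _ (φ.g_mem _ hxb), φ.fg _ hxb] at h6
      exact h6
    calc φ.f (vx K (NG D) (.v i none)) * x * vx K (NG D') (.w (M.ρ j) none)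
        = φ.f (vx K (NG D) (.v i none)) * x * (b * φ.f (vx K (NG D) (.w j none)) * a) := by rw [h3]
      _ = φ.f (vx K (NG D) (.v i none)) * (x * b) * φ.f (vx K (NG D) (.w j none)) * a := by
          noncomm_ring
      _ = 0 := by rw [h4, zero_mul]
  · apply rel_pi_zero
    intro x hx
    exact v_w_zero (by rw [M.n_eq R']; exact h) none hx

theorem rel_sum_mul {R : Type*} [Ring R] {ι : Type*} [Fintype ι] [DecidableEq ι]
    (A x B B' y A' f : ι → R) (h : ∀ q q', B q * B' q' = if q = q' then f q else 0)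
    (hx : ∀ q, x q * f q = x q) :
    (∑ q, A q * x q * B q) * (∑ q, B' q * y q * A' q) = ∑ q, A q * (x q * y q) * A' q := by
  rw [Finset.sum_mul]
  refine Finset.sum_congr rfl fun q _ => ?_
  rw [Finset.mul_sum, Finset.sum_eq_single q]
  · calc A q * x q * B q * (B' q * y q * A' q) = A q * (x q * (B q * B' q)) * y q * A' q := by
          noncomm_ring
      _ = A q * (x q * y q) * A' q := by rw [h, if_pos rfl, hx]; noncomm_ring
  · intro q' _ hq
    calc A q * x q * B q * (B' q' * y q' * A' q') = A q * (x q * (B q * B' q')) * y q' * A' q' := by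
          noncomm_ring
      _ = 0 := by rw [h, if_neg (Ne.symm hq)]; simp
  · intro h
    exact absurd (Finset.mem_univ _) h

theorem rel_finRk_sub {V W : Type*} [AddCommGroup V] [Module K V] [AddCommGroup W] [Module K W]
    {N : Submodule K W} {G : V →ₗ[K] N} (h : FinRk (N.subtype ∘ₗ G)) : FinRk G := by
  have h1 : Module.Finite K (LinearMap.range (N.subtype ∘ₗ G)) := h
  rw [LinearMap.range_comp] at h1
  exact Module.Finite.equiv (Submodule.equivMapOfInjective N.subtype N.injective_subtype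
    (LinearMap.range G)).symm

theorem rel_Fr_blk {V : Type*} [AddCommGroup V] [Module K V] {P Q Tx Ty : Module.End K V}
    (hP : P * P = P) (hQ : Q * Q = Q) (hx : Q * Tx * P = Tx) (hy : P * Ty * Q = Ty)
    (h1 : FinRk (Ty * Tx - P)) (h2 : FinRk (Tx * Ty - Q)) : Fr (blk P Q Tx) := by
  have key : ∀ {P Q Tx Ty : Module.End K V} (_ : P * P = P) (_ : P * Ty * Q = Ty)
      (_ : FinRk (Ty * Tx - P)), FinRk (blk Q P Ty ∘ₗ blk P Q Tx - LinearMap.id) := by
    intro P Q Tx Ty hP hy h1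
    apply rel_finRk_sub
    have h3 : (LinearMap.range P).subtype ∘ₗ (blk Q P Ty ∘ₗ blk P Q Tx - LinearMap.id) =
        (Ty * Tx - P) ∘ₗ (LinearMap.range P).subtype := by
      ext ⟨x, z, rfl⟩
      change P (Ty (Q (Tx (P z)))) - P z = Ty (Tx (P z)) - P (P z)
      have e1 := LinearMap.congr_fun hy (Tx (P z))
      have e2 := LinearMap.congr_fun hP z
      simp only [Module.End.mul_apply] at e1 e2
      rw [e1, e2]
    rw [h3]
    exact FinRk.comp_right h1 _
  exact Fr.of_par (key hP hy h1) (key hQ hx h2)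

theorem rel_zero_range {V : Type*} [AddCommGroup V] [Module K V] {P : Module.End K V}
    (h : P = 0) : Module.Finite K (LinearMap.range P) ∧ Module.finrank K (LinearMap.range P) = 0 := by
  subst h
  rw [LinearMap.range_zero]
  exact ⟨inferInstance, finrank_bot K V⟩

theorem rel_chi_eq (c' : Ch K D') {x y : U K (NG D')} (hx : x ∈ L K (NG D'))
    (hy : y ∈ L K (NG D')) (h : x - y ∈ Isp K D') : c'.χ x = c'.χ y := by
  rw [mem_Isp_iff c' ((L K (NG D')).sub_mem hx hy), map_sub, sub_eq_zero] at h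
  exact h

theorem rel_finRk (R' : Rp K D') {x y : U K (NG D')} (h : x - y ∈ Isp K D') (j : S') :
    FinRk (R'.π x j - R'.π y j) := by
  have := Isp_finRk R' h j
  rwa [map_sub] at this

theorem rel_one_sum : one K D = (∑ q : Σ i, Option (Fin (D.a i)), vx K (NG D) (.v q.1 q.2)) +
    ∑ r : Σ j, Option (Fin (D.b j)), vx K (NG D) (.w r.1 r.2) := by
  unfold one
  rw [Fintype.sum_sigma, Fintype.sum_sigma]

theorem rel_chi_v_one (c : Ch K D) :
    c.χ (∑ q : Σ i, Option (Fin (D.a i)), vx K (NG D) (.v q.1 q.2)) = 1 := by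
  have h := chi_one c
  rw [rel_one_sum, map_add] at h
  rw [← h, left_eq_add, map_sum]
  exact Finset.sum_eq_zero fun r _ => chi_w c _ _

theorem rel_v_sum_mem : (∑ q : Σ i, Option (Fin (D.a i)), vx K (NG D) (.v q.1 q.2)) ∈
    L K (NG D) := (L K (NG D)).sum_mem fun _ _ => vx_mem _

theorem rel_w_sum_mem : (∑ r : Σ j, Option (Fin (D.b j)), vx K (NG D) (.w r.1 r.2)) ∈
    L K (NG D) := (L K (NG D)).sum_mem fun _ _ => vx_mem _

theorem rel_phi_v_one {φ : RI K (NG D) (NG D')} (c : Ch K D) (c' : Ch K D') :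
    c'.χ (∑ q : Σ i, Option (Fin (D.a i)), φ.f (vx K (NG D) (.v q.1 q.2))) = 1 := by
  have h := phi_one φ
  rw [rel_one_sum, φ.f_add _ rel_v_sum_mem _ rel_w_sum_mem] at h
  have h2 := congrArg c'.χ h
  have h3 : (∑ r : Σ j, Option (Fin (D.b j)), vx K (NG D) (.w r.1 r.2)) ∈ Isp K D :=
    Submodule.sum_mem _ fun r _ => w_mem_Isp _ _
  have h4 := (mem_Isp_iff c' (φ.f_mem _ rel_w_sum_mem)).mp (Isp_map c c' φ h3)
  rw [map_add, h4, add_zero, chi_one] at h2
  rw [← rel_f_sum φ Finset.univ (fun q : Σ i, Option (Fin (D.a i)) => vx K (NG D) (.v q.1 q.2))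
    (fun _ _ => vx_mem _)]
  exact h2

theorem rel_pi_mul (R' : Rp K D') (x y : U K (NG D')) (j : S') :
    R'.π (x * y) j = R'.π x j * R'.π y j := by
  rw [map_mul]
  rfl

/-- images of the links -/
noncomputable def rel_A (φ : RI K (NG D) (NG D')) (q : Σ i, Option (Fin (D.a i))) :
    U K (NG D') := φ.f (lk K D q.1 q.2)

/-- images of the adjoints of the links -/
noncomputable def rel_A' (φ : RI K (NG D) (NG D')) (q : Σ i, Option (Fin (D.a i))) :
    U K (NG D') := φ.f (star (lk K D q.1 q.2))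

theorem rel_A_mem (φ : RI K (NG D) (NG D')) (q : Σ i, Option (Fin (D.a i))) :
    rel_A φ q ∈ L K (NG D') := φ.f_mem _ (rel_lk_mem _ _)

theorem rel_A'_mem (φ : RI K (NG D) (NG D')) (q : Σ i, Option (Fin (D.a i))) :
    rel_A' φ q ∈ L K (NG D') := φ.f_mem _ (star_mem_L (rel_lk_mem _ _))

theorem rel_A'A (φ : RI K (NG D) (NG D')) (q q' : Σ i, Option (Fin (D.a i))) :
    rel_A' φ q * rel_A φ q' = if q = q' then φ.f (vx K (NG D) (.v q.1 none)) else 0 := by
  unfold rel_A rel_A'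
  rw [← φ.f_mul _ (star_mem_L (rel_lk_mem _ _)) _ (rel_lk_mem _ _), rel_star_lk]
  split_ifs
  · rfl
  · exact rel_f_zero φ

theorem rel_AA' (φ : RI K (NG D) (NG D')) (q : Σ i, Option (Fin (D.a i))) :
    rel_A φ q * rel_A' φ q = φ.f (vx K (NG D) (.v q.1 q.2)) := by
  unfold rel_A rel_A'
  rw [← φ.f_mul _ (rel_lk_mem _ _) _ (star_mem_L (rel_lk_mem _ _)), lk_mul_star]

theorem rel_vA (φ : RI K (NG D) (NG D')) (q q' : Σ i, Option (Fin (D.a i))) :
    φ.f (vx K (NG D) (.v q.1 q.2)) * rel_A φ q' = if q = q' then rel_A φ q else 0 := by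
  unfold rel_A
  rw [← φ.f_mul _ (vx_mem _) _ (rel_lk_mem _ _), rel_v_lk]
  split_ifs
  · rfl
  · exact rel_f_zero φ

theorem rel_wA (φ : RI K (NG D) (NG D')) (r : Σ j, Option (Fin (D.b j)))
    (q : Σ i, Option (Fin (D.a i))) :
    φ.f (vx K (NG D) (.w r.1 r.2)) * rel_A φ q = 0 := by
  unfold rel_A
  rw [← φ.f_mul _ (vx_mem _) _ (rel_lk_mem _ _), rel_w_lk, rel_f_zero]

theorem rel_Av (φ : RI K (NG D) (NG D')) (q : Σ i, Option (Fin (D.a i))) :
    rel_A φ q * φ.f (vx K (NG D) (.v q.1 none)) = rel_A φ q := by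
  unfold rel_A
  rw [← φ.f_mul _ (rel_lk_mem _ _) _ (vx_mem _), rel_lk_v_self]

/-- the operator is invertible modulo the ideal -/
theorem rel_inv {φ : RI K (NG D) (NG D')} {c : Ch K D} {c' : Ch K D'} (M : Mt φ c c')
    (τ : (Σ i, Option (Fin (D.a i))) ≃ Σ i', Option (Fin (D'.a i')))
    (hτ : ∀ q, (τ q).1 = M.σ q.1) {x y : C → U K (NG D')} (hx : ∀ i, x i ∈ L K (NG D'))
    (hy : ∀ i, y i ∈ L K (NG D'))
    (h1 : ∀ i, φ.f (vx K (NG D) (.v i none)) * x i * vx K (NG D') (.v (M.σ i) none) = x i)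
    (h2 : ∀ i, vx K (NG D') (.v (M.σ i) none) * y i * φ.f (vx K (NG D) (.v i none)) = y i)
    (h3 : ∀ i, x i * y i - φ.f (vx K (NG D) (.v i none)) ∈ Isp K D')
    (h4 : ∀ i, y i * x i - vx K (NG D') (.v (M.σ i) none) ∈ Isp K D') :
    c'.χ (∑ q, rel_A φ q * x q.1 * star (lk K D' (τ q).1 (τ q).2)) *
      c'.χ (∑ q, lk K D' (τ q).1 (τ q).2 * y q.1 * rel_A' φ q) = 1 ∧
    c'.χ (∑ q, lk K D' (τ q).1 (τ q).2 * y q.1 * rel_A' φ q) *
      c'.χ (∑ q, rel_A φ q * x q.1 * star (lk K D' (τ q).1 (τ q).2)) = 1 := by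
  have hBB : ∀ q q', star (lk K D' (τ q).1 (τ q).2) * lk K D' (τ q').1 (τ q').2 =
      if q = q' then vx K (NG D') (.v (M.σ q.1) none) else 0 := by
    intro q q'
    rw [rel_star_lk, hτ q]
    by_cases h : q = q'
    · rw [if_pos h, if_pos (congrArg τ h)]
    · rw [if_neg h, if_neg (fun h' => h (τ.injective h'))]
  have hxf : ∀ i, x i * vx K (NG D') (.v (M.σ i) none) = x i := by
    intro i
    rw [← h1 i, mul_assoc, vx_vx]
  have hye : ∀ i, y i * φ.f (vx K (NG D) (.v i none)) = y i := by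
    intro i
    rw [← h2 i, mul_assoc, ← φ.f_mul _ (vx_mem _) _ (vx_mem _), vx_vx]
  constructor
  · rw [← map_mul, rel_sum_mul (rel_A φ) (fun q => x q.1) (fun q => star (lk K D' (τ q).1 (τ q).2))
      (fun q => lk K D' (τ q).1 (τ q).2) (fun q => y q.1) (rel_A' φ)
      (fun q => vx K (NG D') (.v (M.σ q.1) none)) hBB (fun q => hxf q.1), ← rel_phi_v_one c c',
      map_sum, map_sum]
    refine Finset.sum_congr rfl fun q _ => ?_
    rw [← rel_AA', map_mul, map_mul,
      rel_chi_eq c' ((L K (NG D')).mul_mem (hx q.1) (hy q.1)) (φ.f_mem _ (vx_mem _)) (h3 q.1),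
      ← map_mul, ← map_mul, rel_Av]
  · rw [← map_mul, rel_sum_mul (fun q => lk K D' (τ q).1 (τ q).2) (fun q => y q.1) (rel_A' φ)
      (rel_A φ) (fun q => x q.1) (fun q => star (lk K D' (τ q).1 (τ q).2))
      (fun q => φ.f (vx K (NG D) (.v q.1 none))) (rel_A'A φ) (fun q => hye q.1),
      ← rel_chi_v_one c', ← Equiv.sum_comp τ, map_sum, map_sum]
    refine Finset.sum_congr rfl fun q _ => ?_
    rw [← lk_mul_star, map_mul, map_mul,
      rel_chi_eq c' ((L K (NG D')).mul_mem (hy q.1) (hx q.1)) (vx_mem _) (h4 q.1),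
      ← map_mul, ← map_mul, ← hτ q, rel_lk_v_self]

/-- equivalence of the images of the sinks -/
theorem rel_w_eqv {φ : RI K (NG D) (NG D')} {c : Ch K D} {c' : Ch K D'} (M : Mt φ c c')
    (r : Σ j, Option (Fin (D.b j))) :
    Eqv K (NG D') (φ.f (vx K (NG D) (.w r.1 r.2))) (vx K (NG D') (.w (M.ρ r.1) none)) := by
  have h1 : Eqv K (NG D') (φ.f (vx K (NG D) (.w r.1 r.2))) (φ.f (vx K (NG D) (.w r.1 none))) := by
    refine ⟨φ.f (lw K D r.1 r.2), φ.f_mem _ (rel_lw_mem _ _), φ.f (star (lw K D r.1 r.2)),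
      φ.f_mem _ (star_mem_L (rel_lw_mem _ _)), ?_, ?_⟩
    · rw [← φ.f_mul _ (rel_lw_mem _ _) _ (star_mem_L (rel_lw_mem _ _)), lw_mul_star]
    · rw [← φ.f_mul _ (star_mem_L (rel_lw_mem _ _)) _ (rel_lw_mem _ _)]
      congr 1
      classical
      have := star_pth_mul_pth (K := K) (D := D) r.1 (XX.w r.2) (XX.w r.2)
      rw [if_pos rfl] at this
      exact this
  refine Eqv.trans h1 (M.hρ r.1) ?_ (vx_vx _)
  rw [← φ.f_mul _ (vx_mem _) _ (vx_mem _), vx_vx]

theorem rel_fi_zero {V : Type*} [AddCommGroup V] [Module K V] {P Q : Module.End K V}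
    (hP : Module.Finite K (LinearMap.range P)) (hQ : Module.Finite K (LinearMap.range Q))
    (T : Module.End K V) : Fr (blk P Q T) ∧ fi (blk P Q T) =
      (Module.finrank K (LinearMap.range P) : ℤ) - Module.finrank K (LinearMap.range Q) :=
  fi_finite _

theorem rel_count (j : S) (x : S → ℤ) :
    ∑ r : Σ j', Option (Fin (D.b j')), (if j = r.1 then x j else 0) = ((D.b j : ℤ) + 1) * x j := by
  rw [Fintype.sum_sigma]
  have h : ∀ j', ∑ _r : Option (Fin (D.b j')), (if j = j' then x j else 0) =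
      if j = j' then ((D.b j : ℤ) + 1) * x j else 0 := by
    intro j'
    rw [Finset.sum_const, Finset.card_univ, Fintype.card_option, Fintype.card_fin]
    split_ifs with h
    · subst h
      simp
    · simp
  rw [Finset.sum_congr rfl fun j' _ => h j', Finset.sum_ite_eq, if_pos (Finset.mem_univ _)]

/-- the blocks of the operator -/
theorem rel_blocks {φ : RI K (NG D) (NG D')} {c : Ch K D} {c' : Ch K D'} (M : Mt φ c c')
    (R' : Rp K D')
    (τ : (Σ i, Option (Fin (D.a i))) ≃ Σ i', Option (Fin (D'.a i')))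
    (hτ : ∀ q, (τ q).1 = M.σ q.1) {x y : C → U K (NG D')}
    (h1 : ∀ i, φ.f (vx K (NG D) (.v i none)) * x i * vx K (NG D') (.v (M.σ i) none) = x i)
    (h2 : ∀ i, vx K (NG D') (.v (M.σ i) none) * y i * φ.f (vx K (NG D) (.v i none)) = y i)
    (h3 : ∀ i, x i * y i - φ.f (vx K (NG D) (.v i none)) ∈ Isp K D')
    (h4 : ∀ i, y i * x i - vx K (NG D') (.v (M.σ i) none) ∈ Isp K D') (j : S) :
    fi (R'.π (∑ q, rel_A φ q * x q.1 * star (lk K D' (τ q).1 (τ q).2)) (M.ρ j)) =
      (∑ i, ((D.a i : ℤ) + 1) * fi (blk (R'.π (vx K (NG D') (.v (M.σ i) none)) (M.ρ j))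
        (R'.π (φ.f (vx K (NG D) (.v i none))) (M.ρ j)) (R'.π (x i) (M.ρ j)))) +
      (-((D.b j : ℤ) + 1) + ((D'.b (M.ρ j) : ℤ) + 1)) := by
  set X : U K (NG D') := ∑ q, rel_A φ q * x q.1 * star (lk K D' (τ q).1 (τ q).2) with hX
  have hee : ∀ v, φ.f (vx K (NG D) v) * φ.f (vx K (NG D) v) = φ.f (vx K (NG D) v) := by
    intro v
    rw [← φ.f_mul _ (vx_mem _) _ (vx_mem _), vx_vx]
  have hee' : ∀ v v', v ≠ v' → φ.f (vx K (NG D) v) * φ.f (vx K (NG D) v') = 0 := by
    intro v v' h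
    rw [← φ.f_mul _ (vx_mem _) _ (vx_mem _), vx_vx_of_ne h, rel_f_zero]
  have hXp : ∀ q, X * vx K (NG D') (.v (τ q).1 (τ q).2) =
      rel_A φ q * x q.1 * star (lk K D' (τ q).1 (τ q).2) := by
    intro q
    rw [hX, Finset.sum_mul, Finset.sum_eq_single q]
    · rw [mul_assoc, rel_lk_v', if_pos rfl]
    · intro q' _ hq
      rw [mul_assoc, rel_lk_v', if_neg (fun h => hq (τ.injective h).symm), mul_zero]
    · intro h
      exact absurd (Finset.mem_univ _) h
  have hpX : ∀ q : Σ i, Option (Fin (D.a i)), φ.f (vx K (NG D) (.v q.1 q.2)) * X =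
      rel_A φ q * x q.1 * star (lk K D' (τ q).1 (τ q).2) := by
    intro q
    rw [hX, Finset.mul_sum, Finset.sum_eq_single q]
    · rw [← mul_assoc, ← mul_assoc, rel_vA, if_pos rfl]
    · intro q' _ hq
      rw [← mul_assoc, ← mul_assoc, rel_vA, if_neg (Ne.symm hq), zero_mul, zero_mul]
    · intro h
      exact absurd (Finset.mem_univ _) h
  have hwX : ∀ r : Σ j, Option (Fin (D.b j)), φ.f (vx K (NG D) (.w r.1 r.2)) * X = 0 := by
    intro r
    rw [hX, Finset.mul_sum]
    refine Finset.sum_eq_zero fun q _ => ?_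
    rw [← mul_assoc, ← mul_assoc, rel_wA, zero_mul, zero_mul]
  have hXw : ∀ r : Σ j, Option (Fin (D'.b j)), X * vx K (NG D') (.w r.1 r.2) = 0 := by
    intro r
    rw [hX, Finset.sum_mul]
    refine Finset.sum_eq_zero fun q _ => ?_
    rw [mul_assoc, rel_lk_w', mul_zero]
  -- the two decompositions
  let p : (Σ i, Option (Fin (D.a i))) ⊕ ((Σ j, Option (Fin (D.b j))) ⊕
      (Σ j, Option (Fin (D'.b j)))) → U K (NG D') :=
    Sum.elim (fun q => vx K (NG D') (.v (τ q).1 (τ q).2))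
      (Sum.elim (fun _ => 0) (fun r => vx K (NG D') (.w r.1 r.2)))
  let q : (Σ i, Option (Fin (D.a i))) ⊕ ((Σ j, Option (Fin (D.b j))) ⊕
      (Σ j, Option (Fin (D'.b j)))) → U K (NG D') :=
    Sum.elim (fun q => φ.f (vx K (NG D) (.v q.1 q.2)))
      (Sum.elim (fun r => φ.f (vx K (NG D) (.w r.1 r.2))) (fun _ => 0))
  have hp : ∀ k, p k * p k = p k := by
    rintro (k | k | k)
    · exact vx_vx _
    · exact mul_zero _
    · exact vx_vx _
  have hq : ∀ k, q k * q k = q k := by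
    rintro (k | k | k)
    · exact hee _
    · exact hee _
    · exact mul_zero _
  have hp' : ∀ k l, k ≠ l → p k * p l = 0 := by
    rintro (k | k | k) (l | l | l) hkl
    · refine vx_vx_of_ne fun h => hkl ?_
      injection h with h5 h6
      rw [τ.injective (Sigma.ext h5 h6)]
    · exact mul_zero _
    · exact vx_vx_of_ne fun h => by cases h
    · exact zero_mul _
    · exact zero_mul _
    · exact zero_mul _
    · exact vx_vx_of_ne fun h => by cases h
    · exact mul_zero _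
    · refine vx_vx_of_ne fun h => hkl ?_
      injection h with h5 h6
      rw [Sigma.ext h5 h6]
  have hq' : ∀ k l, k ≠ l → q k * q l = 0 := by
    rintro (k | k | k) (l | l | l) hkl
    · refine hee' _ _ fun h => hkl ?_
      injection h with h5 h6
      rw [Sigma.ext h5 h6]
    · exact hee' _ _ fun h => by cases h
    · exact mul_zero _
    · exact hee' _ _ fun h => by cases h
    · refine hee' _ _ fun h => hkl ?_
      injection h with h5 h6
      rw [Sigma.ext h5 h6]
    · exact mul_zero _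
    · exact zero_mul _
    · exact zero_mul _
    · exact zero_mul _
  have hp1 : ∑ k, p k = one K D' := by
    rw [Fintype.sum_sum_type, Fintype.sum_sum_type, rel_one_sum]
    simp only [p, Sum.elim_inl, Sum.elim_inr, Finset.sum_const_zero, zero_add]
    rw [Equiv.sum_comp τ (fun q' : Σ i', Option (Fin (D'.a i')) => vx K (NG D') (.v q'.1 q'.2))]
  have hq1 : ∑ k, q k = one K D' := by
    rw [Fintype.sum_sum_type, Fintype.sum_sum_type, ← phi_one φ, rel_one_sum (D := D),
      φ.f_add _ rel_v_sum_mem _ rel_w_sum_mem,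
      rel_f_sum φ Finset.univ (fun q : Σ i, Option (Fin (D.a i)) => vx K (NG D) (.v q.1 q.2))
      (fun _ _ => vx_mem _),
      rel_f_sum φ Finset.univ (fun q : Σ i, Option (Fin (D.b i)) => vx K (NG D) (.w q.1 q.2))
      (fun _ _ => vx_mem _)]
    simp only [q, Sum.elim_inl, Sum.elim_inr, Finset.sum_const_zero, add_zero]
  have hT : ∀ k, X * p k = q k * X := by
    rintro (k | k | k)
    · exact (hXp k).trans (hpX k).symm
    · exact (mul_zero X).trans (hwX k).symm
    · exact (hXw k).trans (zero_mul X).symm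
  have ev : ∀ u v : U K (NG D'), R'.π (u * v) (M.ρ j) = R'.π u (M.ρ j) * R'.π v (M.ρ j) :=
    fun u v => rel_pi_mul R' u v _
  have ev0 : R'.π (0 : U K (NG D')) (M.ρ j) = 0 := by
    rw [map_zero]
    rfl
  have evs : ∀ f : (Σ i, Option (Fin (D.a i))) ⊕ ((Σ j, Option (Fin (D.b j))) ⊕
      (Σ j, Option (Fin (D'.b j)))) → U K (NG D'), ∑ k, f k = one K D' →
      ∑ k, R'.π (f k) (M.ρ j) = 1 := by
    intro f hf
    rw [← pi_one R' (M.ρ j), ← hf, map_sum, Finset.sum_apply]
  let val : (Σ i, Option (Fin (D.a i))) ⊕ ((Σ j, Option (Fin (D.b j))) ⊕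
      (Σ j, Option (Fin (D'.b j)))) → ℤ :=
    Sum.elim (fun q => fi (blk (R'.π (vx K (NG D') (.v (M.σ q.1) none)) (M.ρ j))
        (R'.π (φ.f (vx K (NG D) (.v q.1 none))) (M.ρ j)) (R'.π (x q.1) (M.ρ j))))
      (Sum.elim (fun r => if j = r.1 then -1 else 0) (fun r => if M.ρ j = r.1 then 1 else 0))
  have hb : ∀ k, Fr (blk (R'.π (p k) (M.ρ j)) (R'.π (q k) (M.ρ j)) (R'.π X (M.ρ j))) ∧
      fi (blk (R'.π (p k) (M.ρ j)) (R'.π (q k) (M.ρ j)) (R'.π X (M.ρ j))) = val k := by
    rintro (k | k | k)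
    · obtain ⟨g1, g2⟩ := fi_blk_conj (R'.π (p (.inl k)) (M.ρ j))
        (R'.π (vx K (NG D') (.v (M.σ k.1) none)) (M.ρ j)) (R'.π (q (.inl k)) (M.ρ j))
        (R'.π (φ.f (vx K (NG D) (.v k.1 none))) (M.ρ j)) (R'.π X (M.ρ j)) (R'.π (x k.1) (M.ρ j))
        (R'.π (lk K D' (τ k).1 (τ k).2) (M.ρ j)) (R'.π (star (lk K D' (τ k).1 (τ k).2)) (M.ρ j))
        (R'.π (rel_A φ k) (M.ρ j)) (R'.π (rel_A' φ k) (M.ρ j))
        (by rw [← ev, lk_mul_star]; rfl)
        (by rw [← ev, rel_star_lk, if_pos rfl, hτ])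
        (by rw [← ev, rel_AA']; rfl)
        (by rw [← ev, rel_A'A, if_pos rfl])
        (by rw [← ev, hp]) (by rw [← ev, vx_vx]) (by rw [← ev, hq]) (by rw [← ev, hee])
        (by
          rw [← Module.End.mul_eq_comp, ← Module.End.mul_eq_comp, ← Module.End.mul_eq_comp,
            ← Module.End.mul_eq_comp, ← Module.End.mul_eq_comp, ← Module.End.mul_eq_comp,
            ← ev, ← ev, ← ev, ← ev, ← ev, ← ev]
          refine congrArg (fun u => R'.π u (M.ρ j)) ?_
          rw [hT, ← mul_assoc, hq, ← hT]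
          have e1 := h1 k.1
          rw [mul_assoc] at e1
          rw [e1]
          exact (hXp k).trans (mul_assoc _ _ _))
      refine ⟨g1.mpr ?_, g2⟩
      refine rel_Fr_blk (Ty := R'.π (y k.1) (M.ρ j)) (by rw [← ev, vx_vx]) (by rw [← ev, hee])
        (by rw [← ev, ← ev, h1]) (by rw [← ev, ← ev, h2]) ?_ ?_
      · rw [← ev]
        exact rel_finRk R' (h4 k.1) _
      · rw [← ev]
        exact rel_finRk R' (h3 k.1) _
    · obtain ⟨r1, r2⟩ := rank_of_eqv R' (hee _) (rel_w_eqv M k) (M.ρ j)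
      obtain ⟨r3, r4⟩ := rel_zero_range ev0
      obtain ⟨r5, r6⟩ := rel_fi_zero (P := R'.π (p (.inr (.inl k))) (M.ρ j))
        (Q := R'.π (q (.inr (.inl k))) (M.ρ j)) r3 r1 (R'.π X (M.ρ j))
      refine ⟨r5, r6.trans ?_⟩
      change (Module.finrank K (LinearMap.range (R'.π (0 : U K (NG D')) (M.ρ j))) : ℤ) -
        Module.finrank K (LinearMap.range (R'.π (φ.f (vx K (NG D) (.w k.1 k.2))) (M.ρ j))) =
        if j = k.1 then -1 else 0
      rw [r4, r2]
      by_cases h : j = k.1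
      · rw [if_pos h, if_pos (congrArg M.ρ h)]
        simp
      · rw [if_neg h, if_neg (fun h' => h (M.ρ.injective h'))]
        simp
    · obtain ⟨r1, r2⟩ := rank_w R' k.1 (M.ρ j) k.2
      obtain ⟨r3, r4⟩ := rel_zero_range ev0
      obtain ⟨r5, r6⟩ := rel_fi_zero (P := R'.π (p (.inr (.inr k))) (M.ρ j))
        (Q := R'.π (q (.inr (.inr k))) (M.ρ j)) r1 r3 (R'.π X (M.ρ j))
      refine ⟨r5, r6.trans ?_⟩
      change (Module.finrank K (LinearMap.range (R'.π (vx K (NG D') (.w k.1 k.2)) (M.ρ j))) : ℤ) -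
        Module.finrank K (LinearMap.range (R'.π (0 : U K (NG D')) (M.ρ j))) =
        if M.ρ j = k.1 then 1 else 0
      rw [r4, r2]
      by_cases h : M.ρ j = k.1
      · rw [if_pos h, if_pos h]
        simp
      · rw [if_neg h, if_neg h]
        simp
  obtain ⟨-, z⟩ := fi_blocks (fun k => R'.π (p k) (M.ρ j)) (fun k => R'.π (q k) (M.ρ j))
    (fun k => by rw [← ev, hp]) (fun k l hkl => by rw [← ev, hp' k l hkl, ev0])
    (evs p hp1) (fun k => by rw [← ev, hq]) (fun k l hkl => by rw [← ev, hq' k l hkl, ev0])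
    (evs q hq1) (R'.π X (M.ρ j))
    (fun k => by rw [← Module.End.mul_eq_comp, ← Module.End.mul_eq_comp, ← ev, ← ev, hT])
    (fun k => (hb k).1)
  rw [z, Finset.sum_congr rfl fun k _ => (hb k).2, Fintype.sum_sum_type, Fintype.sum_sum_type]
  simp only [Sum.elim_inl, Sum.elim_inr]
  rw [rel_count (D := D) j (fun _ => -1), rel_count (D := D') (M.ρ j) (fun _ => 1),
    Fintype.sum_sigma]
  congr 1
  · refine Finset.sum_congr rfl fun i _ => ?_
    have hc : ∀ z : ℤ, ∑ _y : Option (Fin (D.a i)), z = ((D.a i : ℤ) + 1) * z := by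
      intro z
      rw [Finset.sum_const, Finset.card_univ, Fintype.card_option, Fintype.card_fin]
      simp
    exact hc _
  · ring

/-- Let `X = ∑ i, ∑ s, φ (lk i s) * x i * star (lk' (σ i) (κ i s))` with `x i` from `exists_conn` and
bijections `κ i : Option (Fin (D.a i)) ≃ Option (Fin (D'.a (σ i)))`. It is invertible modulo the ideal, so its index
on the paths to `ρ j` is `∑ i, n i j * t i` with integers `t i` (`index_eq`, `n_eq`). It is block
diagonal for the decompositions of the identity into the `v' (σ i) (κ i s)` and the sum of the `w'`,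
and into the `φ (v i s)` and the sum of the `φ w`: by `fi_blocks`, `fi_blk_conj`, `fi_finite` the
index is `∑ i, (a i + 1) * cc i j + (b' (ρ j) + 1) - (b j + 1)`, `cc i j` the index of the block of
`x i`, which vanishes if `n i j = 0` by `image_zero`. -/
theorem Mt.rel {φ : RI K (NG D) (NG D')} {c : Ch K D} {c' : Ch K D'} (M : Mt φ c c')
    (R' : Rp K D') : ∃ (m : C → ℤ) (cc : C → S → ℤ), (∀ i j, D.n i j = 0 → cc i j = 0) ∧
      ∀ j, (D'.b (M.ρ j) : ℤ) = D.b j + ∑ i, m i * D.n i j + ∑ i, ((D.a i : ℤ) + 1) * cc i j := by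
  choose x hx y hy h1 h2 h3 h4 using fun i => M.exists_conn i
  obtain ⟨τ, hτ⟩ : ∃ τ : (Σ i, Option (Fin (D.a i))) ≃ Σ i', Option (Fin (D'.a i')),
      ∀ q, (τ q).1 = M.σ q.1 :=
    ⟨Equiv.sigmaCongr M.σ (fun i => Equiv.optionCongr (finCongr (M.a_eq i).symm)), fun q => rfl⟩
  obtain ⟨i1, i2⟩ := rel_inv M τ hτ hx hy h1 h2 h3 h4
  set X : U K (NG D') := ∑ q, rel_A φ q * x q.1 * star (lk K D' (τ q).1 (τ q).2) with hX
  have hXm : X ∈ L K (NG D') := (L K (NG D')).sum_mem fun q _ => (L K (NG D')).mul_mem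
    ((L K (NG D')).mul_mem (rel_A_mem φ q) (hx q.1)) (star_mem_L (rel_lk_mem _ _))
  refine ⟨fun i => tt (c'.χ X (M.σ i)), fun i j =>
    - fi (blk (R'.π (vx K (NG D') (.v (M.σ i) none)) (M.ρ j))
        (R'.π (φ.f (vx K (NG D) (.v i none))) (M.ρ j)) (R'.π (x i) (M.ρ j))), ?_, ?_⟩
  · intro i j h
    obtain ⟨z1, z2⟩ := M.image_zero R' i j h
    obtain ⟨r1, r2⟩ := rel_zero_range z1
    obtain ⟨r3, r4⟩ := rel_zero_range z2
    beta_reduce
    rw [(rel_fi_zero r3 r1 (R'.π (x i) (M.ρ j))).2, r2, r4]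
    simp
  · intro j
    have k1 := (index_eq R' c' hXm _ i1 i2 (M.ρ j)).2
    rw [hX, rel_blocks M R' τ hτ h1 h2 h3 h4 j, ← hX, ← Equiv.sum_comp M.σ] at k1
    have k2 : ∑ i, (D'.n (M.σ i) (M.ρ j) : ℤ) * tt (c'.χ X (M.σ i)) =
        ∑ i, tt (c'.χ X (M.σ i)) * (D.n i j : ℤ) :=
      Finset.sum_congr rfl fun i _ => by rw [M.n_eq R', mul_comm]
    rw [k2] at k1
    simp only [mul_neg, Finset.sum_neg_distrib]
    linarith

end Pool.Agent.Helper32.TP
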