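import Pool.Agent.Helper32.TP.Defs

/-! The quotient map and the representation on paths. PIECE 1.

`Ch`: the images of the generators are `v i s ↦ Pi.single i (single s s 1)`, `w j r ↦ 0`,
`z i ↦ Pi.single i (single none none (T 1))`, `g i s ↦ Pi.single i (single (some s) none 1)`,
`f, h ↦ 0`, the ghost edges to the transposed matrices with `T (-1)`.
`Rp`: every generator acts on every space of paths by a map `opn p`, `p` an injective map defined on
a subset: `v i s` is the identity on the `c i s m k`, `z i : c i none m k ↦ c i none (m+1) k`,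
`g i s : c i none m k ↦ c i (some s) m k`, `f i j k : w none ↦ c i none 0 k` (only in the component
`j`), `w j r`: identity on `w r` (component `j`), `h j r : w none ↦ w (some r)` (component `j`), ghost
edges: the inverses. Check `IsRep` for `opn`, then use `LV.lift`. -/

set_option autoImplicit false
set_option linter.unusedSectionVars false

universe k a b

namespace Pool.Agent.Helper32.TP

open Pool.Agent.Helper32.LV

variable {C : Type a} {S : Type b} [Fintype C] [Fintype S] [DecidableEq C] [DecidableEq S]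
  (K : Type k) [Field K] [StarRing K] (D : Dat C S)

/-! ### the quotient map -/

/-- matrix unit -/
noncomputable def rep_mat (i : C) (s t : Option (Fin (D.a i))) (m : ℤ) : ∀ i, MM K D i :=
  Pi.single i (Matrix.single s t (LaurentPolynomial.T m))

theorem rep_mat_mul (i : C) (s t u : Option (Fin (D.a i))) (m n : ℤ) :
    rep_mat K D i s t m * rep_mat K D i t u n = rep_mat K D i s u (m + n) := by
  unfold rep_mat
  rw [← Pi.single_mul, Matrix.single_mul_single_same, ← LaurentPolynomial.T_add]

theorem rep_mat_mul_of_ne (i : C) (s t t' u : Option (Fin (D.a i))) (m n : ℤ) (h : t ≠ t') :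
    rep_mat K D i s t m * rep_mat K D i t' u n = 0 := by
  unfold rep_mat
  rw [← Pi.single_mul, Matrix.single_mul_single_of_ne _ _ _ _ h, Pi.single_zero]

theorem rep_mat_mul_of_ne' (i i' : C) (s t : Option (Fin (D.a i))) (t' u : Option (Fin (D.a i')))
    (m n : ℤ) (h : i ≠ i') :
    rep_mat K D i s t m * rep_mat K D i' t' u n = 0 := by
  unfold rep_mat
  ext1 l
  rw [Pi.mul_apply, Pi.zero_apply]
  rcases eq_or_ne l i with rfl | hl
  · rw [Pi.single_eq_of_ne h, mul_zero]
  · rw [Pi.single_eq_of_ne hl, zero_mul]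

/-- images of the vertices -/
noncomputable def rep_q : NV D → ∀ i, MM K D i
  | .v i s => rep_mat K D i s s 0
  | .w _ _ => 0

/-- images of the edges -/
noncomputable def rep_u : NE D → ∀ i, MM K D i
  | .z i => rep_mat K D i none none 1
  | .f _ _ _ => 0
  | .g i s => rep_mat K D i (some s) none 0
  | .h _ _ => 0

/-- images of the ghost edges -/
noncomputable def rep_u' : NE D → ∀ i, MM K D i
  | .z i => rep_mat K D i none none (-1)
  | .f _ _ _ => 0
  | .g i s => rep_mat K D i none (some s) 0
  | .h _ _ => 0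

theorem rep_isRep : IsRep K (NG D) (rep_q K D) (rep_u K D) (rep_u' K D) where
  vv v := by
    cases v with
    | v i s => exact rep_mat_mul K D i s s s 0 0
    | w j r => exact mul_zero _
  vw v w h := by
    cases v with
    | v i s =>
      cases w with
      | v i' s' =>
        by_cases hi : i = i'
        · subst hi
          exact rep_mat_mul_of_ne K D i s s s' s' 0 0 (fun h1 => h (by rw [h1]))
        · exact rep_mat_mul_of_ne' K D i i' s s s' s' 0 0 hi
      | w j r => exact mul_zero _
    | w j r => exact zero_mul _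
  se e := by
    cases e with
    | z i => exact (rep_mat_mul K D i none none none 0 1)
    | f i j k => exact mul_zero _
    | g i s => exact (rep_mat_mul K D i (some s) (some s) none 0 0)
    | h j r => exact mul_zero _
  er e := by
    cases e with
    | z i => exact (rep_mat_mul K D i none none none 1 0)
    | f i j k => exact mul_zero _
    | g i s => exact (rep_mat_mul K D i (some s) none none 0 0)
    | h j r => exact mul_zero _
  rg e := by
    cases e with
    | z i => exact (rep_mat_mul K D i none none none 0 (-1))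
    | f i j k => exact mul_zero _
    | g i s => exact (rep_mat_mul K D i none none (some s) 0 0)
    | h j r => exact mul_zero _
  gs e := by
    cases e with
    | z i => exact (rep_mat_mul K D i none none none (-1) 0)
    | f i j k => exact zero_mul _
    | g i s => exact (rep_mat_mul K D i none (some s) (some s) 0 0)
    | h j r => exact mul_zero _
  ge e := by
    cases e with
    | z i => exact (rep_mat_mul K D i none none none (-1) 1)
    | f i j k => exact zero_mul _
    | g i s => exact (rep_mat_mul K D i none (some s) none 0 0)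
    | h j r => exact zero_mul _
  gf e f h := by
    cases e with
    | z i =>
      cases f with
      | z i' =>
        exact rep_mat_mul_of_ne' K D i i' none none none none (-1) 1 (fun h1 => h (by rw [h1]))
      | f i' j k => exact mul_zero _
      | g i' s =>
        by_cases hi : i = i'
        · subst hi
          exact rep_mat_mul_of_ne K D i none none (some s) none (-1) 0 (by simp)
        · exact rep_mat_mul_of_ne' K D i i' none none (some s) none (-1) 0 hi
      | h j r => exact mul_zero _
    | f i j k => exact zero_mul _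
    | g i s =>
      cases f with
      | z i' =>
        by_cases hi : i = i'
        · subst hi
          exact rep_mat_mul_of_ne K D i none (some s) none none 0 1 (by simp)
        · exact rep_mat_mul_of_ne' K D i i' none (some s) none none 0 1 hi
      | f i' j k => exact mul_zero _
      | g i' s' =>
        by_cases hi : i = i'
        · subst hi
          exact rep_mat_mul_of_ne K D i none (some s) (some s') none 0 0
            (fun h1 => h (by rw [Option.some.inj h1]))
        · exact rep_mat_mul_of_ne' K D i i' none (some s) (some s') none 0 0 hi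
      | h j r => exact mul_zero _
    | h j r => exact zero_mul _
  ck v hf h0 := by
    cases v with
    | v i s =>
      cases s with
      | none =>
        rw [Finset.sum_eq_single (NE.z i)]
        · exact (rep_mat_mul K D i none none none 1 (-1)).symm
        · intro e he hne
          rw [Set.Finite.mem_toFinset, Set.mem_ofPred_eq] at he
          cases e with
          | z i' =>
            have h1 : i' = i := by
              have := he
              simp only [NG, NV.v.injEq] at this
              exact this.1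
            exact absurd (by rw [h1]) hne
          | f i' j k => exact mul_zero _
          | g i' s =>
            exfalso
            simp only [NG, NV.v.injEq] at he
            obtain ⟨rfl, h2⟩ := he
            exact absurd (eq_of_heq h2) (by simp)
          | h j r => exact mul_zero _
        · intro hn
          exact absurd ((Set.Finite.mem_toFinset hf).mpr (by
            show (NG D).s (NE.z i) = _
            rfl)) hn
      | some s =>
        rw [Finset.sum_eq_single (NE.g i s)]
        · exact (rep_mat_mul K D i (some s) none (some s) 0 0).symm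
        · intro e he hne
          rw [Set.Finite.mem_toFinset, Set.mem_ofPred_eq] at he
          cases e with
          | z i' =>
            exfalso
            simp only [NG, NV.v.injEq] at he
            obtain ⟨rfl, h2⟩ := he
            exact absurd (eq_of_heq h2) (by simp)
          | f i' j k => exact mul_zero _
          | g i' s' =>
            exfalso
            simp only [NG, NV.v.injEq] at he
            obtain ⟨rfl, h2⟩ := he
            have h3 := Option.some.inj (eq_of_heq h2)
            subst h3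
            exact hne rfl
          | h j r => exact mul_zero _
        · intro hn
          exact absurd ((Set.Finite.mem_toFinset hf).mpr (by
            show (NG D).s (NE.g i s) = _
            rfl)) hn
    | w j r =>
      symm
      refine Finset.sum_eq_zero fun e he => ?_
      rw [Set.Finite.mem_toFinset, Set.mem_ofPred_eq] at he
      cases e with
      | z i => exact absurd he (by simp [NG])
      | f i j k => exact mul_zero _
      | g i s => exact absurd he (by simp [NG])
      | h j r => exact mul_zero _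

theorem rep_lk (i : C) (s : Option (Fin (D.a i))) :
    lift (rep_isRep K D) (lk K D i s) = rep_mat K D i s none 0 := by
  cases s with
  | none => exact lift_vx (rep_isRep K D) (NV.v i none)
  | some s => exact lift_ed (rep_isRep K D) (NE.g i s)

theorem rep_star_lk (i : C) (s : Option (Fin (D.a i))) :
    lift (rep_isRep K D) (star (lk K D i s)) = rep_mat K D i none s 0 := by
  cases s with
  | none =>
    have h1 : star (lk K D i none) = vx K (NG D) (NV.v i none) := star_vx _
    rw [h1]
    exact lift_vx (rep_isRep K D) (NV.v i none)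
  | some s =>
    have h1 : star (lk K D i (some s)) = gh K (NG D) (NE.g i s) := star_ed _
    rw [h1]
    exact lift_gh (rep_isRep K D) (NE.g i s)

theorem rep_zp (i : C) (m : ℤ) :
    lift (rep_isRep K D) (zp K (NG D) (NE.z i) m) = rep_mat K D i none none m := by
  have hv : lift (rep_isRep K D) (vx K (NG D) ((NG D).s (NE.z i))) = rep_mat K D i none none 0 :=
    lift_vx (rep_isRep K D) (NV.v i none)
  have he : lift (rep_isRep K D) (ed K (NG D) (NE.z i)) = rep_mat K D i none none 1 :=
    lift_ed (rep_isRep K D) (NE.z i)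
  have hg : lift (rep_isRep K D) (gh K (NG D) (NE.z i)) = rep_mat K D i none none (-1) :=
    lift_gh (rep_isRep K D) (NE.z i)
  have key : ∀ (c : ℤ) (n : ℕ), rep_mat K D i none none 0 * (rep_mat K D i none none c) ^ n =
      rep_mat K D i none none (n * c) := by
    intro c n
    induction n with
    | zero => rw [pow_zero, mul_one, Nat.cast_zero, zero_mul]
    | succ n ih =>
      rw [pow_succ, ← mul_assoc, ih, rep_mat_mul]
      congr 1
      push_cast
      ring
  rcases m with n | n
  · change lift (rep_isRep K D) (vx K (NG D) ((NG D).s (NE.z i)) * ed K (NG D) (NE.z i) ^ n) = _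
    rw [map_mul, map_pow, hv, he, key, mul_one]
    rfl
  · change lift (rep_isRep K D)
      (vx K (NG D) ((NG D).s (NE.z i)) * gh K (NG D) (NE.z i) ^ (n + 1)) = _
    rw [map_mul, map_pow, hv, hg, key]
    congr 1
    rw [Int.negSucc_eq]
    push_cast
    ring

theorem exists_Ch : Nonempty (Ch K D) := by
  refine ⟨⟨lift (rep_isRep K D), ?_, ?_⟩⟩
  · intro i s t m
    unfold mu
    rw [map_mul, map_mul, rep_lk, rep_zp, rep_star_lk, rep_mat_mul, rep_mat_mul, zero_add,
      add_zero]
    rfl
  · intro j x y
    have h1 : lift (rep_isRep K D) (pth K D j x) = 0 := by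
      cases x with
      | c i s m k =>
        change lift (rep_isRep K D) (lk K D i s * zp K (NG D) (.z i) m *
          ed K (NG D) (.f i j k)) = 0
        rw [map_mul, lift_ed]
        exact mul_zero _
      | w r =>
        cases r with
        | none => exact lift_vx (rep_isRep K D) (NV.w j none)
        | some r => exact lift_ed (rep_isRep K D) (NE.h j r)
    unfold eps
    rw [map_mul, h1, zero_mul]

/-! ### the representation on paths -/

section paths

variable {K D} {j : S}

/-- `φ` acts by the relation `R` -/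
def rep_Ac {X : Type*} (K : Type*) [Field K] (φ : Module.End K (X →₀ K)) (R : X → X → Prop) :
    Prop := ∃ p : X → Option X, φ = opn K p ∧ ∀ x y, p x = some y ↔ R x y

theorem rep_opn_none {X : Type*} {p : X → Option X} {x : X} (h : p x = none) :
    opn K p (Finsupp.single x 1) = 0 := by
  unfold opn
  rw [Finsupp.linearCombination_single, h, smul_zero]

theorem rep_opn_some {X : Type*} {p : X → Option X} {x y : X} (h : p x = some y) :
    opn K p (Finsupp.single x 1) = Finsupp.single y 1 := by
  unfold opn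
  rw [Finsupp.linearCombination_single, h, one_smul]

theorem rep_ext {X : Type*} {φ ψ : Module.End K (X →₀ K)}
    (h : ∀ x, φ (Finsupp.single x 1) = ψ (Finsupp.single x 1)) : φ = ψ := by
  refine Finsupp.lhom_ext' fun x => LinearMap.ext_ring ?_
  exact h x

theorem rep_opn_mul {X : Type*} (p p' : X → Option X) :
    opn K p * opn K p' = opn K (fun x => (p' x).bind p) := by
  refine rep_ext fun x => ?_
  rw [Module.End.mul_apply]
  rcases h : p' x with _ | y
  · rw [rep_opn_none h, map_zero, rep_opn_none]
    simp [h]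
  · rw [rep_opn_some h]
    rcases h' : p y with _ | z
    · rw [rep_opn_none h', rep_opn_none]
      simp [h, h']
    · rw [rep_opn_some h', rep_opn_some]
      simp [h, h']

theorem rep_Ac.mul {X : Type*} {φ ψ : Module.End K (X →₀ K)} {R T : X → X → Prop}
    (h : rep_Ac K φ R) (h' : rep_Ac K ψ T) : rep_Ac K (φ * ψ) (fun x z => ∃ y, T x y ∧ R y z) := by
  obtain ⟨p, rfl, hp⟩ := h
  obtain ⟨p', rfl, hp'⟩ := h'
  refine ⟨_, rep_opn_mul p p', fun x z => ?_⟩
  rw [Option.bind_eq_some_iff]
  constructor
  · rintro ⟨y, h1, h2⟩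
    exact ⟨y, (hp' _ _).mp h1, (hp _ _).mp h2⟩
  · rintro ⟨y, h1, h2⟩
    exact ⟨y, (hp' _ _).mpr h1, (hp _ _).mpr h2⟩

theorem rep_Ac.congr {X : Type*} {φ : Module.End K (X →₀ K)} {R R' : X → X → Prop}
    (h : rep_Ac K φ R) (h' : ∀ x y, R x y ↔ R' x y) : rep_Ac K φ R' := by
  obtain ⟨p, h1, h2⟩ := h
  exact ⟨p, h1, fun x y => (h2 x y).trans (h' x y)⟩

theorem rep_Ac.uniq {X : Type*} {φ ψ : Module.End K (X →₀ K)} {R : X → X → Prop}
    (h : rep_Ac K φ R) (h' : rep_Ac K ψ R) : φ = ψ := by
  obtain ⟨p, rfl, hp⟩ := h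
  obtain ⟨p', rfl, hp'⟩ := h'
  congr 1
  funext x
  refine Option.ext fun y => ?_
  exact (hp x y).trans (hp' x y).symm

/-- the first vertex -/
def rep_vt : XX D j → NV D
  | .c i s _ _ => .v i s
  | .w r => .w j r

/-- the first edge and the rest -/
def rep_dc : XX D j → Option (NE D × XX D j)
  | .c i none (m + 1) k => some (.z i, .c i none m k)
  | .c i none 0 k => some (.f i j k, .w none)
  | .c i (some s) m k => some (.g i s, .c i none m k)
  | .w none => none
  | .w (some r) => some (.h j r, .w none)

theorem rep_dc_vt {x y : XX D j} {e : NE D} (h : rep_dc x = some (e, y)) :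
    rep_vt x = (NG D).s e ∧ rep_vt y = (NG D).r e := by
  rcases x with ⟨i, s, m, k⟩ | r
  · rcases s with _ | s
    · rcases m with _ | m
      · simp only [rep_dc, Option.some.injEq, Prod.mk.injEq] at h
        obtain ⟨rfl, rfl⟩ := h
        exact ⟨rfl, rfl⟩
      · simp only [rep_dc, Option.some.injEq, Prod.mk.injEq] at h
        obtain ⟨rfl, rfl⟩ := h
        exact ⟨rfl, rfl⟩
    · simp only [rep_dc, Option.some.injEq, Prod.mk.injEq] at h
      obtain ⟨rfl, rfl⟩ := h
      exact ⟨rfl, rfl⟩
  · rcases r with _ | r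
    · simp [rep_dc] at h
    · simp only [rep_dc, Option.some.injEq, Prod.mk.injEq] at h
      obtain ⟨rfl, rfl⟩ := h
      exact ⟨rfl, rfl⟩

theorem rep_dc_z {x y : XX D j} {i : C} : rep_dc x = some (NE.z i, y) ↔
    ∃ m k, x = .c i none (m + 1) k ∧ y = .c i none m k := by
  constructor
  · intro h
    rcases x with ⟨i', s, m, k⟩ | r
    · rcases s with _ | s
      · rcases m with _ | m
        · simp [rep_dc] at h
        · simp only [rep_dc, Option.some.injEq, Prod.mk.injEq, NE.z.injEq] at h
          obtain ⟨rfl, rfl⟩ := h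
          exact ⟨m, k, rfl, rfl⟩
      · simp [rep_dc] at h
    · rcases r with _ | r <;> simp [rep_dc] at h
  · rintro ⟨m, k, rfl, rfl⟩
    rfl

theorem rep_dc_g {x y : XX D j} {i : C} {s : Fin (D.a i)} : rep_dc x = some (NE.g i s, y) ↔
    ∃ m k, x = .c i (some s) m k ∧ y = .c i none m k := by
  constructor
  · intro h
    rcases x with ⟨i', s', m, k⟩ | r
    · rcases s' with _ | s'
      · rcases m with _ | m <;> simp [rep_dc] at h
      · simp only [rep_dc, Option.some.injEq, Prod.mk.injEq, NE.g.injEq] at h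
        obtain ⟨⟨rfl, h2⟩, rfl⟩ := h
        obtain rfl := eq_of_heq h2
        exact ⟨m, k, rfl, rfl⟩
    · rcases r with _ | r <;> simp [rep_dc] at h
  · rintro ⟨m, k, rfl, rfl⟩
    rfl

theorem rep_dc_f {x y : XX D j} {i : C} {k : Fin (D.n i j)} :
    rep_dc x = some (NE.f i j k, y) ↔ x = .c i none 0 k ∧ y = .w none := by
  constructor
  · intro h
    rcases x with ⟨i', s', m, k'⟩ | r
    · rcases s' with _ | s'
      · rcases m with _ | m
        · simp only [rep_dc, Option.some.injEq, Prod.mk.injEq, NE.f.injEq] at h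
          obtain ⟨⟨rfl, -, h2⟩, rfl⟩ := h
          obtain rfl := eq_of_heq h2
          exact ⟨rfl, rfl⟩
        · simp [rep_dc] at h
      · simp [rep_dc] at h
    · rcases r with _ | r <;> simp [rep_dc] at h
  · rintro ⟨rfl, rfl⟩
    rfl

theorem rep_dc_f_ne {j' : S} (hj : j' ≠ j) {x y : XX D j} {i : C} {k : Fin (D.n i j')} :
    rep_dc x ≠ some (NE.f i j' k, y) := by
  intro h
  rcases x with ⟨i', s', m, k'⟩ | r
  · rcases s' with _ | s'
    · rcases m with _ | m
      · simp only [rep_dc, Option.some.injEq, Prod.mk.injEq, NE.f.injEq] at h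
        exact hj h.1.2.1.symm
      · simp [rep_dc] at h
    · simp [rep_dc] at h
  · rcases r with _ | r <;> simp [rep_dc] at h

theorem rep_dc_h {x y : XX D j} {r : Fin (D.b j)} :
    rep_dc x = some (NE.h j r, y) ↔ x = .w (some r) ∧ y = .w none := by
  constructor
  · intro h
    rcases x with ⟨i', s', m, k'⟩ | r'
    · rcases s' with _ | s'
      · rcases m with _ | m <;> simp [rep_dc] at h
      · simp [rep_dc] at h
    · rcases r' with _ | r'
      · simp [rep_dc] at h
      · simp only [rep_dc, Option.some.injEq, Prod.mk.injEq, NE.h.injEq] at h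
        obtain ⟨⟨-, h2⟩, rfl⟩ := h
        obtain rfl := eq_of_heq h2
        exact ⟨rfl, rfl⟩
  · rintro ⟨rfl, rfl⟩
    rfl

theorem rep_dc_h_ne {j' : S} (hj : j' ≠ j) {x y : XX D j} {r : Fin (D.b j')} :
    rep_dc x ≠ some (NE.h j' r, y) := by
  intro h
  rcases x with ⟨i', s', m, k'⟩ | r'
  · rcases s' with _ | s'
    · rcases m with _ | m <;> simp [rep_dc] at h
    · simp [rep_dc] at h
  · rcases r' with _ | r'
    · simp [rep_dc] at h
    · simp only [rep_dc, Option.some.injEq, Prod.mk.injEq, NE.h.injEq] at h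
      exact hj h.1.1.symm

theorem rep_vt_v {x : XX D j} {i : C} {s : Option (Fin (D.a i))} :
    rep_vt x = NV.v i s ↔ ∃ m k, x = .c i s m k := by
  constructor
  · intro h
    rcases x with ⟨i', s', m, k'⟩ | r'
    · simp only [rep_vt, NV.v.injEq] at h
      obtain ⟨rfl, h2⟩ := h
      obtain rfl := eq_of_heq h2
      exact ⟨m, k', rfl⟩
    · simp [rep_vt] at h
  · rintro ⟨m, k, rfl⟩
    rfl

theorem rep_vt_w {x : XX D j} {r : Option (Fin (D.b j))} :
    rep_vt x = NV.w j r ↔ x = .w r := by
  constructor
  · intro h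
    rcases x with ⟨i', s', m, k'⟩ | r'
    · simp [rep_vt] at h
    · simp only [rep_vt, NV.w.injEq] at h
      obtain ⟨-, h2⟩ := h
      obtain rfl := eq_of_heq h2
      rfl
  · rintro rfl
    rfl

theorem rep_vt_w_ne {j' : S} (hj : j' ≠ j) {x : XX D j} {r : Option (Fin (D.b j'))} :
    rep_vt x ≠ NV.w j' r := by
  intro h
  rcases x with ⟨i', s', m, k'⟩ | r'
  · simp [rep_vt] at h
  · simp only [rep_vt, NV.w.injEq] at h
    exact hj h.1.symm

theorem rep_dc_inj {x x' : XX D j} {e : NE D} {y : XX D j} (h : rep_dc x = some (e, y))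
    (h' : rep_dc x' = some (e, y)) : x = x' := by
  cases e with
  | z i =>
    obtain ⟨m, k, rfl, rfl⟩ := rep_dc_z.mp h
    obtain ⟨m', k', rfl, h2⟩ := rep_dc_z.mp h'
    simp only [XX.c.injEq, heq_eq_eq, true_and] at h2
    rw [h2.1, h2.2]
  | f i j' k =>
    by_cases hj : j' = j
    · subst hj
      rw [(rep_dc_f.mp h).1, (rep_dc_f.mp h').1]
    · exact absurd h (rep_dc_f_ne hj)
  | g i s =>
    obtain ⟨m, k, rfl, rfl⟩ := rep_dc_g.mp h
    obtain ⟨m', k', rfl, h2⟩ := rep_dc_g.mp h'
    simp only [XX.c.injEq, heq_eq_eq, true_and] at h2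
    rw [h2.1, h2.2]
  | h j' r =>
    by_cases hj : j' = j
    · subst hj
      rw [(rep_dc_h.mp h).1, (rep_dc_h.mp h').1]
    · exact absurd h (rep_dc_h_ne hj)

theorem rep_dc_ex {y : XX D j} {e : NE D} (h : rep_vt y = (NG D).r e) :
    ∃ x, rep_dc x = some (e, y) := by
  cases e with
  | z i =>
    obtain ⟨m, k, rfl⟩ := rep_vt_v.mp h
    exact ⟨.c i none (m + 1) k, rfl⟩
  | f i j' k =>
    by_cases hj : j' = j
    · subst hj
      obtain rfl := rep_vt_w.mp h
      exact ⟨.c i none 0 k, rfl⟩
    · exact absurd h (rep_vt_w_ne hj)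
  | g i s =>
    obtain ⟨m, k, rfl⟩ := rep_vt_v.mp h
    exact ⟨.c i (some s) m k, rfl⟩
  | h j' r =>
    by_cases hj : j' = j
    · subst hj
      obtain rfl := rep_vt_w.mp h
      exact ⟨.w (some r), rfl⟩
    · exact absurd h (rep_vt_w_ne hj)

open Classical in
/-- the action of a vertex -/
noncomputable def rep_pq (v : NV D) (x : XX D j) : Option (XX D j) :=
  if rep_vt x = v then some x else none

open Classical in
/-- the action of a ghost edge -/
noncomputable def rep_pg (e : NE D) (x : XX D j) : Option (XX D j) :=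
  (rep_dc x).bind fun p => if p.1 = e then some p.2 else none

open Classical in
/-- the action of an edge -/
noncomputable def rep_pu (e : NE D) (y : XX D j) : Option (XX D j) :=
  if h : ∃ x, rep_dc x = some (e, y) then some h.choose else none

theorem rep_pq_iff {v : NV D} {x y : XX D j} : rep_pq v x = some y ↔ rep_vt x = v ∧ y = x := by
  unfold rep_pq
  split_ifs with h
  · rw [Option.some.injEq]
    exact ⟨fun h1 => ⟨h, h1.symm⟩, fun h1 => h1.2.symm⟩
  · exact ⟨fun h1 => by simp at h1, fun h1 => absurd h1.1 h⟩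

theorem rep_pg_iff {e : NE D} {x y : XX D j} : rep_pg e x = some y ↔ rep_dc x = some (e, y) := by
  unfold rep_pg
  rw [Option.bind_eq_some_iff]
  constructor
  · rintro ⟨⟨e', y'⟩, h1, h2⟩
    simp only at h2
    split_ifs at h2 with h3
    rw [h1, h3, Option.some.inj h2]
  · intro h
    exact ⟨(e, y), h, by simp⟩

theorem rep_pu_iff {e : NE D} {x y : XX D j} : rep_pu e y = some x ↔ rep_dc x = some (e, y) := by
  unfold rep_pu
  split_ifs with h
  · rw [Option.some.injEq]
    constructor
    · rintro rfl
      exact h.choose_spec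
    · intro h1
      exact rep_dc_inj h.choose_spec h1
  · exact ⟨fun h1 => by simp at h1, fun h1 => absurd ⟨x, h1⟩ h⟩

theorem rep_acq (v : NV D) :
    rep_Ac K (opn K (rep_pq (j := j) v)) (fun x y => rep_vt x = v ∧ y = x) :=
  ⟨_, rfl, fun _ _ => rep_pq_iff⟩

theorem rep_acu (e : NE D) :
    rep_Ac K (opn K (rep_pu (j := j) e)) (fun x y => rep_dc y = some (e, x)) :=
  ⟨_, rfl, fun _ _ => rep_pu_iff⟩

theorem rep_acg (e : NE D) :
    rep_Ac K (opn K (rep_pg (j := j) e)) (fun x y => rep_dc x = some (e, y)) :=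
  ⟨_, rfl, fun _ _ => rep_pg_iff⟩

theorem rep_Ac.zero {X : Type*} {φ : Module.End K (X →₀ K)} {R : X → X → Prop}
    (h : rep_Ac K φ R) (h' : ∀ x y, ¬ R x y) : φ = 0 := by
  obtain ⟨p, rfl, hp⟩ := h
  refine rep_ext fun x => ?_
  rw [rep_opn_none, LinearMap.zero_apply]
  rw [Option.eq_none_iff_forall_ne_some]
  intro y hy
  exact h' x y ((hp x y).mp hy)

theorem rep_Ac.ap {X : Type*} {φ : Module.End K (X →₀ K)} {R : X → X → Prop}
    (h : rep_Ac K φ R) {x y : X} (h' : R x y) :
    φ (Finsupp.single x 1) = Finsupp.single y 1 := by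
  obtain ⟨p, rfl, hp⟩ := h
  exact rep_opn_some ((hp x y).mpr h')

theorem rep_Ac.ap0 {X : Type*} {φ : Module.End K (X →₀ K)} {R : X → X → Prop}
    (h : rep_Ac K φ R) {x : X} (h' : ∀ y, ¬ R x y) :
    φ (Finsupp.single x 1) = 0 := by
  obtain ⟨p, rfl, hp⟩ := h
  refine rep_opn_none ?_
  rw [Option.eq_none_iff_forall_ne_some]
  intro y hy
  exact h' y ((hp x y).mp hy)

variable (K D j)

theorem rep_isRep' : IsRep K (NG D) (fun v => opn K (rep_pq (D := D) (j := j) v))
    (fun e => opn K (rep_pu (D := D) (j := j) e)) (fun e => opn K (rep_pg (D := D) (j := j) e)) where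
  vv v := by
    refine ((rep_acq v).mul (rep_acq v)).uniq ((rep_acq v).congr fun x y => ?_)
    constructor
    · rintro ⟨h1, rfl⟩
      exact ⟨y, ⟨h1, rfl⟩, h1, rfl⟩
    · rintro ⟨z, ⟨h1, rfl⟩, h2, rfl⟩
      exact ⟨h1, rfl⟩
  vw v w h := by
    refine ((rep_acq v).mul (rep_acq w)).zero fun x y => ?_
    rintro ⟨z, ⟨h1, rfl⟩, h2, rfl⟩
    exact h (h2.symm.trans h1)
  se e := by
    refine ((rep_acq _).mul (rep_acu e)).uniq ((rep_acu e).congr fun x y => ?_)
    constructor
    · intro h
      exact ⟨y, h, (rep_dc_vt h).1, rfl⟩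
    · rintro ⟨z, h1, h2, rfl⟩
      exact h1
  er e := by
    refine ((rep_acu e).mul (rep_acq _)).uniq ((rep_acu e).congr fun x y => ?_)
    constructor
    · intro h
      exact ⟨x, ⟨(rep_dc_vt h).2, rfl⟩, h⟩
    · rintro ⟨z, ⟨h1, rfl⟩, h2⟩
      exact h2
  rg e := by
    refine ((rep_acq _).mul (rep_acg e)).uniq ((rep_acg e).congr fun x y => ?_)
    constructor
    · intro h
      exact ⟨y, h, (rep_dc_vt h).2, rfl⟩
    · rintro ⟨z, h1, h2, rfl⟩
      exact h1
  gs e := by
    refine ((rep_acg e).mul (rep_acq _)).uniq ((rep_acg e).congr fun x y => ?_)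
    constructor
    · intro h
      exact ⟨x, ⟨(rep_dc_vt h).1, rfl⟩, h⟩
    · rintro ⟨z, ⟨h1, rfl⟩, h2⟩
      exact h2
  ge e := by
    refine ((rep_acg e).mul (rep_acu e)).uniq ((rep_acq _).congr fun x y => ?_)
    constructor
    · rintro ⟨h1, rfl⟩
      obtain ⟨z, hz⟩ := rep_dc_ex h1
      exact ⟨z, hz, hz⟩
    · rintro ⟨z, h1, h2⟩
      rw [h1, Option.some.injEq, Prod.mk.injEq] at h2
      exact ⟨(rep_dc_vt h1).2, h2.2.symm⟩
  gf e f h := by
    refine ((rep_acg e).mul (rep_acu f)).zero fun x y => ?_
    rintro ⟨z, h1, h2⟩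
    rw [h1, Option.some.injEq, Prod.mk.injEq] at h2
    exact h h2.1.symm
  ck v hf h0 := by
    refine rep_ext fun x => ?_
    rw [LinearMap.sum_apply]
    rcases hx : rep_dc x with _ | ⟨e, y⟩
    · rw [Finset.sum_eq_zero]
      · refine (rep_acq v).ap0 fun y => ?_
        rintro ⟨h1, -⟩
        obtain ⟨e, he⟩ := h0
        rcases x with ⟨i, s, m, k⟩ | r
        · rcases s with _ | s
          · rcases m with _ | m <;> simp [rep_dc] at hx
          · simp [rep_dc] at hx
        · rcases r with _ | r
          · have h2 : (NG D).s e = NV.w j none := he.trans h1.symm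
            cases e with
            | z i => simp [NG] at h2
            | f i j' k => simp [NG] at h2
            | g i s => simp [NG] at h2
            | h j' r =>
              simp only [NG, NV.w.injEq] at h2
              obtain ⟨rfl, h3⟩ := h2
              exact absurd (eq_of_heq h3) (by simp)
          · simp [rep_dc] at hx
      · intro e _
        refine ((rep_acu e).mul (rep_acg e)).ap0 fun y => ?_
        rintro ⟨z, h1, h2⟩
        rw [hx] at h1
        simp at h1
    · have hterm : ∀ e', e' ≠ e → (opn K (rep_pu (D := D) (j := j) e') *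
          opn K (rep_pg (D := D) (j := j) e')) (Finsupp.single x 1) = 0 := by
        intro e' he'
        refine ((rep_acu e').mul (rep_acg e')).ap0 fun y => ?_
        rintro ⟨z, h1, h2⟩
        rw [hx, Option.some.injEq, Prod.mk.injEq] at h1
        exact he' h1.1.symm
      have hterm' : (opn K (rep_pu (D := D) (j := j) e) *
          opn K (rep_pg (D := D) (j := j) e)) (Finsupp.single x 1) = Finsupp.single x 1 :=
        ((rep_acu e).mul (rep_acg e)).ap ⟨y, hx, hx⟩
      by_cases hv : rep_vt x = v
      · rw [(rep_acq v).ap ⟨hv, rfl⟩, Finset.sum_eq_single e]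
        · exact hterm'.symm
        · intro e' _ he'
          exact hterm e' he'
        · intro hn
          exact absurd ((Set.Finite.mem_toFinset hf).mpr ((rep_dc_vt hx).1.symm.trans hv)) hn
      · rw [(rep_acq v).ap0 fun y h => hv h.1, Finset.sum_eq_zero]
        intro e' he'
        refine hterm e' ?_
        rintro rfl
        rw [Set.Finite.mem_toFinset, Set.mem_ofPred_eq] at he'
        exact hv ((rep_dc_vt hx).1.trans he')

/-- the representation on one space of paths -/
noncomputable def rep_pi : U K (NG D) →ₐ[K] Module.End K (XX D j →₀ K) :=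
  lift (rep_isRep' K D j)

variable {K D}

/-- the action of an element and of its adjoint -/
structure rep_Bc (u : U K (NG D)) (R : XX D j → XX D j → Prop) : Prop where
  l : rep_Ac K (rep_pi K D j u) R
  r : rep_Ac K (rep_pi K D j (star u)) (fun x y => R y x)

variable {j}

theorem rep_Bc.mul {u v : U K (NG D)} {R T : XX D j → XX D j → Prop}
    (h : rep_Bc j u R) (h' : rep_Bc j v T) : rep_Bc j (u * v) (fun x z => ∃ y, T x y ∧ R y z) where
  l := by
    rw [map_mul]
    exact h.l.mul h'.l
  r := by
    rw [star_mul, map_mul]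
    refine (h'.r.mul h.r).congr fun x y => ?_
    constructor
    · rintro ⟨z, h1, h2⟩
      exact ⟨z, h2, h1⟩
    · rintro ⟨z, h1, h2⟩
      exact ⟨z, h2, h1⟩

theorem rep_Bc.congr {u : U K (NG D)} {R T : XX D j → XX D j → Prop}
    (h : rep_Bc j u R) (h' : ∀ x y, R x y ↔ T x y) : rep_Bc j u T where
  l := h.l.congr h'
  r := h.r.congr fun x y => h' y x

theorem rep_Bc.st {u : U K (NG D)} {R : XX D j → XX D j → Prop}
    (h : rep_Bc j u R) : rep_Bc j (star u) (fun x y => R y x) where
  l := h.r
  r := by
    rw [star_star]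
    exact h.l

theorem rep_bc_vx (v : NV D) :
    rep_Bc j (vx K (NG D) v) (fun x y => rep_vt x = v ∧ y = x) := by
  have h1 : rep_Ac K (rep_pi K D j (vx K (NG D) v)) (fun x y => rep_vt x = v ∧ y = x) := by
    unfold rep_pi
    rw [lift_vx]
    exact rep_acq v
  refine ⟨h1, ?_⟩
  rw [star_vx]
  refine h1.congr fun x y => ?_
  constructor
  · rintro ⟨h2, rfl⟩
    exact ⟨h2, rfl⟩
  · rintro ⟨h2, rfl⟩
    exact ⟨h2, rfl⟩

theorem rep_bc_ed (e : NE D) :
    rep_Bc j (ed K (NG D) e) (fun x y => rep_dc y = some (e, x)) := by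
  refine ⟨?_, ?_⟩
  · unfold rep_pi
    rw [lift_ed]
    exact rep_acu e
  · rw [star_ed]
    unfold rep_pi
    rw [lift_gh]
    exact rep_acg e

theorem rep_bc_zn (i : C) (n : ℕ) :
    rep_Bc j (vx K (NG D) ((NG D).s (NE.z i)) * ed K (NG D) (NE.z i) ^ n)
      (fun x y => ∃ m k, x = .c i none m k ∧ y = .c i none (m + n) k) := by
  induction n with
  | zero =>
    rw [pow_zero, mul_one]
    refine (rep_bc_vx _).congr fun x y => ?_
    constructor
    · rintro ⟨h1, rfl⟩
      obtain ⟨m, k, rfl⟩ := rep_vt_v.mp h1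
      exact ⟨m, k, rfl, rfl⟩
    · rintro ⟨m, k, rfl, rfl⟩
      exact ⟨rfl, rfl⟩
  | succ n ih =>
    rw [pow_succ, ← mul_assoc]
    refine (ih.mul (rep_bc_ed _)).congr fun x y => ?_
    constructor
    · rintro ⟨z, h1, m, k, rfl, rfl⟩
      obtain ⟨m', k', h3, rfl⟩ := rep_dc_z.mp h1
      simp only [XX.c.injEq, heq_eq_eq, true_and] at h3
      obtain ⟨rfl, rfl⟩ := h3
      exact ⟨m', k, rfl, by rw [add_right_comm, add_assoc]⟩
    · rintro ⟨m, k, rfl, rfl⟩
      exact ⟨.c i none (m + 1) k, rfl, m + 1, k, rfl, by rw [add_right_comm, add_assoc]⟩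

theorem rep_bc_zg (i : C) (n : ℕ) :
    rep_Bc j (vx K (NG D) ((NG D).s (NE.z i)) * gh K (NG D) (NE.z i) ^ n)
      (fun x y => ∃ m k, x = .c i none (m + n) k ∧ y = .c i none m k) := by
  have h1 : vx K (NG D) ((NG D).s (NE.z i)) * gh K (NG D) (NE.z i) ^ n =
      star (vx K (NG D) ((NG D).s (NE.z i)) * ed K (NG D) (NE.z i) ^ n) := by
    have hG : (NG D).s (NE.z i) = (NG D).r (NE.z i) := rfl
    rw [gh_pow_vx hG, star_mul, star_pow, star_vx, star_ed]
  rw [h1]
  refine (rep_bc_zn i n).st.congr fun x y => ?_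
  constructor
  · rintro ⟨m, k, rfl, rfl⟩
    exact ⟨m, k, rfl, rfl⟩
  · rintro ⟨m, k, rfl, rfl⟩
    exact ⟨m, k, rfl, rfl⟩

theorem rep_bc_zp (i : C) (m : ℤ) :
    rep_Bc j (zp K (NG D) (NE.z i) m)
      (fun x y => ∃ m' m'' k, x = .c i none m' k ∧ y = .c i none m'' k ∧ (m'' : ℤ) = m' + m) := by
  rcases m with n | n
  · refine (rep_bc_zn i n).congr fun x y => ?_
    constructor
    · rintro ⟨m, k, rfl, rfl⟩
      exact ⟨m, m + n, k, rfl, rfl, by push_cast; rfl⟩
    · rintro ⟨m, m', k, rfl, rfl, h⟩
      refine ⟨m, k, rfl, ?_⟩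
      have h2 : (m' : ℤ) = ((m + n : ℕ) : ℤ) := h.trans (by push_cast; rfl)
      have h3 : m' = m + n := by exact_mod_cast h2
      rw [h3]
  · refine (rep_bc_zg i (n + 1)).congr fun x y => ?_
    constructor
    · rintro ⟨m, k, rfl, rfl⟩
      exact ⟨m + (n + 1), m, k, rfl, rfl, by rw [Int.negSucc_eq]; push_cast; ring⟩
    · rintro ⟨m, m', k, rfl, rfl, h⟩
      refine ⟨m', k, ?_, rfl⟩
      have h3 : m = m' + (n + 1) := by
        rw [Int.negSucc_eq] at h
        omega
      rw [h3]

theorem rep_bc_lk (i : C) (s : Option (Fin (D.a i))) :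
    rep_Bc j (lk K D i s) (fun x y => ∃ m k, x = .c i none m k ∧ y = .c i s m k) := by
  cases s with
  | none =>
    refine (rep_bc_vx (NV.v i none)).congr fun x y => ?_
    constructor
    · rintro ⟨h1, rfl⟩
      obtain ⟨m, k, rfl⟩ := rep_vt_v.mp h1
      exact ⟨m, k, rfl, rfl⟩
    · rintro ⟨m, k, rfl, rfl⟩
      exact ⟨rfl, rfl⟩
  | some s =>
    refine (rep_bc_ed (NE.g i s)).congr fun x y => ?_
    constructor
    · intro h
      obtain ⟨m, k, h1, h2⟩ := rep_dc_g.mp h
      exact ⟨m, k, h2, h1⟩
    · rintro ⟨m, k, rfl, rfl⟩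
      rfl

theorem rep_bc_mu (i : C) (s t : Option (Fin (D.a i))) (m : ℤ) :
    rep_Bc j (mu K D i s t m) (fun x y => ∃ m' m'' k, x = .c i t m' k ∧ y = .c i s m'' k ∧
      (m'' : ℤ) = m' + m) := by
  unfold mu
  refine (((rep_bc_lk i s).mul (rep_bc_zp i m)).mul (rep_bc_lk i t).st).congr fun x y => ?_
  constructor
  · rintro ⟨z, ⟨m1, k1, rfl, rfl⟩, z', ⟨m2, m3, k2, h2, rfl, h3⟩, m4, k4, h4, rfl⟩
    simp only [XX.c.injEq, heq_eq_eq, true_and] at h2 h4
    obtain ⟨rfl, rfl⟩ := h2
    obtain ⟨rfl, rfl⟩ := h4
    exact ⟨m1, m3, k1, rfl, rfl, h3⟩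
  · rintro ⟨m', m'', k, rfl, rfl, h⟩
    exact ⟨.c i none m' k, ⟨m', k, rfl, rfl⟩, .c i none m'' k, ⟨m', m'', k, rfl, rfl, h⟩,
      m'', k, rfl, rfl⟩

theorem rep_bc_lw (r : Option (Fin (D.b j))) :
    rep_Bc j (lw K D j r) (fun x y => x = .w none ∧ y = .w r) := by
  cases r with
  | none =>
    refine (rep_bc_vx (NV.w j none)).congr fun x y => ?_
    constructor
    · rintro ⟨h1, rfl⟩
      have := rep_vt_w.mp h1
      exact ⟨this, this⟩
    · rintro ⟨rfl, rfl⟩
      exact ⟨rfl, rfl⟩
  | some r =>
    refine (rep_bc_ed (NE.h j r)).congr fun x y => ?_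
    rw [rep_dc_h]
    exact and_comm

theorem rep_bc_pth (x : XX D j) :
    rep_Bc j (pth K D j x) (fun y z => y = .w none ∧ z = x) := by
  rcases x with ⟨i, s, m, k⟩ | r
  · refine (((rep_bc_lk i s).mul (rep_bc_zp i (m : ℤ))).mul (rep_bc_ed (NE.f i j k))).congr
      fun x y => ?_
    constructor
    · rintro ⟨z, h1, z', ⟨m2, m3, k2, rfl, rfl, h3⟩, m4, k4, h4, rfl⟩
      obtain ⟨h5, rfl⟩ := rep_dc_f.mp h1
      simp only [XX.c.injEq, heq_eq_eq, true_and] at h4 h5
      obtain ⟨rfl, rfl⟩ := h5
      obtain ⟨rfl, rfl⟩ := h4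
      have h6 : m3 = m := by
        have : (m3 : ℤ) = m := by rw [h3]; simp
        exact_mod_cast this
      rw [h6]
      exact ⟨rfl, rfl⟩
    · rintro ⟨rfl, rfl⟩
      exact ⟨.c i none 0 k, rfl, .c i none m k, ⟨0, m, k, rfl, rfl, by simp⟩, m, k, rfl, rfl⟩
  · exact rep_bc_lw r

theorem rep_pth_ne {j' : S} (hj : j' ≠ j) (x : XX D j) :
    rep_pi K D j' (pth K D j x) = 0 := by
  rcases x with ⟨i, s, m, k⟩ | r
  · change rep_pi K D j' (lk K D i s * zp K (NG D) (.z i) m * ed K (NG D) (.f i j k)) = 0
    rw [map_mul, (rep_bc_ed (j := j') (NE.f i j k)).l.zero, mul_zero]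
    intro x y h
    exact rep_dc_f_ne hj.symm h
  · cases r with
    | none =>
      refine (rep_bc_vx (j := j') (NV.w j none)).l.zero ?_
      rintro x y ⟨h1, -⟩
      exact rep_vt_w_ne hj.symm h1
    | some r =>
      refine (rep_bc_ed (j := j') (NE.h j r)).l.zero ?_
      intro x y h
      exact rep_dc_h_ne hj.symm h

theorem rep_sh_iff {i : C} {s t : Option (Fin (D.a i))} {m : ℤ} {x y : XX D j} :
    sh i s t m x = some y ↔ ∃ m' m'' k, x = .c i t m' k ∧ y = .c i s m'' k ∧
      (m'' : ℤ) = m' + m := by
  constructor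
  · intro h
    rcases x with ⟨i', s', m', k⟩ | r
    · by_cases hi : i' = i
      · subst hi
        simp only [sh, dif_pos] at h
        split_ifs at h with h1
        obtain ⟨rfl, h3⟩ := h1
        rw [Option.some.injEq] at h
        exact ⟨m', _, k, rfl, h.symm, Int.toNat_of_nonneg h3⟩
      · simp [sh, hi] at h
    · simp [sh] at h
  · rintro ⟨m', m'', k, rfl, rfl, h⟩
    have h1 : (0 : ℤ) ≤ (m' : ℤ) + m := by rw [← h]; exact Int.natCast_nonneg _
    have h2 : ((m' : ℤ) + m).toNat = m'' := by rw [← h]; exact Int.toNat_natCast _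
    simp only [sh, dif_pos]
    rw [if_pos ⟨trivial, h1⟩, h2]

end paths

theorem exists_Rp : Nonempty (Rp K D) := by
  refine ⟨⟨AlgHom.pi fun j => rep_pi K D j, ?_, ?_, ?_⟩⟩
  · intro i s t m j
    change rep_pi K D j (mu K D i s t m) = _
    exact (rep_bc_mu i s t m).l.uniq ⟨_, rfl, fun _ _ => rep_sh_iff⟩
  · intro j x y j' hj
    change rep_pi K D j' (pth K D j x * star (pth K D j y)) = 0
    rw [map_mul, rep_pth_ne hj, zero_mul]
  · intro j x y u
    change rep_pi K D j (pth K D j x * star (pth K D j y)) u = _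
    have h1 := ((rep_bc_pth (K := K) x).mul (rep_bc_pth (K := K) y).st).l
    have h2 : rep_pi K D j (pth K D j x * star (pth K D j y)) =
        (Finsupp.lsingle x).comp (Finsupp.lapply y) := by
      refine rep_ext fun z => ?_
      by_cases hz : z = y
      · subst hz
        rw [h1.ap (y := x) ⟨.w none, ⟨rfl, rfl⟩, rfl, rfl⟩]
        simp
      · rw [h1.ap0 (by
          rintro y' ⟨z', ⟨h3, h4⟩, h5, h6⟩
          exact hz h4)]
        simp [Finsupp.single_eq_of_ne (Ne.symm hz)]
    rw [h2]
    rfl

end Pool.Agent.Helper32.TP
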