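import Pool.Agent.Helper32.TP.Norm
import Pool.Agent.Helper32.TP.Rel
import Pool.Agent.Helper32.TP.Rep
import Pool.Agent.Helper32.TP.Arith
import Pool.Agent.Helper32.LV.Loops

/-! The main theorem for finite graphs in which no cycle reaches another cycle. -/

set_option autoImplicit false

universe k a b

namespace Pool.Agent.Helper32.TP

open Pool.Agent.Helper32.LV

theorem main_NG {C C' : Type a} {S S' : Type b} [Fintype C] [Fintype S] [DecidableEq C]
    [DecidableEq S] [Fintype C'] [Fintype S'] [DecidableEq C'] [DecidableEq S']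
    (K : Type k) [Field K] [StarRing K] (D : Dat C S) (D' : Dat C' S')
    (h : Nonempty (L K (NG D) ≃+* L K (NG D'))) : Nonempty (L K (NG D) ≃⋆ₐ[K] L K (NG D')) := by
  obtain ⟨f⟩ := h
  obtain ⟨φ⟩ := exists_RI f
  obtain ⟨c⟩ := exists_Ch K D
  obtain ⟨c'⟩ := exists_Ch K D'
  obtain ⟨R'⟩ := exists_Rp K D'
  obtain ⟨M⟩ := exists_Mt φ c c'
  obtain ⟨m, cc, h1, h2⟩ := M.rel R'
  exact iso_of_rel K D D' M.σ M.ρ (M.n_eq R') M.a_eq m cc h1 h2

theorem main {V : Type a} {E : Type b} {V' : Type a} {E' : Type b} (K : Type k) [Field K]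
    [StarRing K] (G : Gr V E) (G' : Gr V' E') [Finite V] [Finite E] [Finite V'] [Finite E']
    (hG : SepCycles G) (hG' : SepCycles G') (h : Nonempty (L K G ≃+* L K G')) :
    Nonempty (L K G ≃⋆ₐ[K] L K G') := by
  classical
  obtain ⟨C, S, D, ⟨f⟩⟩ := exists_NG K G hG
  obtain ⟨C', S', D', ⟨f'⟩⟩ := exists_NG K G' hG'
  haveI := Fintype.ofFinite C
  haveI := Fintype.ofFinite S
  haveI := Fintype.ofFinite C'
  haveI := Fintype.ofFinite S'
  obtain ⟨g⟩ := h
  obtain ⟨F⟩ := main_NG K D D' ⟨((f.symm : _ ≃⋆ₐ[K] _).toRingEquiv.trans g).trans f'.toRingEquiv⟩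
  exact ⟨(f.trans F).trans f'.symm⟩

end Pool.Agent.Helper32.TP
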