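import Pool.Agent.Helper32.TP.Min
import Pool.Agent.Helper32.TP.Alg

/-! The matching of the cycles. PIECE 7.

Let `P i = ∑ s, vx (v i s)`, so `χ (P i) = Pi.single i 1`. Every `χ' (φ (P i)) i'` is a central
idempotent of a matrix ring over a domain, hence `0` or `1`; for every `i'` exactly one `i` gives
`1`; the same for the inverse gives a bijection `σ`. Then `Φ i B = χ' (φ (th (Pi.single i B))) (σ i)`,
with inverse defined by `φ.g`. -/

set_option autoImplicit false
set_option linter.unusedSectionVars false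

universe k a b a' b'

namespace Pool.Agent.Helper32.TP

open Pool.Agent.Helper32.LV

/-! ### Isomorphisms between finite products of rings without central idempotents -/

section general

variable {C C' : Type*} [Fintype C] [Fintype C'] [DecidableEq C] [DecidableEq C']
  {A : C → Type*} {A' : C' → Type*} [∀ i, Ring (A i)] [∀ i, Ring (A' i)]
  [∀ i, Nontrivial (A i)] [∀ i, Nontrivial (A' i)]

theorem match_exists_index
    (hA' : ∀ i (e : A' i), e * e = e → (∀ x, e * x = x * e) → e = 0 ∨ e = 1)
    (F : (∀ i, A i) ≃+* (∀ i, A' i)) :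
    ∃ τ : C' → C, ∀ i', F (Pi.single (τ i') 1) i' = 1 ∧
      ∀ i, i ≠ τ i' → F (Pi.single i 1) i' = 0 := by
  have hsingle : ∀ i i', F (Pi.single i 1) i' = 0 ∨ F (Pi.single i 1) i' = 1 := by
    intro i i'
    refine hA' i' _ ?_ ?_
    · rw [← Pi.mul_apply, ← map_mul, ← Pi.single_mul, mul_one]
    · intro x
      have h1 : (Pi.single i 1 : ∀ i, A i) * F.symm (Pi.single i' x) =
          F.symm (Pi.single i' x) * (Pi.single i 1 : ∀ i, A i) := by
        funext j
        by_cases hj : j = i
        · subst hj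
          simp
        · simp [Pi.single_eq_of_ne hj]
      have h2 := congrArg (fun y => F y i') h1
      simp only [map_mul, RingEquiv.apply_symm_apply, Pi.mul_apply, Pi.single_eq_same] at h2
      exact h2
  have hex : ∀ i', ∃ i, F (Pi.single i 1) i' = 1 := by
    intro i'
    by_contra hcon
    push Not at hcon
    have h0 : ∀ i, F (Pi.single i 1) i' = 0 := fun i => (hsingle i i').resolve_right (hcon i)
    have h1 : (∑ i, (Pi.single i 1 : ∀ i, A i)) = 1 := by
      funext j
      rw [Finset.sum_apply, Finset.sum_eq_single j]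
      · simp
      · intro i _ hij
        rw [Pi.single_eq_of_ne (Ne.symm hij)]
      · intro hj
        exact absurd (Finset.mem_univ j) hj
    have h2 : F (∑ i, (Pi.single i 1 : ∀ i, A i)) i' = 0 := by
      rw [map_sum, Finset.sum_apply]
      exact Finset.sum_eq_zero fun i _ => h0 i
    rw [h1, map_one, Pi.one_apply] at h2
    exact one_ne_zero h2
  choose τ hτ using hex
  refine ⟨τ, fun i' => ⟨hτ i', fun i hi => ?_⟩⟩
  rcases hsingle i i' with h | h
  · exact h
  · exfalso
    have h1 : (Pi.single i 1 : ∀ i, A i) * Pi.single (τ i') 1 = 0 := by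
      funext j
      rw [Pi.mul_apply, Pi.zero_apply]
      by_cases hj : j = i
      · subst hj
        rw [Pi.single_eq_of_ne hi, mul_zero]
      · rw [Pi.single_eq_of_ne hj, zero_mul]
    have h2 := congrArg (fun y => F y i') h1
    simp only [map_mul, Pi.mul_apply, map_zero, Pi.zero_apply, h, hτ i', mul_one] at h2
    exact one_ne_zero h2

theorem match_apply (F : (∀ i, A i) ≃+* (∀ i, A' i)) {i : C} {i' : C'}
    (h : F (Pi.single i 1) i' = 1) (B : ∀ i, A i) : F (Pi.single i (B i)) i' = F B i' := by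
  have h1 : (Pi.single i (B i) : ∀ i, A i) = B * Pi.single i 1 := by
    funext j
    rw [Pi.mul_apply]
    by_cases hj : j = i
    · subst hj
      rw [Pi.single_eq_same, Pi.single_eq_same, mul_one]
    · rw [Pi.single_eq_of_ne hj, Pi.single_eq_of_ne hj, mul_zero]
  rw [h1, map_mul, Pi.mul_apply, h, mul_one]

theorem match_pi (hA : ∀ i (e : A i), e * e = e → (∀ x, e * x = x * e) → e = 0 ∨ e = 1)
    (hA' : ∀ i (e : A' i), e * e = e → (∀ x, e * x = x * e) → e = 0 ∨ e = 1)
    (F : (∀ i, A i) ≃+* (∀ i, A' i)) :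
    ∃ σ : C ≃ C', ∀ i, ∃ Φ : A i ≃+* A' (σ i), ∀ B, Φ (B i) = F B (σ i) := by
  obtain ⟨τ, hτ⟩ := match_exists_index hA' F
  obtain ⟨σ, hσ⟩ := match_exists_index hA F.symm
  have key : ∀ i i', τ i' = i ↔ σ i = i' := by
    intro i i'
    have h1 : F (Pi.single i 1) * Pi.single i' 1 =
        if τ i' = i then (Pi.single i' 1 : ∀ i, A' i) else 0 := by
      funext j
      rw [Pi.mul_apply]
      by_cases hj : j = i'
      · subst hj
        rw [Pi.single_eq_same, mul_one]
        split_ifs with h
        · rw [Pi.single_eq_same, ← h]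
          exact (hτ j).1
        · rw [Pi.zero_apply]
          exact (hτ j).2 i (fun h' => h h'.symm)
      · rw [Pi.single_eq_of_ne hj, mul_zero]
        split_ifs
        · rw [Pi.single_eq_of_ne hj]
        · rfl
    have h2 : (Pi.single i 1 : ∀ i, A i) * F.symm (Pi.single i' 1) =
        if σ i = i' then (Pi.single i 1 : ∀ i, A i) else 0 := by
      funext j
      rw [Pi.mul_apply]
      by_cases hj : j = i
      · subst hj
        rw [Pi.single_eq_same, one_mul]
        split_ifs with h
        · rw [Pi.single_eq_same, ← h]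
          exact (hσ j).1
        · rw [Pi.zero_apply]
          exact (hσ j).2 i' (fun h' => h h'.symm)
      · rw [Pi.single_eq_of_ne hj, zero_mul]
        split_ifs
        · rw [Pi.single_eq_of_ne hj]
        · rfl
    have h3 := congrArg F.symm h1
    rw [map_mul, RingEquiv.symm_apply_apply, h2] at h3
    have hne : (Pi.single i 1 : ∀ i, A i) ≠ 0 := fun h => by
      have := congrFun h i
      rw [Pi.single_eq_same, Pi.zero_apply] at this
      exact one_ne_zero this
    have hne' : F.symm (Pi.single i' 1 : ∀ i, A' i) ≠ 0 := fun h => by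
      have h4 : (Pi.single i' 1 : ∀ i, A' i) = 0 := by
        rw [← F.apply_symm_apply (Pi.single i' 1 : ∀ i, A' i), h, map_zero]
      have := congrFun h4 i'
      rw [Pi.single_eq_same, Pi.zero_apply] at this
      exact one_ne_zero this
    constructor
    · intro h
      by_contra hcon
      rw [if_neg hcon, if_pos h] at h3
      exact hne' h3.symm
    · intro h
      by_contra hcon
      rw [if_pos h, if_neg hcon, map_zero] at h3
      exact hne h3
  refine ⟨⟨σ, τ, fun i => (key i (σ i)).2 rfl, fun i' => (key (τ i') i').1 rfl⟩, fun i => ?_⟩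
  change ∃ Φ : A i ≃+* A' (σ i), ∀ B : ∀ i, A i, Φ (B i) = F B (σ i)
  have hi : F (Pi.single i 1) (σ i) = 1 := by
    have := (hτ (σ i)).1
    rwa [(key i (σ i)).2 rfl] at this
  have hi' : F.symm (Pi.single (σ i) 1) i = 1 := (hσ i).1
  refine ⟨RingEquiv.mk (Equiv.mk (fun b => F (Pi.single i b) (σ i))
    (fun b => F.symm (Pi.single (σ i) b) i) ?_ ?_) ?_ ?_, ?_⟩
  · intro b
    change F.symm (Pi.single (σ i) (F (Pi.single i b) (σ i))) i = b
    rw [match_apply F.symm hi', RingEquiv.symm_apply_apply, Pi.single_eq_same]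
  · intro b
    change F (Pi.single i (F.symm (Pi.single (σ i) b) i)) (σ i) = b
    rw [match_apply F hi, RingEquiv.apply_symm_apply, Pi.single_eq_same]
  · intro b b'
    change F (Pi.single i (b * b')) (σ i) = F (Pi.single i b) (σ i) * F (Pi.single i b') (σ i)
    rw [Pi.single_mul, map_mul, Pi.mul_apply]
  · intro b b'
    change F (Pi.single i (b + b')) (σ i) = F (Pi.single i b) (σ i) + F (Pi.single i b') (σ i)
    rw [Pi.single_add, map_add, Pi.add_apply]
  · intro B
    exact match_apply F hi B

end general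

/-- central idempotents of a matrix ring over a domain -/
theorem match_central {R : Type*} [CommRing R] [IsDomain R] {n : Type*} [Fintype n]
    [DecidableEq n] (e : Matrix n n R) (he : e * e = e) (hc : ∀ x, e * x = x * e) :
    e = 0 ∨ e = 1 := by
  rcases isEmpty_or_nonempty n with hn | hn
  · left
    ext i
    exact hn.elim i
  · have h1 : e ∈ Set.range (Matrix.scalar n) :=
      (Matrix.mem_range_scalar_iff_commute_single' (M := e)).2 fun i j => (hc _).symm
    obtain ⟨r, hr⟩ := h1
    have h2 : r * r = r := by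
      obtain ⟨i⟩ := hn
      have h3 := congrFun (congrFun he i) i
      rw [← hr, ← map_mul] at h3
      simpa using h3
    have h4 : r = 0 ∨ r = 1 := by
      have : r * (r - 1) = 0 := by rw [mul_sub, h2, mul_one, sub_self]
      rcases mul_eq_zero.1 this with h | h
      · exact Or.inl h
      · exact Or.inr (sub_eq_zero.1 h)
    rcases h4 with h | h
    · left
      rw [← hr, h, map_zero]
    · right
      rw [← hr, h, map_one]

variable {C : Type a} {S : Type b} [Fintype C] [Fintype S] [DecidableEq C] [DecidableEq S]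
  {K : Type k} [Field K] [StarRing K] {D : Dat C S}
  {C' : Type a'} {S' : Type b'} [Fintype C'] [Fintype S'] [DecidableEq C'] [DecidableEq S']
  {D' : Dat C' S'}

/-- matching data -/
structure Mt (φ : RI K (NG D) (NG D')) (c : Ch K D) (c' : Ch K D') where
  ρ : S ≃ S'
  σ : C ≃ C'
  Φ : ∀ i, MM K D i ≃+* MM K D' (σ i)
  hρ : ∀ j, Eqv K (NG D') (φ.f (vx K (NG D) (.w j none))) (vx K (NG D') (.w (ρ j) none))
  hΦ : ∀ x ∈ L K (NG D), ∀ i, Φ i (c.χ x i) = c'.χ (φ.f x) (σ i)

theorem match_chi (φ : RI K (NG D) (NG D')) (c : Ch K D) (c' : Ch K D')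
    {x : U K (NG D)} (hx : x ∈ L K (NG D)) :
    c'.χ (φ.f (th K D (c.χ x))) = c'.χ (φ.f x) := by
  have h1 : x - th K D (c.χ x) ∈ Isp K D := sub_th_mem c hx
  have h2 : φ.f (x - th K D (c.χ x)) ∈ Isp K D' := Isp_map c c' φ h1
  have h3 : c'.χ (φ.f (x - th K D (c.χ x))) = 0 := (mem_Isp_iff c' (Isp_le_L h2)).1 h2
  have h4 : φ.f x = φ.f (x - th K D (c.χ x)) + φ.f (th K D (c.χ x)) := by
    rw [← φ.f_add _ ((L K (NG D)).sub_mem hx (th_mem _)) _ (th_mem _), sub_add_cancel]
  rw [h4, map_add, h3, zero_add]

/-- the isomorphism of the quotients -/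
noncomputable def match_F (φ : RI K (NG D) (NG D')) (c : Ch K D) (c' : Ch K D') :
    (∀ i, MM K D i) ≃+* (∀ i, MM K D' i) where
  toFun B := c'.χ (φ.f (th K D B))
  invFun B := c.χ (φ.g (th K D' B))
  left_inv B := by
    have h := match_chi φ.symm c' c (φ.f_mem _ (th_mem B))
    change c.χ (φ.g (th K D' (c'.χ (φ.f (th K D B))))) = c.χ (φ.g (φ.f (th K D B))) at h
    change c.χ (φ.g (th K D' (c'.χ (φ.f (th K D B))))) = B
    rw [h, φ.gf _ (th_mem B), chi_th]
  right_inv B := by
    have h := match_chi φ c c' (φ.g_mem _ (th_mem B))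
    change c'.χ (φ.f (th K D (c.χ (φ.g (th K D' B))))) = B
    rw [h, φ.fg _ (th_mem B), chi_th]
  map_mul' B B' := by
    have h := match_chi φ c c' ((L K (NG D)).mul_mem (th_mem B) (th_mem B'))
    rw [map_mul, chi_th, chi_th, φ.f_mul _ (th_mem B) _ (th_mem B'), map_mul] at h
    exact h
  map_add' B B' := by
    rw [th_add, φ.f_add _ (th_mem B) _ (th_mem B'), map_add]

theorem exists_Mt (φ : RI K (NG D) (NG D')) (c : Ch K D) (c' : Ch K D') :
    Nonempty (Mt φ c c') := by
  obtain ⟨ρ, hρ⟩ := exists_rho c c' φ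
  obtain ⟨σ, hσ⟩ := match_pi (fun i e => match_central e) (fun i e => match_central e)
    (match_F φ c c')
  choose Φ hΦ using hσ
  refine ⟨⟨ρ, σ, Φ, hρ, fun x hx i => ?_⟩⟩
  rw [hΦ i (c.χ x)]
  change c'.χ (φ.f (th K D (c.χ x))) (σ i) = c'.χ (φ.f x) (σ i)
  rw [match_chi φ c c' hx]

theorem Mt.a_eq {φ : RI K (NG D) (NG D')} {c : Ch K D} {c' : Ch K D'} (M : Mt φ c c') (i : C) :
    D'.a (M.σ i) = D.a i := by
  have h := laurent_matrix_card (M.Φ i)
  simp only [Fintype.card_option, Fintype.card_fin] at h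
  omega

end Pool.Agent.Helper32.TP
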