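import Pool.Agent.Helper32.TP.Span
import Pool.Agent.Helper32.LV.RRf

/-! Minimal idempotents and the matching of the sinks. PIECE 5. -/

set_option autoImplicit false
set_option linter.unusedSectionVars false

universe k a b a' b'

namespace Pool.Agent.Helper32.TP

open Pool.Agent.Helper32.LV

variable {C : Type a} {S : Type b} [Fintype C] [Fintype S] [DecidableEq C] [DecidableEq S]
  {K : Type k} [Field K] [StarRing K] {D : Dat C S}
  {C' : Type a'} {S' : Type b'} [Fintype C'] [Fintype S'] [DecidableEq C'] [DecidableEq S']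
  {D' : Dat C' S'}

variable (K D) in
/-- an idempotent whose corner is a division ring -/
def IsMin (e : U K (NG D)) : Prop :=
  e ∈ L K (NG D) ∧ e * e = e ∧ e ≠ 0 ∧
    ∀ x ∈ L K (NG D), e * x * e ≠ 0 → ∃ y ∈ L K (NG D), (e * x * e) * (e * y * e) = e

theorem min_w (j : S) : IsMin K D (vx K (NG D) (.w j none)) := by
  refine ⟨vx_mem _, vx_vx _, vx_ne_zero _, fun x hx h0 => ?_⟩
  obtain ⟨c, hc⟩ := w_corner (K := K) (D := D) j hx
  have hc0 : c ≠ 0 := by
    rintro rfl
    exact h0 (by rw [hc, zero_smul])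
  refine ⟨c⁻¹ • vx K (NG D) (.w j none), (L K (NG D)).smul_mem _ (vx_mem _), ?_⟩
  have h1 : vx K (NG D) (.w j none) * (c⁻¹ • vx K (NG D) (.w j none)) * vx K (NG D) (.w j none) =
      c⁻¹ • vx K (NG D) (.w j none) := by
    rw [mul_smul_comm, smul_mul_assoc, vx_vx, vx_vx]
  rw [hc, h1, smul_mul_smul_comm, vx_vx, mul_inv_cancel₀ hc0, one_smul]

/-- an idempotent matrix over the Laurent polynomials which is divisible by `T - 1` is zero -/
theorem min_idem_zero {ι : Type*} [Fintype ι] [DecidableEq ι]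
    (P Q : Matrix ι ι (LaurentPolynomial K)) (hP : P * P = P)
    (hQ : P = (LaurentPolynomial.T 1 - 1 : LaurentPolynomial K) • Q) : P = 0 := by
  have h1 : (1 - P) * (1 - P) = 1 - P := by
    rw [sub_mul, mul_sub, mul_sub, hP]; simp
  have h2 : (1 - P).det * (1 - P).det = (1 - P).det := by
    rw [← Matrix.det_mul, h1]
  let ev : LaurentPolynomial K →+* K := LaurentPolynomial.eval₂ (RingHom.id K) (1 : Kˣ)
  have h3 : ev (LaurentPolynomial.T 1 - 1) = 0 := by
    change (LaurentPolynomial.eval₂ (RingHom.id K) (1 : Kˣ)) _ = 0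
    rw [map_sub, LaurentPolynomial.eval₂_T, map_one]
    simp
  have h4 : ev.mapMatrix P = 0 := by
    ext i j
    rw [RingHom.mapMatrix_apply, Matrix.map_apply, hQ, Matrix.smul_apply, smul_eq_mul, map_mul, h3,
      zero_mul]
    rfl
  have h5 : ev ((1 - P).det) = 1 := by
    rw [RingHom.map_det, map_sub, map_one, h4, sub_zero, Matrix.det_one]
  have h6 : (1 - P).det = 1 := by
    have h7 : (1 - P).det * ((1 - P).det - 1) = 0 := by
      rw [mul_sub, h2, mul_one, sub_self]
    rcases mul_eq_zero.1 h7 with h8 | h8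
    · rw [h8, map_zero] at h5
      exact absurd h5 zero_ne_one
    · exact sub_eq_zero.1 h8
  have h9 : IsUnit (1 - P) := (Matrix.isUnit_iff_isUnit_det _).2 (by rw [h6]; exact isUnit_one)
  have h10 : (1 - P) * (1 - P) = (1 - P) * 1 := by rw [h1, mul_one]
  have h11 : 1 - P = 1 := h9.mul_left_cancel h10
  have h12 : P = 1 - (1 - P) := by abel
  rw [h12, h11, sub_self]

/-- a minimal idempotent lies in the ideal: otherwise some `χ e i ≠ 0`, and an element of the corner
over `(T - 1) * χ e i` would be invertible there, so `χ e i` would vanish at `T = 1`; but an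
idempotent matrix over the Laurent polynomials which is divisible by `T - 1` is zero -/
theorem min_mem (c : Ch K D) {e : U K (NG D)} (he : IsMin K D e) : e ∈ Isp K D := by
  obtain ⟨hm, hi, -, hcor⟩ := he
  rw [mem_Isp_iff c hm]
  funext i
  change c.χ e i = 0
  set P : MM K D i := c.χ e i with hPdef
  have hP : P * P = P := by
    have := congrFun (congrArg c.χ hi) i
    rwa [map_mul] at this
  by_contra hP0
  let t : LaurentPolynomial K := LaurentPolynomial.T 1 - 1
  have ht : t ≠ 0 := by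
    intro h
    have h1 : (LaurentPolynomial.T 1 : LaurentPolynomial K) = 1 := sub_eq_zero.1 h
    have h2 := congrArg (fun p : LaurentPolynomial K => p.coeff 1) h1
    have h3 : (LaurentPolynomial.T 1 : LaurentPolynomial K).coeff 1 = 1 := by
      rw [LaurentPolynomial.T, AddMonoidAlgebra.coeff_single, Finsupp.single_eq_same]
    have h4 : (1 : LaurentPolynomial K).coeff 1 = 0 := by
      rw [← LaurentPolynomial.T_zero, LaurentPolynomial.T, AddMonoidAlgebra.coeff_single,
        Finsupp.single_eq_of_ne (by decide)]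
    simp only [h3, h4] at h2
    exact one_ne_zero h2
  let B : ∀ i, MM K D i := Pi.single i (t • P)
  have hx := th_mem (K := K) (D := D) B
  have hchi : c.χ (e * th K D B * e) i = t • P := by
    rw [map_mul, map_mul, chi_th]
    change P * B i * P = _
    have : B i = t • P := Pi.single_eq_same i _
    rw [this, mul_smul_comm, smul_mul_assoc, hP, hP]
  have hne : e * th K D B * e ≠ 0 := by
    intro h
    rw [h, map_zero] at hchi
    have h1 : t • P = 0 := hchi.symm
    rcases smul_eq_zero.1 h1 with h2 | h2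
    · exact ht h2
    · exact hP0 h2
  obtain ⟨y, -, hxy⟩ := hcor _ hx hne
  have h1 := congrFun (congrArg c.χ hxy) i
  rw [map_mul, Pi.mul_apply, hchi, smul_mul_assoc] at h1
  exact hP0 (min_idem_zero P _ hP h1.symm)

/-- by `Isp_coeff`: `star (pth x₁) * e * pth x₂ = c • w`, `c ≠ 0`; put `u = e * pth x₂`,
`v = c⁻¹ • star (pth x₁) * e`; then `v u = w`, and `u v` is an idempotent in the corner of `e`,
different from `0`, hence equal to `e` -/
theorem min_eqv (c : Ch K D) {e : U K (NG D)} (he : IsMin K D e) :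
    ∃ j, Eqv K (NG D) e (vx K (NG D) (.w j none)) := by
  have hI := min_mem c he
  obtain ⟨hm, hi, h0, hcor⟩ := he
  obtain ⟨j, x₁, x₂, d, hd, h1⟩ := Isp_coeff hI h0
  refine ⟨j, ?_⟩
  set w := vx K (NG D) (.w j none) with hw
  set q := pth K D j x₂ with hq
  set p := star (pth K D j x₁) with hp
  have hqm : q ∈ L K (NG D) := pth_mem j x₂
  have hpm : p ∈ L K (NG D) := star_mem_L (pth_mem j x₁)
  have hqw : q * w = q := span_tgt_pth j x₂
  let u := e * q
  let v := d⁻¹ • (p * e)
  have hvu : v * u = w := by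
    change d⁻¹ • (p * e) * (e * q) = w
    rw [smul_mul_assoc, mul_assoc p e, ← mul_assoc e e, hi, ← mul_assoc, h1, smul_smul,
      inv_mul_cancel₀ hd, one_smul]
  have huw : u * w = u := by
    change e * q * w = e * q
    rw [mul_assoc, hqw]
  have hff : (u * v) * (u * v) = u * v := by
    calc (u * v) * (u * v) = u * (v * u) * v := by noncomm_ring
      _ = u * v := by rw [hvu, huw]
  have heu : e * u = u := by
    change e * (e * q) = e * q
    rw [← mul_assoc, hi]
  have hve : v * e = v := by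
    change d⁻¹ • (p * e) * e = d⁻¹ • (p * e)
    rw [smul_mul_assoc, mul_assoc, hi]
  have hf0 : u * v ≠ 0 := by
    intro h
    have h2 : v * (u * v) * u = w := by
      calc v * (u * v) * u = (v * u) * (v * u) := by noncomm_ring
        _ = w := by rw [hvu, hw, vx_vx]
    rw [h, mul_zero, zero_mul] at h2
    exact vx_ne_zero (K := K) (G := NG D) (.w j none) h2.symm
  have hfe : e * (d⁻¹ • (q * p)) * e = u * v := by
    change e * (d⁻¹ • (q * p)) * e = (e * q) * (d⁻¹ • (p * e))
    rw [mul_smul_comm, smul_mul_assoc, mul_smul_comm]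
    congr 1
    noncomm_ring
  obtain ⟨y, hy, hxy⟩ := hcor (d⁻¹ • (q * p)) ((L K (NG D)).smul_mem _ ((L K (NG D)).mul_mem hqm hpm))
    (by rw [hfe]; exact hf0)
  rw [hfe] at hxy
  have h3 : u * v * e = e := by
    calc u * v * e = u * v * (u * v * (e * y * e)) := by rw [hxy]
      _ = (u * v) * (u * v) * (e * y * e) := by noncomm_ring
      _ = e := by rw [hff, hxy]
  have h4 : u * v * e = u * v := by rw [mul_assoc, hve]
  exact ⟨u, (L K (NG D)).mul_mem hm hqm, v, (L K (NG D)).smul_mem _ ((L K (NG D)).mul_mem hpm hm),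
    h4.symm.trans h3, hvu⟩

theorem w_uniq {j j' : S} (h : Eqv K (NG D) (vx K (NG D) (.w j none)) (vx K (NG D) (.w j' none))) :
    j = j' := by
  by_contra hne
  obtain ⟨x, hx, y, hy, h1, h2⟩ := h
  have h3 : vx K (NG D) (.w j none) * x * vx K (NG D) (.w j' none) * y =
      vx K (NG D) (.w j none) := by
    calc vx K (NG D) (.w j none) * x * vx K (NG D) (.w j' none) * y
        = vx K (NG D) (.w j none) * x * (y * x) * y := by rw [h2]
      _ = vx K (NG D) (.w j none) * (x * y) * (x * y) := by noncomm_ring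
      _ = _ := by rw [h1, vx_vx, vx_vx]
  rw [w_corner_ne hne hx, zero_mul] at h3
  exact vx_ne_zero (K := K) (G := NG D) (.w j none) h3.symm

theorem min_map (φ : RI K (NG D) (NG D')) {e : U K (NG D)} (he : IsMin K D e) :
    IsMin K D' (φ.f e) := by
  obtain ⟨hm, hi, h0, hcor⟩ := he
  refine ⟨φ.f_mem e hm, φ.f_idem hm hi, ?_, ?_⟩
  · intro h
    have h1 := φ.gf e hm
    rw [h] at h1
    have h2 : φ.g 0 = 0 := (RI.f_zero φ.symm)
    exact h0 (h1.symm.trans h2)
  · intro x hx hne
    have hgx := φ.g_mem x hx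
    have key : ∀ y ∈ L K (NG D), φ.f e * φ.f y * φ.f e = φ.f (e * y * e) := by
      intro y hy
      rw [φ.f_mul _ ((L K (NG D)).mul_mem hm hy) e hm, φ.f_mul e hm y hy]
    have h1 : φ.f e * x * φ.f e = φ.f (e * φ.g x * e) := by
      rw [← key _ hgx, φ.fg x hx]
    obtain ⟨y, hy, hxy⟩ := hcor (φ.g x) hgx (by
      intro h
      rw [h1, h, φ.f_zero] at hne
      exact hne rfl)
    refine ⟨φ.f y, φ.f_mem y hy, ?_⟩
    rw [h1, key y hy, ← φ.f_mul _ ((L K (NG D)).mul_mem ((L K (NG D)).mul_mem hm hgx) hm) _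
      ((L K (NG D)).mul_mem ((L K (NG D)).mul_mem hm hy) hm), hxy]

theorem min_inv (φ : RI K (NG D) (NG D')) {ρ : S → S'} {σ : S' → S}
    (hρ : ∀ j, Eqv K (NG D') (φ.f (vx K (NG D) (.w j none))) (vx K (NG D') (.w (ρ j) none)))
    (hσ : ∀ j, Eqv K (NG D) (φ.g (vx K (NG D') (.w j none))) (vx K (NG D) (.w (σ j) none)))
    (j : S) : σ (ρ j) = j := by
  have h1 := RI.f_eqv φ.symm (hρ j)
  change Eqv K (NG D) (φ.g (φ.f (vx K (NG D) (.w j none)))) (φ.g _) at h1
  rw [φ.gf _ (vx_mem _)] at h1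
  exact (w_uniq (Eqv.trans h1 (hσ (ρ j)) (vx_vx _) (vx_vx _))).symm

/-- the matching of the sinks -/
theorem exists_rho (c : Ch K D) (c' : Ch K D') (φ : RI K (NG D) (NG D')) :
    ∃ ρ : S ≃ S', ∀ j, Eqv K (NG D') (φ.f (vx K (NG D) (.w j none)))
      (vx K (NG D') (.w (ρ j) none)) := by
  have h1 : ∀ j : S, ∃ j' : S', Eqv K (NG D') (φ.f (vx K (NG D) (.w j none)))
      (vx K (NG D') (.w j' none)) := fun j => min_eqv c' (min_map φ (min_w j))
  have h2 : ∀ j : S', ∃ j' : S, Eqv K (NG D) (φ.g (vx K (NG D') (.w j none)))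
      (vx K (NG D) (.w j' none)) := fun j => min_eqv c (min_map φ.symm (min_w j))
  choose ρ hρ using h1
  choose σ hσ using h2
  exact ⟨⟨ρ, σ, min_inv φ hρ hσ, min_inv φ.symm hσ hρ⟩, hρ⟩

/-- the ideal is mapped to the ideal -/
theorem Isp_map (c : Ch K D) (c' : Ch K D') (φ : RI K (NG D) (NG D')) {x : U K (NG D)}
    (hx : x ∈ Isp K D) : φ.f x ∈ Isp K D' := by
  obtain ⟨ρ, hρ⟩ := exists_rho c c' φ
  have hw : ∀ j : S, φ.f (vx K (NG D) (.w j none)) ∈ Isp K D' := by
    intro j
    obtain ⟨a, ha, b, hb, h1, h2⟩ := hρ j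
    have h3 : a * vx K (NG D') (.w (ρ j) none) * b = φ.f (vx K (NG D) (.w j none)) := by
      calc a * vx K (NG D') (.w (ρ j) none) * b = (a * b) * (a * b) := by
            rw [← h2]; noncomm_ring
        _ = _ := by rw [h1, φ.f_idem (vx_mem _) (vx_vx _)]
    rw [← h3]
    exact Isp_mul_right (Isp_mul_left ha (w_mem_Isp _ none)) hb
  have key := Isp_eq hx
  have hL : ∀ x ∈ AddSubmonoid.closure {x : U K (NG D) | ∃ j, ∃ y ∈ L K (NG D), ∃ z ∈ L K (NG D),
      x = y * vx K (NG D) (.w j none) * z}, x ∈ L K (NG D) ∧ φ.f x ∈ Isp K D' := by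
    intro x hx
    induction hx using AddSubmonoid.closure_induction with
    | mem x h =>
      obtain ⟨j, y, hy, z, hz, rfl⟩ := h
      have h1 := (L K (NG D)).mul_mem hy (vx_mem (G := NG D) (.w j none))
      refine ⟨(L K (NG D)).mul_mem h1 hz, ?_⟩
      rw [φ.f_mul _ h1 z hz, φ.f_mul y hy _ (vx_mem _)]
      exact Isp_mul_right (Isp_mul_left (φ.f_mem y hy) (hw j)) (φ.f_mem z hz)
    | zero =>
      refine ⟨(L K (NG D)).zero_mem, ?_⟩
      rw [φ.f_zero]
      exact (Isp K D').zero_mem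
    | add x y _ _ h1 h2 =>
      refine ⟨(L K (NG D)).add_mem h1.1 h2.1, ?_⟩
      rw [φ.f_add x h1.1 y h2.1]
      exact (Isp K D').add_mem h1.2 h2.2
  exact (hL x key).2

theorem phi_one (φ : RI K (NG D) (NG D')) : φ.f (one K D) = one K D' := by
  have h1 : φ.f (one K D) * one K D' = one K D' := by
    have h2 : one K D' = φ.f (φ.g (one K D')) := (φ.fg _ one_mem).symm
    conv_lhs => rw [h2]
    rw [← φ.f_mul _ one_mem _ (φ.g_mem _ one_mem), one_mul' (φ.g_mem _ one_mem), ← h2]
  rw [← h1, mul_one' (φ.f_mem _ one_mem)]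

end Pool.Agent.Helper32.TP
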