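import Pool.Agent.Helper32.TP.Defs

/-! Spanning set and the ideal of the sinks. PIECE 2.

The relations: `z* z = v i none`, `z z* = v i none - ∑ f f*`, so `z^m z^n - z^(m+n)` is a
combination of `eps`. -/

set_option autoImplicit false
set_option linter.unusedSectionVars false

universe k a b

namespace Pool.Agent.Helper32.TP

open Pool.Agent.Helper32.LV

variable {C : Type a} {S : Type b} [Fintype C] [Fintype S] [DecidableEq C] [DecidableEq S]
  {K : Type k} [Field K] [StarRing K] {D : Dat C S}

/-! ### sources and targets -/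

theorem span_mul_zero {x y : U K (NG D)} {u u' : NV D} (hx : x * vx K (NG D) u = x)
    (hy : vx K (NG D) u' * y = y) (h : u ≠ u') : x * y = 0 := by
  rw [← hx, ← hy, mul_assoc, ← mul_assoc (vx K (NG D) u), vx_vx_of_ne h, zero_mul, mul_zero]

theorem span_src_mul {x y : U K (NG D)} {u : NV D} (hx : vx K (NG D) u * x = x) :
    vx K (NG D) u * (x * y) = x * y := by
  rw [← mul_assoc, hx]

theorem span_tgt_mul {x y : U K (NG D)} {u : NV D} (hy : y * vx K (NG D) u = y) :
    x * y * vx K (NG D) u = x * y := by
  rw [mul_assoc, hy]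

theorem span_star_src {x : U K (NG D)} {u : NV D} (hx : vx K (NG D) u * x = x) :
    star x * vx K (NG D) u = star x := by
  have := congrArg star hx
  rwa [star_mul, star_vx] at this

theorem span_star_tgt {x : U K (NG D)} {u : NV D} (hx : x * vx K (NG D) u = x) :
    vx K (NG D) u * star x = star x := by
  have := congrArg star hx
  rwa [star_mul, star_vx] at this

theorem span_vx_lk (i : C) (s : Option (Fin (D.a i))) :
    vx K (NG D) (.v i s) * lk K D i s = lk K D i s := by
  cases s with
  | none => exact vx_vx _
  | some s => exact vx_ed (G := NG D) (.g i s)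

theorem span_lk_vx (i : C) (s : Option (Fin (D.a i))) :
    lk K D i s * vx K (NG D) (.v i none) = lk K D i s := by
  cases s with
  | none => exact vx_vx _
  | some s => exact ed_vx (G := NG D) (.g i s)

theorem span_vx_lw (j : S) (r : Option (Fin (D.b j))) :
    vx K (NG D) (.w j r) * lw K D j r = lw K D j r := by
  cases r with
  | none => exact vx_vx _
  | some s => exact vx_ed (G := NG D) (.h j s)

theorem span_lw_vx (j : S) (r : Option (Fin (D.b j))) :
    lw K D j r * vx K (NG D) (.w j none) = lw K D j r := by
  cases r with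
  | none => exact vx_vx _
  | some s => exact ed_vx (G := NG D) (.h j s)

/-- the Cuntz-Krieger relation as a sum over a set of edges -/
theorem span_ck (u : NV D) (T : Finset (NE D)) (hT : ∀ e, e ∈ T ↔ (NG D).s e = u)
    (h0 : T.Nonempty) : vx K (NG D) u = ∑ e ∈ T, ed K (NG D) e * gh K (NG D) e := by
  classical
  have h1 : {e | (NG D).s e = u} = (T : Set (NE D)) := by
    ext e
    change (NG D).s e = u ↔ e ∈ T
    exact (hT e).symm
  have h2 : {e | (NG D).s e = u}.Finite := by
    rw [h1]
    exact T.finite_toSet
  have h3 : h2.toFinset = T := by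
    ext e
    rw [Set.Finite.mem_toFinset, hT]
    rfl
  obtain ⟨e, he⟩ := h0
  rw [vx_eq_sum u h2 ⟨e, (hT e).1 he⟩, h3]

theorem star_lk_mul_lk (i : C) (s t : Option (Fin (D.a i))) :
    star (lk K D i s) * lk K D i t = if s = t then vx K (NG D) (.v i none) else 0 := by
  by_cases h : s = t
  · subst h
    rw [if_pos rfl]
    cases s with
    | none =>
      change star (vx K (NG D) (.v i none)) * vx K (NG D) (.v i none) = _
      rw [star_vx, vx_vx]
    | some s =>
      change star (ed K (NG D) (.g i s)) * ed K (NG D) (.g i s) = _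
      rw [star_ed, gh_ed]
      rfl
  · rw [if_neg h]
    exact span_mul_zero (span_star_src (span_vx_lk i s)) (span_vx_lk i t) (by
      intro h1
      exact h (by injection h1))

theorem star_lk_mul_lk_ne {i i' : C} (h : i ≠ i') (s : Option (Fin (D.a i)))
    (t : Option (Fin (D.a i'))) : star (lk K D i s) * lk K D i' t = 0 :=
  span_mul_zero (span_star_src (span_vx_lk i s)) (span_vx_lk i' t) (by
    intro h1
    exact h (by injection h1))

theorem lk_mul_star (i : C) (s : Option (Fin (D.a i))) :
    lk K D i s * star (lk K D i s) = vx K (NG D) (.v i s) := by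
  cases s with
  | none =>
    change vx K (NG D) (.v i none) * star (vx K (NG D) (.v i none)) = _
    rw [star_vx, vx_vx]
  | some s =>
    change ed K (NG D) (.g i s) * star (ed K (NG D) (.g i s)) = _
    rw [star_ed, span_ck (K := K) (.v i (some s)) {.g i s} (by
      intro e
      rw [Finset.mem_singleton]
      constructor
      · rintro rfl
        rfl
      · intro h
        cases e with
        | z i' => cases h
        | f i' j k => cases h
        | g i' s' => cases h; rfl
        | h j r => cases h) ⟨_, Finset.mem_singleton_self _⟩, Finset.sum_singleton]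

theorem lw_mul_star (j : S) (r : Option (Fin (D.b j))) :
    lw K D j r * star (lw K D j r) = vx K (NG D) (.w j r) := by
  cases r with
  | none =>
    change vx K (NG D) (.w j none) * star (vx K (NG D) (.w j none)) = _
    rw [star_vx, vx_vx]
  | some s =>
    change ed K (NG D) (.h j s) * star (ed K (NG D) (.h j s)) = _
    rw [star_ed, span_ck (K := K) (.w j (some s)) {.h j s} (by
      intro e
      rw [Finset.mem_singleton]
      constructor
      · rintro rfl
        rfl
      · intro h
        cases e with
        | z i' => cases h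
        | f i' j k => cases h
        | g i' s' => cases h
        | h j' r => cases h; rfl) ⟨_, Finset.mem_singleton_self _⟩, Finset.sum_singleton]

theorem span_star_lw_mul_lw (j : S) (s t : Option (Fin (D.b j))) :
    star (lw K D j s) * lw K D j t = if s = t then vx K (NG D) (.w j none) else 0 := by
  by_cases h : s = t
  · subst h
    rw [if_pos rfl]
    cases s with
    | none =>
      change star (vx K (NG D) (.w j none)) * vx K (NG D) (.w j none) = _
      rw [star_vx, vx_vx]
    | some s =>
      change star (ed K (NG D) (.h j s)) * ed K (NG D) (.h j s) = _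
      rw [star_ed, gh_ed]
      rfl
  · rw [if_neg h]
    exact span_mul_zero (span_star_src (span_vx_lw j s)) (span_vx_lw j t) (by
      intro h1
      exact h (by injection h1))

/-- `v i none = z z* + ∑ f f*` -/
theorem v_eq (i : C) : vx K (NG D) (.v i none) =
    ed K (NG D) (.z i) * gh K (NG D) (.z i) +
      ∑ j, ∑ k, ed K (NG D) (.f i j k) * gh K (NG D) (.f i j k) := by
  classical
  let F : (Σ j, Fin (D.n i j)) → NE D := fun p => .f i p.1 p.2
  have hF : Function.Injective F := by
    rintro ⟨j, k⟩ ⟨j', k'⟩ h
    have h' : NE.f (D := D) i j k = NE.f i j' k' := h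
    cases h'
    rfl
  have hz : NE.z (D := D) i ∉ Finset.univ.image F := by
    intro h
    obtain ⟨p, -, hp⟩ := Finset.mem_image.1 h
    have hp' : NE.f (D := D) i p.1 p.2 = NE.z i := hp
    cases hp'
  rw [span_ck (K := K) (.v i none) (insert (NE.z i) (Finset.univ.image F)) (by
    intro e
    rw [Finset.mem_insert, Finset.mem_image]
    constructor
    · rintro (rfl | ⟨p, -, rfl⟩)
      · rfl
      · rfl
    · intro h
      cases e with
      | z i' => cases h; exact Or.inl rfl
      | f i' j k => cases h; exact Or.inr ⟨⟨j, k⟩, Finset.mem_univ _, rfl⟩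
      | g i' s' => cases h
      | h j' r => cases h) ⟨_, Finset.mem_insert_self _ _⟩,
    Finset.sum_insert hz, Finset.sum_image (fun x _ y _ h => hF h), Fintype.sum_sigma]

/-! ### paths -/

/-- the source of a path -/
def span_so {j : S} : XX D j → NV D
  | .c i s _ _ => .v i s
  | .w r => .w j r

theorem span_src_pth (j : S) (x : XX D j) :
    vx K (NG D) (span_so x) * pth K D j x = pth K D j x := by
  cases x with
  | c i s m k =>
    change vx K (NG D) (.v i s) * (_ * _ * _) = _ * _ * _
    rw [mul_assoc (lk K D i s), ← mul_assoc, span_vx_lk]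
  | w r => exact span_vx_lw j r

theorem span_tgt_pth (j : S) (x : XX D j) :
    pth K D j x * vx K (NG D) (.w j none) = pth K D j x := by
  cases x with
  | c i s m k =>
    exact span_tgt_mul (ed_vx (G := NG D) (.f i j k))
  | w r => exact span_lw_vx j r

theorem span_pth_none (j : S) (i : C) (m : ℕ) (k : Fin (D.n i j)) :
    pth K D j (.c i none m k) = ed K (NG D) (.z i) ^ m * ed K (NG D) (.f i j k) := by
  change vx K (NG D) (.v i none) * (vx K (NG D) (.v i none) * ed K (NG D) (.z i) ^ m) *
    ed K (NG D) (.f i j k) = _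
  have h1 : vx K (NG D) (.v i none) * ed K (NG D) (.z i) ^ m =
      ed K (NG D) (.z i) ^ m * vx K (NG D) (.v i none) :=
    ed_pow_vx (G := NG D) (e := .z i) rfl m
  have h2 : vx K (NG D) (.v i none) * ed K (NG D) (.f i j k) = ed K (NG D) (.f i j k) :=
    vx_ed (G := NG D) (.f i j k)
  rw [← mul_assoc, vx_vx, h1, mul_assoc, h2]

theorem span_pth_c (j : S) (i : C) (s : Option (Fin (D.a i))) (m : ℕ) (k : Fin (D.n i j)) :
    pth K D j (.c i s m k) = lk K D i s * pth K D j (.c i none m k) := by
  change lk K D i s * zp K (NG D) (.z i) m * ed K (NG D) (.f i j k) = lk K D i s *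
    (vx K (NG D) (.v i none) * zp K (NG D) (.z i) m * ed K (NG D) (.f i j k))
  have h1 := span_lk_vx (K := K) i s
  rw [← mul_assoc, ← mul_assoc, h1]

theorem span_gh_pow (i : C) (j : S) (m : ℕ) (k : Fin (D.n i j)) (hm : m ≠ 0) :
    gh K (NG D) (.z i) ^ m * ed K (NG D) (.f i j k) = 0 := by
  obtain ⟨n, rfl⟩ := Nat.exists_eq_succ_of_ne_zero hm
  rw [pow_succ, mul_assoc, gh_ed_of_ne (fun h => by cases h), mul_zero]

theorem span_gh_ed_pow (i : C) (n m : ℕ) (h : n ≤ m) :
    gh K (NG D) (.z i) ^ n * ed K (NG D) (.z i) ^ m * vx K (NG D) (.v i none) =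
      ed K (NG D) (.z i) ^ (m - n) * vx K (NG D) (.v i none) := by
  induction n generalizing m with
  | zero => simp
  | succ n ih =>
    obtain ⟨m, rfl⟩ : ∃ m', m = m' + 1 := ⟨m - 1, by omega⟩
    have h1 : gh K (NG D) (.z i) * ed K (NG D) (.z i) = vx K (NG D) (.v i none) :=
      gh_ed (G := NG D) (.z i)
    have h2 : vx K (NG D) (.v i none) * ed K (NG D) (.z i) ^ m =
      ed K (NG D) (.z i) ^ m * vx K (NG D) (.v i none) :=
      ed_pow_vx (G := NG D) (e := .z i) rfl m
    have h3 : gh K (NG D) (.z i) ^ (n + 1) * ed K (NG D) (.z i) ^ (m + 1) *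
        vx K (NG D) (.v i none) = gh K (NG D) (.z i) ^ n *
        ((gh K (NG D) (.z i) * ed K (NG D) (.z i)) * ed K (NG D) (.z i) ^ m) *
        vx K (NG D) (.v i none) := by
      rw [pow_succ, pow_succ' (ed K (NG D) (.z i))]
      simp only [mul_assoc]
    rw [h3, h1, h2, ← mul_assoc, mul_assoc _ _ (vx K (NG D) (.v i none)), vx_vx, ih m (by omega)]
    congr 2
    omega

theorem span_star_cc (i : C) (j j' : S) (m m' : ℕ) (k : Fin (D.n i j)) (k' : Fin (D.n i j')) :
    star (pth K D j (.c i none m k)) * pth K D j' (.c i none m' k') =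
      if m = m' then gh K (NG D) (.f i j k) * ed K (NG D) (.f i j' k') else 0 := by
  have key : ∀ (j j' : S) (m m' : ℕ) (k : Fin (D.n i j)) (k' : Fin (D.n i j')), m ≤ m' →
      star (pth K D j (.c i none m k)) * pth K D j' (.c i none m' k') =
      if m = m' then gh K (NG D) (.f i j k) * ed K (NG D) (.f i j' k') else 0 := by
    intro j j' m m' k k' h
    have h2 : vx K (NG D) (.v i none) * ed K (NG D) (.f i j' k') = ed K (NG D) (.f i j' k') :=
      vx_ed (G := NG D) (.f i j' k')
    rw [span_pth_none, span_pth_none, star_mul, star_pow, star_ed, star_ed]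
    have h3 : gh K (NG D) (.f i j k) * gh K (NG D) (.z i) ^ m *
        (ed K (NG D) (.z i) ^ m' * ed K (NG D) (.f i j' k')) =
        gh K (NG D) (.f i j k) * (gh K (NG D) (.z i) ^ m * ed K (NG D) (.z i) ^ m' *
          vx K (NG D) (.v i none)) * ed K (NG D) (.f i j' k') := by
      simp only [mul_assoc, h2]
    rw [h3, span_gh_ed_pow i m m' h]
    by_cases hm : m = m'
    · subst hm
      rw [if_pos rfl, Nat.sub_self, pow_zero, one_mul, mul_assoc, h2]
    · rw [if_neg hm]
      obtain ⟨n, hn⟩ : ∃ n, m' - m = n + 1 := ⟨m' - m - 1, by omega⟩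
      rw [hn, pow_succ', mul_assoc (ed K (NG D) (.z i)), ← mul_assoc (gh K (NG D) (.f i j k)),
        gh_ed_of_ne (fun h => by cases h), zero_mul, zero_mul]
  rcases le_total m m' with h | h
  · exact key j j' m m' k k' h
  · have h1 := congrArg star (key j' j m' m k' k h)
    rw [star_mul, star_star] at h1
    rw [h1]
    by_cases hm : m' = m
    · rw [if_pos hm, if_pos hm.symm, star_mul, star_ed, star_gh]
    · rw [if_neg hm, if_neg (fun h => hm h.symm), star_zero]

theorem span_so_ne {j j' : S} {x : XX D j} {y : XX D j'} (h : span_so x ≠ span_so y) :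
    star (pth K D j x) * pth K D j' y = 0 :=
  span_mul_zero (span_star_src (span_src_pth j x)) (span_src_pth j' y) h

theorem span_star_cc' (i : C) (s : Option (Fin (D.a i))) (j j' : S) (m m' : ℕ)
    (k : Fin (D.n i j)) (k' : Fin (D.n i j')) :
    star (pth K D j (.c i s m k)) * pth K D j' (.c i s m' k') =
      if m = m' then gh K (NG D) (.f i j k) * ed K (NG D) (.f i j' k') else 0 := by
  rw [span_pth_c j i s, span_pth_c j' i s, star_mul, mul_assoc, ← mul_assoc (star (lk K D i s)),
    star_lk_mul_lk, if_pos rfl]
  have h1 : vx K (NG D) (.v i none) * pth K D j' (.c i none m' k') =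
    pth K D j' (.c i none m' k') := span_src_pth j' (.c i none m' k')
  rw [h1, span_star_cc]

theorem star_pth_mul_pth (j : S) (x y : XX D j) [Decidable (x = y)] :
    star (pth K D j x) * pth K D j y = if x = y then vx K (NG D) (.w j none) else 0 := by
  by_cases hxy : x = y
  · rw [if_pos hxy]
    subst hxy
    cases x with
    | c i s m k =>
      rw [span_star_cc', if_pos rfl, gh_ed]
      rfl
    | w r =>
      change star (lw K D j r) * lw K D j r = _
      rw [span_star_lw_mul_lw, if_pos rfl]
  · rw [if_neg hxy]
    by_cases h : span_so x = span_so y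
    · cases x with
      | c i s m k =>
        cases y with
        | c i' s' m' k' =>
          have h' : NV.v (D := D) i s = NV.v i' s' := h
          cases h'
          rw [span_star_cc']
          by_cases hm : m = m'
          · subst hm
            rw [if_pos rfl, gh_ed_of_ne]
            intro h2
            apply hxy
            injection h2 with _ _ h3
            rw [h3]
          · rw [if_neg hm]
        | w r' =>
          have h' : NV.v (D := D) i s = NV.w j r' := h
          cases h'
      | w r =>
        cases y with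
        | c i' s' m' k' =>
          have h' : NV.w (D := D) j r = NV.v i' s' := h
          cases h'
        | w r' =>
          have h' : NV.w (D := D) j r = NV.w j r' := h
          exact absurd (by injection h' with _ h3; rw [h3]) hxy
    · exact span_so_ne h

theorem star_pth_mul_pth_ne {j j' : S} (h : j ≠ j') (x : XX D j) (y : XX D j') :
    star (pth K D j x) * pth K D j' y = 0 := by
  by_cases h1 : span_so x = span_so y
  · cases x with
    | c i s m k =>
      cases y with
      | c i' s' m' k' =>
        have h' : NV.v (D := D) i s = NV.v i' s' := h1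
        cases h'
        rw [span_star_cc']
        by_cases hm : m = m'
        · subst hm
          rw [if_pos rfl, gh_ed_of_ne]
          intro h2
          apply h
          injection h2
        · rw [if_neg hm]
      | w r' =>
        have h' : NV.v (D := D) i s = NV.w j' r' := h1
        cases h'
    | w r =>
      cases y with
      | c i' s' m' k' =>
        have h' : NV.w (D := D) j r = NV.v i' s' := h1
        cases h'
      | w r' =>
        have h' : NV.w (D := D) j r = NV.w j' r' := h1
        exact absurd (by injection h') h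
  · exact span_so_ne h1

/-! ### membership in `L` -/

theorem span_zp_mem (e : NE D) (m : ℤ) : zp K (NG D) e m ∈ L K (NG D) := by
  have h1 : ∀ n : ℕ, vx K (NG D) ((NG D).s e) * ed K (NG D) e ^ n ∈ L K (NG D) := by
    intro n
    induction n with
    | zero => rw [pow_zero, mul_one]; exact vx_mem _
    | succ n ih => rw [pow_succ, ← mul_assoc]; exact (L K (NG D)).mul_mem ih (ed_mem e)
  have h2 : ∀ n : ℕ, vx K (NG D) ((NG D).s e) * gh K (NG D) e ^ n ∈ L K (NG D) := by
    intro n
    induction n with
    | zero => rw [pow_zero, mul_one]; exact vx_mem _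
    | succ n ih => rw [pow_succ, ← mul_assoc]; exact (L K (NG D)).mul_mem ih (gh_mem e)
  rcases m with n | n
  · exact h1 n
  · exact h2 (n + 1)

theorem span_lk_mem (i : C) (s : Option (Fin (D.a i))) : lk K D i s ∈ L K (NG D) := by
  cases s with
  | none => exact vx_mem _
  | some s => exact ed_mem _

theorem span_lw_mem (j : S) (r : Option (Fin (D.b j))) : lw K D j r ∈ L K (NG D) := by
  cases r with
  | none => exact vx_mem _
  | some s => exact ed_mem _

theorem pth_mem (j : S) (x : XX D j) : pth K D j x ∈ L K (NG D) := by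
  cases x with
  | c i s m k =>
    exact (L K (NG D)).mul_mem ((L K (NG D)).mul_mem (span_lk_mem i s) (span_zp_mem _ _)) (ed_mem _)
  | w r => exact span_lw_mem j r

theorem mu_mem (i : C) (s t : Option (Fin (D.a i))) (m : ℤ) : mu K D i s t m ∈ L K (NG D) :=
  (L K (NG D)).mul_mem ((L K (NG D)).mul_mem (span_lk_mem i s) (span_zp_mem _ _))
    (star_mem_L (span_lk_mem i t))

theorem span_eps_mem (j : S) (x y : XX D j) : eps K D j x y ∈ L K (NG D) :=
  (L K (NG D)).mul_mem (pth_mem j x) (star_mem_L (pth_mem j y))

theorem Isp_le_L {x : U K (NG D)} (hx : x ∈ Isp K D) : x ∈ L K (NG D) := by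
  have h : Isp K D ≤ (L K (NG D)).toSubmodule := by
    refine Submodule.span_le.2 ?_
    rintro _ ⟨j, x, y, rfl⟩
    exact span_eps_mem j x y
  exact h hx

theorem one_mem : one K D ∈ L K (NG D) :=
  (L K (NG D)).add_mem ((L K (NG D)).sum_mem fun _ _ => (L K (NG D)).sum_mem fun _ _ => vx_mem _)
    ((L K (NG D)).sum_mem fun _ _ => (L K (NG D)).sum_mem fun _ _ => vx_mem _)

theorem star_one : star (one K D) = one K D := by
  unfold one
  rw [star_add, star_sum, star_sum]
  simp only [star_sum, star_vx]

theorem span_one_vx (u : NV D) : one K D * vx K (NG D) u = vx K (NG D) u := by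
  unfold one
  rw [add_mul, Finset.sum_mul, Finset.sum_mul]
  cases u with
  | v i s =>
    rw [Finset.sum_eq_single i, Finset.sum_mul, Finset.sum_eq_single s, vx_vx,
      Finset.sum_eq_zero, add_zero]
    · intro j _
      rw [Finset.sum_mul]
      exact Finset.sum_eq_zero fun r _ => vx_vx_of_ne (fun h => by cases h)
    · intro s' _ h
      exact vx_vx_of_ne (fun h' => h (by injection h'))
    · intro h
      exact absurd (Finset.mem_univ _) h
    · intro i' _ h
      rw [Finset.sum_mul]
      exact Finset.sum_eq_zero fun r _ => vx_vx_of_ne (fun h' => h (by injection h'))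
    · intro h
      exact absurd (Finset.mem_univ _) h
  | w j r =>
    rw [Finset.sum_eq_zero, zero_add, Finset.sum_eq_single j, Finset.sum_mul,
      Finset.sum_eq_single r, vx_vx]
    · intro s' _ h
      exact vx_vx_of_ne (fun h' => h (by injection h'))
    · intro h
      exact absurd (Finset.mem_univ _) h
    · intro i' _ h
      rw [Finset.sum_mul]
      exact Finset.sum_eq_zero fun r _ => vx_vx_of_ne (fun h' => h (by injection h'))
    · intro h
      exact absurd (Finset.mem_univ _) h
    · intro j _
      rw [Finset.sum_mul]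
      exact Finset.sum_eq_zero fun r _ => vx_vx_of_ne (fun h => by cases h)

theorem one_mul' {x : U K (NG D)} (hx : x ∈ L K (NG D)) : one K D * x = x := by
  refine L_ind (p := fun x => one K D * x = x) ?_ ?_ ?_ ?_ ?_ ?_ ?_ hx
  · exact span_one_vx
  · intro e
    rw [← vx_ed e, ← mul_assoc, span_one_vx]
  · intro e
    rw [← vx_gh e, ← mul_assoc, span_one_vx]
  · exact mul_zero _
  · intro x _ y _ h1 h2
    rw [mul_add, h1, h2]
  · intro x _ y _ h1 _
    rw [← mul_assoc, h1]
  · intro c x _ h
    rw [mul_smul_comm, h]

theorem mul_one' {x : U K (NG D)} (hx : x ∈ L K (NG D)) : x * one K D = x := by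
  have h1 := congrArg star (one_mul' (star_mem_L hx))
  rwa [star_mul, star_star, star_one] at h1

/-! ### left multiplication by the generators -/

theorem span_gen_zero {g : U K (NG D)} {u : NV D} (hg : g * vx K (NG D) u = g) {j : S}
    {x : XX D j} (h : u ≠ span_so x) : g * pth K D j x = 0 :=
  span_mul_zero hg (span_src_pth j x) h

theorem span_gen_pth (g : Gen (NV D) (NE D)) (j : S) (x : XX D j) :
    gen K (NG D) g * pth K D j x = 0 ∨ ∃ y, gen K (NG D) g * pth K D j x = pth K D j y := by
  cases g with
  | vert u =>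
    change vx K (NG D) u * _ = 0 ∨ ∃ y, vx K (NG D) u * _ = _
    by_cases h : u = span_so x
    · subst h
      exact Or.inr ⟨x, span_src_pth j x⟩
    · exact Or.inl (span_gen_zero (vx_vx u) h)
  | edge e =>
    change ed K (NG D) e * _ = 0 ∨ ∃ y, ed K (NG D) e * _ = _
    by_cases h : (NG D).r e = span_so x
    · right
      cases e with
      | z i' =>
        cases x with
        | c i s m k =>
          have h' : NV.v (D := D) i' none = NV.v i s := h
          cases h'
          refine ⟨.c i' none (m + 1) k, ?_⟩
          rw [span_pth_none, span_pth_none, pow_succ', mul_assoc]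
        | w r =>
          have h' : NV.v (D := D) i' none = NV.w j r := h
          cases h'
      | f i' j' k' =>
        cases x with
        | c i s m k =>
          have h' : NV.w (D := D) j' none = NV.v i s := h
          cases h'
        | w r =>
          have h' : NV.w (D := D) j' none = NV.w j r := h
          cases h'
          refine ⟨.c i' none 0 k', ?_⟩
          rw [span_pth_none, pow_zero, one_mul]
          exact ed_vx (G := NG D) (.f i' j k')
      | g i' s' =>
        cases x with
        | c i s m k =>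
          have h' : NV.v (D := D) i' none = NV.v i s := h
          cases h'
          refine ⟨.c i' (some s') m k, ?_⟩
          rw [span_pth_c j i' (some s')]
          rfl
        | w r =>
          have h' : NV.v (D := D) i' none = NV.w j r := h
          cases h'
      | h j' r' =>
        cases x with
        | c i s m k =>
          have h' : NV.w (D := D) j' none = NV.v i s := h
          cases h'
        | w r =>
          have h' : NV.w (D := D) j' none = NV.w j r := h
          cases h'
          refine ⟨.w (some r'), ?_⟩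
          exact ed_vx (G := NG D) (.h j r')
    · exact Or.inl (span_gen_zero (ed_vx e) h)
  | ghost e =>
    change gh K (NG D) e * _ = 0 ∨ ∃ y, gh K (NG D) e * _ = _
    by_cases h : (NG D).s e = span_so x
    · cases e with
      | z i' =>
        cases x with
        | c i s m k =>
          have h' : NV.v (D := D) i' none = NV.v i s := h
          cases h'
          rw [span_pth_none]
          cases m with
          | zero =>
            left
            rw [pow_zero, one_mul, gh_ed_of_ne (fun h => by cases h)]
          | succ m =>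
            right
            refine ⟨.c i' none m k, ?_⟩
            have h1 : gh K (NG D) (.z i') * ed K (NG D) (.z i') = vx K (NG D) (.v i' none) :=
              gh_ed (G := NG D) (.z i')
            have h2 := span_src_pth (K := K) j (.c i' none m k)
            change vx K (NG D) (.v i' none) * _ = _ at h2
            rw [pow_succ', mul_assoc, ← mul_assoc, h1, ← span_pth_none, h2]
        | w r =>
          have h' : NV.v (D := D) i' none = NV.w j r := h
          cases h'
      | f i' j' k' =>
        cases x with
        | c i s m k =>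
          have h' : NV.v (D := D) i' none = NV.v i s := h
          cases h'
          rw [span_pth_none]
          cases m with
          | zero =>
            rw [pow_zero, one_mul]
            by_cases h1 : NE.f (D := D) i' j' k' = NE.f i' j k
            · right
              refine ⟨.w none, ?_⟩
              rw [h1]
              exact gh_ed (G := NG D) (.f i' j k)
            · exact Or.inl (gh_ed_of_ne h1)
          | succ m =>
            left
            rw [pow_succ', mul_assoc, ← mul_assoc, gh_ed_of_ne (fun h => by cases h), zero_mul]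
        | w r =>
          have h' : NV.v (D := D) i' none = NV.w j r := h
          cases h'
      | g i' s' =>
        cases x with
        | c i s m k =>
          have h' : NV.v (D := D) i' (some s') = NV.v i s := h
          cases h'
          right
          refine ⟨.c i' none m k, ?_⟩
          have h1 : gh K (NG D) (.g i' s') * ed K (NG D) (.g i' s') = vx K (NG D) (.v i' none) :=
            gh_ed (G := NG D) (.g i' s')
          have h2 := span_src_pth (K := K) j (.c i' none m k)
          change vx K (NG D) (.v i' none) * _ = _ at h2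
          rw [span_pth_c j i' (some s')]
          change gh K (NG D) (.g i' s') * (ed K (NG D) (.g i' s') * _) = _
          rw [← mul_assoc, h1, h2]
        | w r =>
          have h' : NV.v (D := D) i' (some s') = NV.w j r := h
          cases h'
      | h j' r' =>
        cases x with
        | c i s m k =>
          have h' : NV.w (D := D) j' (some r') = NV.v i s := h
          cases h'
        | w r =>
          have h' : NV.w (D := D) j' (some r') = NV.w j r := h
          cases h'
          right
          refine ⟨.w none, ?_⟩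
          exact gh_ed (G := NG D) (.h j r')
    · exact Or.inl (span_gen_zero (gh_vx e) h)

theorem span_gen_eps (g : Gen (NV D) (NE D)) (j : S) (x y : XX D j) :
    gen K (NG D) g * eps K D j x y ∈ Isp K D := by
  change gen K (NG D) g * (_ * _) ∈ _
  rw [← mul_assoc]
  rcases span_gen_pth (K := K) g j x with h | ⟨x', h⟩
  · rw [h, zero_mul]
    exact (Isp K D).zero_mem
  · rw [h]
    exact Submodule.subset_span ⟨j, x', y, rfl⟩

/-- the span of the `eps` and the `mu` -/
noncomputable def span_M (K : Type k) [Field K] [StarRing K] (D : Dat C S) :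
    Submodule K (U K (NG D)) :=
  Isp K D ⊔ Submodule.span K {x | ∃ i s t m, x = mu K D i s t m}

theorem span_mem_M_eps {x : U K (NG D)} (hx : x ∈ Isp K D) : x ∈ span_M K D :=
  Submodule.mem_sup_left hx

theorem span_eps_Isp (j : S) (x y : XX D j) : eps K D j x y ∈ Isp K D :=
  Submodule.subset_span ⟨j, x, y, rfl⟩

theorem span_mem_M_mu (i : C) (s t : Option (Fin (D.a i))) (m : ℤ) :
    mu K D i s t m ∈ span_M K D :=
  Submodule.mem_sup_right (Submodule.subset_span ⟨i, s, t, m, rfl⟩)

theorem span_src_mu (i : C) (s t : Option (Fin (D.a i))) (m : ℤ) :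
    vx K (NG D) (.v i s) * mu K D i s t m = mu K D i s t m := by
  change _ * (_ * _ * _) = _ * _ * _
  rw [mul_assoc (lk K D i s), ← mul_assoc, span_vx_lk]

theorem span_mu_none (i : C) (t : Option (Fin (D.a i))) (m : ℤ) :
    mu K D i none t m = zp K (NG D) (.z i) m * star (lk K D i t) := by
  have h1 : vx K (NG D) (.v i none) * zp K (NG D) (.z i) m = zp K (NG D) (.z i) m :=
    vx_mul_zp (G := NG D) (.z i) m
  change vx K (NG D) (.v i none) * _ * _ = _
  rw [h1]

theorem span_mu_some (i : C) (s t : Option (Fin (D.a i))) (m : ℤ) :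
    mu K D i s t m = lk K D i s * mu K D i none t m := by
  rw [span_mu_none, ← mul_assoc]
  rfl

theorem span_zp_nat (i : C) (n : ℕ) : zp K (NG D) (.z i) n = ed K (NG D) (.z i) ^ n *
    vx K (NG D) (.v i none) := by
  rw [zp_nat]
  exact ed_pow_vx (G := NG D) (e := .z i) rfl n

theorem span_zp_neg (i : C) (n : ℕ) : zp K (NG D) (.z i) (-(n : ℤ)) = gh K (NG D) (.z i) ^ n *
    vx K (NG D) (.v i none) := by
  rw [zp_neg_nat]
  exact gh_pow_vx (G := NG D) (e := .z i) rfl n

theorem span_star_pth (j : S) (i : C) (t : Option (Fin (D.a i))) (n : ℕ) (k : Fin (D.n i j)) :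
    star (pth K D j (.c i t n k)) = gh K (NG D) (.f i j k) * (gh K (NG D) (.z i) ^ n *
      vx K (NG D) (.v i none)) * star (lk K D i t) := by
  rw [span_pth_c, star_mul, span_pth_none, star_mul, star_pow, star_ed, star_ed]
  have h1 : vx K (NG D) (.v i none) * star (lk K D i t) = star (lk K D i t) :=
    span_star_tgt (span_lk_vx i t)
  simp only [mul_assoc, h1]

theorem span_pth_zero (j : S) (i : C) (k : Fin (D.n i j)) :
    pth K D j (.c i none 0 k) = ed K (NG D) (.f i j k) := by
  rw [span_pth_none, pow_zero, one_mul]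

/-- `z z*^(n+1) = z*^n - ∑ f f* z*^n` -/
theorem span_z_mu (i : C) (t : Option (Fin (D.a i))) (n : ℕ) :
    ed K (NG D) (.z i) * mu K D i none t (-((n + 1 : ℕ) : ℤ)) = mu K D i none t (-(n : ℤ)) -
      ∑ j, ∑ k, eps K D j (.c i none 0 k) (.c i t n k) := by
  have h1 : ∀ j k, eps K D j (.c i none 0 k) (.c i t n k) = ed K (NG D) (.f i j k) *
      gh K (NG D) (.f i j k) * ((gh K (NG D) (.z i) ^ n *
      vx K (NG D) (.v i none)) * star (lk K D i t)) := by
    intro j k
    change pth K D j _ * star (pth K D j _) = _
    rw [span_pth_zero, span_star_pth]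
    simp only [mul_assoc]
  simp only [h1, ← Finset.sum_mul]
  rw [span_mu_none, span_mu_none, span_zp_neg, span_zp_neg]
  have h2 : ed K (NG D) (.z i) * gh K (NG D) (.z i) = vx K (NG D) (.v i none) -
      ∑ j, ∑ k, ed K (NG D) (.f i j k) * gh K (NG D) (.f i j k) := by
    rw [v_eq i, add_sub_cancel_right]
  have h3 : vx K (NG D) (.v i none) * gh K (NG D) (.z i) ^ n = gh K (NG D) (.z i) ^ n *
    vx K (NG D) (.v i none) := gh_pow_vx (G := NG D) (e := .z i) rfl n
  have h4 : ed K (NG D) (.z i) * (gh K (NG D) (.z i) ^ (n + 1) * vx K (NG D) (.v i none) *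
      star (lk K D i t)) = (ed K (NG D) (.z i) * gh K (NG D) (.z i)) * (gh K (NG D) (.z i) ^ n *
      vx K (NG D) (.v i none) * star (lk K D i t)) := by
    rw [pow_succ']
    simp only [mul_assoc]
  have h5 : vx K (NG D) (.v i none) * (gh K (NG D) (.z i) ^ n *
      vx K (NG D) (.v i none) * star (lk K D i t)) = gh K (NG D) (.z i) ^ n *
      vx K (NG D) (.v i none) * star (lk K D i t) := by
    rw [← mul_assoc, ← mul_assoc, h3, mul_assoc (gh K (NG D) (.z i) ^ n), vx_vx]
  rw [h4, h2, sub_mul, h5]

theorem span_z_mu' (i : C) (t : Option (Fin (D.a i))) (n : ℕ) :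
    ed K (NG D) (.z i) * mu K D i none t n = mu K D i none t ((n + 1 : ℕ) : ℤ) := by
  rw [span_mu_none, span_mu_none, span_zp_nat, span_zp_nat, pow_succ']
  simp only [mul_assoc]

theorem span_gz_mu (i : C) (t : Option (Fin (D.a i))) (m : ℤ) :
    gh K (NG D) (.z i) * mu K D i none t m = mu K D i none t (m - 1) := by
  rw [span_mu_none, span_mu_none, ← mul_assoc]
  congr 1
  rcases m with n | n
  · cases n with
    | zero =>
      have h1 : (Int.ofNat 0 - 1 : ℤ) = -((1 : ℕ) : ℤ) := rfl
      have h2 := span_zp_nat (K := K) (D := D) i 0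
      rw [h1, span_zp_neg, pow_one]
      change _ * zp K (NG D) (.z i) ((0 : ℕ) : ℤ) = _
      rw [h2, pow_zero, one_mul]
    | succ n =>
      have h1 : (Int.ofNat (n + 1) - 1 : ℤ) = (n : ℤ) := by
        have : Int.ofNat (n + 1) = ((n + 1 : ℕ) : ℤ) := rfl
        rw [this]
        push_cast
        ring
      have h2 := span_zp_nat (K := K) (D := D) i (n + 1)
      have h3 : gh K (NG D) (.z i) * ed K (NG D) (.z i) = vx K (NG D) (.v i none) :=
        gh_ed (G := NG D) (.z i)
      have h4 : vx K (NG D) (.v i none) * ed K (NG D) (.z i) ^ n = ed K (NG D) (.z i) ^ n *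
        vx K (NG D) (.v i none) := ed_pow_vx (G := NG D) (e := .z i) rfl n
      rw [h1, span_zp_nat]
      change _ * zp K (NG D) (.z i) ((n + 1 : ℕ) : ℤ) = _
      rw [h2, pow_succ', ← mul_assoc, ← mul_assoc, h3, h4, mul_assoc, vx_vx]
  · have h1 : (Int.negSucc n - 1 : ℤ) = -((n + 1 + 1 : ℕ) : ℤ) := by
      rw [Int.negSucc_eq]
      push_cast
      ring
    have h2 : (Int.negSucc n : ℤ) = -((n + 1 : ℕ) : ℤ) := rfl
    rw [h1, h2, span_zp_neg, span_zp_neg, pow_succ' _ (n + 1), mul_assoc]

theorem span_gf_mu (i : C) (j : S) (k : Fin (D.n i j)) (t : Option (Fin (D.a i))) (m : ℤ) :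
    gh K (NG D) (.f i j k) * mu K D i none t m ∈ Isp K D := by
  have h0 : ∀ n : ℕ, gh K (NG D) (.f i j k) * mu K D i none t (-(n : ℤ)) =
      eps K D j (.w none) (.c i t n k) := by
    intro n
    change _ = vx K (NG D) (.w j none) * star (pth K D j (.c i t n k))
    have h1 : vx K (NG D) (.w j none) * gh K (NG D) (.f i j k) = gh K (NG D) (.f i j k) :=
      vx_gh (G := NG D) (.f i j k)
    rw [span_mu_none, span_zp_neg, span_star_pth]
    simp only [← mul_assoc, h1]
  rcases m with n | n
  · cases n with
    | zero =>
      have := h0 0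
      change _ * mu K D i none t (-((0 : ℕ) : ℤ)) ∈ _
      rw [this]
      exact span_eps_Isp _ _ _
    | succ n =>
      change _ * mu K D i none t ((n + 1 : ℕ) : ℤ) ∈ _
      rw [← span_z_mu', ← mul_assoc, gh_ed_of_ne (fun h => by cases h), zero_mul]
      exact (Isp K D).zero_mem
  · have := h0 (n + 1)
    change _ * mu K D i none t (-((n + 1 : ℕ) : ℤ)) ∈ _
    rw [this]
    exact span_eps_Isp _ _ _

theorem span_gen_mu (g : Gen (NV D) (NE D)) (i : C) (s t : Option (Fin (D.a i))) (m : ℤ) :
    gen K (NG D) g * mu K D i s t m ∈ span_M K D := by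
  have h0 : ∀ {x : U K (NG D)} {u : NV D}, x * vx K (NG D) u = x → u ≠ .v i s →
      x * mu K D i s t m ∈ span_M K D := by
    intro x u hx h
    rw [span_mul_zero hx (span_src_mu i s t m) h]
    exact (span_M K D).zero_mem
  cases g with
  | vert u =>
    change vx K (NG D) u * _ ∈ _
    by_cases h : u = .v i s
    · subst h
      rw [span_src_mu]
      exact span_mem_M_mu _ _ _ _
    · exact h0 (vx_vx u) h
  | edge e =>
    change ed K (NG D) e * _ ∈ _
    by_cases h : (NG D).r e = .v i s
    · cases e with
      | z i' =>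
        have h' : NV.v (D := D) i' none = NV.v i s := h
        cases h'
        rcases m with n | n
        · change _ * mu K D i none t (n : ℤ) ∈ _
          rw [span_z_mu']
          exact span_mem_M_mu _ _ _ _
        · change _ * mu K D i none t (-((n + 1 : ℕ) : ℤ)) ∈ _
          rw [span_z_mu]
          refine (span_M K D).sub_mem (span_mem_M_mu _ _ _ _) (span_mem_M_eps ?_)
          exact (Isp K D).sum_mem fun j _ => (Isp K D).sum_mem fun k _ => span_eps_Isp _ _ _
      | f i' j' k' =>
        have h' : NV.w (D := D) j' none = NV.v i s := h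
        cases h'
      | g i' s' =>
        have h' : NV.v (D := D) i' none = NV.v i s := h
        cases h'
        change lk K D i (some s') * _ ∈ _
        rw [← span_mu_some]
        exact span_mem_M_mu _ _ _ _
      | h j' r' =>
        have h' : NV.w (D := D) j' none = NV.v i s := h
        cases h'
    · exact h0 (ed_vx e) h
  | ghost e =>
    change gh K (NG D) e * _ ∈ _
    by_cases h : (NG D).s e = .v i s
    · cases e with
      | z i' =>
        have h' : NV.v (D := D) i' none = NV.v i s := h
        cases h'
        rw [span_gz_mu]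
        exact span_mem_M_mu _ _ _ _
      | f i' j' k' =>
        have h' : NV.v (D := D) i' none = NV.v i s := h
        cases h'
        exact span_mem_M_eps (span_gf_mu i j' k' t m)
      | g i' s' =>
        have h' : NV.v (D := D) i' (some s') = NV.v i s := h
        cases h'
        have h1 : gh K (NG D) (.g i s') * ed K (NG D) (.g i s') = vx K (NG D) (.v i none) :=
          gh_ed (G := NG D) (.g i s')
        rw [span_mu_some]
        change gh K (NG D) (.g i s') * (ed K (NG D) (.g i s') * _) ∈ _
        rw [← mul_assoc, h1, span_src_mu]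
        exact span_mem_M_mu _ _ _ _
      | h j' r' =>
        have h' : NV.w (D := D) j' (some r') = NV.v i s := h
        cases h'
    · exact h0 (gh_vx e) h

/-- a subspace stable under left multiplication by the generators -/
theorem span_left {P : Submodule K (U K (NG D))}
    (hP : ∀ g : Gen (NV D) (NE D), ∀ y ∈ P, gen K (NG D) g * y ∈ P) {x : U K (NG D)}
    (hx : x ∈ L K (NG D)) : ∀ y ∈ P, x * y ∈ P := by
  refine L_ind (p := fun x => ∀ y ∈ P, x * y ∈ P) ?_ ?_ ?_ ?_ ?_ ?_ ?_ hx
  · intro v
    exact hP (.vert v)
  · intro e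
    exact hP (.edge e)
  · intro e
    exact hP (.ghost e)
  · intro y _
    rw [zero_mul]
    exact P.zero_mem
  · intro x _ x' _ h1 h2 y hy
    rw [add_mul]
    exact P.add_mem (h1 y hy) (h2 y hy)
  · intro x _ x' _ h1 h2 y hy
    rw [mul_assoc]
    exact h1 _ (h2 y hy)
  · intro c x _ h y hy
    rw [smul_mul_assoc]
    exact P.smul_mem c (h y hy)

theorem span_gen_Isp (g : Gen (NV D) (NE D)) (y : U K (NG D)) (hy : y ∈ Isp K D) :
    gen K (NG D) g * y ∈ Isp K D := by
  unfold Isp at hy
  induction hy using Submodule.span_induction with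
  | mem x h =>
    obtain ⟨j, x₁, x₂, rfl⟩ := h
    exact span_gen_eps g j x₁ x₂
  | zero =>
    rw [mul_zero]
    exact (Isp K D).zero_mem
  | add x y _ _ h1 h2 =>
    rw [mul_add]
    exact (Isp K D).add_mem h1 h2
  | smul c x _ h =>
    rw [mul_smul_comm]
    exact (Isp K D).smul_mem c h

theorem Isp_mul_left {x y : U K (NG D)} (hx : x ∈ L K (NG D)) (hy : y ∈ Isp K D) :
    x * y ∈ Isp K D :=
  span_left (fun g y hy => span_gen_Isp g y hy) hx y hy

theorem span_gen_M (g : Gen (NV D) (NE D)) (y : U K (NG D)) (hy : y ∈ span_M K D) :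
    gen K (NG D) g * y ∈ span_M K D := by
  obtain ⟨y₁, h1, y₂, h2, rfl⟩ := Submodule.mem_sup.1 hy
  rw [mul_add]
  refine (span_M K D).add_mem (span_mem_M_eps (span_gen_Isp g y₁ h1)) ?_
  clear hy
  induction h2 using Submodule.span_induction with
  | mem x h =>
    obtain ⟨i, s, t, m, rfl⟩ := h
    exact span_gen_mu g i s t m
  | zero =>
    rw [mul_zero]
    exact (span_M K D).zero_mem
  | add x y _ _ h1 h2 =>
    rw [mul_add]
    exact (span_M K D).add_mem h1 h2
  | smul c x _ h =>
    rw [mul_smul_comm]
    exact (span_M K D).smul_mem c h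

theorem w_mem_Isp (j : S) (r : Option (Fin (D.b j))) : vx K (NG D) (.w j r) ∈ Isp K D := by
  rw [← lw_mul_star]
  exact span_eps_Isp j (.w r) (.w r)

theorem span_v_mu (i : C) (s : Option (Fin (D.a i))) :
    vx K (NG D) (.v i s) = mu K D i s s 0 := by
  have h1 : zp K (NG D) (.z i) 0 = vx K (NG D) (.v i none) := zp_zero (G := NG D) (.z i)
  change _ = lk K D i s * zp K (NG D) (.z i) 0 * star (lk K D i s)
  rw [h1, span_lk_vx, lk_mul_star]

theorem span_one_mem_M : one K D ∈ span_M K D := by
  refine (span_M K D).add_mem ((span_M K D).sum_mem fun i _ => (span_M K D).sum_mem fun s _ => ?_)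
    (span_mem_M_eps ((Isp K D).sum_mem fun j _ => (Isp K D).sum_mem fun r _ => w_mem_Isp j r))
  rw [span_v_mu]
  exact span_mem_M_mu _ _ _ _

/-- spanning set -/
theorem L_span {x : U K (NG D)} (hx : x ∈ L K (NG D)) :
    x ∈ Isp K D ⊔ Submodule.span K {x | ∃ i s t m, x = mu K D i s t m} := by
  have h := span_left (P := span_M K D) (fun g y hy => span_gen_M g y hy) hx _ span_one_mem_M
  rwa [mul_one' hx] at h

theorem span_star_Isp {x : U K (NG D)} (hx : x ∈ Isp K D) : star x ∈ Isp K D := by
  unfold Isp at hx
  induction hx using Submodule.span_induction with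
  | mem x h =>
    obtain ⟨j, x₁, x₂, rfl⟩ := h
    change star (_ * _) ∈ _
    rw [star_mul, star_star]
    exact span_eps_Isp j x₂ x₁
  | zero =>
    rw [star_zero]
    exact (Isp K D).zero_mem
  | add x y _ _ h1 h2 =>
    rw [star_add]
    exact (Isp K D).add_mem h1 h2
  | smul c x _ h =>
    rw [star_smul]
    exact (Isp K D).smul_mem _ h

theorem Isp_mul_right {x y : U K (NG D)} (hx : x ∈ Isp K D) (hy : y ∈ L K (NG D)) :
    x * y ∈ Isp K D := by
  have h1 := span_star_Isp (Isp_mul_left (star_mem_L hy) (span_star_Isp hx))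
  rwa [star_mul, star_star, star_star] at h1

/-- the ideal generated by the sinks -/
theorem Isp_eq {x : U K (NG D)} (hx : x ∈ Isp K D) :
    x ∈ AddSubmonoid.closure {x : U K (NG D) | ∃ j, ∃ y ∈ L K (NG D), ∃ z ∈ L K (NG D),
      x = y * vx K (NG D) (.w j none) * z} := by
  have key : ∀ c : K, c • x ∈ AddSubmonoid.closure {x : U K (NG D) | ∃ j, ∃ y ∈ L K (NG D),
      ∃ z ∈ L K (NG D), x = y * vx K (NG D) (.w j none) * z} := by
    unfold Isp at hx
    induction hx using Submodule.span_induction with
    | mem x h =>
      obtain ⟨j, x₁, x₂, rfl⟩ := h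
      intro c
      refine AddSubmonoid.subset_closure ⟨j, c • pth K D j x₁, (L K (NG D)).smul_mem c
        (pth_mem j x₁), star (pth K D j x₂), star_mem_L (pth_mem j x₂), ?_⟩
      rw [smul_mul_assoc, span_tgt_pth, smul_mul_assoc]
      rfl
    | zero =>
      intro c
      rw [smul_zero]
      exact AddSubmonoid.zero_mem _
    | add x y _ _ h1 h2 =>
      intro c
      rw [smul_add]
      exact AddSubmonoid.add_mem _ (h1 c) (h2 c)
    | smul c x _ h =>
      intro c'
      rw [smul_smul]
      exact h _
  have := key 1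
  rwa [one_smul] at this

theorem span_corner (j : S) (x₁ x₂ y₁ y₂ : XX D j) [Decidable (x₁ = y₁)] [Decidable (x₂ = y₂)] :
    star (pth K D j x₁) * eps K D j y₁ y₂ * pth K D j x₂ =
      if x₁ = y₁ ∧ x₂ = y₂ then vx K (NG D) (.w j none) else 0 := by
  classical
  change star (pth K D j x₁) * (pth K D j y₁ * star (pth K D j y₂)) * pth K D j x₂ = _
  have h1 : star (pth K D j x₁) * (pth K D j y₁ * star (pth K D j y₂)) * pth K D j x₂ =
      (star (pth K D j x₁) * pth K D j y₁) * (star (pth K D j y₂) * pth K D j x₂) := by
    simp only [mul_assoc]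
  rw [h1, star_pth_mul_pth, star_pth_mul_pth]
  by_cases ha : x₁ = y₁
  · by_cases hb : x₂ = y₂
    · rw [if_pos ha, if_pos hb.symm, if_pos ⟨ha, hb⟩, vx_vx]
    · rw [if_neg (show ¬ y₂ = x₂ from fun h => hb h.symm),
        if_neg (show ¬ (x₁ = y₁ ∧ x₂ = y₂) from fun h => hb h.2), mul_zero]
  · rw [if_neg ha, if_neg (show ¬ (x₁ = y₁ ∧ x₂ = y₂) from fun h => ha h.1), zero_mul]

theorem span_corner_ne {j j' : S} (h : j ≠ j') (x₁ x₂ : XX D j) (y₁ y₂ : XX D j') :
    star (pth K D j x₁) * eps K D j' y₁ y₂ * pth K D j x₂ = 0 := by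
  change star (pth K D j x₁) * (pth K D j' y₁ * star (pth K D j' y₂)) * pth K D j x₂ = _
  rw [← mul_assoc, star_pth_mul_pth_ne h, zero_mul, zero_mul]

/-- coefficients in the ideal -/
theorem Isp_coeff {x : U K (NG D)} (hx : x ∈ Isp K D) (h0 : x ≠ 0) :
    ∃ j x₁ x₂, ∃ c : K, c ≠ 0 ∧
      star (pth K D j x₁) * x * pth K D j x₂ = c • vx K (NG D) (.w j none) := by
  classical
  let F : (Σ j, XX D j × XX D j) → U K (NG D) := fun p => eps K D p.1 p.2.1 p.2.2
  have h1 : x ∈ Submodule.span K (Set.range F) := by
    refine Submodule.span_mono ?_ hx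
    rintro _ ⟨j, x₁, x₂, rfl⟩
    exact ⟨⟨j, x₁, x₂⟩, rfl⟩
  obtain ⟨c, hc⟩ := Finsupp.mem_span_range_iff_exists_finsupp.1 h1
  have h2 : c ≠ 0 := by
    rintro rfl
    apply h0
    rw [← hc, Finsupp.sum_zero_index]
  obtain ⟨⟨j, x₁, x₂⟩, hp⟩ := Finsupp.support_nonempty_iff.2 h2
  refine ⟨j, x₁, x₂, c ⟨j, x₁, x₂⟩, Finsupp.mem_support_iff.1 hp, ?_⟩
  rw [← hc, Finsupp.sum, Finset.mul_sum, Finset.sum_mul, Finset.sum_eq_single ⟨j, x₁, x₂⟩]
  · rw [mul_smul_comm, smul_mul_assoc]
    change _ • (star (pth K D j x₁) * eps K D j x₁ x₂ * pth K D j x₂) = _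
    rw [span_corner, if_pos ⟨rfl, rfl⟩]
  · rintro ⟨j', y₁, y₂⟩ _ hne
    rw [mul_smul_comm, smul_mul_assoc]
    change _ • (star (pth K D j x₁) * eps K D j' y₁ y₂ * pth K D j x₂) = _
    by_cases hj : j = j'
    · subst hj
      rw [span_corner, if_neg, smul_zero]
      rintro ⟨rfl, rfl⟩
      exact hne rfl
    · rw [span_corner_ne hj, smul_zero]
  · intro h
    exact absurd hp h

/-- induction over the spanning set -/
theorem span_ind {p : U K (NG D) → Prop} (he : ∀ j x y, p (eps K D j x y))
    (hm : ∀ i s t m, p (mu K D i s t m)) (h0 : p 0) (ha : ∀ x y, p x → p y → p (x + y))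
    (hc : ∀ (c : K) x, p x → p (c • x)) {x : U K (NG D)} (hx : x ∈ L K (NG D)) : p x := by
  obtain ⟨y, hy, z, hz, rfl⟩ := Submodule.mem_sup.1 (L_span hx)
  refine ha _ _ ?_ ?_
  · clear hx
    unfold Isp at hy
    induction hy using Submodule.span_induction with
    | mem x h =>
      obtain ⟨j, x₁, x₂, rfl⟩ := h
      exact he _ _ _
    | zero => exact h0
    | add x y _ _ h1 h2 => exact ha _ _ h1 h2
    | smul c x _ h => exact hc _ _ h
  · clear hx
    induction hz using Submodule.span_induction with
    | mem x h =>
      obtain ⟨i, s, t, m, rfl⟩ := h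
      exact hm _ _ _ _
    | zero => exact h0
    | add x y _ _ h1 h2 => exact ha _ _ h1 h2
    | smul c x _ h => exact hc _ _ h

theorem span_star_w (j : S) : vx K (NG D) (.w j none) = star (pth K D j (.w none)) := by
  change _ = star (vx K (NG D) (.w j none))
  rw [star_vx]

theorem span_pth_w (j : S) : vx K (NG D) (.w j none) = pth K D j (.w none) := rfl

theorem span_w_mu (j : S) (r : Option (Fin (D.b j))) (i : C) (s t : Option (Fin (D.a i)))
    (m : ℤ) : vx K (NG D) (.w j r) * mu K D i s t m = 0 :=
  span_mul_zero (vx_vx _) (span_src_mu i s t m) (fun h => by cases h)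

theorem w_corner (j : S) {x : U K (NG D)} (hx : x ∈ L K (NG D)) :
    ∃ c : K, vx K (NG D) (.w j none) * x * vx K (NG D) (.w j none) =
      c • vx K (NG D) (.w j none) := by
  classical
  refine span_ind (p := fun x => ∃ c : K, vx K (NG D) (.w j none) * x * vx K (NG D) (.w j none) =
      c • vx K (NG D) (.w j none)) ?_ ?_ ?_ ?_ ?_ hx
  · intro j' x y
    by_cases h : j = j'
    · subst h
      have h1 : vx K (NG D) (.w j none) * eps K D j x y * vx K (NG D) (.w j none) =
          star (pth K D j (.w none)) * eps K D j x y * pth K D j (.w none) := by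
        rw [← span_star_w]
        rfl
      rw [h1, span_corner]
      split_ifs
      · exact ⟨1, (one_smul _ _).symm⟩
      · exact ⟨0, (zero_smul _ _).symm⟩
    · refine ⟨0, ?_⟩
      have h1 : vx K (NG D) (.w j none) * eps K D j' x y * vx K (NG D) (.w j none) =
          star (pth K D j (.w none)) * eps K D j' x y * pth K D j (.w none) := by
        rw [← span_star_w]
        rfl
      rw [h1, span_corner_ne h, zero_smul]
  · intro i s t m
    refine ⟨0, ?_⟩
    rw [span_w_mu, zero_mul, zero_smul]
  · exact ⟨0, by rw [mul_zero, zero_mul, zero_smul]⟩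
  · rintro x y ⟨c, hc⟩ ⟨d, hd⟩
    exact ⟨c + d, by rw [mul_add, add_mul, hc, hd, add_smul]⟩
  · rintro c x ⟨d, hd⟩
    exact ⟨c * d, by rw [mul_smul_comm, smul_mul_assoc, hd, smul_smul]⟩

theorem w_corner_ne {j j' : S} (h : j ≠ j') {x : U K (NG D)} (hx : x ∈ L K (NG D)) :
    vx K (NG D) (.w j none) * x * vx K (NG D) (.w j' none) = 0 := by
  refine span_ind (p := fun x => vx K (NG D) (.w j none) * x * vx K (NG D) (.w j' none) = 0)
    ?_ ?_ ?_ ?_ ?_ hx
  · intro j'' x y
    have h1 : vx K (NG D) (.w j none) * eps K D j'' x y * vx K (NG D) (.w j' none) =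
        (star (pth K D j (.w none)) * pth K D j'' x) * (star (pth K D j'' y) *
          pth K D j' (.w none)) := by
      rw [← span_star_w]
      change _ * (_ * _) * _ = _ * _ * (_ * pth K D j' (.w none))
      simp only [mul_assoc]
      rfl
    rw [h1]
    by_cases h2 : j = j''
    · subst h2
      rw [star_pth_mul_pth_ne h, mul_zero]
    · rw [star_pth_mul_pth_ne h2, zero_mul]
  · intro i s t m
    rw [span_w_mu, zero_mul]
  · rw [mul_zero, zero_mul]
  · intro x y h1 h2
    rw [mul_add, add_mul, h1, h2, add_zero]
  · intro c x h1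
    rw [mul_smul_comm, smul_mul_assoc, h1, smul_zero]

theorem span_mu_w (j : S) (r : Option (Fin (D.b j))) (i : C) (s t : Option (Fin (D.a i)))
    (m : ℤ) : mu K D i s t m * vx K (NG D) (.w j r) = 0 := by
  change _ * star (lk K D i t) * _ = 0
  rw [mul_assoc, span_mul_zero (span_star_src (span_vx_lk i t)) (vx_vx (.w j r))
    (fun h => by cases h), mul_zero]

/-- no paths from the cycle `i` to the sink `j` -/
theorem v_w_zero {i : C} {j : S} (h : D.n i j = 0) (s : Option (Fin (D.a i)))
    {x : U K (NG D)} (hx : x ∈ L K (NG D)) :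
    vx K (NG D) (.v i s) * x * vx K (NG D) (.w j none) = 0 := by
  refine span_ind (p := fun x => vx K (NG D) (.v i s) * x * vx K (NG D) (.w j none) = 0)
    ?_ ?_ ?_ ?_ ?_ hx
  · intro j' x y
    have h1 : vx K (NG D) (.v i s) * eps K D j' x y * vx K (NG D) (.w j none) =
        (vx K (NG D) (.v i s) * pth K D j' x) * (star (pth K D j' y) *
          pth K D j (.w none)) := by
      change _ * (_ * _) * _ = _ * _ * (_ * pth K D j (.w none))
      simp only [mul_assoc]
      rfl
    rw [h1]
    by_cases h2 : j' = j
    · subst h2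
      have h3 : vx K (NG D) (.v i s) * pth K D j' x = 0 := by
        by_cases h4 : NV.v (D := D) i s = span_so x
        · cases x with
          | c i' s' m k =>
            have h5 : NV.v (D := D) i s = NV.v i' s' := h4
            cases h5
            rw [h] at k
            exact k.elim0
          | w r =>
            have h5 : NV.v (D := D) i s = NV.w j' r := h4
            cases h5
        · exact span_gen_zero (vx_vx _) h4
      rw [h3, zero_mul]
    · rw [star_pth_mul_pth_ne h2, mul_zero]
  · intro i' s' t m
    rw [mul_assoc, span_mu_w, mul_zero]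
  · rw [mul_zero, zero_mul]
  · intro x y h1 h2
    rw [mul_add, add_mul, h1, h2, add_zero]
  · intro c x h1
    rw [mul_smul_comm, smul_mul_assoc, h1, smul_zero]

theorem th_mem (B : ∀ i, MM K D i) : th K D B ∈ L K (NG D) := by
  refine (L K (NG D)).sum_mem fun i _ => (L K (NG D)).sum_mem fun s _ =>
    (L K (NG D)).sum_mem fun t _ => ?_
  rw [Finsupp.linearCombination_apply]
  exact (L K (NG D)).sum_mem fun m _ => (L K (NG D)).smul_mem _ (mu_mem _ _ _ _)

theorem th_add (B B' : ∀ i, MM K D i) : th K D (B + B') = th K D B + th K D B' := by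
  unfold th
  simp only [← Finset.sum_add_distrib]
  refine Finset.sum_congr rfl fun i _ => Finset.sum_congr rfl fun s _ =>
    Finset.sum_congr rfl fun t _ => ?_
  rw [← map_add, ← AddMonoidAlgebra.coeff_add]
  rfl

theorem span_th_smul (c : K) (B : ∀ i, MM K D i) : th K D (c • B) = c • th K D B := by
  unfold th
  simp only [Finset.smul_sum]
  refine Finset.sum_congr rfl fun i _ => Finset.sum_congr rfl fun s _ =>
    Finset.sum_congr rfl fun t _ => ?_
  rw [← map_smul, ← AddMonoidAlgebra.coeff_smul]
  rfl

theorem span_th_zero : th K D (0 : ∀ i, MM K D i) = 0 := by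
  have := span_th_smul (K := K) (D := D) 0 0
  rwa [zero_smul, zero_smul] at this

theorem span_chi_lc (c : Ch K D) (i : C) (s t : Option (Fin (D.a i)))
    (p : LaurentPolynomial K) :
    c.χ (Finsupp.linearCombination K (fun m => mu K D i s t m) p.coeff) =
      Pi.single i (Matrix.single s t p) := by
  induction p using AddMonoidAlgebra.induction_linear with
  | zero =>
    rw [AddMonoidAlgebra.coeff_zero, map_zero, map_zero, Matrix.single_zero, Pi.single_zero]
  | add p q hp hq =>
    rw [AddMonoidAlgebra.coeff_add, map_add, map_add, hp, hq, Matrix.single_add, Pi.single_add]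
  | single m a =>
    rw [AddMonoidAlgebra.coeff_single, Finsupp.linearCombination_single, map_smul, c.χmu,
      ← Pi.single_smul, Matrix.smul_single]
    congr 2
    rw [LaurentPolynomial.T, AddMonoidAlgebra.smul_single, smul_eq_mul, mul_one]

theorem span_sum_single (i : C) (M : MM K D i) :
    ∑ s, ∑ t, (Pi.single i (Matrix.single s t (M s t)) : ∀ i, MM K D i) = Pi.single i M := by
  have h1 : ∀ s t, (Pi.single i (Matrix.single s t (M s t)) : ∀ i, MM K D i) =
      AddMonoidHom.single (fun i => MM K D i) i (Matrix.single s t (M s t)) := fun _ _ => rfl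
  simp only [h1, ← map_sum]
  rw [← Matrix.matrix_eq_sum_single M]
  rfl

theorem chi_th (c : Ch K D) (B : ∀ i, MM K D i) : c.χ (th K D B) = B := by
  unfold th
  simp only [map_sum, span_chi_lc, span_sum_single]
  exact Finset.univ_sum_single B

theorem span_th_single (i : C) (s t : Option (Fin (D.a i))) (m : ℤ) :
    th K D (Pi.single i (Matrix.single s t (LaurentPolynomial.T m))) = mu K D i s t m := by
  unfold th
  rw [Finset.sum_eq_single i, Finset.sum_eq_single s, Finset.sum_eq_single t, Pi.single_eq_same,
    Matrix.single_apply_same, LaurentPolynomial.T, AddMonoidAlgebra.coeff_single,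
    Finsupp.linearCombination_single, one_smul]
  · intro t' _ ht
    rw [Pi.single_eq_same, Matrix.single_apply_of_ne _ _ _ _ _ (fun h => ht h.2.symm),
      AddMonoidAlgebra.coeff_zero, map_zero]
  · intro h
    exact absurd (Finset.mem_univ _) h
  · intro s' _ hs
    refine Finset.sum_eq_zero fun t' _ => ?_
    rw [Pi.single_eq_same, Matrix.single_apply_of_ne _ _ _ _ _ (fun h => hs h.1.symm),
      AddMonoidAlgebra.coeff_zero, map_zero]
  · intro h
    exact absurd (Finset.mem_univ _) h
  · intro i' _ hi
    refine Finset.sum_eq_zero fun s' _ => Finset.sum_eq_zero fun t' _ => ?_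
    rw [Pi.single_eq_of_ne hi, Matrix.zero_apply, AddMonoidAlgebra.coeff_zero, map_zero]
  · intro h
    exact absurd (Finset.mem_univ _) h

theorem sub_th_mem (c : Ch K D) {x : U K (NG D)} (hx : x ∈ L K (NG D)) :
    x - th K D (c.χ x) ∈ Isp K D := by
  refine span_ind (p := fun x => x - th K D (c.χ x) ∈ Isp K D) ?_ ?_ ?_ ?_ ?_ hx
  · intro j x y
    rw [c.χeps, span_th_zero, sub_zero]
    exact span_eps_Isp j x y
  · intro i s t m
    rw [c.χmu, span_th_single, sub_self]
    exact (Isp K D).zero_mem
  · rw [map_zero, span_th_zero, sub_zero]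
    exact (Isp K D).zero_mem
  · intro x y h1 h2
    rw [map_add, th_add, add_sub_add_comm]
    exact (Isp K D).add_mem h1 h2
  · intro a x h
    rw [map_smul, span_th_smul, ← smul_sub]
    exact (Isp K D).smul_mem a h

theorem span_chi_Isp (c : Ch K D) {x : U K (NG D)} (hx : x ∈ Isp K D) : c.χ x = 0 := by
  have h : Isp K D ≤ LinearMap.ker c.χ.toLinearMap := by
    refine Submodule.span_le.2 ?_
    rintro _ ⟨j, x, y, rfl⟩
    exact c.χeps j x y
  exact h hx

/-- the kernel of the quotient map on `L` -/
theorem mem_Isp_iff (c : Ch K D) {x : U K (NG D)} (hx : x ∈ L K (NG D)) :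
    x ∈ Isp K D ↔ c.χ x = 0 := by
  refine ⟨fun h => span_chi_Isp c h, fun h => ?_⟩
  have h1 := sub_th_mem c hx
  rwa [h, span_th_zero, sub_zero] at h1

/-- values of the quotient map on generators -/
theorem chi_v (c : Ch K D) (i : C) (s : Option (Fin (D.a i))) :
    c.χ (vx K (NG D) (.v i s)) = Pi.single i (Matrix.single s s 1) := by
  rw [span_v_mu, c.χmu, LaurentPolynomial.T_zero]

theorem chi_w (c : Ch K D) (j : S) (r : Option (Fin (D.b j))) :
    c.χ (vx K (NG D) (.w j r)) = 0 :=
  span_chi_Isp c (w_mem_Isp j r)

theorem chi_z (c : Ch K D) (i : C) :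
    c.χ (ed K (NG D) (.z i)) = Pi.single i (Matrix.single none none (LaurentPolynomial.T 1)) := by
  rw [← c.χmu, span_mu_none]
  have h1 : zp K (NG D) (.z i) 1 = ed K (NG D) (.z i) := zp_one
  have h2 : ed K (NG D) (.z i) * vx K (NG D) (.v i none) = ed K (NG D) (.z i) :=
    ed_vx (G := NG D) (.z i)
  have h3 : star (lk K D i none) = vx K (NG D) (.v i none) := star_vx _
  rw [h1, h3, h2]

theorem chi_one (c : Ch K D) : c.χ (one K D) = 1 := by
  unfold one
  simp only [map_add, map_sum, chi_v, chi_w, Finset.sum_const_zero, add_zero]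
  have h1 : ∀ i, ∑ s, (Pi.single i (Matrix.single s s 1) : ∀ i, MM K D i) =
      Pi.single i (1 : MM K D i) := by
    intro i
    have h2 : ∀ s, (Pi.single i (Matrix.single s s 1) : ∀ i, MM K D i) =
      AddMonoidHom.single (fun i => MM K D i) i (Matrix.single s s 1) := fun _ => rfl
    simp only [h2, ← map_sum, Matrix.sum_single_one]
    rfl
  simp only [h1]
  exact Finset.univ_sum_single (1 : ∀ i, MM K D i)

end Pool.Agent.Helper32.TP
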