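import Pool.Agent.Helper32.TP.Fred
import Pool.Agent.Helper32.TP.Span

/-! Toeplitz operators with matrix symbols. PIECE 4. -/

set_option autoImplicit false
set_option linter.unusedSectionVars false

universe k a b

namespace Pool.Agent.Helper32.TP

open Pool.Agent.Helper32.LV

section
variable {K : Type k} [Field K] {p : Type} [Fintype p] [DecidableEq p]

/-- the compression of the multiplication by `B` to the polynomials -/
noncomputable def Tz (B : Matrix p p (LaurentPolynomial K)) : Module.End K (p × ℕ →₀ K) :=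
  Finsupp.linearCombination K fun x => ∑ s, (B s x.1).coeff.sum fun d c =>
    if 0 ≤ (x.2 : ℤ) + d then Finsupp.single (s, ((x.2 : ℤ) + d).toNat) c else 0

/-- the index of the Toeplitz operator -/
noncomputable def tt (B : Matrix p p (LaurentPolynomial K)) : ℤ := fi (Tz B)

theorem toep_finRk_zero {V W : Type*} [AddCommGroup V] [Module K V] [AddCommGroup W]
    [Module K W] : FinRk (0 : V →ₗ[K] W) := by
  unfold FinRk
  rw [LinearMap.range_zero]
  infer_instance

theorem toep_finRk_smul {V W : Type*} [AddCommGroup V] [Module K V] [AddCommGroup W]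
    [Module K W] {T : V →ₗ[K] W} (h : FinRk T) (c : K) : FinRk (c • T) := by
  have : c • T = (c • LinearMap.id) ∘ₗ T := by
    ext x
    simp
  rw [this]
  exact h.comp_left _

theorem toep_finRk_neg {V W : Type*} [AddCommGroup V] [Module K V] [AddCommGroup W]
    [Module K W] {T : V →ₗ[K] W} (h : FinRk T) : FinRk (-T) := by
  have := toep_finRk_smul h (-1 : K)
  simpa using this

theorem toep_finRk_sum {V W : Type*} [AddCommGroup V] [Module K V] [AddCommGroup W]
    [Module K W] {ι : Type*} (s : Finset ι) {T : ι → V →ₗ[K] W} (h : ∀ i ∈ s, FinRk (T i)) :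
    FinRk (∑ i ∈ s, T i) := by
  classical
  induction s using Finset.induction_on with
  | empty => simpa using toep_finRk_zero
  | insert a s ha ih =>
    rw [Finset.sum_insert ha]
    exact (h a (Finset.mem_insert_self a s)).add
      (ih fun i hi => h i (Finset.mem_insert_of_mem hi))

theorem toep_finRk_congr {V W : Type*} [AddCommGroup V] [Module K V] [AddCommGroup W]
    [Module K W] {T T' : V →ₗ[K] W} (h : ∀ v, T' v = T v) (hT : FinRk T) : FinRk T' := by
  have : T' = T := LinearMap.ext h
  rw [this]
  exact hT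

/-- a map that kills all but finitely many basis vectors has finite rank -/
theorem toep_finRk_of_basis {X : Type*} {W : Type*} [AddCommGroup W] [Module K W]
    (T : (X →₀ K) →ₗ[K] W) (s : Set X) (hs : s.Finite)
    (h : ∀ x, x ∉ s → T (Finsupp.single x 1) = 0) : FinRk T := by
  have hle : LinearMap.range T ≤
      Submodule.span K ((fun x => T (Finsupp.single x 1)) '' s) := by
    rintro _ ⟨f, rfl⟩
    have hf : T f = f.sum fun x c => c • T (Finsupp.single x 1) := by
      conv_lhs => rw [← Finsupp.sum_single f]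
      rw [Finsupp.sum, map_sum, Finsupp.sum]
      refine Finset.sum_congr rfl fun x _ => ?_
      rw [← map_smul, Finsupp.smul_single, smul_eq_mul, mul_one]
    rw [hf]
    refine Submodule.sum_mem _ fun x _ => Submodule.smul_mem _ _ ?_
    by_cases hx : x ∈ s
    · exact Submodule.subset_span ⟨x, hx, rfl⟩
    · rw [h x hx]
      exact Submodule.zero_mem _
  have : Module.Finite K (Submodule.span K ((fun x => T (Finsupp.single x 1)) '' s)) :=
    FiniteDimensional.span_of_finite K (hs.image _)
  exact Submodule.finiteDimensional_of_le hle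

/-- truncation -/
noncomputable def toep_tl (s : p) (n : ℤ) (f : LaurentPolynomial K) : p × ℕ →₀ K :=
  f.coeff.sum fun d c => if 0 ≤ n + d then Finsupp.single (s, (n + d).toNat) c else 0

theorem toep_tl_zero (s : p) (n : ℤ) : toep_tl s n (0 : LaurentPolynomial K) = 0 := by
  unfold toep_tl
  simp

theorem toep_tl_add (s : p) (n : ℤ) (f g : LaurentPolynomial K) :
    toep_tl s n (f + g) = toep_tl s n f + toep_tl s n g := by
  unfold toep_tl
  rw [AddMonoidAlgebra.coeff_add]
  refine Finsupp.sum_add_index' (fun d => ?_) (fun d c c' => ?_)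
  · simp
  · split_ifs
    · rw [Finsupp.single_add]
    · simp

theorem toep_tl_smul (s : p) (n : ℤ) (c : K) (f : LaurentPolynomial K) :
    toep_tl s n (c • f) = c • toep_tl s n f := by
  unfold toep_tl
  rw [AddMonoidAlgebra.coeff_smul, Finsupp.sum_smul_index, Finsupp.smul_sum]
  · refine Finsupp.sum_congr fun d _ => ?_
    split_ifs
    · simp
    · simp
  · intro d
    simp

theorem toep_tl_mono (s : p) (n : ℤ) (c : K) (d : ℤ) :
    toep_tl s n (LaurentPolynomial.C c * LaurentPolynomial.T d) =
      if 0 ≤ n + d then Finsupp.single (s, (n + d).toNat) c else 0 := by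
  unfold toep_tl
  rw [← LaurentPolynomial.single_eq_C_mul_T, AddMonoidAlgebra.coeff_single]
  rw [Finsupp.sum_single_index]
  simp

theorem toep_Tz_single (B : Matrix p p (LaurentPolynomial K)) (x : p × ℕ) (c : K) :
    Tz B (Finsupp.single x c) = c • ∑ s, toep_tl s (x.2 : ℤ) (B s x.1) := by
  unfold Tz toep_tl
  rw [Finsupp.linearCombination_single]

theorem toep_Tz_ext {W : Type*} [AddCommGroup W] [Module K W] {X : Type*}
    {T S : (X →₀ K) →ₗ[K] W}
    (h : ∀ x, T (Finsupp.single x 1) = S (Finsupp.single x 1)) : T = S := by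
  ext x
  simpa using h x

theorem toep_Tz_add (B B' : Matrix p p (LaurentPolynomial K)) :
    Tz (B + B') = Tz B + Tz B' := by
  refine toep_Tz_ext fun x => ?_
  rw [LinearMap.add_apply, toep_Tz_single, toep_Tz_single, toep_Tz_single, one_smul, one_smul,
    one_smul, ← Finset.sum_add_distrib]
  exact Finset.sum_congr rfl fun s _ => by rw [Matrix.add_apply, toep_tl_add]

theorem toep_Tz_zero : Tz (0 : Matrix p p (LaurentPolynomial K)) = 0 := by
  refine toep_Tz_ext fun x => ?_
  rw [toep_Tz_single]
  simp [toep_tl_zero]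

theorem toep_Tz_sum {ι : Type*} (s : Finset ι) (B : ι → Matrix p p (LaurentPolynomial K)) :
    Tz (∑ i ∈ s, B i) = ∑ i ∈ s, Tz (B i) := by
  classical
  induction s using Finset.induction_on with
  | empty => simp [toep_Tz_zero]
  | insert a s ha ih => rw [Finset.sum_insert ha, Finset.sum_insert ha, toep_Tz_add, ih]

/-- one diagonal -/
theorem toep_Tz_mono (s t : p) (c : K) (d : ℤ) (x : p × ℕ) :
    Tz (Matrix.single s t (LaurentPolynomial.C c * LaurentPolynomial.T d)) (Finsupp.single x 1) =
      if x.1 = t ∧ 0 ≤ (x.2 : ℤ) + d then Finsupp.single (s, ((x.2 : ℤ) + d).toNat) c else 0 := by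
  rw [toep_Tz_single, one_smul, Finset.sum_eq_single s]
  · by_cases hx : x.1 = t
    · rw [hx, Matrix.single_apply_same, toep_tl_mono]
      simp
    · rw [Matrix.single_apply_of_col_ne]
      · simp [toep_tl_zero, hx]
      · exact fun h => hx h.symm
  · intro b _ hb
    rw [Matrix.single_apply_of_row_ne, toep_tl_zero]
    exact fun h => hb h.symm
  · intro h
    exact absurd (Finset.mem_univ s) h

theorem toep_ind {P : Matrix p p (LaurentPolynomial K) → Prop} (h0 : P 0)
    (ha : ∀ B B', P B → P B' → P (B + B'))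
    (hm : ∀ s t c d, P (Matrix.single s t (LaurentPolynomial.C c * LaurentPolynomial.T d)))
    (B : Matrix p p (LaurentPolynomial K)) : P B := by
  have hs : ∀ {ι : Type} (u : Finset ι) (F : ι → Matrix p p (LaurentPolynomial K)),
      (∀ i, P (F i)) → P (∑ i ∈ u, F i) := by
    intro ι u F hF
    classical
    induction u using Finset.induction_on with
    | empty => simpa using h0
    | insert a s ha' ih =>
      rw [Finset.sum_insert ha']
      exact ha _ _ (hF a) ih
  rw [Matrix.matrix_eq_sum_single B]
  refine hs _ _ fun i => hs _ _ fun j => ?_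
  induction B i j using LaurentPolynomial.induction_on' with
  | add f g hf hg =>
    rw [Matrix.single_add]
    exact ha _ _ hf hg
  | C_mul_T n c => exact hm i j c n

theorem Tz_one : Tz (1 : Matrix p p (LaurentPolynomial K)) = 1 := by
  refine toep_Tz_ext fun x => ?_
  rw [toep_Tz_single, one_smul, Finset.sum_eq_single x.1]
  · have h1 : (1 : LaurentPolynomial K) = LaurentPolynomial.C 1 * LaurentPolynomial.T 0 := by
      simp
    rw [Matrix.one_apply_eq, h1, toep_tl_mono]
    simp
  · intro b _ hb
    rw [Matrix.one_apply_ne hb, toep_tl_zero]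
  · intro h
    exact absurd (Finset.mem_univ _) h

theorem toep_mul_mono (s t s' t' : p) (c c' : K) (d d' : ℤ) :
    FinRk (Tz (Matrix.single s t (LaurentPolynomial.C c * LaurentPolynomial.T d) *
      Matrix.single s' t' (LaurentPolynomial.C c' * LaurentPolynomial.T d')) -
      Tz (Matrix.single s t (LaurentPolynomial.C c * LaurentPolynomial.T d)) ∘ₗ
      Tz (Matrix.single s' t' (LaurentPolynomial.C c' * LaurentPolynomial.T d'))) := by
  refine toep_finRk_of_basis _ {x : p × ℕ | (x.2 : ℤ) + d' < 0} ?_ ?_
  · have : {x : p × ℕ | (x.2 : ℤ) + d' < 0} ⊆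
        (Finset.univ ×ˢ Finset.range (d'.natAbs) : Finset (p × ℕ)) := by
      rintro ⟨u, m⟩ hx
      rw [Set.mem_ofPred_eq] at hx
      simp only [Finset.coe_product, Set.mem_prod, Finset.coe_univ, Set.mem_univ, true_and,
        Finset.coe_range, Set.mem_Iio]
      omega
    exact (Finset.finite_toSet _).subset this
  · intro x hx
    rw [Set.mem_ofPred_eq, not_lt] at hx
    rw [LinearMap.sub_apply, LinearMap.comp_apply, toep_Tz_mono]
    by_cases hxt : x.1 = t'
    · rw [if_pos ⟨hxt, hx⟩]
      have h2 : (Finsupp.single (s', ((x.2 : ℤ) + d').toNat) c' : p × ℕ →₀ K) =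
          c' • Finsupp.single (s', ((x.2 : ℤ) + d').toNat) 1 := by simp
      rw [h2, map_smul, toep_Tz_mono]
      have h3 : (((((x.2 : ℤ) + d').toNat : ℕ) : ℤ)) = (x.2 : ℤ) + d' := Int.toNat_of_nonneg hx
      simp only [h3]
      by_cases hst : s' = t
      · subst hst
        have h4 : LaurentPolynomial.C c * LaurentPolynomial.T d *
            (LaurentPolynomial.C c' * LaurentPolynomial.T d') =
            LaurentPolynomial.C (c * c') * LaurentPolynomial.T (d' + d) := by
          rw [map_mul, LaurentPolynomial.T_add]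
          ring
        rw [Matrix.single_mul_single_same, h4, toep_Tz_mono]
        simp only [hxt, true_and]
        rw [← add_assoc]
        split_ifs
        · simp [mul_comm]
        · simp
      · rw [Matrix.single_mul_single_of_ne _ _ _ _ (fun h => hst h.symm)]
        simp [toep_Tz_zero, hst]
    · rw [if_neg (fun h => hxt h.1), map_zero, sub_zero]
      by_cases hst : t = s'
      · subst hst
        rw [Matrix.single_mul_single_same, toep_Tz_single, one_smul]
        refine Finset.sum_eq_zero fun u _ => ?_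
        rw [Matrix.single_apply_of_col_ne _ _ (fun h => hxt h.symm), toep_tl_zero]
      · rw [Matrix.single_mul_single_of_ne _ _ _ _ hst]
        simp [toep_Tz_zero]

theorem Tz_mul (B B' : Matrix p p (LaurentPolynomial K)) :
    FinRk (Tz (B * B') - Tz B ∘ₗ Tz B') := by
  induction B using toep_ind with
  | h0 =>
    refine toep_finRk_congr (fun v => ?_) toep_finRk_zero
    rw [zero_mul, toep_Tz_zero, LinearMap.zero_comp, LinearMap.sub_apply, LinearMap.zero_apply,
      sub_zero]
  | ha B C hB hC =>
    have : Tz ((B + C) * B') - Tz (B + C) ∘ₗ Tz B' =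
        (Tz (B * B') - Tz B ∘ₗ Tz B') + (Tz (C * B') - Tz C ∘ₗ Tz B') := by
      rw [add_mul, toep_Tz_add, toep_Tz_add, LinearMap.add_comp]
      abel
    rw [this]
    exact hB.add hC
  | hm s t c d =>
    induction B' using toep_ind with
    | h0 =>
      refine toep_finRk_congr (fun v => ?_) toep_finRk_zero
      rw [mul_zero, toep_Tz_zero, LinearMap.comp_zero, LinearMap.sub_apply, LinearMap.zero_apply,
        sub_zero]
    | ha B C hB hC =>
      have : ∀ A : Matrix p p (LaurentPolynomial K), Tz (A * (B + C)) - Tz A ∘ₗ Tz (B + C) =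
          (Tz (A * B) - Tz A ∘ₗ Tz B) + (Tz (A * C) - Tz A ∘ₗ Tz C) := by
        intro A
        rw [mul_add, toep_Tz_add, toep_Tz_add, LinearMap.comp_add]
        abel
      rw [this]
      exact hB.add hC
    | hm s' t' c' d' => exact toep_mul_mono s t s' t' c c' d d'

theorem Fr_Tz {B B' : Matrix p p (LaurentPolynomial K)} (h : B * B' = 1) (h' : B' * B = 1) :
    Fr (Tz B) := by
  have h1 := Tz_mul B B'
  have h2 := Tz_mul B' B
  rw [h, Tz_one] at h1
  rw [h', Tz_one] at h2
  refine Fr.of_par (A := Tz B') ?_ ?_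
  · refine toep_finRk_congr (fun v => ?_) (toep_finRk_neg h2)
    rw [LinearMap.neg_apply, LinearMap.sub_apply, LinearMap.sub_apply, neg_sub]
    rfl
  · refine toep_finRk_congr (fun v => ?_) (toep_finRk_neg h1)
    rw [LinearMap.neg_apply, LinearMap.sub_apply, LinearMap.sub_apply, neg_sub]
    rfl

theorem tt_one : tt (1 : Matrix p p (LaurentPolynomial K)) = 0 := by
  unfold tt
  rw [Tz_one]
  exact (fi_equiv (LinearEquiv.refl K (p × ℕ →₀ K))).2

theorem tt_mul {B B' A A' : Matrix p p (LaurentPolynomial K)} (h : B * B' = 1) (h' : B' * B = 1)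
    (hA : A * A' = 1) (hA' : A' * A = 1) : tt (B * A) = tt B + tt A := by
  unfold tt
  have h1 := Tz_mul B A
  have f1 := Fr_Tz h h'
  have f2 := Fr_Tz hA hA'
  have h2 := fi_add (f1.comp f2) h1
  have h4 : fi (Tz (B * A)) = fi (Tz B ∘ₗ Tz A) := by
    rw [← h2]
    congr 1
    refine LinearMap.ext fun v => ?_
    rw [LinearMap.add_apply, LinearMap.sub_apply, add_sub_cancel]
  rw [h4, fi_comp f1 f2]

theorem toep_cT (c : K) (hc : c ≠ 0) (e : ℤ) : LaurentPolynomial.C c * LaurentPolynomial.T e *
    (LaurentPolynomial.C c⁻¹ * LaurentPolynomial.T (-e)) = (1 : LaurentPolynomial K) := by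
  have h4 : LaurentPolynomial.C c * LaurentPolynomial.T e *
      (LaurentPolynomial.C c⁻¹ * LaurentPolynomial.T (-e)) =
      LaurentPolynomial.C (c * c⁻¹) * LaurentPolynomial.T (e + -e) := by
    rw [map_mul, LaurentPolynomial.T_add]
    ring
  rw [h4, mul_inv_cancel₀ hc]
  simp

theorem toep_shift_mul (t : p) {f g : LaurentPolynomial K} (h : f * g = 1) :
    (1 - Matrix.single t t (1 : LaurentPolynomial K) + Matrix.single t t f) *
      (1 - Matrix.single t t 1 + Matrix.single t t g) = 1 := by
  have h1 : Matrix.single t t f * Matrix.single t t g = Matrix.single t t 1 := by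
    rw [Matrix.single_mul_single_same, h]
  have h2 : Matrix.single t t (1 : LaurentPolynomial K) * Matrix.single t t g =
      Matrix.single t t g := by
    rw [Matrix.single_mul_single_same, one_mul]
  have h3 : Matrix.single t t f * Matrix.single t t (1 : LaurentPolynomial K) =
      Matrix.single t t f := by
    rw [Matrix.single_mul_single_same, mul_one]
  have h4 : Matrix.single t t (1 : LaurentPolynomial K) *
      Matrix.single t t (1 : LaurentPolynomial K) = Matrix.single t t 1 := by
    rw [Matrix.single_mul_single_same, mul_one]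
  have : (1 - Matrix.single t t (1 : LaurentPolynomial K) + Matrix.single t t f) *
      (1 - Matrix.single t t 1 + Matrix.single t t g) =
      1 - Matrix.single t t 1 + Matrix.single t t g - Matrix.single t t 1 +
      Matrix.single t t 1 * Matrix.single t t 1 - Matrix.single t t 1 * Matrix.single t t g +
      Matrix.single t t f - Matrix.single t t f * Matrix.single t t 1 +
      Matrix.single t t f * Matrix.single t t g := by
    noncomm_ring
  rw [this, h1, h2, h3, h4]
  abel

/-- action of the shift -/
theorem toep_shift_apply (t : p) (c : K) (e : ℤ) (x : p × ℕ) :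
    Tz (1 - Matrix.single t t 1 +
      Matrix.single t t (LaurentPolynomial.C c * LaurentPolynomial.T e)) (Finsupp.single x 1) =
    if x.1 = t then (if 0 ≤ (x.2 : ℤ) + e then Finsupp.single (t, ((x.2 : ℤ) + e).toNat) c else 0)
      else Finsupp.single x 1 := by
  have h1 : Tz (1 - Matrix.single t t (1 : LaurentPolynomial K)) (Finsupp.single x 1) =
      if x.1 = t then 0 else Finsupp.single x 1 := by
    have h2 : Tz (1 : Matrix p p (LaurentPolynomial K)) =
        Tz (1 - Matrix.single t t (1 : LaurentPolynomial K)) + Tz (Matrix.single t t 1) := by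
      rw [← toep_Tz_add, sub_add_cancel]
    have h3 : (1 : LaurentPolynomial K) = LaurentPolynomial.C 1 * LaurentPolynomial.T 0 := by
      simp
    have h4 := LinearMap.congr_fun h2 (Finsupp.single x 1)
    rw [Tz_one, LinearMap.add_apply] at h4
    have h5 : Tz (Matrix.single t t (1 : LaurentPolynomial K)) (Finsupp.single x 1) =
        if x.1 = t then Finsupp.single x 1 else 0 := by
      rw [h3, toep_Tz_mono]
      by_cases hx : x.1 = t
      · subst hx
        simp
      · simp [hx]
    rw [h5] at h4
    rw [eq_sub_of_add_eq h4.symm]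
    split_ifs
    · simp
    · simp
  rw [toep_Tz_add, LinearMap.add_apply, h1, toep_Tz_mono]
  by_cases hx : x.1 = t
  · simp [hx]
  · simp [hx]

theorem toep_tt_up (t : p) (c : K) (hc : c ≠ 0) :
    tt (1 - Matrix.single t t 1 +
      Matrix.single t t (LaurentPolynomial.C c * LaurentPolynomial.T 1)) = -1 := by
  unfold tt
  set M := (1 - Matrix.single t t 1 +
      Matrix.single t t (LaurentPolynomial.C c * LaurentPolynomial.T 1) :
      Matrix p p (LaurentPolynomial K)) with hM
  set N := (1 - Matrix.single t t 1 +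
      Matrix.single t t (LaurentPolynomial.C c⁻¹ * LaurentPolynomial.T (-1)) :
      Matrix p p (LaurentPolynomial K)) with hN
  have h1 : Tz N ∘ₗ Tz M = LinearMap.id := by
    refine toep_Tz_ext fun x => ?_
    rw [LinearMap.comp_apply, hM, toep_shift_apply]
    by_cases hx : x.1 = t
    · subst hx
      rw [if_pos rfl, if_pos (by omega)]
      have h2 : (Finsupp.single (x.1, ((x.2 : ℤ) + 1).toNat) c : p × ℕ →₀ K) =
          c • Finsupp.single (x.1, ((x.2 : ℤ) + 1).toNat) 1 := by simp
      have h3 : ((x.2 : ℤ) + 1).toNat = x.2 + 1 := by omega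
      rw [h2, map_smul, hN, toep_shift_apply, if_pos rfl, h3]
      simp [hc]
    · rw [if_neg hx, hN, toep_shift_apply, if_neg hx]
      rfl
  have h2 : ∀ x : p × ℕ, (LinearMap.id - Tz M ∘ₗ Tz N : (p × ℕ →₀ K) →ₗ[K] (p × ℕ →₀ K))
      (Finsupp.single x 1) =
      if x = (t, 0) then Finsupp.single x 1 else 0 := by
    intro x
    rw [LinearMap.sub_apply, LinearMap.comp_apply, hN, toep_shift_apply]
    by_cases hx : x.1 = t
    · subst hx
      rw [if_pos rfl]
      by_cases h0 : x.2 = 0
      · rw [if_neg (by omega), if_pos (by ext <;> simp [h0])]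
        simp
      · rw [if_pos (by omega), if_neg (by intro h; exact h0 (congrArg Prod.snd h))]
        have h2 : (Finsupp.single (x.1, ((x.2 : ℤ) + -1).toNat) c⁻¹ : p × ℕ →₀ K) =
            c⁻¹ • Finsupp.single (x.1, ((x.2 : ℤ) + -1).toNat) 1 := by simp
        have h3 : ((((x.2 : ℤ) + -1).toNat : ℤ) + 1).toNat = x.2 := by omega
        rw [h2, map_smul, hM, toep_shift_apply, if_pos rfl, h3, if_pos (by omega)]
        simp [hc]
    · rw [if_neg hx, hM, toep_shift_apply, if_neg hx,
        if_neg (by intro h; exact hx (congrArg Prod.fst h))]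
      simp
  have h3 : LinearMap.range (LinearMap.id - Tz M ∘ₗ Tz N) =
      Submodule.span K {(Finsupp.single (t, 0) 1 : p × ℕ →₀ K)} := by
    apply le_antisymm
    · rintro _ ⟨f, rfl⟩
      induction f using Finsupp.induction_linear with
      | zero => simp
      | add f g hf hg =>
        rw [map_add]
        exact Submodule.add_mem _ hf hg
      | single x c =>
        have h4 : (Finsupp.single x c : p × ℕ →₀ K) = c • Finsupp.single x 1 := by simp
        rw [h4, map_smul, h2]
        refine Submodule.smul_mem _ _ ?_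
        split_ifs with hx
        · rw [hx]
          exact Submodule.mem_span_singleton_self _
        · exact Submodule.zero_mem _
    · rw [Submodule.span_singleton_le_iff_mem]
      refine ⟨Finsupp.single (t, 0) 1, ?_⟩
      rw [h2, if_pos rfl]
  have h4 : Module.finrank K (LinearMap.range (LinearMap.id - Tz M ∘ₗ Tz N)) = 1 := by
    rw [h3]
    exact finrank_span_singleton (by simp)
  have h5 : FinRk (LinearMap.id - Tz M ∘ₗ Tz N) := by
    unfold FinRk
    rw [h3]
    infer_instance
  have h6 := (fi_left_inv h1 h5).2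
  rw [h4] at h6
  simpa using h6

theorem tt_shift (t : p) (c : K) (hc : c ≠ 0) (e : ℤ) (he : e = 1 ∨ e = -1) :
    tt (1 - Matrix.single t t 1 +
      Matrix.single t t (LaurentPolynomial.C c * LaurentPolynomial.T e)) = - e := by
  rcases he with rfl | rfl
  · exact toep_tt_up t c hc
  · have h1 := toep_cT c hc (-1)
    have h2 := toep_cT c⁻¹ (inv_ne_zero hc) 1
    rw [inv_inv] at h2
    rw [neg_neg] at h1
    have h3 := tt_mul (toep_shift_mul t h1) (toep_shift_mul t h2) (toep_shift_mul t h2)
      (toep_shift_mul t h1)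
    rw [toep_shift_mul t h1, tt_one, toep_tt_up t c⁻¹ (inv_ne_zero hc)] at h3
    linarith

/-- conjugation invariance -/
theorem tt_conj_shift (t : p) (c : K) (hc : c ≠ 0) (e : ℤ) (he : e = 1 ∨ e = -1)
    {X Y : Matrix p p (LaurentPolynomial K)} (h : X * Y = 1) (h' : Y * X = 1) :
    tt (1 - X * Matrix.single t t 1 * Y +
      X * Matrix.single t t (LaurentPolynomial.C c * LaurentPolynomial.T e) * Y) = - e := by
  have h1 := toep_cT c hc e
  have h2 := toep_cT c⁻¹ (inv_ne_zero hc) (-e)
  rw [inv_inv, neg_neg] at h2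
  set M := (1 - Matrix.single t t 1 +
      Matrix.single t t (LaurentPolynomial.C c * LaurentPolynomial.T e) :
      Matrix p p (LaurentPolynomial K)) with hM
  set N := (1 - Matrix.single t t 1 +
      Matrix.single t t (LaurentPolynomial.C c⁻¹ * LaurentPolynomial.T (-e)) :
      Matrix p p (LaurentPolynomial K)) with hN
  have hMN : M * N = 1 := toep_shift_mul t h1
  have hNM : N * M = 1 := toep_shift_mul t h2
  have h3 : (1 - X * Matrix.single t t 1 * Y +
      X * Matrix.single t t (LaurentPolynomial.C c * LaurentPolynomial.T e) * Y) =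
      (X * M) * Y := by
    rw [hM, mul_add, mul_sub, mul_one, add_mul, sub_mul, h]
  have h4 : (X * M) * (N * Y) = 1 := by
    rw [mul_assoc, ← mul_assoc M, hMN, one_mul, h]
  have h5 : (N * Y) * (X * M) = 1 := by
    rw [mul_assoc, ← mul_assoc Y, h', one_mul, hNM]
  rw [h3, tt_mul h4 h5 h' h, tt_mul h h' hMN hNM]
  have h6 := tt_mul h h' h' h
  rw [h, tt_one] at h6
  have h7 : tt M = -e := tt_shift t c hc e he
  rw [h7]
  linarith

end

variable {C : Type a} {S : Type b} [Fintype C] [Fintype S] [DecidableEq C] [DecidableEq S]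
  {K : Type k} [Field K] [StarRing K] {D : Dat C S}

/-- elements of the ideal act with finite rank -/
theorem Isp_finRk (R : Rp K D) {x : U K (NG D)} (hx : x ∈ Isp K D) (j : S) :
    FinRk (R.π x j) := by
  unfold Isp at hx
  induction hx using Submodule.span_induction with
  | mem x hx =>
    obtain ⟨j', x₁, x₂, rfl⟩ := hx
    by_cases hj : j' = j
    · subst hj
      have hle : LinearMap.range (R.π (eps K D j' x₁ x₂) j') ≤
          Submodule.span K {(Finsupp.single x₁ 1 : XX D j' →₀ K)} := by
        rintro _ ⟨u, rfl⟩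
        rw [R.πeps]
        have h4 : (Finsupp.single x₁ (u x₂) : XX D j' →₀ K) = (u x₂) • Finsupp.single x₁ 1 := by
          simp
        rw [h4]
        exact Submodule.smul_mem _ _ (Submodule.mem_span_singleton_self _)
      exact Submodule.finiteDimensional_of_le hle
    · rw [R.πne j' x₁ x₂ j (fun h => hj h.symm)]
      exact toep_finRk_zero
  | zero =>
    rw [map_zero]
    exact toep_finRk_zero
  | add x y _ _ h1 h2 =>
    rw [map_add]
    exact h1.add h2
  | smul c x _ h1 =>
    rw [map_smul]
    exact toep_finRk_smul h1 c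

/-- the index set of the blocks -/
abbrev ToepIx (D : Dat C S) (j : S) := Option (Σ i, Fin (D.n i j))

/-- the basis of a block -/
def ToepY (D : Dat C S) (j : S) : ToepIx D j → Type
  | none => Option (Fin (D.b j))
  | some x => Option (Fin (D.a x.1)) × ℕ

/-- the action on a block -/
noncomputable def toepT (B : ∀ i, MM K D i) (j : S) :
    ∀ x : ToepIx D j, Module.End K (ToepY D j x →₀ K)
  | none => (0 : Module.End K (Option (Fin (D.b j)) →₀ K))
  | some x => (Tz (B x.1) : Module.End K (Option (Fin (D.a x.1)) × ℕ →₀ K))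

/-- the blocks -/
def toepE (D : Dat C S) (j : S) : XX D j ≃ Σ x : ToepIx D j, ToepY D j x where
  toFun
    | .c i s m k => ⟨some ⟨i, k⟩, ((s, m) : Option (Fin (D.a i)) × ℕ)⟩
    | .w r => ⟨none, (r : Option (Fin (D.b j)))⟩
  invFun
    | ⟨some ⟨i, k⟩, y⟩ => .c i (show Option (Fin (D.a i)) × ℕ from y).1
        (show Option (Fin (D.a i)) × ℕ from y).2 k
    | ⟨none, r⟩ => .w r
  left_inv := by
    rintro (⟨i, s, m, k⟩ | r) <;> rfl
  right_inv := by
    rintro ⟨(_ | ⟨i, k⟩), y⟩ <;> rfl

theorem toep_sh_same {j : S} (i : C) (s t s' : Option (Fin (D.a i))) (m : ℤ) (m' : ℕ)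
    (k : Fin (D.n i j)) : sh (j := j) i s t m (.c i s' m' k) =
      if s' = t ∧ 0 ≤ (m' : ℤ) + m then some (.c i s ((m' : ℤ) + m).toNat k) else none := by
  simp [sh]

theorem toep_sh_ne {j : S} {i i' : C} (h : i' ≠ i) (s t : Option (Fin (D.a i)))
    (s' : Option (Fin (D.a i'))) (m : ℤ) (m' : ℕ)
    (k : Fin (D.n i' j)) : sh (j := j) i s t m (.c i' s' m' k) = none := by
  simp [sh, h]

theorem toep_opn_some {X : Type*} {q : X → Option X} {x y : X} (h : q x = some y) :
    opn K q (Finsupp.single x 1) = Finsupp.single y 1 := by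
  unfold opn
  rw [Finsupp.linearCombination_single, one_smul, h]

theorem toep_opn_none {X : Type*} {q : X → Option X} {x : X} (h : q x = none) :
    opn K q (Finsupp.single x 1) = 0 := by
  unfold opn
  rw [Finsupp.linearCombination_single, one_smul, h]

theorem toep_pi_th (R : Rp K D) (B : ∀ i, MM K D i) (j : S) (v : XX D j →₀ K) :
    R.π (th K D B) j v = ∑ i, ∑ s, ∑ t, (B i s t).coeff.sum fun m c =>
      c • opn K (sh i s t m) v := by
  unfold th
  simp only [map_sum, Finset.sum_apply, LinearMap.sum_apply]
  refine Finset.sum_congr rfl fun i _ => Finset.sum_congr rfl fun s _ =>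
    Finset.sum_congr rfl fun t _ => ?_
  rw [Finsupp.linearCombination_apply, Finsupp.sum, map_sum, Finset.sum_apply,
    LinearMap.sum_apply, Finsupp.sum]
  refine Finset.sum_congr rfl fun m _ => ?_
  rw [map_smul, Pi.smul_apply, LinearMap.smul_apply, R.πmu]

theorem toep_pi_th_w (R : Rp K D) (B : ∀ i, MM K D i) (j : S) (r : Option (Fin (D.b j))) :
    R.π (th K D B) j (Finsupp.single (.w r) 1) = 0 := by
  rw [toep_pi_th]
  refine Finset.sum_eq_zero fun i _ => Finset.sum_eq_zero fun s _ =>
    Finset.sum_eq_zero fun t _ => ?_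
  refine Finset.sum_eq_zero fun m _ => ?_
  beta_reduce
  rw [toep_opn_none rfl, smul_zero]

theorem toep_pi_th_c (R : Rp K D) (B : ∀ i, MM K D i) (j : S) (i : C)
    (t : Option (Fin (D.a i))) (m : ℕ) (k : Fin (D.n i j)) :
    R.π (th K D B) j (Finsupp.single (.c i t m k) 1) =
      (Tz (B i) (Finsupp.single (t, m) 1)).mapDomain (fun y => XX.c i y.1 y.2 k) := by
  rw [toep_pi_th, toep_Tz_single, one_smul]
  rw [Finset.sum_eq_single i]
  · rw [← Finsupp.lmapDomain_apply K K, map_sum]
    refine Finset.sum_congr rfl fun s _ => ?_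
    rw [Finset.sum_eq_single t]
    · unfold toep_tl
      rw [Finsupp.sum, Finsupp.sum, map_sum]
      refine Finset.sum_congr rfl fun d _ => ?_
      by_cases hd : 0 ≤ (m : ℤ) + d
      · rw [toep_opn_some (y := XX.c i s ((m : ℤ) + d).toNat k) (by
          rw [toep_sh_same, if_pos ⟨rfl, hd⟩]), if_pos hd]
        simp
      · rw [toep_opn_none (by rw [toep_sh_same, if_neg (fun h => hd h.2)]), if_neg hd]
        simp
    · intro t' _ ht'
      refine Finset.sum_eq_zero fun d _ => ?_
      beta_reduce
      rw [toep_opn_none (by rw [toep_sh_same, if_neg (fun h => ht' h.1.symm)]), smul_zero]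
    · intro h
      exact absurd (Finset.mem_univ _) h
  · intro i' _ hi'
    refine Finset.sum_eq_zero fun s _ => Finset.sum_eq_zero fun t' _ => ?_
    refine Finset.sum_eq_zero fun d _ => ?_
    beta_reduce
    rw [toep_opn_none (toep_sh_ne (fun h => hi' h.symm) _ _ _ _ _ _), smul_zero]
  · intro h
    exact absurd (Finset.mem_univ _) h

/-- splitting of the space of paths into the blocks -/
noncomputable def toepL (K : Type k) [Field K] (D : Dat C S) (j : S) :
    (XX D j →₀ K) ≃ₗ[K] ∀ x : ToepIx D j, (ToepY D j x →₀ K) :=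
  (Finsupp.domLCongr (toepE D j)).trans (Finsupp.sigmaFinsuppLEquivPiFinsupp K)

theorem toepL_apply (j : S) (v : XX D j →₀ K) (y : ToepIx D j) (z : ToepY D j y) :
    toepL K D j v y z = v ((toepE D j).symm ⟨y, z⟩) := by
  unfold toepL
  rw [LinearEquiv.trans_apply, Finsupp.sigmaFinsuppLEquivPiFinsupp_apply]
  rfl

theorem toepL_single_w (j : S) (r : Option (Fin (D.b j))) (i : C) (k : Fin (D.n i j)) :
    toepL K D j (Finsupp.single (.w r) 1) (some ⟨i, k⟩) = 0 := by
  refine Finsupp.ext fun z => ?_
  rw [toepL_apply]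
  exact Finsupp.single_eq_of_ne (by intro h; cases h)

theorem toepL_single_c (j : S) (i : C) (s : Option (Fin (D.a i))) (m : ℕ) (k : Fin (D.n i j)) :
    toepL K D j (Finsupp.single (.c i s m k) 1) (some ⟨i, k⟩) =
      (Finsupp.single (s, m) 1 : Option (Fin (D.a i)) × ℕ →₀ K) := by
  classical
  have key : ∀ z : Option (Fin (D.a i)) × ℕ,
      (Finsupp.single (XX.c i s m k : XX D j) (1 : K)) (XX.c i z.1 z.2 k) =
      (Finsupp.single (s, m) (1 : K) : Option (Fin (D.a i)) × ℕ →₀ K) z := by
    intro z
    rw [Finsupp.single_apply, Finsupp.single_apply]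
    by_cases hz : (s, m) = z
    · subst hz
      simp
    · rw [if_neg hz, if_neg]
      intro h
      injection h with h1 h2 h3
      exact hz (Prod.ext h2 h3)
  refine Finsupp.ext fun z => ?_
  rw [toepL_apply]
  exact key z

theorem toepL_single_c_ne (j : S) (i i' : C) (s : Option (Fin (D.a i))) (m : ℕ)
    (k : Fin (D.n i j)) (k' : Fin (D.n i' j))
    (h : (⟨i', k'⟩ : Σ i, Fin (D.n i j)) ≠ ⟨i, k⟩) :
    toepL K D j (Finsupp.single (.c i s m k) 1) (some ⟨i', k'⟩) = 0 := by
  refine Finsupp.ext fun z => ?_
  rw [toepL_apply]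
  refine Finsupp.single_eq_of_ne ?_
  intro h'
  apply h
  change XX.c i' _ _ k' = XX.c i s m k at h'
  injection h' with h1 h2 h3 h4
  subst h1
  rw [eq_of_heq h4]

theorem toep_main (R : Rp K D) (B : ∀ i, MM K D i) (j : S) :
    (toepL K D j : (XX D j →₀ K) →ₗ[K] _) ∘ₗ R.π (th K D B) j =
      (LinearMap.pi fun x => toepT B j x ∘ₗ LinearMap.proj x) ∘ₗ
        (toepL K D j : (XX D j →₀ K) →ₗ[K] _) := by
  refine toep_Tz_ext fun x => ?_
  funext y
  rw [LinearMap.comp_apply, LinearMap.comp_apply, LinearMap.pi_apply, LinearMap.comp_apply,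
    LinearMap.proj_apply]
  cases x with
  | w r =>
    rw [toep_pi_th_w, map_zero]
    cases y with
    | none => rfl
    | some y =>
      obtain ⟨i, k⟩ := y
      rw [LinearEquiv.coe_coe, toepL_single_w, map_zero]
      rfl
  | c i s m k =>
    rw [toep_pi_th_c]
    cases y with
    | none =>
      change toepL K D j _ none = 0
      refine Finsupp.ext fun z => ?_
      rw [toepL_apply]
      refine Finsupp.mapDomain_of_notMem_range _ _ ?_
      rintro ⟨y, hy⟩
      cases hy
    | some y =>
      obtain ⟨i', k'⟩ := y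
      by_cases h : (⟨i', k'⟩ : Σ i, Fin (D.n i j)) = ⟨i, k⟩
      · injection h with h1 h2
        subst h1
        have h3 := eq_of_heq h2
        subst h3
        rw [LinearEquiv.coe_coe, toepL_single_c]
        refine Finsupp.ext fun z => ?_
        rw [toepL_apply]
        exact Finsupp.mapDomain_apply (f := fun y : Option (Fin (D.a i')) × ℕ =>
          (XX.c i' y.1 y.2 k' : XX D j)) (by
            intro y y' hy
            injection hy with h1 h2 h3
            exact Prod.ext h2 h3) _ z
      · rw [LinearEquiv.coe_coe, toepL_single_c_ne _ _ _ _ _ _ _ h, map_zero]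
        refine Finsupp.ext fun z => ?_
        rw [toepL_apply]
        refine Finsupp.mapDomain_of_notMem_range _ _ ?_
        rintro ⟨y, hy⟩
        apply h
        change XX.c i _ _ k = XX.c i' _ _ k' at hy
        injection hy with h1 h2 h3 h4
        subst h1
        rw [eq_of_heq h4]

theorem toep_zero (K : Type k) [Field K] (n : ℕ) :
    Fr (0 : Module.End K (Option (Fin n) →₀ K)) ∧
      fi (0 : Module.End K (Option (Fin n) →₀ K)) = 0 := by
  have := fi_finite (K := K) (V := Option (Fin n) →₀ K) (W := Option (Fin n) →₀ K) 0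
  rw [sub_self] at this
  exact this

/-- The space of paths to `j` is the direct sum over `i` and `k : Fin (D.n i j)` of copies of
`Option (Fin (D.a i)) × ℕ →₀ K`, on which `th B` acts as `Tz (B i)`, and of a space of dimension
`D.b j + 1` on which it acts as zero. -/
theorem index_th (R : Rp K D) (B B' : ∀ i, MM K D i) (h : B * B' = 1) (h' : B' * B = 1) (j : S) :
    Fr (R.π (th K D B) j) ∧ fi (R.π (th K D B) j) = ∑ i, (D.n i j : ℤ) * tt (B i) := by
  have hF : ∀ x : ToepIx D j, Fr (toepT B j x) := by
    rintro (_ | ⟨i, k⟩)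
    · exact (toep_zero K (D.b j)).1
    · exact Fr_Tz (congrFun h i) (congrFun h' i)
  obtain ⟨h1, h2⟩ := fi_pi (toepT B j) hF
  have hm := toep_main R B j
  have hT : R.π (th K D B) j = ((toepL K D j).symm : _ →ₗ[K] (XX D j →₀ K)) ∘ₗ
      ((LinearMap.pi fun x => toepT B j x ∘ₗ LinearMap.proj x) ∘ₗ
        (toepL K D j : (XX D j →₀ K) →ₗ[K] _)) := by
    rw [← hm]
    refine LinearMap.ext fun v => ?_
    simp
  obtain ⟨a1, a2⟩ := fi_equiv (toepL K D j)
  obtain ⟨b1, b2⟩ := fi_equiv (toepL K D j).symm
  constructor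
  · rw [hT]
    exact b1.comp (h1.comp a1)
  · rw [hT, fi_comp b1 (h1.comp a1), fi_comp h1 a1, a2, b2, h2]
    rw [Fintype.sum_option, Fintype.sum_sigma]
    have h3 : fi (toepT B j none) = 0 := (toep_zero K (D.b j)).2
    rw [h3, zero_add, zero_add, add_zero]
    refine Finset.sum_congr rfl fun i _ => ?_
    have h4 : ∀ k : Fin (D.n i j), fi (toepT B j (some ⟨i, k⟩)) = tt (B i) := fun k => rfl
    simp only [h4]
    simp

/-- the index of an element that is invertible modulo the ideal -/
theorem index_eq (R : Rp K D) (c : Ch K D) {x : U K (NG D)} (hx : x ∈ L K (NG D))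
    (B' : ∀ i, MM K D i) (h : c.χ x * B' = 1) (h' : B' * c.χ x = 1) (j : S) :
    Fr (R.π x j) ∧ fi (R.π x j) = ∑ i, (D.n i j : ℤ) * tt (c.χ x i) := by
  have h1 := Isp_finRk R (sub_th_mem c hx) j
  obtain ⟨h2, h3⟩ := index_th R (c.χ x) B' h h' j
  have h4 : R.π x j = R.π (th K D (c.χ x)) j + R.π (x - th K D (c.χ x)) j := by
    rw [map_sub, Pi.sub_apply, add_sub_cancel]
  rw [h4]
  exact ⟨h2.add h1, by rw [fi_add h2 h1, h3]⟩

theorem toep_lw_vx (j : S) (r : Option (Fin (D.b j))) :
    lw K D j r * vx K (NG D) (.w j none) = lw K D j r := by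
  cases r with
  | none => exact vx_vx _
  | some r => exact ed_vx (K := K) (G := NG D) (.h j r)

theorem toep_pth_vx (j : S) (x : XX D j) :
    pth K D j x * vx K (NG D) (.w j none) = pth K D j x := by
  cases x with
  | c i s m k =>
    unfold pth
    rw [mul_assoc]
    congr 1
    exact ed_vx (K := K) (G := NG D) (.f i j k)
  | w r => exact toep_lw_vx j r

theorem toep_vx_w (j : S) (r : Option (Fin (D.b j))) :
    vx K (NG D) (.w j r) = eps K D j (.w r) (.w r) := by
  unfold eps pth
  exact (lw_mul_star j r).symm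

theorem toep_lk_vx (i : C) (s : Option (Fin (D.a i))) :
    lk K D i s * vx K (NG D) (.v i none) = lk K D i s := by
  cases s with
  | none => exact vx_vx _
  | some s => exact ed_vx (K := K) (G := NG D) (.g i s)

theorem toep_vx_v (i : C) (s : Option (Fin (D.a i))) :
    vx K (NG D) (.v i s) = mu K D i s s 0 := by
  unfold mu
  rw [zp_zero]
  have h1 : vx K (NG D) ((NG D).s (.z i)) = vx K (NG D) (.v i none) := rfl
  rw [h1, toep_lk_vx, lk_mul_star]

/-- ranks of the vertices -/
theorem rank_w (R : Rp K D) (j j' : S) (r : Option (Fin (D.b j))) :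
    Module.Finite K (LinearMap.range (R.π (vx K (NG D) (.w j r)) j')) ∧
    Module.finrank K (LinearMap.range (R.π (vx K (NG D) (.w j r)) j')) = if j' = j then 1 else 0 := by
  refine ⟨Isp_finRk R (w_mem_Isp j r) j', ?_⟩
  rw [toep_vx_w]
  by_cases hj : j' = j
  · subst hj
    rw [if_pos rfl]
    have h1 : LinearMap.range (R.π (eps K D j' (.w r) (.w r)) j') =
        Submodule.span K {(Finsupp.single (.w r) 1 : XX D j' →₀ K)} := by
      apply le_antisymm
      · rintro _ ⟨u, rfl⟩
        rw [R.πeps]
        have h4 : (Finsupp.single (.w r) (u (.w r)) : XX D j' →₀ K) =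
            (u (.w r)) • Finsupp.single (.w r) 1 := by
          simp
        rw [h4]
        exact Submodule.smul_mem _ _ (Submodule.mem_span_singleton_self _)
      · rw [Submodule.span_singleton_le_iff_mem]
        refine ⟨Finsupp.single (.w r) 1, ?_⟩
        rw [R.πeps]
        simp
    rw [h1]
    exact finrank_span_singleton (by simp)
  · rw [if_neg hj, R.πne j _ _ j' hj]
    have : LinearMap.range (0 : Module.End K (XX D j' →₀ K)) = ⊥ := LinearMap.range_zero
    rw [this]
    exact finrank_bot K _

theorem pi_one (R : Rp K D) (j : S) : R.π (one K D) j = 1 := by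
  refine toep_Tz_ext fun x => ?_
  unfold one
  rw [map_add, map_sum, map_sum, Pi.add_apply, Finset.sum_apply, Finset.sum_apply,
    LinearMap.add_apply, LinearMap.sum_apply, LinearMap.sum_apply]
  have h1 : ∀ i : C, (R.π (∑ s, vx K (NG D) (.v i s))) j (Finsupp.single x 1) =
      ∑ s, opn K (sh i s s 0) (Finsupp.single x 1) := by
    intro i
    rw [map_sum, Finset.sum_apply, LinearMap.sum_apply]
    exact Finset.sum_congr rfl fun s _ => by rw [toep_vx_v, R.πmu]
  have h2 : ∀ j' : S, (R.π (∑ r, vx K (NG D) (.w j' r))) j (Finsupp.single x 1) =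
      ∑ r, R.π (eps K D j' (.w r) (.w r)) j (Finsupp.single x 1) := by
    intro i
    rw [map_sum, Finset.sum_apply, LinearMap.sum_apply]
    exact Finset.sum_congr rfl fun s _ => by rw [toep_vx_w]
  simp only [h1, h2]
  rw [Module.End.one_apply]
  cases x with
  | w r =>
    rw [Finset.sum_eq_zero, zero_add, Finset.sum_eq_single j, Finset.sum_eq_single r]
    · rw [R.πeps]
      simp
    · intro r' _ hr
      rw [R.πeps, Finsupp.single_eq_of_ne, Finsupp.single_zero]
      intro h
      injection h with h3
      exact hr h3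
    · intro h
      exact absurd (Finset.mem_univ _) h
    · intro j' _ hj
      refine Finset.sum_eq_zero fun r' _ => ?_
      rw [R.πne j' _ _ j (fun h => hj h.symm)]
      rfl
    · intro h
      exact absurd (Finset.mem_univ _) h
    · intro i _
      refine Finset.sum_eq_zero fun s _ => ?_
      exact toep_opn_none rfl
  | c i s m k =>
    rw [Finset.sum_eq_single i, Finset.sum_eq_single s]
    · rw [toep_opn_some (y := XX.c i s m k)]
      · rw [Finset.sum_eq_zero, add_zero]
        intro j' _
        refine Finset.sum_eq_zero fun r' _ => ?_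
        by_cases hj : j' = j
        · subst hj
          rw [R.πeps, Finsupp.single_eq_of_ne, Finsupp.single_zero]
          intro h
          cases h
        · rw [R.πne j' _ _ j (fun h => hj h.symm)]
          rfl
      · rw [toep_sh_same, if_pos]
        · simp
        · exact ⟨rfl, by omega⟩
    · intro s' _ hs
      refine toep_opn_none ?_
      rw [toep_sh_same, if_neg (fun h => hs h.1.symm)]
    · intro h
      exact absurd (Finset.mem_univ _) h
    · intro i' _ hi
      refine Finset.sum_eq_zero fun s' _ => ?_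
      exact toep_opn_none (toep_sh_ne (fun h => hi h.symm) _ _ _ _ _ _)
    · intro h
      exact absurd (Finset.mem_univ _) h

/-- the space of paths is generated by the trivial path -/
theorem pth_w (R : Rp K D) (j : S) (x : XX D j) :
    R.π (pth K D j x) j (Finsupp.single (.w none) 1) = Finsupp.single x 1 := by
  have h1 : pth K D j x = eps K D j x (.w none) := by
    unfold eps
    have h2 : pth K D j (.w none) = vx K (NG D) (.w j none) := rfl
    rw [h2, star_vx, toep_pth_vx]
  rw [h1, R.πeps]
  simp

end Pool.Agent.Helper32.TP
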