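import Pool.Agent.Helper32.TP.Match
import Pool.Agent.Helper32.TP.Toep

/-! The numbers of exits are invariants. PIECE 8. -/

set_option autoImplicit false
set_option linter.unusedSectionVars false

universe k a b a' b'

namespace Pool.Agent.Helper32.TP

open Pool.Agent.Helper32.LV

/-! ### Ranks of sums of orthogonal idempotents -/

section
variable {K : Type k} [Field K] {V : Type*} [AddCommGroup V] [Module K V]

theorem neq_rank_add (P Q : Module.End K V) (hP : P * P = P) (hQ : Q * Q = Q) (hPQ : P * Q = 0)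
    (hQP : Q * P = 0) (fP : Module.Finite K (LinearMap.range P))
    (fQ : Module.Finite K (LinearMap.range Q)) :
    Module.Finite K (LinearMap.range (P + Q)) ∧ Module.finrank K (LinearMap.range (P + Q)) =
      Module.finrank K (LinearMap.range P) + Module.finrank K (LinearMap.range Q) := by
  have h1 : LinearMap.range (P + Q) = LinearMap.range P ⊔ LinearMap.range Q := by
    apply le_antisymm
    · rintro _ ⟨u, rfl⟩
      exact Submodule.add_mem_sup ⟨u, rfl⟩ ⟨u, rfl⟩
    · refine sup_le ?_ ?_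
      · rintro _ ⟨u, rfl⟩
        refine ⟨P u, ?_⟩
        rw [LinearMap.add_apply, ← Module.End.mul_apply, ← Module.End.mul_apply, hP, hQP,
          LinearMap.zero_apply, add_zero]
      · rintro _ ⟨u, rfl⟩
        refine ⟨Q u, ?_⟩
        rw [LinearMap.add_apply, ← Module.End.mul_apply, ← Module.End.mul_apply, hQ, hPQ,
          LinearMap.zero_apply, zero_add]
  have h2 : LinearMap.range P ⊓ LinearMap.range Q = ⊥ := by
    rw [eq_bot_iff]
    rintro x ⟨⟨u, hu⟩, ⟨w, hw⟩⟩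
    rw [Submodule.mem_bot, ← hu, ← hP, Module.End.mul_apply, hu, ← hw, ← Module.End.mul_apply,
      hPQ, LinearMap.zero_apply]
  have h3 := Submodule.finrank_sup_add_finrank_inf_eq (LinearMap.range P) (LinearMap.range Q)
  rw [h2, finrank_bot, add_zero] at h3
  rw [h1]
  exact ⟨inferInstance, h3⟩

theorem neq_rank_sum {ι : Type*} (s : Finset ι) (P : ι → Module.End K V)
    (hP : ∀ i, P i * P i = P i) (hP' : ∀ i j, i ≠ j → P i * P j = 0)
    (hf : ∀ i, Module.Finite K (LinearMap.range (P i))) :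
    Module.Finite K (LinearMap.range (∑ i ∈ s, P i)) ∧
      Module.finrank K (LinearMap.range (∑ i ∈ s, P i)) =
        ∑ i ∈ s, Module.finrank K (LinearMap.range (P i)) := by
  classical
  induction s using Finset.induction_on with
  | empty =>
    rw [Finset.sum_empty, Finset.sum_empty, LinearMap.range_zero]
    exact ⟨inferInstance, finrank_bot K V⟩
  | insert a s ha ih =>
    obtain ⟨ih1, ih2⟩ := ih
    rw [Finset.sum_insert ha, Finset.sum_insert ha, ← ih2]
    have h1 : P a * ∑ i ∈ s, P i = 0 := by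
      rw [Finset.mul_sum]
      exact Finset.sum_eq_zero fun i hi => hP' a i fun h => ha (h ▸ hi)
    have h2 : (∑ i ∈ s, P i) * P a = 0 := by
      rw [Finset.sum_mul]
      exact Finset.sum_eq_zero fun i hi => hP' i a fun h => ha (h ▸ hi)
    have h3 : (∑ i ∈ s, P i) * ∑ i ∈ s, P i = ∑ i ∈ s, P i := by
      rw [Finset.sum_mul]
      refine Finset.sum_congr rfl fun i hi => ?_
      rw [Finset.mul_sum, Finset.sum_eq_single i]
      · exact hP i
      · intro j _ hj
        exact hP' i j (Ne.symm hj)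
      · intro h
        exact absurd hi h
    exact neq_rank_add (P a) (∑ i ∈ s, P i) (hP a) h3 h1 h2 (hf a) ih1

end

variable {C : Type a} {S : Type b} [Fintype C] [Fintype S] [DecidableEq C] [DecidableEq S]
  {K : Type k} [Field K] [StarRing K] {D : Dat C S}
  {C' : Type a'} {S' : Type b'} [Fintype C'] [Fintype S'] [DecidableEq C'] [DecidableEq S']
  {D' : Dat C' S'}

/-- the rank of an idempotent equivalent to a sink -/
theorem rank_of_eqv (R : Rp K D) {e : U K (NG D)} {j : S} (he : e * e = e)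
    (h : Eqv K (NG D) e (vx K (NG D) (.w j none))) (j' : S) :
    Module.Finite K (LinearMap.range (R.π e j')) ∧
    Module.finrank K (LinearMap.range (R.π e j')) = if j' = j then 1 else 0 := by
  obtain ⟨x, _, y, _, h1, h2⟩ := h
  obtain ⟨r1, r2⟩ := rank_w R j j' none
  have hm : ∀ u w : U K (NG D), R.π u j' * R.π w j' = R.π (u * w) j' := fun u w => by
    rw [map_mul, Pi.mul_apply]
  have hP : R.π e j' * R.π e j' = R.π e j' := by rw [hm, he]
  have hQ : R.π (vx K (NG D) (.w j none)) j' * R.π (vx K (NG D) (.w j none)) j' =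
      R.π (vx K (NG D) (.w j none)) j' := by rw [hm, vx_vx]
  obtain ⟨E⟩ := rank_equiv (R.π e j') (R.π (vx K (NG D) (.w j none)) j') (R.π x j') (R.π y j')
    (by rw [hm, h1]) (by rw [hm, h2]) hP hQ
  exact ⟨Module.Finite.equiv E.symm, by rw [E.finrank_eq, r2]⟩

theorem neq_f_zero (φ : RI K (NG D) (NG D')) : φ.f 0 = 0 := by
  have h := φ.f_add 0 (L K (NG D)).zero_mem 0 (L K (NG D)).zero_mem
  rw [add_zero] at h
  simpa using h

theorem neq_f_sum (φ : RI K (NG D) (NG D')) {ι : Type*} (s : Finset ι) (g : ι → U K (NG D))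
    (h : ∀ i ∈ s, g i ∈ L K (NG D)) : φ.f (∑ i ∈ s, g i) = ∑ i ∈ s, φ.f (g i) := by
  classical
  induction s using Finset.induction_on with
  | empty => simp [neq_f_zero]
  | insert a s ha ih =>
    rw [Finset.sum_insert ha, Finset.sum_insert ha, φ.f_add _ (h _ (Finset.mem_insert_self _ _)) _
      ((L K (NG D)).sum_mem fun i hi => h i (Finset.mem_insert_of_mem hi)),
      ih (fun i hi => h i (Finset.mem_insert_of_mem hi))]

/-- `1 - v i + z i` -/
noncomputable def nEqZ (K : Type k) [Field K] [StarRing K] (D : Dat C S) (i : C) : U K (NG D) :=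
  one K D - vx K (NG D) (.v i none) + ed K (NG D) (.z i)

/-- `1 - v i + z* i` -/
noncomputable def nEqW (K : Type k) [Field K] [StarRing K] (D : Dat C S) (i : C) : U K (NG D) :=
  one K D - vx K (NG D) (.v i none) + gh K (NG D) (.z i)

/-- `∑ f f*` -/
noncomputable def nEqF (K : Type k) [Field K] [StarRing K] (D : Dat C S) (i : C) : U K (NG D) :=
  ∑ p : (Σ j, Fin (D.n i j)), ed K (NG D) (.f i p.1 p.2) * gh K (NG D) (.f i p.1 p.2)

theorem nEq_Z_mem (i : C) : nEqZ K D i ∈ L K (NG D) :=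
  (L K (NG D)).add_mem ((L K (NG D)).sub_mem one_mem (vx_mem _)) (ed_mem _)

theorem nEq_W_mem (i : C) : nEqW K D i ∈ L K (NG D) :=
  (L K (NG D)).add_mem ((L K (NG D)).sub_mem one_mem (vx_mem _)) (gh_mem _)

theorem nEq_p_mem (i : C) (p : (Σ j, Fin (D.n i j))) :
    ed K (NG D) (.f i p.1 p.2) * gh K (NG D) (.f i p.1 p.2) ∈ L K (NG D) :=
  (L K (NG D)).mul_mem (ed_mem _) (gh_mem _)

theorem nEq_F_mem (i : C) : nEqF K D i ∈ L K (NG D) :=
  (L K (NG D)).sum_mem fun p _ => nEq_p_mem i p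

theorem nEq_WZ (i : C) : nEqW K D i * nEqZ K D i = one K D := by
  have z1 : vx K (NG D) (.v i none) * ed K (NG D) (.z i) = ed K (NG D) (.z i) :=
    vx_ed (G := NG D) (.z i)
  have z2 : gh K (NG D) (.z i) * vx K (NG D) (.v i none) = gh K (NG D) (.z i) :=
    gh_vx (G := NG D) (.z i)
  have z3 : gh K (NG D) (.z i) * ed K (NG D) (.z i) = vx K (NG D) (.v i none) :=
    gh_ed (G := NG D) (.z i)
  unfold nEqW nEqZ
  have e1 : one K D * one K D = one K D := one_mul' one_mem
  have e2 : one K D * vx K (NG D) (.v i none) = vx K (NG D) (.v i none) := one_mul' (vx_mem _)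
  have e3 : one K D * ed K (NG D) (.z i) = ed K (NG D) (.z i) := one_mul' (ed_mem _)
  have e4 : vx K (NG D) (.v i none) * one K D = vx K (NG D) (.v i none) := mul_one' (vx_mem _)
  have e5 : gh K (NG D) (.z i) * one K D = gh K (NG D) (.z i) := mul_one' (gh_mem _)
  simp only [add_mul, sub_mul, mul_add, mul_sub, e1, e2, e3, e4, e5, z1, z2, z3, vx_vx]
  abel

theorem nEq_ZW (i : C) : nEqZ K D i * nEqW K D i + nEqF K D i = one K D := by
  have z1 : vx K (NG D) (.v i none) * gh K (NG D) (.z i) = gh K (NG D) (.z i) :=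
    vx_gh (G := NG D) (.z i)
  have z2 : ed K (NG D) (.z i) * vx K (NG D) (.v i none) = ed K (NG D) (.z i) :=
    ed_vx (G := NG D) (.z i)
  have e1 : one K D * one K D = one K D := one_mul' one_mem
  have e2 : one K D * vx K (NG D) (.v i none) = vx K (NG D) (.v i none) := one_mul' (vx_mem _)
  have e3 : one K D * gh K (NG D) (.z i) = gh K (NG D) (.z i) := one_mul' (gh_mem _)
  have e4 : vx K (NG D) (.v i none) * one K D = vx K (NG D) (.v i none) := mul_one' (vx_mem _)
  have e5 : ed K (NG D) (.z i) * one K D = ed K (NG D) (.z i) := mul_one' (ed_mem _)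
  have e6 : ed K (NG D) (.z i) * gh K (NG D) (.z i) + nEqF K D i = vx K (NG D) (.v i none) := by
    unfold nEqF
    rw [v_eq (K := K) i, Fintype.sum_sigma]
  have e7 : nEqF K D i = vx K (NG D) (.v i none) - ed K (NG D) (.z i) * gh K (NG D) (.z i) := by
    rw [← e6]
    abel
  rw [e7]
  unfold nEqW nEqZ
  simp only [add_mul, sub_mul, mul_add, mul_sub, e1, e2, e3, e4, e5, z1, z2, vx_vx]
  abel

theorem nEq_F_Isp (i : C) : nEqF K D i ∈ Isp K D := by
  unfold nEqF
  refine (Isp K D).sum_mem fun p _ => ?_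
  have h : ed K (NG D) (.f i p.1 p.2) * gh K (NG D) (.f i p.1 p.2) =
      eps K D p.1 (.c i none 0 p.2) (.c i none 0 p.2) := by
    unfold eps
    rw [span_pth_zero, star_ed]
  rw [h]
  exact span_eps_Isp _ _ _

/-- the index of the image of `Z` on the paths to `ρ j` -/
theorem nEq_index_left {φ : RI K (NG D) (NG D')} {c : Ch K D} {c' : Ch K D'} (M : Mt φ c c')
    (R' : Rp K D') (i : C) (j : S) :
    fi (R'.π (φ.f (nEqZ K D i)) (M.ρ j)) = - (D.n i j : ℤ) := by
  have hm : ∀ u w : U K (NG D'), R'.π u (M.ρ j) * R'.π w (M.ρ j) = R'.π (u * w) (M.ρ j) :=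
    fun u w => by rw [map_mul, Pi.mul_apply]
  have h1 : R'.π (φ.f (nEqW K D i)) (M.ρ j) ∘ₗ R'.π (φ.f (nEqZ K D i)) (M.ρ j) =
      LinearMap.id := by
    change R'.π (φ.f (nEqW K D i)) (M.ρ j) * R'.π (φ.f (nEqZ K D i)) (M.ρ j) = 1
    rw [hm, ← φ.f_mul _ (nEq_W_mem i) _ (nEq_Z_mem i), nEq_WZ, phi_one, pi_one]
  -- the idempotents
  let q : (Σ j, Fin (D.n i j)) → U K (NG D) := fun p =>
    ed K (NG D) (.f i p.1 p.2) * gh K (NG D) (.f i p.1 p.2)
  have hqm : ∀ p, q p ∈ L K (NG D) := fun p => nEq_p_mem i p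
  have hqq : ∀ p, q p * q p = q p := by
    intro p
    change ed K (NG D) (.f i p.1 p.2) * gh K (NG D) (.f i p.1 p.2) *
      (ed K (NG D) (.f i p.1 p.2) * gh K (NG D) (.f i p.1 p.2)) =
      ed K (NG D) (.f i p.1 p.2) * gh K (NG D) (.f i p.1 p.2)
    rw [mul_assoc, ← mul_assoc (gh K (NG D) (.f i p.1 p.2)), gh_ed, vx_gh]
  have hq0 : ∀ p p', p ≠ p' → q p * q p' = 0 := by
    intro p p' hp
    change ed K (NG D) (.f i p.1 p.2) * gh K (NG D) (.f i p.1 p.2) *
      (ed K (NG D) (.f i p'.1 p'.2) * gh K (NG D) (.f i p'.1 p'.2)) = 0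
    have hne : (NE.f (D := D) i p.1 p.2) ≠ NE.f i p'.1 p'.2 := by
      intro h
      apply hp
      obtain ⟨j₁, k₁⟩ := p
      obtain ⟨j₂, k₂⟩ := p'
      cases h
      rfl
    rw [mul_assoc, ← mul_assoc (gh K (NG D) (.f i p.1 p.2)), gh_ed_of_ne hne, zero_mul, mul_zero]
  have hqe : ∀ p, Eqv K (NG D') (φ.f (q p)) (vx K (NG D') (.w (M.ρ p.1) none)) := by
    intro p
    have hv : gh K (NG D) (.f i p.1 p.2) * ed K (NG D) (.f i p.1 p.2) =
        vx K (NG D) (.w p.1 none) := gh_ed (G := NG D) (.f i p.1 p.2)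
    have e1 : Eqv K (NG D') (φ.f (q p)) (φ.f (vx K (NG D) (.w p.1 none))) :=
      ⟨_, φ.f_mem _ (ed_mem (.f i p.1 p.2)), _, φ.f_mem _ (gh_mem (.f i p.1 p.2)),
        (φ.f_mul _ (ed_mem _) _ (gh_mem _)).symm,
        by rw [← φ.f_mul _ (gh_mem _) _ (ed_mem _), hv]⟩
    refine e1.trans (M.hρ p.1) ?_ (vx_vx _)
    rw [← φ.f_mul _ (hqm p) _ (hqm p), hqq]
  let P : (Σ j, Fin (D.n i j)) → Module.End K (XX D' (M.ρ j) →₀ K) := fun p =>
    R'.π (φ.f (q p)) (M.ρ j)
  have hPP : ∀ p, P p * P p = P p := by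
    intro p
    change R'.π (φ.f (q p)) (M.ρ j) * R'.π (φ.f (q p)) (M.ρ j) = R'.π (φ.f (q p)) (M.ρ j)
    rw [hm, ← φ.f_mul _ (hqm p) _ (hqm p), hqq]
  have hP0 : ∀ p p', p ≠ p' → P p * P p' = 0 := by
    intro p p' hp
    change R'.π (φ.f (q p)) (M.ρ j) * R'.π (φ.f (q p')) (M.ρ j) = 0
    rw [hm, ← φ.f_mul _ (hqm p) _ (hqm p'), hq0 p p' hp, neq_f_zero, map_zero, Pi.zero_apply]
  have hPr : ∀ p, Module.Finite K (LinearMap.range (P p)) ∧
      Module.finrank K (LinearMap.range (P p)) = if M.ρ j = M.ρ p.1 then 1 else 0 := by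
    intro p
    refine rank_of_eqv R' ?_ (hqe p) (M.ρ j)
    rw [← φ.f_mul _ (hqm p) _ (hqm p), hqq]
  have h2 : LinearMap.id - R'.π (φ.f (nEqZ K D i)) (M.ρ j) ∘ₗ R'.π (φ.f (nEqW K D i)) (M.ρ j) =
      ∑ p, P p := by
    have e1 : R'.π (φ.f (nEqZ K D i)) (M.ρ j) ∘ₗ R'.π (φ.f (nEqW K D i)) (M.ρ j) =
        R'.π (φ.f (nEqZ K D i * nEqW K D i)) (M.ρ j) := by
      rw [φ.f_mul _ (nEq_Z_mem i) _ (nEq_W_mem i), ← hm]
      rfl
    have e2 : (LinearMap.id : Module.End K (XX D' (M.ρ j) →₀ K)) =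
        R'.π (φ.f (nEqZ K D i * nEqW K D i)) (M.ρ j) + R'.π (φ.f (nEqF K D i)) (M.ρ j) := by
      have e3 : R'.π (φ.f (nEqZ K D i * nEqW K D i)) (M.ρ j) + R'.π (φ.f (nEqF K D i)) (M.ρ j) =
          R'.π (φ.f (nEqZ K D i * nEqW K D i) + φ.f (nEqF K D i)) (M.ρ j) := by
        rw [map_add, Pi.add_apply]
      rw [e3, ← φ.f_add _ ((L K (NG D)).mul_mem (nEq_Z_mem i) (nEq_W_mem i)) _ (nEq_F_mem i),
        nEq_ZW, phi_one, pi_one]
      rfl
    have e4 : R'.π (φ.f (nEqF K D i)) (M.ρ j) = ∑ p, P p := by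
      unfold nEqF
      rw [neq_f_sum φ _ _ (fun p _ => nEq_p_mem i p), map_sum, Finset.sum_apply]
    rw [e1, e2, e4]
    refine LinearMap.ext fun u => ?_
    rw [LinearMap.sub_apply, LinearMap.add_apply]
    abel
  obtain ⟨h3, h4⟩ := neq_rank_sum Finset.univ P hPP hP0 (fun p => (hPr p).1)
  have h5 := (fi_left_inv h1 (by rw [h2]; exact h3)).2
  rw [h5, h2, h4, Finset.sum_congr rfl fun p _ => (hPr p).2]
  congr 1
  have h6 : ∀ p : (Σ j, Fin (D.n i j)), (if M.ρ j = M.ρ p.1 then 1 else 0 : ℕ) =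
      if p.1 = j then 1 else 0 := by
    intro p
    by_cases h : p.1 = j
    · rw [if_pos h, if_pos (by rw [h])]
    · rw [if_neg h, if_neg fun h' => h (M.ρ.injective h').symm]
  rw [Finset.sum_congr rfl fun p _ => h6 p, Fintype.sum_sigma, Finset.sum_eq_single j]
  · simp
  · intro j' _ h
    refine Finset.sum_eq_zero fun k _ => ?_
    rw [if_neg h]
  · intro h
    exact absurd (Finset.mem_univ _) h

/-- the index of the image of `Z`, computed in the quotient -/
theorem nEq_index_right {φ : RI K (NG D) (NG D')} {c : Ch K D} {c' : Ch K D'} (M : Mt φ c c')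
    (R' : Rp K D') (i : C) (j : S) : ∃ e : ℤ, (e = 1 ∨ e = -1) ∧
    fi (R'.π (φ.f (nEqZ K D i)) (M.ρ j)) = - e * (D'.n (M.σ i) (M.ρ j) : ℤ) := by
  have hZ : c.χ (nEqZ K D i) = 1 - Pi.single i (Matrix.single none none 1) +
      Pi.single i (Matrix.single none none (LaurentPolynomial.T 1)) := by
    unfold nEqZ
    rw [map_add, map_sub, chi_one, chi_v, chi_z]
  have hWZ : c'.χ (φ.f (nEqW K D i)) * c'.χ (φ.f (nEqZ K D i)) = 1 := by
    rw [← map_mul, ← φ.f_mul _ (nEq_W_mem i) _ (nEq_Z_mem i), nEq_WZ, phi_one, chi_one]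
  have hZW : c'.χ (φ.f (nEqZ K D i)) * c'.χ (φ.f (nEqW K D i)) = 1 := by
    have h1 : c'.χ (φ.f (nEqF K D i)) = 0 := span_chi_Isp c' (Isp_map c c' φ (nEq_F_Isp i))
    rw [← map_mul, ← φ.f_mul _ (nEq_Z_mem i) _ (nEq_W_mem i), ← add_zero (c'.χ _), ← h1,
      ← map_add, ← φ.f_add _ ((L K (NG D)).mul_mem (nEq_Z_mem i) (nEq_W_mem i)) _ (nEq_F_mem i),
      nEq_ZW, phi_one, chi_one]
  obtain ⟨X, Y, hXY, hYX, cc, hcc, e, he, hE1, hE2⟩ := laurent_matrix_iso (M.Φ i) none none
  refine ⟨e, he, ?_⟩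
  have hi : c'.χ (φ.f (nEqZ K D i)) (M.σ i) = 1 - X * Matrix.single none none 1 * Y +
      X * Matrix.single none none (LaurentPolynomial.C cc * LaurentPolynomial.T e) * Y := by
    rw [← M.hΦ _ (nEq_Z_mem i), hZ, ← hE1, ← hE2]
    simp only [Pi.add_apply, Pi.sub_apply, Pi.one_apply, Pi.single_eq_same, map_add, map_sub,
      map_one]
  have hne : ∀ i₂, i₂ ≠ i → c'.χ (φ.f (nEqZ K D i)) (M.σ i₂) = 1 := by
    intro i₂ h
    rw [← M.hΦ _ (nEq_Z_mem i), hZ]
    simp only [Pi.add_apply, Pi.sub_apply, Pi.one_apply, Pi.single_eq_of_ne h, sub_zero, add_zero,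
      map_one]
  have h2 := (index_eq R' c' (φ.f_mem _ (nEq_Z_mem i)) _ hZW hWZ (M.ρ j)).2
  rw [h2, ← Equiv.sum_comp M.σ, Finset.sum_eq_single i]
  · rw [hi, tt_conj_shift none cc hcc e he hXY hYX]
    ring
  · intro i₂ _ h
    rw [hne i₂ h, tt_one, mul_zero]
  · intro h
    exact absurd (Finset.mem_univ _) h

/-- Let `Z = φ (z i + 1 - v i)`. It has the left inverse `φ (z* i + 1 - v i)`, and the
defect is the sum of the `φ (f f*)`, which are orthogonal and equivalent to the `w (ρ j)`; so the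
index of `Z` on the paths to `ρ j` is `- n i j`. On the other hand `χ' Z` is `1` except at `σ i`,
where it is conjugate to a shift matrix (`laurent_matrix_iso`), so the index is `∓ n' (σ i) (ρ j)`
(`index_eq`, `tt_conj_shift`). Hence both are equal (the sign can only be the wrong one if both
vanish). -/
theorem Mt.n_eq {φ : RI K (NG D) (NG D')} {c : Ch K D} {c' : Ch K D'} (M : Mt φ c c')
    (R' : Rp K D') (i : C) (j : S) : D'.n (M.σ i) (M.ρ j) = D.n i j := by
  have h1 := nEq_index_left M R' i j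
  obtain ⟨e, he, h2⟩ := nEq_index_right M R' i j
  rw [h1] at h2
  rcases he with rfl | rfl
  · omega
  · omega

end Pool.Agent.Helper32.TP
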